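import Pool.Agent.Lib.H79G.IDefs

/-!
# H79G chunk I4 (M): finite smooth partition of unity

`SmoothPartitionOfUnity.exists_isSubordinate` (`Mathlib/Geometry/Manifold/PartitionOfUnity.lean`) for the
closed set `univ` and the open cover by the finitely many chart domains `source (c i)`, `i : Fin m`
(compactness; `M` is then sigma compact).  `SmF`: `ρ i : C^∞⟮𝓡 d, M; 𝓘(ℝ), ℝ⟯` composed with the inverse
chart `(chartAt p).symm` (`contMDiffOn_chart_symm`), `contMDiffOn_iff_contDiffOn`.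
`compact_supp`: `tsupport` is closed in the compact space `M`; its image under the chart is compact.
-/

open scoped Manifold ContDiff
open Set H31R MeasureTheory

namespace H79G

variable {d : ℕ} {M : Type} [TopologicalSpace M] [ChartedSpace (EE d) M]

theorem I4_SmF [IsManifold (𝓡 d) ∞ M] {ρ : M → ℝ} (h : ContMDiff (𝓡 d) 𝓘(ℝ, ℝ) ∞ ρ) :
    SmF d ρ := by
  intro p
  have h1 : ContMDiffOn (𝓡 d) 𝓘(ℝ, ℝ) ∞ (ρ ∘ (chartAt (EE d) p).symm) (chartAt (EE d) p).target :=
    h.comp_contMDiffOn contMDiffOn_chart_symm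
  exact contMDiffOn_iff_contDiffOn.1 h1

theorem exists_partition [IsManifold (𝓡 d) ∞ M] [T2Space M] [CompactSpace M] :
    ∃ (m : ℕ) (c : Fin m → M) (ρ : Fin m → M → ℝ),
      (∀ i, SmF d (ρ i)) ∧ (∀ i, Continuous (ρ i)) ∧ (∀ i x, 0 ≤ ρ i x) ∧ (∀ x, ∑ i, ρ i x = 1) ∧
      (∀ i, tsupport (ρ i) ⊆ (chartAt (EE d) (c i)).source) := by
  obtain ⟨t, ht⟩ := CompactSpace.elim_nhds_subcover (fun x : M => (chartAt (EE d) x).source)
    (fun x => (chartAt (EE d) x).open_source.mem_nhds (mem_chart_source (EE d) x))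
  let c : Fin t.card → M := fun i => (t.equivFin.symm i).1
  obtain ⟨f, hf⟩ := SmoothPartitionOfUnity.exists_isSubordinate (𝓡 d) (s := (univ : Set M))
    isClosed_univ (fun i : Fin t.card => (chartAt (EE d) (c i)).source)
    (fun i => (chartAt (EE d) (c i)).open_source) (by
      intro x _
      have h1 : x ∈ ⋃ y ∈ t, (chartAt (EE d) y).source := by
        rw [ht]
        trivial
      rw [mem_iUnion₂] at h1
      obtain ⟨y, hy, hxy⟩ := h1
      rw [mem_iUnion]
      refine ⟨t.equivFin ⟨y, hy⟩, ?_⟩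
      have h2 : c (t.equivFin ⟨y, hy⟩) = y := by
        show (t.equivFin.symm (t.equivFin ⟨y, hy⟩)).1 = y
        rw [Equiv.symm_apply_apply]
      rw [h2]
      exact hxy)
  refine ⟨t.card, c, fun i => f i, fun i => I4_SmF (f i).contMDiff,
    fun i => (f i).contMDiff.continuous, fun i x => f.nonneg i x, fun x => ?_, fun i => hf i⟩
  have h3 := f.sum_eq_one (mem_univ x)
  rwa [finsum_eq_sum_of_fintype] at h3

/-- smooth bump functions -/
theorem exists_bump [IsManifold (𝓡 d) ∞ M] [T2Space M] [CompactSpace M] (p : M) {K : Set M}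
    (hK : IsCompact K) (hKp : K ⊆ (chartAt (EE d) p).source) :
    ∃ (ρ : M → ℝ) (O : Set M), SmF d ρ ∧ tsupport ρ ⊆ (chartAt (EE d) p).source ∧ IsOpen O ∧
      K ⊆ O ∧ O ⊆ (chartAt (EE d) p).source ∧ ∀ x ∈ O, ρ x = 1 := by
  obtain ⟨O, hO, hKO, hOs⟩ := normal_exists_closure_subset hK.isClosed
    (chartAt (EE d) p).open_source hKp
  obtain ⟨W, hW, hOW, hWs⟩ := normal_exists_closure_subset isClosed_closure
    (chartAt (EE d) p).open_source hOs
  obtain ⟨f, hf0, hf1, -⟩ := exists_contMDiffMap_zero_one_of_isClosed (𝓡 d)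
    (s := Wᶜ) (t := closure O) hW.isClosed_compl isClosed_closure
    (disjoint_compl_left_iff_subset.2 hOW)
  refine ⟨f, O, I4_SmF f.contMDiff, ?_, hO, hKO, subset_closure.trans hOs,
    fun x hx => hf1 (subset_closure hx)⟩
  refine (closure_mono ?_).trans hWs
  intro x hx
  by_contra hxW
  exact hx (hf0 hxW)

end H79G
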