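import Pool.Agent.Lib.H79G.S0

/-!
# H79G chunk I5 (M): the integral of a partial derivative of a compactly supported function vanishes

Extend `W` by `0` outside the open set `U` (`indicator U W` or `fun y => if y ∈ U then W y else 0`); the
extension is `C^∞` on the whole space, since it is smooth on `U` and vanishes on the open set `Kᶜ`
(`U ∪ Kᶜ = univ`), and has compact support.  `∫ pd k = 0` for `C^1` functions with compact support:
`integral_bilinear_hasLineDerivAt_right_eq_neg_left_of_integrable`
(`Mathlib/Analysis/Calculus/LineDeriv/IntegrationByParts.lean`) or the same file with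
`f = 1` on a neighbourhood of the support; or Fubini.
-/

open scoped Manifold ContDiff
open Set H31R MeasureTheory

namespace H79G

variable {d : ℕ}

theorem integral_pd_eq_zero {U K : Set (EE d)} (hU : IsOpen U) (hK : IsCompact K) (hKU : K ⊆ U)
    {W : EE d → ℝ} (hW : ContDiffOn ℝ ∞ W U) (h0 : ∀ y ∈ U, y ∉ K → W y = 0) (k : Fin d) :
    ∫ y in U, pd k W y = 0 := by
  classical
  set W' : EE d → ℝ := U.indicator W with hW'
  have hz : ∀ y, y ∉ K → W' y = 0 := by
    intro y hy
    by_cases h : y ∈ U
    · rw [hW', indicator_of_mem h, h0 y h hy]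
    · exact indicator_of_notMem h _
  have hUeq : ∀ y ∈ U, W' =ᶠ[nhds y] W := by
    intro y hy
    filter_upwards [hU.mem_nhds hy] with z hz
    exact indicator_of_mem hz _
  have hsm : ContDiff ℝ ∞ W' := by
    rw [contDiff_iff_contDiffAt]
    intro y
    by_cases h : y ∈ U
    · exact (hW.contDiffAt (hU.mem_nhds h)).congr_of_eventuallyEq (hUeq y h)
    · have hy : y ∈ Kᶜ := fun hk => h (hKU hk)
      have h1 : W' =ᶠ[nhds y] fun _ => 0 := by
        filter_upwards [hK.isClosed.isOpen_compl.mem_nhds hy] with z hz2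
        exact hz z hz2
      exact contDiffAt_const.congr_of_eventuallyEq h1
  have hcs : HasCompactSupport W' := HasCompactSupport.intro hK hz
  have hpd : ∀ y ∈ U, pd k W y = pd k W' y := by
    intro y hy
    unfold pd
    rw [(hUeq y hy).fderiv_eq]
  have hpd0 : ∀ y, y ∉ U → pd k W' y = 0 := by
    intro y hy
    have hy' : y ∈ Kᶜ := fun hk => hy (hKU hk)
    have h1 : W' =ᶠ[nhds y] fun _ => 0 := by
      filter_upwards [hK.isClosed.isOpen_compl.mem_nhds hy'] with z hz2
      exact hz z hz2
    unfold pd
    rw [h1.fderiv_eq]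
    simp
  rw [setIntegral_congr_fun hU.measurableSet hpd,
    setIntegral_eq_integral_of_forall_compl_eq_zero hpd0]
  have hd : ∀ y, HasLineDerivAt ℝ W' (pd k W' y) y (ebas k) := fun y =>
    ((hsm.differentiable (by simp)) y).hasFDerivAt.hasLineDerivAt (ebas k)
  have hcd : Continuous fun y => pd k W' y := (hsm.continuous_fderiv (by simp)).clm_apply continuous_const
  have hcs' : HasCompactSupport fun y => pd k W' y := by
    refine HasCompactSupport.intro hK fun y hy => ?_
    have h1 : W' =ᶠ[nhds y] fun _ => 0 := by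
      filter_upwards [hK.isClosed.isOpen_compl.mem_nhds hy] with z hz2
      exact hz z hz2
    unfold pd
    rw [h1.fderiv_eq]
    simp
  -- a cut-off function equal to 1 on K
  obtain ⟨φ, hφ1, hφ2, hφ3, hφ4⟩ : ∃ φ : EE d → ℝ, ContDiff ℝ ∞ φ ∧ HasCompactSupport φ ∧
      (∀ y ∈ K, φ y = 1) ∧ ∀ y ∈ K, fderiv ℝ φ y = 0 := by
    obtain ⟨R, hR⟩ := hK.isBounded.subset_ball (0 : EE d)
    let ψ : ContDiffBump (0 : EE d) := ⟨|R| + 1, |R| + 2, by positivity, by linarith⟩
    have hone : ∀ y ∈ K, (ψ : EE d → ℝ) =ᶠ[nhds y] 1 := by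
      intro y hy
      have h1 : y ∈ Metric.ball (0 : EE d) (|R| + 1) := by
        have h2 := hR hy
        rw [Metric.mem_ball] at h2 ⊢
        exact h2.trans_le ((le_abs_self R).trans (by linarith))
      filter_upwards [Metric.isOpen_ball.mem_nhds h1] with z hz2
      exact ψ.one_of_mem_closedBall (Metric.ball_subset_closedBall hz2)
    refine ⟨ψ, ψ.contDiff, ψ.hasCompactSupport, fun y hy => (hone y hy).self_of_nhds, fun y hy => ?_⟩
    rw [(hone y hy).fderiv_eq]
    simp
  have hφd : ∀ y, HasLineDerivAt ℝ φ (fderiv ℝ φ y (ebas k)) y (ebas k) := fun y =>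
    ((hφ1.differentiable (by simp)) y).hasFDerivAt.hasLineDerivAt (ebas k)
  have hφc : Continuous fun y => fderiv ℝ φ y (ebas k) :=
    (hφ1.continuous_fderiv (by simp)).clm_apply continuous_const
  have key := integral_bilinear_hasLineDerivAt_right_eq_neg_left_of_integrable
    (μ := (volume : Measure (EE d))) (B := ContinuousLinearMap.mul ℝ ℝ) (f := φ) (g := W')
    (f' := fun y => fderiv ℝ φ y (ebas k)) (g' := fun y => pd k W' y) (v := ebas k)
    ?_ ?_ ?_ (fun y _ => hφd y) (fun y _ => hd y)
  · have e1 : (fun y => (ContinuousLinearMap.mul ℝ ℝ) (φ y) (pd k W' y)) = fun y => pd k W' y := by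
      funext y
      rw [ContinuousLinearMap.mul_apply']
      by_cases hy : y ∈ K
      · rw [hφ3 y hy, one_mul]
      · have h1 : W' =ᶠ[nhds y] fun _ => 0 := by
          filter_upwards [hK.isClosed.isOpen_compl.mem_nhds hy] with z hz2
          exact hz z hz2
        have h2 : pd k W' y = 0 := by
          unfold pd
          rw [h1.fderiv_eq]
          simp
        rw [h2, mul_zero]
    have e2 : (fun y => (ContinuousLinearMap.mul ℝ ℝ) (fderiv ℝ φ y (ebas k)) (W' y)) =
        fun _ => (0 : ℝ) := by
      funext y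
      rw [ContinuousLinearMap.mul_apply']
      by_cases hy : y ∈ K
      · rw [hφ4 y hy]
        simp
      · rw [hz y hy, mul_zero]
    rw [e1, e2] at key
    rw [key]
    simp
  · refine Continuous.integrable_of_hasCompactSupport ?_ ?_
    · exact hφc.mul hsm.continuous
    · exact hcs.mul_left
  · refine Continuous.integrable_of_hasCompactSupport ?_ ?_
    · exact hφ1.continuous.mul hcd
    · exact hcs'.mul_left
  · refine Continuous.integrable_of_hasCompactSupport ?_ ?_
    · exact hφ1.continuous.mul hsm.continuous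
    · exact hcs.mul_left

end H79G
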