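import Pool.Agent.Lib.H79G.IDefs

/-!
# H79G chunk I6 (M): the derivative of a function in the direction of a vector field

`dirD_symm`: with `m = (chartAt p).symm y`, near `y`: `ρ ∘ symm_p = (ρ ∘ symm_m) ∘ change p m`; chain rule
(`N_chain` of `Lib/H31R/N2.lean`) and `V.compat`:
`∑_k ∂_k (ρ ∘ symm_p)(y) V_p^k = ∑_k ∑_a J a k ∂_a(ρ ∘ symm_m)(Φ y) V_p^k = ∑_a ∂_a(..) V_m^a`.
(This is the statement that `fun p y => ∑ k, pd k (ρ ∘ symm_p) y * V.vec p y k` is an `SField`.)
`dirD_continuous`: `glob_continuous`-like. `dirD_sum`: linearity (`N_pd_sum`), and the derivative of the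
constant `1` is `0`. `dirD_supp`: `ρ = 0` near `m` if `m ∉ tsupport ρ`.
-/

open scoped Manifold ContDiff
open Set H31R MeasureTheory

namespace H79G

variable {d : ℕ} {M : Type} [TopologicalSpace M] [ChartedSpace (EE d) M] [IsManifold (𝓡 d) ∞ M]

theorem dirD_symm (V : VField d M) {ρ : M → ℝ} (hρ : SmF d ρ) {p : M} {y : EE d}
    (hy : y ∈ (chartAt (EE d) p).target) :
    dirD V ρ ((chartAt (EE d) p).symm y) =
      ∑ k, pd k (fun z => ρ ((chartAt (EE d) p).symm z)) y * V.vec p y k := by
  obtain ⟨m, hm⟩ : ∃ m, m = (chartAt (EE d) p).symm y := ⟨_, rfl⟩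
  have hy2 : y ∈ chDom p m := by
    rw [hm]
    exact mem_chDom_self hy
  rw [← hm]
  have e1 : Ch.change p m y = chartAt (EE d) m m := by
    show chartAt (EE d) m ((chartAt (EE d) p).symm y) = _
    rw [← hm]
  have e2 := V.compat p m y hy2.1 hy2.2
  have e3 : ∀ k, pd k (fun z => ρ ((chartAt (EE d) p).symm z)) y =
      ∑ a, jac (Ch.change p m) y a k *
        pd a (fun z => ρ ((chartAt (EE d) m).symm z)) (Ch.change p m y) := by
    intro k
    have h1 : pd k (fun z => ρ ((chartAt (EE d) p).symm z)) y =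
        pd k (fun z => (fun w => ρ ((chartAt (EE d) m).symm w)) (Ch.change p m z)) y := by
      refine N_pd_congr_on (isOpen_chDom p m) hy2 k fun z hz => ?_
      show _ = ρ ((chartAt (EE d) m).symm (Ch.change p m z))
      rw [symm_change hz]
    rw [h1]
    exact N_chain (isOpen_chDom m p) (isOpen_chDom p m) hy2 (C0_sm3 p m)
      (fun z hz => change_mem hz) ((contDiffOn_infty.1 (hρ m) 1).mono (chDom_sub m p)) k
  unfold dirD
  rw [← e1, e2]
  simp only [e3]
  have e4 : ∀ a, (Ch.jacobian p m y).mulVec (V.vec p y) a =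
      ∑ k, jac (Ch.change p m) y a k * V.vec p y k := fun a => rfl
  simp only [e4, Finset.mul_sum, Finset.sum_mul]
  rw [Finset.sum_comm]
  refine Finset.sum_congr rfl fun k _ => Finset.sum_congr rfl fun a _ => ?_
  ring

theorem dirD_continuous (V : VField d M) {ρ : M → ℝ} (hρ : SmF d ρ) : Continuous (dirD V ρ) := by
  rw [continuous_iff_continuousAt]
  intro m
  have htgt : chartAt (EE d) m m ∈ (chartAt (EE d) m).target :=
    (chartAt (EE d) m).map_source (mem_chart_source _ _)
  have hcont : ContinuousAt (chartAt (EE d) m) m :=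
    (chartAt (EE d) m).continuousAt (mem_chart_source _ _)
  have h1 : ContinuousOn (fun y => ∑ k, pd k (fun z => ρ ((chartAt (EE d) m).symm z)) y *
      V.vec m y k) (chartAt (EE d) m).target := by
    refine continuousOn_finsetSum _ fun k _ => ContinuousOn.mul ?_ (V.smooth m k).continuousOn
    exact (N_pd_sm (n := 0) (chartAt (EE d) m).open_target
      (contDiffOn_infty.1 (hρ m) 1) k).continuousOn
  have h2 := (h1.continuousAt ((chartAt (EE d) m).open_target.mem_nhds htgt))
  have h3 : ContinuousAt (fun x => ∑ k, pd k (fun z => ρ ((chartAt (EE d) m).symm z))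
      (chartAt (EE d) m x) * V.vec m (chartAt (EE d) m x) k) m :=
    ContinuousAt.comp (f := fun x => chartAt (EE d) m x) h2 hcont
  refine h3.congr ?_
  filter_upwards [chart_source_mem_nhds (EE d) m] with x hx
  have h4 := dirD_symm V hρ ((chartAt (EE d) m).map_source hx)
  rw [(chartAt (EE d) m).left_inv hx] at h4
  exact h4.symm

theorem dirD_partition (V : VField d M) {m : ℕ} {ρ : Fin m → M → ℝ} (hρ : ∀ i, SmF d (ρ i))
    (h1 : ∀ x, ∑ i, ρ i x = 1) (x : M) : ∑ i, dirD V (ρ i) x = 0 := by
  have htgt : chartAt (EE d) x x ∈ (chartAt (EE d) x).target :=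
    (chartAt (EE d) x).map_source (mem_chart_source _ _)
  unfold dirD
  rw [Finset.sum_comm]
  refine Finset.sum_eq_zero fun k _ => ?_
  rw [← Finset.sum_mul]
  have h2 : ∑ i, pd k (fun y => ρ i ((chartAt (EE d) x).symm y)) (chartAt (EE d) x x) = 0 := by
    rw [← N_pd_sum Finset.univ (fun i y => ρ i ((chartAt (EE d) x).symm y))]
    · have e : (fun y => ∑ i, ρ i ((chartAt (EE d) x).symm y)) = fun _ => (1 : ℝ) :=
        funext fun y => h1 _
      rw [e, N_pd_const]
    · intro i _
      exact ((hρ i x).contDiffAt ((chartAt (EE d) x).open_target.mem_nhds htgt)).differentiableAt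
        (by simp)
  rw [h2, zero_mul]

theorem dirD_supp (V : VField d M) {ρ : M → ℝ} {x : M} (hx : x ∉ tsupport ρ) :
    dirD V ρ x = 0 := by
  have htgt : chartAt (EE d) x x ∈ (chartAt (EE d) x).target :=
    (chartAt (EE d) x).map_source (mem_chart_source _ _)
  have h1 : ρ =ᶠ[nhds x] 0 := notMem_tsupport_iff_eventuallyEq.1 hx
  have h2 : ContinuousAt (chartAt (EE d) x).symm (chartAt (EE d) x x) :=
    (chartAt (EE d) x).continuousAt_symm htgt
  have h3 : (chartAt (EE d) x).symm (chartAt (EE d) x x) = x :=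
    (chartAt (EE d) x).left_inv (mem_chart_source _ _)
  have h4 : (fun y => ρ ((chartAt (EE d) x).symm y)) =ᶠ[nhds (chartAt (EE d) x x)]
      fun _ => (0 : ℝ) := by
    have h5 : Filter.Tendsto (chartAt (EE d) x).symm (nhds (chartAt (EE d) x x)) (nhds x) := by
      have := h2.tendsto
      rwa [h3] at this
    exact h5.eventually h1
  unfold dirD
  refine Finset.sum_eq_zero fun k _ => ?_
  rw [N_pd_congr k h4, N_pd_const, zero_mul]

end H79G
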