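import Pool.Agent.Lib.H79G.I3
import Pool.Agent.Lib.H79G.I4
import Pool.Agent.Lib.H79G.I5
import Pool.Agent.Lib.H79G.I6

/-!
# H79G chunk I7 (M): the divergence theorem

Partition of unity `ρ i`, `c i` (`exists_partition`). `∫ f = ∑ i, ∫ ρ_i f`. In the chart at `p = c i`
(`integral_chart`, the function `ρ_i f` vanishes outside the source):
`∫ ρ_i f dμ = ∫_{target} r ∑_k ∂_k W^k`, `r = ρ_i ∘ symm`, `W^k = dens (g.mat p) V_p^k`, and
`r ∂_k W^k = ∂_k (r W^k) - (∂_k r) W^k`, with `∫_{target} ∂_k (r W^k) = 0` (`integral_pd_eq_zero` with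
`K = chart '' tsupport (ρ_i)`, compact).  So `∫ ρ_i f dμ = - ∫_{target} ∑_k (∂_k r) V^k dens
= - ∫ dirD V ρ_i dμ` (`integral_chart`, `dirD_symm`, `dirD_supp`), and
`∑ i, dirD V ρ_i = 0` (`dirD_partition`).  Everything is continuous on the compact space `M`, so
integrable (`μ` is finite; `Continuous.integrable_of_hasCompactSupport` or
`ContinuousOn.integrableOn_compact`).
-/

open scoped Manifold ContDiff
open Set H31R MeasureTheory

namespace H79G

/-- integrability of a continuous function on an open set which vanishes outside a compact subset -/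
theorem I7_int {d : ℕ} {U K : Set (EE d)} (hU : IsOpen U) (hK : IsCompact K) (hKU : K ⊆ U)
    {f : EE d → ℝ} (hf : ContinuousOn f U) (h0 : ∀ y ∈ U, y ∉ K → f y = 0) :
    IntegrableOn f U volume := by
  have h1 : IntegrableOn f K volume := (hf.mono hKU).integrableOn_compact hK
  exact h1.of_forall_sdiff_eq_zero hU.measurableSet fun y hy => h0 y hy.1 hy.2

/-- integration by parts for one function of the partition of unity, in a chart -/
theorem I7_parts {d : ℕ} {U K : Set (EE d)} (hU : IsOpen U) (hK : IsCompact K) (hKU : K ⊆ U)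
    {r : EE d → ℝ} (hr : ContDiffOn ℝ ∞ r U) (h0 : ∀ y ∈ U, y ∉ K → r y = 0)
    {W : Fin d → EE d → ℝ} (hW : ∀ k, ContDiffOn ℝ ∞ (W k) U) :
    ∫ y in U, r y * ∑ k, pd k (W k) y = - ∫ y in U, ∑ k, pd k r y * W k y := by
  have hopen : IsOpen (U ∩ Kᶜ) := hU.inter hK.isClosed.isOpen_compl
  have hpd0 : ∀ k, ∀ y ∈ U, y ∉ K → pd k r y = 0 := by
    intro k y hy hyK
    rw [N_pd_congr_on hopen ⟨hy, hyK⟩ k (g := fun _ => 0) (fun z hz => h0 z hz.1 hz.2)]
    exact N_pd_const k 0
  have hdiff : ∀ {f : EE d → ℝ}, ContDiffOn ℝ ∞ f U → ∀ y ∈ U, DifferentiableAt ℝ f y := by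
    intro f hf y hy
    exact (hf.contDiffAt (hU.mem_nhds hy)).differentiableAt (by simp)
  have hprod : ∀ k, ContDiffOn ℝ ∞ (fun y => r y * W k y) U := fun k => hr.mul (hW k)
  have hAint : ∀ k, IntegrableOn (pd k (fun y => r y * W k y)) U volume := by
    intro k
    refine I7_int hU hK hKU (pd_smooth hU (hprod k) k).continuousOn fun y hy hyK => ?_
    rw [N_pd_mul (hdiff hr y hy) (hdiff (hW k) y hy), hpd0 k y hy hyK, h0 y hy hyK]
    ring
  have hBint : ∀ k, IntegrableOn (fun y => pd k r y * W k y) U volume := by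
    intro k
    refine I7_int hU hK hKU ((pd_smooth hU hr k).continuousOn.mul (hW k).continuousOn)
      fun y hy hyK => ?_
    rw [hpd0 k y hy hyK, zero_mul]
  have h1 : ∀ y ∈ U, r y * ∑ k, pd k (W k) y =
      (∑ k, pd k (fun y => r y * W k y) y) - ∑ k, pd k r y * W k y := by
    intro y hy
    rw [Finset.mul_sum, ← Finset.sum_sub_distrib]
    refine Finset.sum_congr rfl fun k _ => ?_
    rw [N_pd_mul (hdiff hr y hy) (hdiff (hW k) y hy)]
    ring
  rw [setIntegral_congr_fun hU.measurableSet h1]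
  have h2 : IntegrableOn (fun y => ∑ k, pd k (fun y => r y * W k y) y) U volume :=
    integrable_finsetSum _ fun k _ => hAint k
  have h3 : IntegrableOn (fun y => ∑ k, pd k r y * W k y) U volume :=
    integrable_finsetSum _ fun k _ => hBint k
  rw [integral_sub h2 h3, integral_finsetSum _ fun k _ => hAint k]
  have h4 : ∀ k, ∫ y in U, pd k (fun y => r y * W k y) y = 0 := by
    intro k
    refine integral_pd_eq_zero hU hK hKU (hprod k) (fun y hy hyK => ?_) k
    rw [h0 y hy hyK, zero_mul]
  rw [Finset.sum_eq_zero fun k _ => h4 k, zero_sub]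

variable {d : ℕ} {M : Type} [TopologicalSpace M] [ChartedSpace (EE d) M]
  [MeasurableSpace M] [BorelSpace M] [IsManifold (𝓡 d) ∞ M] [T2Space M] [CompactSpace M]

/-- integration by parts for one function of the partition of unity -/
theorem I7_one (g : Ch.Metric d M) {μ : Measure M} (hμ : IsVol g μ)
    (V : VField d M) {f : M → ℝ} (hf : Continuous f)
    (h : ∀ p, ∀ y ∈ (chartAt (EE d) p).target,
      dens (g.mat p) y * f ((chartAt (EE d) p).symm y) =
        ∑ k, pd k (fun z => dens (g.mat p) z * V.vec p z k) y)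
    (p : M) {ρ : M → ℝ} (hρ : SmF d ρ) (hρc : Continuous ρ)
    (hs : tsupport ρ ⊆ (chartAt (EE d) p).source) :
    ∫ m, ρ m * f m ∂μ = - ∫ m, dirD V ρ m ∂μ := by
  set e := chartAt (EE d) p with he
  have hKc : IsCompact (tsupport ρ) := (isClosed_tsupport ρ).isCompact
  have hK : IsCompact (e '' tsupport ρ) := hKc.image_of_continuousOn (e.continuousOn.mono hs)
  have hKU : e '' tsupport ρ ⊆ e.target := by
    rintro _ ⟨m, hm, rfl⟩
    exact e.map_source (hs hm)
  have h0 : ∀ y ∈ e.target, y ∉ e '' tsupport ρ → ρ (e.symm y) = 0 := by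
    intro y hy hyK
    apply image_eq_zero_of_notMem_tsupport
    intro hmem
    exact hyK ⟨e.symm y, hmem, e.right_inv hy⟩
  have hd := (metOn g p).smooth_dens
  have hW : ∀ k, ContDiffOn ℝ ∞ (fun z => dens (g.mat p) z * V.vec p z k) e.target :=
    fun k => hd.mul (V.smooth p k)
  rw [integral_chart g hμ p (f := fun m => ρ m * f m) (hρc.mul hf).measurable (fun m hm => by
      have h1 : ρ m = 0 := image_eq_zero_of_notMem_tsupport fun hmem => hm (hs hmem)
      rw [h1, zero_mul]),
    integral_chart g hμ p (dirD_continuous V hρ).measurable (fun m hm =>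
      dirD_supp V fun hmem => hm (hs hmem))]
  have e1 : ∀ y ∈ e.target, ρ (e.symm y) * f (e.symm y) * dens (g.mat p) y =
      ρ (e.symm y) * ∑ k, pd k (fun z => dens (g.mat p) z * V.vec p z k) y := by
    intro y hy
    rw [← h p y hy]
    ring
  have e2 : ∀ y ∈ e.target, dirD V ρ (e.symm y) * dens (g.mat p) y =
      ∑ k, pd k (fun z => ρ (e.symm z)) y * (dens (g.mat p) y * V.vec p y k) := by
    intro y hy
    rw [dirD_symm V hρ hy, Finset.sum_mul]
    refine Finset.sum_congr rfl fun k _ => ?_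
    ring
  rw [setIntegral_congr_fun e.open_target.measurableSet e1,
    setIntegral_congr_fun e.open_target.measurableSet e2]
  exact I7_parts e.open_target hK hKU (hρ p) h0 hW

theorem divergence (g : Ch.Metric d M) {μ : Measure M} (hμ : IsVol g μ) [IsFiniteMeasure μ]
    (V : VField d M) {f : M → ℝ} (hf : Continuous f)
    (h : ∀ p, ∀ y ∈ (chartAt (EE d) p).target,
      dens (g.mat p) y * f ((chartAt (EE d) p).symm y) =
        ∑ k, pd k (fun z => dens (g.mat p) z * V.vec p z k) y) :
    ∫ m, f m ∂μ = 0 := by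
  obtain ⟨n, c, ρ, hρ, hρc, -, hρ1, hρs⟩ := exists_partition (d := d) (M := M)
  have hint : ∀ {q : M → ℝ}, Continuous q → Integrable q μ := fun {q} hq =>
    hq.integrable_of_hasCompactSupport (HasCompactSupport.of_compactSpace q)
  have h1 : ∀ m, f m = ∑ i, ρ i m * f m := by
    intro m
    rw [← Finset.sum_mul, hρ1, one_mul]
  calc ∫ m, f m ∂μ = ∫ m, ∑ i, ρ i m * f m ∂μ :=
        integral_congr_ae (Filter.Eventually.of_forall h1)
    _ = ∑ i, ∫ m, ρ i m * f m ∂μ := integral_finsetSum _ fun i _ => hint ((hρc i).mul hf)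
    _ = ∑ i, - ∫ m, dirD V (ρ i) m ∂μ :=
        Finset.sum_congr rfl fun i _ => I7_one g hμ V hf h (c i) (hρ i) (hρc i) (hρs i)
    _ = - ∫ m, ∑ i, dirD V (ρ i) m ∂μ := by
        rw [integral_finsetSum _ fun i _ => hint (dirD_continuous V (hρ i)),
          Finset.sum_neg_distrib]
    _ = 0 := by
        simp_rw [dirD_partition V hρ hρ1]
        simp

end H79G
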