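import Pool.Agent.Lib.H79G.Defs

/-!
# H79G chunk C0 (M): changes of coordinates

`Ch.change p q = chartAt q ∘ (chartAt p).symm` (`Lib/H31R/Stat2.lean`); `Ch.jacobian p q y = jac (Ch.change p q) y`
by `rfl`. Smoothness: `contDiffOn_of_mem_contDiffGroupoid`, `HasGroupoid.compatible`,
`chart_mem_atlas` (compare `S1.lean` of `Lib/H31R`, theorem about `ContDiffAt ℝ ∞ (change p q) y`).
`jac_mul`: differentiate `change q p (change p q z) = z` (`N_chain` of `Lib/H31R/N2.lean`).
`jac_cocycle`: `change p r z = change q r (change p q z)` near `y`.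
`pull`: `compat` of the metric (`jacobian p q y = jac (change p q) y`).
-/

open scoped Manifold ContDiff
open Set H31R MeasureTheory

namespace H79G

variable {d : ℕ} {M : Type} [TopologicalSpace M] [ChartedSpace (EE d) M]

/-- domain, in the chart at `p`, of the change of coordinates to the chart at `q` -/
def chDom (p q : M) : Set (EE d) :=
  (chartAt (EE d) p).target ∩ (chartAt (EE d) p).symm ⁻¹' (chartAt (EE d) q).source

theorem isOpen_chDom (p q : M) : IsOpen (chDom (d := d) p q) :=
  (chartAt (EE d) p).isOpen_inter_preimage_symm (chartAt (EE d) q).open_source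

theorem chDom_sub (p q : M) : chDom (d := d) p q ⊆ (chartAt (EE d) p).target := inter_subset_left

theorem change_mem {p q : M} {y : EE d} (hy : y ∈ chDom p q) : Ch.change p q y ∈ chDom q p := by
  refine ⟨(chartAt (EE d) q).map_source hy.2, ?_⟩
  show (chartAt (EE d) q).symm (chartAt (EE d) q ((chartAt (EE d) p).symm y)) ∈
    (chartAt (EE d) p).source
  rw [(chartAt (EE d) q).left_inv hy.2]
  exact (chartAt (EE d) p).map_target hy.1

theorem symm_change {p q : M} {y : EE d} (hy : y ∈ chDom p q) :
    (chartAt (EE d) q).symm (Ch.change p q y) = (chartAt (EE d) p).symm y :=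
  (chartAt (EE d) q).left_inv hy.2

theorem change_change {p q : M} {y : EE d} (hy : y ∈ chDom p q) :
    Ch.change q p (Ch.change p q y) = y := by
  show chartAt (EE d) p ((chartAt (EE d) q).symm (Ch.change p q y)) = y
  rw [symm_change hy]
  exact (chartAt (EE d) p).right_inv hy.1

theorem change_self {p : M} {y : EE d} (hy : y ∈ (chartAt (EE d) p).target) :
    Ch.change p p y = y :=
  (chartAt (EE d) p).right_inv hy

theorem mem_chDom_self {p : M} {y : EE d} (hy : y ∈ (chartAt (EE d) p).target) :
    y ∈ chDom p ((chartAt (EE d) p).symm y) :=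
  ⟨hy, mem_chart_source _ _⟩

theorem metOn (g : Ch.Metric d M) (p : M) : MetOn (chartAt (EE d) p).target (g.mat p) where
  hU := (chartAt (EE d) p).open_target
  sm := g.smooth p
  symm := g.symm p
  pos := g.pos p

variable [IsManifold (𝓡 d) ∞ M]

theorem change_smooth (p q : M) : ContDiffOn ℝ ∞ (Ch.change (d := d) p q) (chDom p q) := by
  intro y hy
  have h1 : ContMDiffAt (𝓡 d) (𝓡 d) ∞ (chartAt (EE d) p).symm y :=
    contMDiffOn_chart_symm.contMDiffAt ((chartAt (EE d) p).open_target.mem_nhds hy.1)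
  have h2 : ContMDiffAt (𝓡 d) (𝓡 d) ∞ (chartAt (EE d) q) ((chartAt (EE d) p).symm y) :=
    contMDiffOn_chart.contMDiffAt ((chartAt (EE d) q).open_source.mem_nhds hy.2)
  exact (contMDiffAt_iff_contDiffAt.1 (h2.comp y h1)).contDiffWithinAt

theorem C0_sm3 (p q : M) : ContDiffOn ℝ 3 (Ch.change (d := d) p q) (chDom p q) :=
  contDiffOn_infty.1 (change_smooth p q) 3

theorem jac_cocycle {p q r : M} {y : EE d} (hy : y ∈ chDom p q) (hr : y ∈ chDom p r) :
    Ch.jacobian p r y = Ch.jacobian q r (Ch.change p q y) * Ch.jacobian p q y := by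
  have hV : IsOpen (chDom (d := d) p q ∩ chDom p r) := (isOpen_chDom p q).inter (isOpen_chDom p r)
  have hm : MapsTo (Ch.change (d := d) p q) (chDom p q ∩ chDom p r) (chDom q r) := by
    intro z hz
    refine ⟨(change_mem hz.1).1, ?_⟩
    show (chartAt (EE d) q).symm (Ch.change p q z) ∈ (chartAt (EE d) r).source
    rw [symm_change hz.1]
    exact hz.2.2
  ext a i
  rw [Matrix.mul_apply]
  have h1 : Ch.jacobian p r y a i =
      pd i (fun z => (fun w => Ch.change q r w a) (Ch.change p q z)) y := by
    refine N_pd_congr_on hV ⟨hy, hr⟩ i fun z hz => ?_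
    show chartAt (EE d) r ((chartAt (EE d) p).symm z) a =
      chartAt (EE d) r ((chartAt (EE d) q).symm (Ch.change p q z)) a
    rw [symm_change hz.1]
  rw [h1, N_chain (isOpen_chDom q r) hV ⟨hy, hr⟩ ((C0_sm3 p q).mono inter_subset_left) hm
    (N_le (N_comp_sm (C0_sm3 q r) a) (by norm_num)) i]
  refine Finset.sum_congr rfl fun b _ => ?_
  rw [mul_comm]
  rfl

omit [IsManifold (𝓡 d) ∞ M] in
theorem C0_jac_self {p : M} {y : EE d} (hy : y ∈ (chartAt (EE d) p).target) :
    Ch.jacobian p p y = 1 := by
  ext a i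
  have h1 : Ch.jacobian p p y a i = pd i (fun z => z a) y :=
    N_pd_congr_on (chartAt (EE d) p).open_target hy i fun z hz => by rw [change_self hz]
  have h2 : pd i (fun z : EE d => z a) y = ebas i a := by
    unfold pd
    have : (fun z : EE d => z a) = (EuclideanSpace.proj a : EE d →L[ℝ] ℝ) := rfl
    rw [this, ContinuousLinearMap.fderiv]
    rfl
  rw [h1, h2, Matrix.one_apply]
  simp [ebas]

theorem jac_mul {p q : M} {y : EE d} (hy : y ∈ chDom p q) :
    Ch.jacobian q p (Ch.change p q y) * Ch.jacobian p q y = 1 := by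
  have h : y ∈ chDom p p := ⟨hy.1, (chartAt (EE d) p).map_target hy.1⟩
  rw [← jac_cocycle hy h]
  exact C0_jac_self hy.1

theorem jac_det_ne {p q : M} {y : EE d} (hy : y ∈ chDom p q) : (Ch.jacobian p q y).det ≠ 0 := by
  intro h
  have h1 := congrArg Matrix.det (jac_mul hy)
  rw [Matrix.det_mul, h, mul_zero, Matrix.det_one] at h1
  exact zero_ne_one h1

omit [IsManifold (𝓡 d) ∞ M] in
theorem C0_det (g : Ch.Metric d M) (p : M) {y : EE d} (hy : y ∈ (chartAt (EE d) p).target) :
    (g.mat p y).det ≠ 0 := by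
  intro h0
  obtain ⟨v, hv, h1⟩ := Matrix.exists_mulVec_eq_zero_iff.2 h0
  have h2 := g.pos p y hy v hv
  have h3 : ∑ i, ∑ j, g.mat p y i j * v i * v j = ∑ i, v i * (g.mat p y).mulVec v i := by
    refine Finset.sum_congr rfl fun i _ => ?_
    rw [Matrix.mulVec, dotProduct, Finset.mul_sum]
    refine Finset.sum_congr rfl fun j _ => ?_
    ring
  rw [h3, h1] at h2
  simp at h2

theorem pull (g : Ch.Metric d M) (p q : M) :
    Pull (chartAt (EE d) q).target (chDom p q) (Ch.change p q) (g.mat p) (g.mat q) where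
  hU := (chartAt (EE d) q).open_target
  hV := isOpen_chDom p q
  hΦ := C0_sm3 p q
  hm := fun _ hy => (change_mem hy).1
  hJ := fun _ hy => jac_det_ne hy
  hH := fun i j => contDiffOn_infty.1 (g.smooth q i j) 2
  hs := g.symm q
  hd := fun _ hy => C0_det g q hy
  hG := fun y hy => g.compat p q y hy.1 hy.2

end H79G
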