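import Pool.Agent.Lib.H79G.T2
import Pool.Agent.Lib.H79G.C0

/-!
# H79G chunk T3 (M): global scalar functions and the transgression vector field

A scalar on `M` is given by a family `F p : EE d → ℝ` in the charts (`SField`); `glob F m` is its value
at the point `m`, computed in the chart at `m`.
`glob_symm`: `compat` for `p` and `q = (chartAt p).symm y`, with `mem_chDom_self`.
`glob_continuous`: on the open set `(chartAt p).source` the function `glob F` is `F p ∘ chartAt p`
(by `glob_symm`), a composition of continuous functions.
The three `SField` statements and the vector field `VF`: S0 and T2 with `pull g p q` (C0).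
-/

open scoped Manifold ContDiff
open Set H31R MeasureTheory MvPolynomial

namespace H79G

variable {d : ℕ} {M : Type} [TopologicalSpace M] [ChartedSpace (EE d) M]

/-- a smooth function on `M`, in the charts -/
structure SField (F : M → EE d → ℝ) : Prop where
  smooth : ∀ p, ContDiffOn ℝ ∞ (F p) (chartAt (EE d) p).target
  compat : ∀ p q, ∀ y ∈ chDom p q, F q (Ch.change p q y) = F p y

/-- the function on `M` given by the family `F` -/
noncomputable def glob (F : M → EE d → ℝ) (m : M) : ℝ := F m (chartAt (EE d) m m)

theorem glob_symm {F : M → EE d → ℝ} (hF : SField F) {p : M} {y : EE d}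
    (hy : y ∈ (chartAt (EE d) p).target) : glob F ((chartAt (EE d) p).symm y) = F p y :=
  hF.compat p ((chartAt (EE d) p).symm y) y (mem_chDom_self hy)

theorem glob_continuous {F : M → EE d → ℝ} (hF : SField F) : Continuous (glob F) := by
  rw [continuous_iff_continuousAt]
  intro m
  have h1 : ContinuousAt (fun m' => F m (chartAt (EE d) m m')) m := by
    have h2 : ContinuousAt (F m) (chartAt (EE d) m m) :=
      (hF.smooth m).continuousOn.continuousAt
        ((chartAt (EE d) m).open_target.mem_nhds (mem_chart_target (EE d) m))
    exact ContinuousAt.comp (f := fun m' => chartAt (EE d) m m') h2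
      ((chartAt (EE d) m).continuousAt (mem_chart_source (EE d) m))
  refine h1.congr ?_
  filter_upwards [(chartAt (EE d) m).open_source.mem_nhds (mem_chart_source (EE d) m)] with m' hm'
  have h3 := glob_symm hF ((chartAt (EE d) m).map_source hm')
  rw [(chartAt (EE d) m).left_inv hm'] at h3
  exact h3.symm

variable [IsManifold (𝓡 d) ∞ M]

theorem T3_hX (X : VField d M) (p q : M) (a : Fin d) :
    ContDiffOn ℝ ∞ (fun y => X.vec p y a) (chDom p q) :=
  (X.smooth p a).mono (chDom_sub p q)

theorem T3_hXY (X : VField d M) (p q : M) : ∀ x ∈ chDom (d := d) p q,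
    X.vec q (Ch.change p q x) = (jac (Ch.change p q) x).mulVec (X.vec p x) :=
  fun x hx => X.compat p q x hx.1 hx.2

theorem sField_UU (g : Ch.Metric d M) (X : VField d M) (t : ℝ) :
    SField (fun p => UU (g.mat p) (X.vec p) t) where
  smooth p := (metOn g p).smooth_UU (X.smooth p) t
  compat p q y hy := (UU_pull (pull g p q) (T3_hX X p q) (X.smooth q) (T3_hXY X p q) hy t).symm

theorem sField_uc (g : Ch.Metric d M) (X : VField d M) (s : ℕ) :
    SField (fun p => uc (g.mat p) (X.vec p) s) where
  smooth p := (metOn g p).smooth_uc (X.smooth p) s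
  compat p q y hy := (uc_pull (pull g p q) (T3_hX X p q) (X.smooth q) (T3_hXY X p q) hy s).symm

theorem sField_nsq (g : Ch.Metric d M) (X : VField d M) :
    SField (fun p => nsq (g.mat p) (X.vec p)) where
  smooth p := (metOn g p).smooth_nsq (X.smooth p)
  compat p q y hy := (nsq_pull (pull g p q) (T3_hXY X p q) hy).symm

/-- the transgression vector field -/
noncomputable def VF (g : Ch.Metric d M) (X : VField d M) (t : ℝ) : VField d M where
  vec p := VV (g.mat p) (X.vec p) t
  smooth p i := (metOn g p).smooth_VV (X.smooth p) t i
  compat p q y hy hq :=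
    VV_pull (pull g p q) (T3_hX X p q) (X.smooth q) (T3_hXY X p q) ⟨hy, hq⟩ t

end H79G
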