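import Pool.Agent.Lib.H79G.P1

/-!
# H79G chunk P3 (S/M): sectional curvature in coordinates

`sec_frame`: `ev (frameR R E) x v x v = ev R (E x) (E v) (E x) (E v)` (`ev` of `Lib/H69/Hopf/Defs.lean`).
`area_frame`: with `Eᵀ G0 E = 1`: `areaG G0 (E x) (E v) = area2 x v`.
-/

open scoped Manifold ContDiff
open Set H31R MeasureTheory Pool.Agent.H69Hopf

namespace H79G

/-- The squared area `|x|² |v|² - ⟨x, v⟩²` with respect to the scalar product with matrix `G0`. -/
def areaG {d : ℕ} (G0 : Matrix (Fin d) (Fin d) ℝ) (x v : Fin d → ℝ) : ℝ :=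
  (∑ i, ∑ j, G0 i j * x i * x j) * (∑ i, ∑ j, G0 i j * v i * v j) -
    (∑ i, ∑ j, G0 i j * x i * v j) ^ 2

variable {d : ℕ}

theorem P3_ev (R : Cu d) (E : Mt d) (x y z w : Fin d → ℝ) :
    ev (frameR R E) x y z w = ev R (E.mulVec x) (E.mulVec y) (E.mulVec z) (E.mulVec w) := by
  unfold ev frameR
  simp only [Matrix.mulVec, dotProduct, Finset.sum_mul, Finset.mul_sum]
  -- move the sums over the frame indices to the inside
  have step : ∀ F : Fin d → Fin d → Fin d → Fin d → Fin d → Fin d → Fin d → Fin d → ℝ,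
      ∑ i, ∑ j, ∑ k, ∑ l, ∑ a, ∑ b, ∑ c, ∑ e, F i j k l a b c e =
        ∑ a, ∑ b, ∑ c, ∑ e, ∑ l, ∑ k, ∑ j, ∑ i, F i j k l a b c e := by
    intro F
    have h1 : ∑ i, ∑ j, ∑ k, ∑ l, ∑ a, ∑ b, ∑ c, ∑ e, F i j k l a b c e =
        ∑ p : Fin d × Fin d × Fin d × Fin d, ∑ q : Fin d × Fin d × Fin d × Fin d,
          F p.1 p.2.1 p.2.2.1 p.2.2.2 q.1 q.2.1 q.2.2.1 q.2.2.2 := by
      simp only [Fintype.sum_prod_type]
    have h2 : ∑ a, ∑ b, ∑ c, ∑ e, ∑ l, ∑ k, ∑ j, ∑ i, F i j k l a b c e =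
        ∑ q : Fin d × Fin d × Fin d × Fin d, ∑ p : Fin d × Fin d × Fin d × Fin d,
          F p.2.2.2 p.2.2.1 p.2.1 p.1 q.1 q.2.1 q.2.2.1 q.2.2.2 := by
      simp only [Fintype.sum_prod_type]
    rw [h1, h2, Finset.sum_comm]
    refine Finset.sum_congr rfl fun q _ => ?_
    refine Fintype.sum_equiv
      { toFun := fun p : Fin d × Fin d × Fin d × Fin d => (p.2.2.2, p.2.2.1, p.2.1, p.1)
        invFun := fun p => (p.2.2.2, p.2.2.1, p.2.1, p.1)
        left_inv := fun p => rfl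
        right_inv := fun p => rfl } _ _ fun p => rfl
  rw [step]
  refine Finset.sum_congr rfl fun a _ => Finset.sum_congr rfl fun b _ => Finset.sum_congr rfl fun c _ =>
    Finset.sum_congr rfl fun e _ => Finset.sum_congr rfl fun l _ => Finset.sum_congr rfl fun k _ =>
    Finset.sum_congr rfl fun j _ => Finset.sum_congr rfl fun i _ => ?_
  ring

theorem sec_frame (R : Cu d) (E : Mt d) (x v : Fin d → ℝ) :
    ev (frameR R E) x v x v = ev R (E.mulVec x) (E.mulVec v) (E.mulVec x) (E.mulVec v) :=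
  P3_ev R E x v x v

theorem P3_inner {G0 E : Mt d} (hE : E.transpose * G0 * E = 1) (x v : Fin d → ℝ) :
    ∑ i, ∑ j, G0 i j * E.mulVec x i * E.mulVec v j = ∑ i, x i * v i := by
  have h1 : ∀ (A : Mt d) (u w : Fin d → ℝ),
      ∑ i, ∑ j, A i j * u i * w j = dotProduct u (A.mulVec w) := by
    intro A u w
    simp only [dotProduct, Matrix.mulVec, Finset.mul_sum]
    exact Finset.sum_congr rfl fun i _ => Finset.sum_congr rfl fun j _ => by ring
  rw [h1, Matrix.mulVec_mulVec, ← Matrix.vecMul_transpose, ← Matrix.dotProduct_mulVec,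
    Matrix.mulVec_mulVec, ← Matrix.mul_assoc, hE, Matrix.one_mulVec]
  rfl

theorem area_frame {G0 E : Mt d} (hE : E.transpose * G0 * E = 1) (x v : Fin d → ℝ) :
    areaG G0 (E.mulVec x) (E.mulVec v) = area2 x v := by
  unfold areaG area2
  rw [P3_inner hE, P3_inner hE, P3_inner hE]
  simp only [pow_two]

end H79G
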