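import Pool.Agent.Lib.H31R.Stat2

/-!
# H79G: vector fields, indices, the Euler characteristic, curvature in coordinates

Definitions used in the final statements. Charts are the charts `chartAt p`, `p : M`; a Riemannian
metric is a family of matrices `H31R.Ch.Metric` (see `Lib/H31R/Stat2.lean`).
-/

open scoped Manifold ContDiff
open Set H31R

namespace H79G

/-- A closed (compact, without boundary) smooth manifold of dimension `d`. -/
structure Closed (d : ℕ) where
  /-- the points -/
  carrier : Type
  [top : TopologicalSpace carrier]
  [charted : ChartedSpace (EE d) carrier]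
  [mfd : IsManifold (𝓡 d) ∞ carrier]
  [t2 : T2Space carrier]
  [cpt : CompactSpace carrier]

attribute [instance] Closed.top Closed.charted Closed.mfd Closed.t2 Closed.cpt

variable {d : ℕ} {M : Type} [TopologicalSpace M] [ChartedSpace (EE d) M]

/-- A smooth vector field on the `d`-dimensional manifold `M`, given by its components `vec p` in
the charts `chartAt p`, `p : M`: smooth and compatible with the changes of coordinates. -/
structure VField (d : ℕ) (M : Type) [TopologicalSpace M] [ChartedSpace (EE d) M] where
  /-- the components in the chart at `p` -/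
  vec : M → EE d → Fin d → ℝ
  smooth : ∀ p i, ContDiffOn ℝ ∞ (fun y => vec p y i) (chartAt (EE d) p).target
  compat : ∀ p q, ∀ y ∈ (chartAt (EE d) p).target,
    (chartAt (EE d) p).symm y ∈ (chartAt (EE d) q).source →
    vec q (Ch.change p q y) = (Ch.jacobian p q y).mulVec (vec p y)

/-- The vector field vanishes at the point `m`. -/
def VField.IsZero (X : VField d M) (m : M) : Prop := X.vec m (chartAt (EE d) m m) = 0

/-- The matrix `(a, i) ↦ ∂_i X^a` at the point `m`, in the chart at `m`. -/
noncomputable def VField.deriv (X : VField d M) (m : M) : Matrix (Fin d) (Fin d) ℝ :=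
  fun a i => pd i (fun y => X.vec m y a) (chartAt (EE d) m m)

/-- All zeros of the vector field are nondegenerate. -/
def VField.Nondegenerate (X : VField d M) : Prop := ∀ m, X.IsZero m → (X.deriv m).det ≠ 0

/-- The index of a nondegenerate zero `m`: the sign of the determinant of the derivative. -/
noncomputable def VField.index (X : VField d M) (m : M) : ℤ :=
  (SignType.sign (X.deriv m).det : ℤ)

/-- The sum of the indices of the zeros. (The zeros of a nondegenerate vector field on a closed
manifold are finite in number.) -/
noncomputable def VField.indexSum (X : VField d M) : ℤ := ∑ᶠ (m : M) (_ : X.IsZero m), X.index m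

/-- `χ` is the Euler characteristic of `M`, in the form of the Poincaré-Hopf theorem: smooth vector
fields with only nondegenerate zeros exist, and for each of them the sum of the indices of the
zeros is `χ`. -/
def IsEulerCharacteristic (d : ℕ) (M : Type) [TopologicalSpace M] [ChartedSpace (EE d) M]
    (χ : ℤ) : Prop :=
  (∃ X : VField d M, X.Nondegenerate) ∧ ∀ X : VField d M, X.Nondegenerate → X.indexSum = χ

/-- The curvature tensor, in coordinates, of the metric with coefficients `G`, with the sign
convention that `R_{ijij}` is the sectional curvature for an orthonormal pair `∂_i`, `∂_j`: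
`R_{ijkl} = ∑ a, G_{ka} (∂_i Γ^a_{jl} - ∂_j Γ^a_{il} + ∑ b, (Γ^a_{ib} Γ^b_{jl} - Γ^a_{jb} Γ^b_{il}))`. -/
noncomputable def riem (G : EE d → Matrix (Fin d) (Fin d) ℝ) (x : EE d) (i j k l : Fin d) : ℝ :=
  ∑ a, G x k a * (pd i (chr G a j l) x - pd j (chr G a i l) x
    + ∑ b, (chr G a i b x * chr G b j l x - chr G a j b x * chr G b i l x))

end H79G
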