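import Pool.Agent.Lib.H79G.E3
import Pool.Agent.Lib.H79G.Stmt

/-!
# H79G, part E (4): the results of part E for the structure `VField`
-/

open scoped Manifold ContDiff Topology
open Set MeasureTheory H31R

namespace H79G

open H31R.Ch

section

variable {d : ℕ} {M : Type} [TopologicalSpace M] [ChartedSpace (EE d) M]
  [IsManifold (𝓡 d) ∞ M]

/-- The matrix of the derivative. -/
theorem E4_fderiv_apply {f : EE d → EE d} {y : EE d} (hf : DifferentiableAt ℝ f y) (v : EE d)
    (a : Fin d) : (fderiv ℝ f y v) a = ∑ i, pd i (fun z => f z a) y * v i := by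
  have h := ((EuclideanSpace.proj (𝕜 := ℝ) a).hasFDerivAt.comp y hf.hasFDerivAt).fderiv
  have h' : fderiv ℝ (fun z => f z a) y =
      (EuclideanSpace.proj (𝕜 := ℝ) a).comp (fderiv ℝ f y) := h
  have h2 : ∀ i, pd i (fun z => f z a) y = (fderiv ℝ f y (ebas i)) a := by
    intro i
    show fderiv ℝ (fun z => f z a) y (ebas i) = _
    rw [h']
    rfl
  simp only [h2]
  conv_lhs => rw [S1_sum v, map_sum]
  simp only [WithLp.ofLp_sum, Finset.sum_apply, map_smul, PiLp.smul_apply, smul_eq_mul]
  exact Finset.sum_congr rfl fun i _ => mul_comm _ _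

theorem E4_det {f : EE d → EE d} {y : EE d} (hf : DifferentiableAt ℝ f y) :
    (fderiv ℝ f y).det = (Matrix.of fun a i => pd i (fun z => f z a) y).det := by
  have h : (Matrix.of fun a i => pd i (fun z => f z a) y) =
      LinearMap.toMatrix (EuclideanSpace.basisFun (Fin d) ℝ).toBasis
        (EuclideanSpace.basisFun (Fin d) ℝ).toBasis (fderiv ℝ f y : EE d →ₗ[ℝ] EE d) := by
    ext a i
    rw [LinearMap.toMatrix_apply]
    have h3 : (EuclideanSpace.basisFun (Fin d) ℝ).toBasis i = (ebas i : EE d) := by simp
    rw [h3]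
    have h4 : pd i (fun z => f z a) y = (fderiv ℝ f y (ebas i)) a := by
      rw [E4_fderiv_apply hf, Finset.sum_eq_single i]
      · simp
      · intro b _ hb
        simp [hb]
      · intro h
        exact absurd (Finset.mem_univ i) h
    rw [Matrix.of_apply, h4]
    rfl
  rw [h, LinearMap.det_toMatrix]

/-- From `VField` to `EVF`. -/
noncomputable def VField.toEVF (X : VField d M) : EVF d M where
  comp p y := WithLp.toLp 2 (X.vec p y)
  smooth p := by
    rw [contDiffOn_euclidean]
    exact X.smooth p
  compat p q y hy hq := by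
    ext a
    rw [E4_fderiv_apply ((S1_smooth p q hy hq).differentiableAt (by simp))]
    show X.vec q (change p q y) a = _
    rw [X.compat p q y hy hq]
    rfl

/-- From `EVF` to `VField`. -/
noncomputable def EVF.toVField (X : EVF d M) : VField d M where
  vec p y := fun i => X.comp p y i
  smooth p i := contDiffOn_euclidean.1 (X.smooth p) i
  compat p q y hy hq := by
    funext a
    rw [X.compat p q y hy hq]
    show (fderiv ℝ (change p q) y (X.comp p y)) a = _
    rw [E4_fderiv_apply ((S1_smooth p q hy hq).differentiableAt (by simp))]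
    rfl

theorem E4_toVField_toEVF (X : EVF d M) : X.toVField.toEVF = X := rfl

theorem E4_isZero (X : VField d M) (m : M) : X.IsZero m ↔ m ∈ X.toEVF.zeros := by
  show X.vec m (chartAt (EE d) m m) = 0 ↔ WithLp.toLp 2 (X.vec m (chartAt (EE d) m m)) = 0
  simp

theorem E4_vec_zero (X : VField d M) (p : M) (y : EE d) :
    X.vec p y = 0 ↔ X.toEVF.comp p y = 0 := by
  show X.vec p y = 0 ↔ WithLp.toLp 2 (X.vec p y) = 0
  simp

/-- A point is a zero iff the components in any chart vanish there. -/
theorem E4_isZero_iff (X : VField d M) (p : M) {y : EE d} (hy : y ∈ (chartAt (EE d) p).target) :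
    X.IsZero ((chartAt (EE d) p).symm y) ↔ X.vec p y = 0 := by
  rw [E4_isZero, E4_vec_zero, E1_mem_zeros X.toEVF p hy]

theorem E4_diff (X : VField d M) (p : M) {y : EE d} (hy : y ∈ (chartAt (EE d) p).target) :
    DifferentiableAt ℝ (X.toEVF.comp p) y :=
  ((X.toEVF.smooth p).contDiffAt ((chartAt (EE d) p).open_target.mem_nhds hy)).differentiableAt
    (by simp)

theorem E4_deriv_det (X : VField d M) (m : M) :
    (X.deriv m).det = (fderiv ℝ (X.toEVF.comp m) (chartAt (EE d) m m)).det :=
  (E4_det (E4_diff X m (mem_chart_target _ _))).symm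

/-- At a zero the determinant of the Jacobian matrix is the same in every chart. -/
theorem E4_det_chart (X : VField d M) (p : M) {y : EE d} (hy : y ∈ (chartAt (EE d) p).target)
    (h0 : X.vec p y = 0) :
    (Matrix.of fun a i => pd i (fun z => X.vec p z a) y).det =
      (X.deriv ((chartAt (EE d) p).symm y)).det := by
  rw [E4_deriv_det]
  have h1 := E1_det X.toEVF p _ hy (mem_chart_source _ _) ((E4_vec_zero X p y).1 h0)
  refine Eq.trans ?_ h1.symm
  exact (E4_det (E4_diff X p hy)).symm

theorem E4_nondeg_iff (X : VField d M) : X.Nondegenerate ↔ X.toEVF.Nondeg := by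
  constructor
  · intro h p y hy h0
    have h1 := h ((chartAt (EE d) p).symm y) ((E4_isZero X _).2 ((E1_mem_zeros X.toEVF p hy).2 h0))
    rw [E4_deriv_det] at h1
    have h2 := E1_det X.toEVF p _ hy (mem_chart_source _ _) h0
    intro h3
    exact h1 (h2.trans h3)
  · intro h m hm
    rw [E4_deriv_det]
    exact h m _ (mem_chart_target _ _) ((E4_isZero X m).1 hm)

/-- A nondegenerate vector field on a compact manifold has finitely many zeros. -/
theorem E4_zeros_finite [CompactSpace M] (X : VField d M) (hX : X.Nondegenerate) :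
    {m | X.IsZero m}.Finite := by
  have h := E1_finite X.toEVF ((E4_nondeg_iff X).1 hX)
  have e : {m | X.IsZero m} = X.toEVF.zeros := Set.ext fun m => E4_isZero X m
  rw [e]
  exact h

end

/-- Every closed manifold has a smooth vector field with only nondegenerate zeros. -/
theorem E4_exists_nondegenerate (d : ℕ) (M : Type) [TopologicalSpace M] [ChartedSpace (EE d) M]
    [IsManifold (𝓡 d) ∞ M] [T2Space M] [CompactSpace M] :
    ∃ X : VField d M, X.Nondegenerate := by
  obtain ⟨X, hX, -⟩ := E3_exists_nondeg d M
  exact ⟨X.toVField, (E4_nondeg_iff X.toVField).2 hX⟩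

end H79G
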