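import Pool.Agent.Lib.H79G.I1

/-!
# H79G chunk I2 (M): existence and finiteness of the Riemannian measure

`exists_vol`: by compactness finitely many chart domains `source (c i)`, `i < m`, cover `M`; put
`E i = source (c i) \ ⋃ j < i, source (c j)` (disjoint Borel sets with union `M`, `disjointed`) and
`μ = ∑ i, (chMeas g (c i)).restrict (E i)`.  For measurable `T ⊆ source p`:
`μ T = ∑ i, chMeas g (c i) (T ∩ E i) = ∑ i, chMeas g p (T ∩ E i) = chMeas g p T` (`chMeas_eq`).
`vol_finite`: every point `m` has a neighbourhood of finite measure (the image of a small closed ball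
around `chartAt m m` in `target`; the density is bounded on it), `IsCompact.measure_lt_top`
(`IsLocallyFiniteMeasure` / `IsFiniteMeasureOnCompacts`).
`vol_pos`: if `M` is not empty: the chart domain of `m` is nonempty and open, its image `target` has
positive Lebesgue measure and the density is positive there.
-/

open scoped Manifold ContDiff
open Set H31R MeasureTheory

namespace H79G

variable {d : ℕ} {M : Type} [TopologicalSpace M] [ChartedSpace (EE d) M]
  [MeasurableSpace M] [BorelSpace M] [IsManifold (𝓡 d) ∞ M]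

theorem exists_vol [CompactSpace M] (g : Ch.Metric d M) : ∃ μ : Measure M, IsVol g μ := by
  classical
  obtain ⟨t, ht⟩ := isCompact_univ.elim_finite_subcover
    (fun c : M => (chartAt (EE d) c).source) (fun c => (chartAt (EE d) c).open_source)
    fun x _ => mem_iUnion.2 ⟨x, mem_chart_source _ _⟩
  let c : Fin t.card → M := fun i => (t.equivFin.symm i).1
  have hc : ∀ x : M, ∃ i, x ∈ (chartAt (EE d) (c i)).source := by
    intro x
    obtain ⟨y, hy, hx⟩ := mem_iUnion₂.1 (ht (mem_univ x))
    refine ⟨t.equivFin ⟨y, hy⟩, ?_⟩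
    have : c (t.equivFin ⟨y, hy⟩) = y := by
      show (t.equivFin.symm (t.equivFin ⟨y, hy⟩)).1 = y
      rw [Equiv.symm_apply_apply]
    rw [this]
    exact hx
  let E : Fin t.card → Set M := fun i =>
    (chartAt (EE d) (c i)).source \ ⋃ j : {j // j < i}, (chartAt (EE d) (c j.1)).source
  have hEm : ∀ i, MeasurableSet (E i) := fun i =>
    (chartAt (EE d) (c i)).open_source.measurableSet.diff
      (MeasurableSet.iUnion fun j => (chartAt (EE d) (c j.1)).open_source.measurableSet)
  have hEd : Pairwise fun i j => Disjoint (E i) (E j) := by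
    have h1 : ∀ i j, i < j → Disjoint (E i) (E j) := by
      intro i j hij
      rw [Set.disjoint_left]
      rintro x ⟨hx, -⟩ ⟨-, hx2⟩
      exact hx2 (mem_iUnion.2 ⟨⟨i, hij⟩, hx⟩)
    intro i j hij
    rcases lt_or_gt_of_ne hij with h | h
    · exact h1 i j h
    · exact (h1 j i h).symm
  have hEu : ∀ x : M, ∃ i, x ∈ E i := by
    intro x
    have hex : (Finset.univ.filter fun i => x ∈ (chartAt (EE d) (c i)).source).Nonempty := by
      obtain ⟨i, hi⟩ := hc x
      exact ⟨i, Finset.mem_filter.2 ⟨Finset.mem_univ _, hi⟩⟩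
    refine ⟨Finset.min' _ hex, (Finset.mem_filter.1 (Finset.min'_mem _ hex)).2, ?_⟩
    intro h
    obtain ⟨⟨j, hj⟩, hj2⟩ := mem_iUnion.1 h
    have := Finset.min'_le (Finset.univ.filter fun i => x ∈ (chartAt (EE d) (c i)).source) j
      (Finset.mem_filter.2 ⟨Finset.mem_univ _, hj2⟩)
    exact absurd hj (not_lt.2 this)
  refine ⟨∑ i, (chMeas g (c i)).restrict (E i), fun p T hT hTp => ?_⟩
  have h1 : ∀ i, ((chMeas g (c i)).restrict (E i)) T = chMeas g p (T ∩ E i) := by
    intro i
    rw [Measure.restrict_apply hT]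
    exact chMeas_eq g (c i) p (hT.inter (hEm i)) (fun x hx => hx.2.1) fun x hx => hTp hx.1
  rw [Measure.finsetSum_apply]
  simp only [h1]
  have h2 : chMeas g p (⋃ i, T ∩ E i) = ∑' i, chMeas g p (T ∩ E i) :=
    measure_iUnion (fun i j hij => ((hEd hij).mono inter_subset_right inter_subset_right))
      (fun i => hT.inter (hEm i))
  rw [tsum_fintype] at h2
  rw [← h2, ← inter_iUnion]
  congr 1
  rw [inter_eq_left]
  intro x _
  exact mem_iUnion.2 (hEu x)

theorem vol_finite [CompactSpace M] (g : Ch.Metric d M) {μ : Measure M} (hμ : IsVol g μ) :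
    IsFiniteMeasure μ := by
  refine ⟨?_⟩
  refine isCompact_univ.measure_lt_top_of_nhdsWithin fun m _ => ?_
  have hy : chartAt (EE d) m m ∈ (chartAt (EE d) m).target := mem_chart_target _ _
  set y := chartAt (EE d) m m with hyd
  obtain ⟨r, hr, hrs⟩ := Metric.nhds_basis_closedBall.mem_iff.1
    ((chartAt (EE d) m).open_target.mem_nhds hy)
  have hcont : ContinuousOn (dens (g.mat m)) (Metric.closedBall y r) :=
    ((metOn g m).smooth_dens.continuousOn).mono hrs
  obtain ⟨C, hC⟩ := (isCompact_closedBall y r).exists_bound_of_continuousOn hcont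
  set T : Set M := (chartAt (EE d) m).source ∩ (chartAt (EE d) m) ⁻¹' Metric.ball y r with hT
  have hTo : IsOpen T := (chartAt (EE d) m).isOpen_inter_preimage Metric.isOpen_ball
  have hmT : m ∈ T := ⟨mem_chart_source _ _, Metric.mem_ball_self hr⟩
  refine ⟨T, mem_nhdsWithin_of_mem_nhds (hTo.mem_nhds hmT), ?_⟩
  rw [hμ m T hTo.measurableSet inter_subset_left, chMeas_apply g m hTo.measurableSet]
  have hsub : (chartAt (EE d) m).target ∩ (chartAt (EE d) m).symm ⁻¹' T ⊆
      Metric.closedBall y r := by
    rintro z ⟨hz, hz2⟩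
    have h1 : chartAt (EE d) m ((chartAt (EE d) m).symm z) ∈ Metric.ball y r := hz2.2
    rw [(chartAt (EE d) m).right_inv hz] at h1
    exact Metric.ball_subset_closedBall h1
  calc ∫⁻ y in (chartAt (EE d) m).target ∩ (chartAt (EE d) m).symm ⁻¹' T,
        ENNReal.ofReal (dens (g.mat m) y)
      ≤ ∫⁻ z in Metric.closedBall y r, ENNReal.ofReal (dens (g.mat m) z) :=
        lintegral_mono_set hsub
    _ ≤ ∫⁻ _ in Metric.closedBall y r, ENNReal.ofReal C := by
        refine setLIntegral_mono measurable_const fun z hz => ?_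
        exact ENNReal.ofReal_le_ofReal ((le_abs_self _).trans (hC z hz))
    _ = ENNReal.ofReal C * volume (Metric.closedBall y r) := setLIntegral_const _ _
    _ < ⊤ := ENNReal.mul_lt_top ENNReal.ofReal_lt_top measure_closedBall_lt_top

theorem vol_pos [Nonempty M] (g : Ch.Metric d M) {μ : Measure M} (hμ : IsVol g μ) :
    0 < μ univ := by
  obtain ⟨m⟩ := ‹Nonempty M›
  have hso := (chartAt (EE d) m).open_source
  have h1 : μ (chartAt (EE d) m).source =
      ∫⁻ y in (chartAt (EE d) m).target, ENNReal.ofReal (dens (g.mat m) y) := by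
    rw [hμ m _ hso.measurableSet subset_rfl, chMeas_apply g m hso.measurableSet]
    congr 2
    rw [inter_eq_left]
    intro y hy
    exact (chartAt (EE d) m).map_target hy
  have h2 : 0 < μ (chartAt (EE d) m).source := by
    rw [h1]
    refine pos_iff_ne_zero.2 fun h => ?_
    rw [lintegral_eq_zero_iff' (aem_dens g m)] at h
    have h3 : ∀ᵐ y ∂(volume.restrict (chartAt (EE d) m).target),
        y ∈ (chartAt (EE d) m).target :=
      ae_restrict_mem (chartAt (EE d) m).open_target.measurableSet
    have h4 : ∀ᵐ y ∂(volume.restrict (chartAt (EE d) m).target), False := by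
      filter_upwards [h, h3] with y hy hy2
      have h5 := (metOn g m).dens_pos hy2
      have h6 : ENNReal.ofReal (dens (g.mat m) y) = 0 := hy
      rw [ENNReal.ofReal_eq_zero] at h6
      exact absurd h5 (not_lt.2 h6)
    have h5 : volume.restrict (chartAt (EE d) m).target = 0 := by
      rw [← ae_eq_bot]
      exact Filter.eventually_false_iff_eq_bot.1 h4
    rw [Measure.restrict_eq_zero] at h5
    exact ((chartAt (EE d) m).open_target.measure_ne_zero volume ⟨_, mem_chart_target _ m⟩) h5
  exact h2.trans_le (measure_mono (subset_univ _))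

end H79G
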