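import Pool.Agent.Lib.H79G.C0

/-!
# H79G chunk Z1 (M): zeros of a vector field

`dmat X x` is the matrix `(a, i) ↦ ∂_i X^a (x)`; `X.deriv m = dmat (X.vec m) (chartAt m m)` by `rfl`.
`isZero_iff`: `compat` with the invertible Jacobian (`jac_det_ne`).
`dmat_change`: at a zero, differentiate `X_q (Φ z) = J(z) X_p (z)` at `z = y` (`Φ = change p q`,
`J = Ch.jacobian p q`): `dmat X_q (Φ y) * J y = J y * dmat X_p y + (∂J) X_p(y)`, and `X_p(y) = 0`.  So the
determinants are equal.
`isolated`: `X^a(y) = ∑_i ∂_i X^a(y0) (y - y0)_i + o(|y - y0|)` with invertible matrix.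
`zeros_finite`: the set of zeros is closed (`isZero_iff` with the continuous functions `X.vec p`) in the
compact space `M`, and discrete (`isolated`, in the chart): `IsCompact.finite` with the discrete topology.
-/

open scoped Manifold ContDiff Topology
open Set H31R MeasureTheory Filter

namespace H79G

variable {d : ℕ}

/-- the matrix of partial derivatives -/
noncomputable def dmat (X : EE d → Fin d → ℝ) (x : EE d) : Mt d := fun a i => pd i (fun y => X y a) x

theorem Z1_smooth {U : Set (EE d)} {X : EE d → Fin d → ℝ}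
    (hX : ∀ a, ContDiffOn ℝ ∞ (fun y => X y a) U) :
    ContDiffOn ℝ 3 (fun y => (WithLp.toLp 2 (X y) : EE d)) U := by
  rw [contDiffOn_euclidean]
  exact fun a => contDiffOn_infty.1 (hX a) 3

theorem Z1_fderiv {U : Set (EE d)} (hU : IsOpen U) {X : EE d → Fin d → ℝ}
    (hX : ∀ a, ContDiffOn ℝ ∞ (fun y => X y a) U) {y0 : EE d} (hy : y0 ∈ U) (v : EE d)
    (a : Fin d) :
    fderiv ℝ (fun y => (WithLp.toLp 2 (X y) : EE d)) y0 v a = (dmat X y0).mulVec v a :=
  N_jac_vec hU hy (Z1_smooth hX) v a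

theorem isolated {U : Set (EE d)} (hU : IsOpen U) {X : EE d → Fin d → ℝ}
    (hX : ∀ a, ContDiffOn ℝ ∞ (fun y => X y a) U) {y0 : EE d} (hy : y0 ∈ U) (h0 : X y0 = 0)
    (hD : (dmat X y0).det ≠ 0) :
    ∃ r c : ℝ, 0 < r ∧ 0 < c ∧ Metric.closedBall y0 r ⊆ U ∧
      ∀ y ∈ Metric.closedBall y0 r, c * ‖y - y0‖ ^ 2 ≤ ∑ a, X y a ^ 2 := by
  set F : EE d → EE d := fun y => WithLp.toLp 2 (X y) with hF
  set L : EE d →L[ℝ] EE d := fderiv ℝ F y0 with hL
  have hdF : HasFDerivAt F L y0 :=
    (((Z1_smooth hX).contDiffAt (hU.mem_nhds hy)).differentiableAt (by simp)).hasFDerivAt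
  have hker : LinearMap.ker (L : EE d →ₗ[ℝ] EE d) = ⊥ := by
    rw [LinearMap.ker_eq_bot']
    intro v hv
    have h1 : (dmat X y0).mulVec v = 0 := by
      funext a
      rw [← Z1_fderiv hU hX hy v a]
      have : (L v) a = (0 : EE d) a := by rw [show L v = 0 from hv]
      exact this
    have h2 := Matrix.eq_zero_of_mulVec_eq_zero hD h1
    ext a
    exact congrFun h2 a
  obtain ⟨K, hK0, hK⟩ := LinearMap.exists_antilipschitzWith (L : EE d →ₗ[ℝ] EE d) hker
  have hK' : ∀ v : EE d, ‖v‖ ≤ K * ‖L v‖ := by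
    intro v
    have h1 := hK.le_mul_dist v 0
    rw [map_zero, dist_zero_right, dist_zero_right] at h1
    exact h1
  have hKpos : (0 : ℝ) < K := by exact_mod_cast hK0
  have hlit := hdF.isLittleO
  have hev := hlit.def (c := 1 / (2 * (K : ℝ))) (by positivity)
  have hev2 : ∀ᶠ y in 𝓝 y0, y ∈ U ∧
      ‖F y - F y0 - L (y - y0)‖ ≤ 1 / (2 * (K : ℝ)) * ‖y - y0‖ :=
    Filter.Eventually.and (hU.mem_nhds hy : ∀ᶠ y in 𝓝 y0, y ∈ U) hev
  obtain ⟨r, hr, hball⟩ := Metric.nhds_basis_closedBall.mem_iff.1 hev2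
  refine ⟨r, (1 / (2 * (K : ℝ))) ^ 2, hr, by positivity, fun y hy' => (hball hy').1,
    fun y hy' => ?_⟩
  have h1 := (hball hy').2
  have hF0 : F y0 = 0 := by
    rw [hF]
    simp only [h0]
    rfl
  rw [hF0, sub_zero] at h1
  have h2 := hK' (y - y0)
  have h3 : ‖L (y - y0)‖ ≤ ‖F y‖ + ‖F y - L (y - y0)‖ := by
    have := norm_sub_le (F y) (F y - L (y - y0))
    rwa [sub_sub_cancel] at this
  have h4 : 1 / (2 * (K : ℝ)) * ‖y - y0‖ ≤ ‖F y‖ := by
    have e : ‖y - y0‖ ≤ K * (‖F y‖ + 1 / (2 * (K : ℝ)) * ‖y - y0‖) :=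
      h2.trans (mul_le_mul_of_nonneg_left (h3.trans (by linarith)) hKpos.le)
    have e2 : (K : ℝ) * (1 / (2 * (K : ℝ)) * ‖y - y0‖) = ‖y - y0‖ / 2 := by
      field_simp
    rw [mul_add, e2] at e
    have e3 : ‖y - y0‖ / 2 ≤ K * ‖F y‖ := by linarith
    rw [div_mul_eq_mul_div, one_mul, div_le_iff₀ (by positivity)]
    linarith
  have h5 : ‖F y‖ ^ 2 = ∑ a, X y a ^ 2 := by
    rw [EuclideanSpace.norm_sq_eq]
    refine Finset.sum_congr rfl fun a _ => ?_
    rw [Real.norm_eq_abs, sq_abs]
  rw [← h5, ← mul_pow]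
  exact pow_le_pow_left₀ (by positivity) h4 2

variable {M : Type} [TopologicalSpace M] [ChartedSpace (EE d) M] [IsManifold (𝓡 d) ∞ M]

theorem isZero_iff (X : VField d M) {p m : M} (hm : m ∈ (chartAt (EE d) p).source) :
    X.IsZero m ↔ X.vec p (chartAt (EE d) p m) = 0 := by
  have h1 : chartAt (EE d) p m ∈ (chartAt (EE d) p).target := (chartAt (EE d) p).map_source hm
  have h2 : (chartAt (EE d) p).symm (chartAt (EE d) p m) = m := (chartAt (EE d) p).left_inv hm
  have h3 : chartAt (EE d) p m ∈ chDom p m := ⟨h1, by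
    show (chartAt (EE d) p).symm (chartAt (EE d) p m) ∈ (chartAt (EE d) m).source
    rw [h2]
    exact mem_chart_source _ _⟩
  have h4 := X.compat p m _ h3.1 h3.2
  have h5 : Ch.change p m (chartAt (EE d) p m) = chartAt (EE d) m m := by
    show chartAt (EE d) m ((chartAt (EE d) p).symm (chartAt (EE d) p m)) = _
    rw [h2]
  rw [h5] at h4
  show X.vec m (chartAt (EE d) m m) = 0 ↔ _
  rw [h4]
  constructor
  · intro h
    exact Matrix.eq_zero_of_mulVec_eq_zero (jac_det_ne h3) h
  · intro h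
    rw [h, Matrix.mulVec_zero]

theorem dmat_change (X : VField d M) {p q : M} {y : EE d} (hy : y ∈ chDom p q)
    (h0 : X.vec p y = 0) :
    (dmat (X.vec p) y).det = (dmat (X.vec q) (Ch.change p q y)).det := by
  have hm : MapsTo (Ch.change (d := d) p q) (chDom p q) (chDom q p) := fun z hz => change_mem hz
  have hJ : SmM 2 (chDom (d := d) p q) (jac (Ch.change p q)) :=
    N_jac_sm (isOpen_chDom p q) (C0_sm3 p q)
  have key : dmat (X.vec q) (Ch.change p q y) * Ch.jacobian p q y =
      Ch.jacobian p q y * dmat (X.vec p) y := by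
    ext a i
    rw [Matrix.mul_apply, Matrix.mul_apply]
    have h1 : pd i (fun z => (fun w => X.vec q w a) (Ch.change p q z)) y =
        ∑ b, jac (Ch.change p q) y b i * pd b (fun w => X.vec q w a) (Ch.change p q y) :=
      N_chain (isOpen_chDom q p) (isOpen_chDom p q) hy (C0_sm3 p q) hm
        ((contDiffOn_infty.1 (X.smooth q a) 1).mono (chDom_sub q p)) i
    have h2 : pd i (fun z => (fun w => X.vec q w a) (Ch.change p q z)) y =
        pd i (fun z => ∑ b, Ch.jacobian p q z a b * X.vec p z b) y := by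
      refine N_pd_congr_on (isOpen_chDom p q) hy i fun z hz => ?_
      show X.vec q (Ch.change p q z) a = _
      rw [X.compat p q z hz.1 hz.2]
      rfl
    have hdJ : ∀ b, DifferentiableAt ℝ (fun z => Ch.jacobian p q z a b) y := fun b =>
      (((hJ a b).contDiffAt ((isOpen_chDom p q).mem_nhds hy)).differentiableAt (by simp))
    have hdX : ∀ b, DifferentiableAt ℝ (fun z => X.vec p z b) y := fun b =>
      ((X.smooth p b).contDiffAt ((chartAt (EE d) p).open_target.mem_nhds hy.1)).differentiableAt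
        (by simp)
    have h3 : pd i (fun z => ∑ b, Ch.jacobian p q z a b * X.vec p z b) y =
        ∑ b, Ch.jacobian p q y a b * pd i (fun z => X.vec p z b) y := by
      rw [N_pd_sum Finset.univ (fun b z => Ch.jacobian p q z a b * X.vec p z b)
        (fun b _ => (hdJ b).mul (hdX b))]
      refine Finset.sum_congr rfl fun b _ => ?_
      rw [N_pd_mul (hdJ b) (hdX b), h0]
      simp
    have h4 := h1.symm.trans (h2.trans h3)
    have h5 : ∑ b, dmat (X.vec q) (Ch.change p q y) a b * Ch.jacobian p q y b i =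
        ∑ b, jac (Ch.change p q) y b i * pd b (fun w => X.vec q w a) (Ch.change p q y) :=
      Finset.sum_congr rfl fun b _ => mul_comm _ _
    rw [h5, h4]
    rfl
  have h1 := congrArg Matrix.det key
  rw [Matrix.det_mul, Matrix.det_mul, mul_comm] at h1
  exact (mul_left_cancel₀ (jac_det_ne hy) h1).symm

theorem zeros_finite [T2Space M] [CompactSpace M] (X : VField d M) (hX : X.Nondegenerate) :
    {m : M | X.IsZero m}.Finite := by
  have hloc : ∀ m : M, ∃ U ∈ 𝓝 m, (U ∩ {m : M | X.IsZero m}).Finite := by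
    intro m
    have hsrc : (chartAt (EE d) m).source ∈ 𝓝 m := chart_source_mem_nhds _ _
    have htgt : chartAt (EE d) m m ∈ (chartAt (EE d) m).target :=
      (chartAt (EE d) m).map_source (mem_chart_source _ _)
    have hcont : ContinuousAt (chartAt (EE d) m) m :=
      (chartAt (EE d) m).continuousAt (mem_chart_source _ _)
    by_cases hz : X.IsZero m
    · obtain ⟨r, c, hr, hc, hb, hlow⟩ := isolated (chartAt (EE d) m).open_target (X.smooth m)
        htgt hz (hX m hz)
      have h1 : {x | chartAt (EE d) m x ∈ Metric.closedBall (chartAt (EE d) m m) r} ∈ 𝓝 m :=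
        hcont (Metric.closedBall_mem_nhds _ hr)
      refine ⟨_, Filter.inter_mem hsrc h1, (Set.finite_singleton m).subset ?_⟩
      rintro x ⟨⟨hx1, hx2⟩, hx3⟩
      have h2 := (isZero_iff X hx1).1 hx3
      have h3 := hlow _ hx2
      rw [h2] at h3
      have h4 : ‖chartAt (EE d) m x - chartAt (EE d) m m‖ ^ 2 ≤ 0 := by
        have h5 : ∑ a : Fin d, (0 : Fin d → ℝ) a ^ 2 = 0 := by simp
        rw [h5] at h3
        by_contra h6
        push Not at h6
        have := mul_pos hc h6
        linarith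
      have h6 : chartAt (EE d) m x = chartAt (EE d) m m := by
        have h7 : ‖chartAt (EE d) m x - chartAt (EE d) m m‖ = 0 := by
          have := sq_nonneg ‖chartAt (EE d) m x - chartAt (EE d) m m‖
          exact pow_eq_zero_iff (two_ne_zero) |>.1 (le_antisymm h4 this)
        exact sub_eq_zero.1 (norm_eq_zero.1 h7)
      exact (chartAt (EE d) m).injOn hx1 (mem_chart_source _ _) h6
    · have h1 : ∃ a, X.vec m (chartAt (EE d) m m) a ≠ 0 := by
        by_contra h
        push Not at h
        exact hz (funext h)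
      obtain ⟨a, ha⟩ := h1
      have h2 : ContinuousAt (fun x => X.vec m (chartAt (EE d) m x) a) m := by
        have h3 : ContinuousAt (fun y => X.vec m y a) (chartAt (EE d) m m) :=
          (X.smooth m a).continuousOn.continuousAt
            ((chartAt (EE d) m).open_target.mem_nhds htgt)
        exact ContinuousAt.comp (f := fun x => chartAt (EE d) m x) h3 hcont
      have h3 : {x | X.vec m (chartAt (EE d) m x) a ≠ 0} ∈ 𝓝 m := h2.eventually_ne ha
      refine ⟨_, Filter.inter_mem hsrc h3, ?_⟩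
      convert Set.finite_empty
      rw [Set.eq_empty_iff_forall_notMem]
      rintro x ⟨⟨hx1, hx2⟩, hx3⟩
      exact hx2 (congrFun ((isZero_iff X hx1).1 hx3) a)
  choose U hU hfin using hloc
  obtain ⟨t, -, ht⟩ := isCompact_univ.elim_nhds_subcover U (fun x _ => hU x)
  refine (t.finite_toSet.biUnion (t := fun x => U x ∩ {m : M | X.IsZero m})
    (fun x _ => hfin x)).subset ?_
  intro m hm
  have := ht (mem_univ m)
  rw [mem_iUnion₂] at this
  obtain ⟨x, hx, hmx⟩ := this
  exact mem_iUnion₂.2 ⟨x, hx, hmx, hm⟩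

end H79G
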