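import Pool.Agent.Lib.H79G.I8
import Pool.Agent.Lib.H79G.Z1

/-!
# H79G chunk Z6 (M): exponential decay away from the zeros

`q = glob nsq` is continuous (`sField_nsq`, `glob_continuous`) and positive on the compact set `K` (it
vanishes only at zeros: `pos` of the metric), hence `q ≥ δ > 0` on `K`; `UU_eq` (I8):
`|U t m| ≤ exp(-(t² δ)/2) ∑_{s ≤ d} t^s sup |u_s|`, times `μ univ < ∞`.
-/

open scoped Manifold ContDiff Topology
open Set H31R MeasureTheory Filter

namespace H79G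

variable {d : ℕ} {M : Type} [TopologicalSpace M] [ChartedSpace (EE d) M]
  [MeasurableSpace M] [BorelSpace M] [IsManifold (𝓡 d) ∞ M] [T2Space M] [CompactSpace M]

theorem Z6_decay (δ : ℝ) (hδ : 0 < δ) (s : ℕ) :
    Tendsto (fun t : ℝ => Real.exp (-(t ^ 2 * δ) / 2) * t ^ s) atTop (𝓝 0) := by
  have h := (tendsto_rpow_abs_mul_exp_neg_mul_sq_cocompact (a := δ / 2) (by positivity)
    (s : ℝ)).mono_left atTop_le_cocompact
  refine h.congr' ?_
  filter_upwards [eventually_ge_atTop (0 : ℝ)] with t ht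
  rw [abs_of_nonneg ht, Real.rpow_natCast, mul_comm]
  congr 2
  ring

theorem Z6_pos (g : Ch.Metric d M) (X : VField d M) {m : M} (h : ¬ X.IsZero m) :
    0 < glob (fun p => nsq (g.mat p) (X.vec p)) m := by
  have hy : chartAt (EE d) m m ∈ (chartAt (EE d) m).target := mem_chart_target (EE d) m
  exact g.pos m _ hy _ h

theorem Z6_eq (g : Ch.Metric d M) (X : VField d M) (t : ℝ) (m : M) :
    glob (fun p => UU (g.mat p) (X.vec p) t) m =
      Real.exp (-(t ^ 2 * glob (fun p => nsq (g.mat p) (X.vec p)) m) / 2) *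
        ∑ s ∈ Finset.range (d + 1), t ^ s * glob (fun p => uc (g.mat p) (X.vec p) s) m :=
  UU_eq _ _ _ _

theorem away_limit (g : Ch.Metric d M) {μ : Measure M} [IsFiniteMeasure μ]
    (X : VField d M) {K S : Set M} (hK : IsCompact K) (hS : MeasurableSet S) (hSK : S ⊆ K)
    (h : ∀ m ∈ K, ¬ X.IsZero m) :
    Tendsto (fun t : ℝ => ∫ m in S, glob (fun p => UU (g.mat p) (X.vec p) t) m ∂μ) atTop
      (𝓝 0) := by
  have hqc : Continuous (glob (fun p => nsq (g.mat p) (X.vec p))) :=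
    glob_continuous (sField_nsq g X)
  obtain ⟨δ, hδ, hδK⟩ : ∃ δ : ℝ, 0 < δ ∧ ∀ m ∈ K, δ ≤ glob (fun p => nsq (g.mat p) (X.vec p)) m := by
    rcases K.eq_empty_or_nonempty with he | hne
    · exact ⟨1, one_pos, fun m hm => by simp [he] at hm⟩
    · obtain ⟨m0, hm0, hmin⟩ := hK.exists_isMinOn hne hqc.continuousOn
      exact ⟨_, Z6_pos g X (h m0 hm0), fun m hm => hmin hm⟩
  have hB : ∀ s : ℕ, ∃ B : ℝ, ∀ m : M, |glob (fun p => uc (g.mat p) (X.vec p) s) m| ≤ B := by
    intro s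
    obtain ⟨B, hB⟩ := isCompact_univ.exists_bound_of_continuousOn
      (glob_continuous (sField_uc g X s)).continuousOn
    exact ⟨B, fun m => hB m (mem_univ m)⟩
  choose B hB using hB
  have hlim : Tendsto (fun t : ℝ => (∑ s ∈ Finset.range (d + 1),
      (Real.exp (-(t ^ 2 * δ) / 2) * t ^ s) * B s) * μ.real S) atTop (𝓝 0) := by
    have h1 : Tendsto (fun t : ℝ => ∑ s ∈ Finset.range (d + 1),
      (Real.exp (-(t ^ 2 * δ) / 2) * t ^ s) * B s) atTop
        (𝓝 (∑ s ∈ Finset.range (d + 1), 0 * B s)) :=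
      tendsto_finset_sum _ fun s _ => (Z6_decay δ hδ s).mul_const _
    have h2 := h1.mul_const (μ.real S)
    simpa using h2
  refine squeeze_zero_norm' ?_ hlim
  filter_upwards [eventually_ge_atTop (0 : ℝ)] with t ht
  refine norm_setIntegral_le_of_norm_le_const (measure_lt_top μ S) fun m hm => ?_
  rw [Z6_eq, norm_mul, Real.norm_eq_abs, Real.abs_exp]
  have h1 : Real.exp (-(t ^ 2 * glob (fun p => nsq (g.mat p) (X.vec p)) m) / 2) ≤
      Real.exp (-(t ^ 2 * δ) / 2) := by
    apply Real.exp_le_exp.2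
    have := mul_le_mul_of_nonneg_left (hδK m (hSK hm)) (sq_nonneg t)
    linarith
  have h2 : ‖∑ s ∈ Finset.range (d + 1), t ^ s * glob (fun p => uc (g.mat p) (X.vec p) s) m‖ ≤
      ∑ s ∈ Finset.range (d + 1), t ^ s * B s := by
    refine (norm_sum_le _ _).trans (Finset.sum_le_sum fun s _ => ?_)
    rw [norm_mul, Real.norm_eq_abs, Real.norm_eq_abs, abs_of_nonneg (pow_nonneg ht s)]
    exact mul_le_mul_of_nonneg_left (hB s m) (pow_nonneg ht s)
  calc _ ≤ Real.exp (-(t ^ 2 * δ) / 2) * ∑ s ∈ Finset.range (d + 1), t ^ s * B s :=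
        mul_le_mul h1 h2 (norm_nonneg _) (Real.exp_pos _).le
    _ = _ := by
        rw [Finset.mul_sum]
        refine Finset.sum_congr rfl fun s _ => by ring

end H79G
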