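import Pool.Agent.Lib.H79G.Z5
import Pool.Agent.Lib.H79G.Z6
import Pool.Agent.Lib.H79G.I2

/-!
# H79G chunk Z7 (M/L): the limit `t → ∞` of `∫ U_t dμ`

The zeros are finite in number (`zeros_finite`).  For every zero `z` let `y_z = chartAt z z`, `r_z` the radius
of `local_limit` (Z5) for `U = target`, `G = g.mat z`, `X = X.vec z`.  The sets
`B_z(r) = (chartAt z).symm '' closedBall y_z r` are compact (hence closed) neighbourhoods of `z` for
small `r`, shrinking to `z`; choose `r_z` such that they are pairwise disjoint (`M` is Hausdorff).  Then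
`∫_M = ∑_z ∫_{B_z} + ∫_S`, `S = M \ ⋃ B_z` (measurable), `S ⊆ K = M \ ⋃ symm '' ball y_z r_z` compact without
zeros: `away_limit`.  `∫_{B_z} U_t dμ = ∫_{closedBall} UU * dens` by `integral_set_chart` (I3) and
`glob_symm`, tends to `(2π)^{d/2} sign(det)` and `X.index z` is this sign (`X.deriv z = dmat (X.vec z) y_z`).
`indexSum = ∑ᶠ` over the zeros = finite sum (`finsum_mem_eq_finite_toFinset_sum` or so).
-/

open scoped Manifold ContDiff Topology
open Set H31R MeasureTheory Filter

namespace H79G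

variable {d : ℕ} {M : Type} [TopologicalSpace M] [ChartedSpace (EE d) M]
  [MeasurableSpace M] [BorelSpace M] [IsManifold (𝓡 d) ∞ M] [T2Space M] [CompactSpace M]

theorem Z7_radius (g : Ch.Metric d M) (X : VField d M) (hX : X.Nondegenerate) {O : Set M} {z : M}
    (hz : X.IsZero z) (hO : IsOpen O) (hzO : z ∈ O) :
    ∃ r : ℝ, 0 < r ∧ Metric.closedBall (chartAt (EE d) z z) r ⊆ (chartAt (EE d) z).target ∧
      (chartAt (EE d) z).symm '' Metric.closedBall (chartAt (EE d) z z) r ⊆ O ∧
      Tendsto (fun t : ℝ => ∫ y in Metric.closedBall (chartAt (EE d) z z) r,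
        UU (g.mat z) (X.vec z) t y * dens (g.mat z) y) atTop
        (𝓝 (Real.sqrt (2 * Real.pi) ^ d * (X.index z : ℝ))) := by
  have hyt : chartAt (EE d) z z ∈ (chartAt (EE d) z).target := mem_chart_target (EE d) z
  obtain ⟨r0, hr0, h0⟩ := local_limit (metOn g z) (X.smooth z) hyt hz (hX z hz)
  have hnb : (chartAt (EE d) z).target ∩ (chartAt (EE d) z).symm ⁻¹' O ∈
      𝓝 (chartAt (EE d) z z) := by
    apply IsOpen.mem_nhds
    · exact (chartAt (EE d) z).symm.isOpen_inter_preimage hO
    · refine ⟨hyt, ?_⟩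
      show (chartAt (EE d) z).symm (chartAt (EE d) z z) ∈ O
      rw [(chartAt (EE d) z).left_inv (mem_chart_source (EE d) z)]
      exact hzO
  obtain ⟨r1, hr1, h1⟩ := Metric.nhds_basis_closedBall.mem_iff.1 hnb
  refine ⟨min r0 r1, lt_min hr0 hr1, ?_, ?_, ?_⟩
  · exact (h0 _ (lt_min hr0 hr1) (min_le_left _ _)).1
  · rintro _ ⟨y, hy, rfl⟩
    exact (h1 (Metric.closedBall_subset_closedBall (min_le_right _ _) hy)).2
  · exact (h0 _ (lt_min hr0 hr1) (min_le_left _ _)).2

theorem global_limit (g : Ch.Metric d M) {μ : Measure M} (hμ : IsVol g μ) [IsFiniteMeasure μ]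
    (X : VField d M) (hX : X.Nondegenerate) :
    Tendsto (fun t : ℝ => ∫ m, glob (fun p => UU (g.mat p) (X.vec p) t) m ∂μ) atTop
      (𝓝 (Real.sqrt (2 * Real.pi) ^ d * (X.indexSum : ℝ))) := by
  classical
  have hfin : {m : M | X.IsZero m}.Finite := zeros_finite X hX
  obtain ⟨O, hO, hdis⟩ := hfin.t2_separation
  have hr : ∀ z : M, ∃ r : ℝ, X.IsZero z → (0 < r ∧
      Metric.closedBall (chartAt (EE d) z z) r ⊆ (chartAt (EE d) z).target ∧
      (chartAt (EE d) z).symm '' Metric.closedBall (chartAt (EE d) z z) r ⊆ O z ∧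
      Tendsto (fun t : ℝ => ∫ y in Metric.closedBall (chartAt (EE d) z z) r,
        UU (g.mat z) (X.vec z) t y * dens (g.mat z) y) atTop
        (𝓝 (Real.sqrt (2 * Real.pi) ^ d * (X.index z : ℝ)))) := by
    intro z
    by_cases hz : X.IsZero z
    · obtain ⟨r, h⟩ := Z7_radius g X hX hz (hO z).2 (hO z).1
      exact ⟨r, fun _ => h⟩
    · exact ⟨0, fun h => absurd h hz⟩
  choose r hr using hr
  set Zs : Finset M := hfin.toFinset with hZs
  have hmem : ∀ z, z ∈ Zs ↔ X.IsZero z := fun z => by simp [hZs]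
  set B : M → Set M := fun z =>
    (chartAt (EE d) z).symm '' Metric.closedBall (chartAt (EE d) z z) (r z) with hB
  set B' : M → Set M := fun z =>
    (chartAt (EE d) z).symm '' Metric.ball (chartAt (EE d) z z) (r z) with hB'
  have hBc : ∀ z ∈ Zs, IsCompact (B z) := by
    intro z hz
    have h := hr z ((hmem z).1 hz)
    exact (isCompact_closedBall _ _).image_of_continuousOn
      ((chartAt (EE d) z).continuousOn_symm.mono h.2.1)
  have hBm : ∀ z ∈ Zs, MeasurableSet (B z) := fun z hz => (hBc z hz).isClosed.measurableSet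
  have hBo : ∀ z ∈ Zs, IsOpen (B' z) := by
    intro z hz
    have h := hr z ((hmem z).1 hz)
    exact (chartAt (EE d) z).isOpen_image_symm_of_subset_target Metric.isOpen_ball
      (Metric.ball_subset_closedBall.trans h.2.1)
  have hBB : ∀ z, B' z ⊆ B z := fun z => image_mono Metric.ball_subset_closedBall
  have hzB : ∀ z ∈ Zs, z ∈ B' z := by
    intro z hz
    have h := hr z ((hmem z).1 hz)
    refine ⟨chartAt (EE d) z z, Metric.mem_ball_self h.1, ?_⟩
    exact (chartAt (EE d) z).left_inv (mem_chart_source (EE d) z)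
  have hpd : (Zs : Set M).PairwiseDisjoint B := by
    intro z hz w hw hzw
    have hz' : X.IsZero z := (hmem z).1 hz
    have hw' : X.IsZero w := (hmem w).1 hw
    exact (hdis hz' hw' hzw).mono (hr z hz').2.2.1 (hr w hw').2.2.1
  have hcont : ∀ t : ℝ, Continuous (glob (fun p => UU (g.mat p) (X.vec p) t)) := fun t =>
    glob_continuous (sField_UU g X t)
  have hint : ∀ t : ℝ, Integrable (glob (fun p => UU (g.mat p) (X.vec p) t)) μ := by
    intro t
    obtain ⟨C, hC⟩ := isCompact_univ.exists_bound_of_continuousOn (hcont t).continuousOn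
    exact Integrable.of_bound (hcont t).measurable.aestronglyMeasurable C
      (Filter.Eventually.of_forall fun m => hC m (mem_univ m))
  have hUm : MeasurableSet (⋃ z ∈ Zs, B z) :=
    Finset.measurableSet_biUnion Zs hBm
  have hsplit : ∀ t : ℝ, ∫ m, glob (fun p => UU (g.mat p) (X.vec p) t) m ∂μ =
      (∑ z ∈ Zs, ∫ y in Metric.closedBall (chartAt (EE d) z z) (r z),
        UU (g.mat z) (X.vec z) t y * dens (g.mat z) y) +
      ∫ m in (⋃ z ∈ Zs, B z)ᶜ, glob (fun p => UU (g.mat p) (X.vec p) t) m ∂μ := by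
    intro t
    rw [← integral_add_compl hUm (hint t), integral_biUnion_finset Zs hBm hpd
      (fun z _ => (hint t).integrableOn)]
    congr 1
    refine Finset.sum_congr rfl fun z hz => ?_
    have h := hr z ((hmem z).1 hz)
    rw [integral_set_chart g hμ z (hcont t).measurable h.2.1
      Metric.isClosed_closedBall.measurableSet (hBm z hz)]
    refine setIntegral_congr_fun Metric.isClosed_closedBall.measurableSet fun y hy => ?_
    exact congrArg (fun v => v * dens (g.mat z) y) (glob_symm (sField_UU g X t) (h.2.1 hy))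
  have hK : IsCompact (⋃ z ∈ Zs, B' z)ᶜ := by
    apply IsClosed.isCompact
    apply IsOpen.isClosed_compl
    exact isOpen_biUnion hBo
  have haway := away_limit g (μ := μ) X hK hUm.compl
    (compl_subset_compl.2 (iUnion₂_mono fun z _ => hBB z)) (by
      intro m hm hz
      exact hm (mem_biUnion ((hmem m).2 hz) (hzB m ((hmem m).2 hz))))
  have hsum : Tendsto (fun t : ℝ => ∑ z ∈ Zs,
      ∫ y in Metric.closedBall (chartAt (EE d) z z) (r z),
        UU (g.mat z) (X.vec z) t y * dens (g.mat z) y) atTop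
        (𝓝 (∑ z ∈ Zs, Real.sqrt (2 * Real.pi) ^ d * (X.index z : ℝ))) :=
    tendsto_finsetSum _ fun z hz => (hr z ((hmem z).1 hz)).2.2.2
  have hidx : (X.indexSum : ℝ) = ∑ z ∈ Zs, (X.index z : ℝ) := by
    have : X.indexSum = ∑ z ∈ Zs, X.index z :=
      finsum_mem_eq_finite_toFinset_sum (fun z => X.index z) hfin
    rw [this]
    push_cast
    rfl
  have := hsum.add haway
  rw [add_zero, ← Finset.mul_sum, ← hidx] at this
  exact this.congr fun t => (hsplit t).symm

end H79G
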