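import Pool.Agent.Lib.H79G.P1
import Pool.Agent.Lib.H79G.E4
import Pool.Agent.Lib.H79G.Z7

/-!
# H79G chunk F1 (M): the Gauss-Bonnet-Chern theorem, the sign principle

`gbc`: `integral_UU_const` (I8), `global_limit` (Z7), uniqueness of limits, and
`UU G X 0 x = evM 0 (PC (cuv G x))` (`exp 0 = 1`, `0 • A = 0`).
`sign_principle`: `μ` from `exists_vol` with the Borel sigma algebra (`borel M`), `vol_finite`; choose `E` by
`exists_frame` at every point; by `gb_frame` the integrand of `gbc` is `gaussBonnet / (4^n n!)`, so `ε` times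
the integral is `≥ 0`, and `> 0` if the pointwise inequality is strict at some point `m`, as the integrand
`glob (fun p => UU (g.mat p) (X.vec p) 0)` is continuous (`sField_UU`, `glob_continuous`) and nonempty open
sets have positive measure (`chMeas_apply`: the image in a chart is a nonempty open set and the density
is positive; compare `vol_openPos` in `Lib/H60E/D4.lean`).  Independence of the field: all the
nondegenerate fields have the same `indexSum` by `gbc`.
-/

open scoped Manifold ContDiff
open Set H31R MeasureTheory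

namespace H79G

theorem F1_UU_zero {d : ℕ} (G : EE d → Mt d) (X : EE d → Fin d → ℝ) (x : EE d) :
    UU G X 0 x = evM 0 (PC (cuv G x)) := by
  unfold UU
  rw [zero_smul]
  simp

theorem gbc {d : ℕ} {M : Type} [TopologicalSpace M] [ChartedSpace (EE d) M]
    [MeasurableSpace M] [BorelSpace M] [IsManifold (𝓡 d) ∞ M] [T2Space M] [CompactSpace M]
    (g : Ch.Metric d M) {μ : Measure M} (hμ : IsVol g μ) [IsFiniteMeasure μ]
    (X : VField d M) (hX : X.Nondegenerate) :
    ∫ m, evM 0 (PC (cuv (g.mat m) (chartAt (EE d) m m))) ∂μ =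
      Real.sqrt (2 * Real.pi) ^ d * (X.indexSum : ℝ) := by
  have h1 := global_limit g hμ X hX
  have h2 : Filter.Tendsto (fun t : ℝ => ∫ m, glob (fun p => UU (g.mat p) (X.vec p) t) m ∂μ)
      Filter.atTop (nhds (∫ m, glob (fun p => UU (g.mat p) (X.vec p) 0) m ∂μ)) :=
    tendsto_const_nhds.congr fun t => (integral_UU_const g hμ X t).symm
  rw [← tendsto_nhds_unique h2 h1]
  refine integral_congr_ae (Filter.Eventually.of_forall fun m => ?_)
  exact (F1_UU_zero _ _ _).symm

/-- Nonempty open sets have positive Riemannian measure. -/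
theorem F1_openPos {d : ℕ} {M : Type} [TopologicalSpace M] [ChartedSpace (EE d) M]
    [MeasurableSpace M] [BorelSpace M] [IsManifold (𝓡 d) ∞ M] (g : Ch.Metric d M)
    {μ : Measure M} (hμ : IsVol g μ) : μ.IsOpenPosMeasure := by
  refine ⟨fun U hU hne h0 => ?_⟩
  obtain ⟨m, hm⟩ := hne
  set T : Set M := U ∩ (chartAt (EE d) m).source with hT
  have hTo : IsOpen T := hU.inter (chartAt (EE d) m).open_source
  have hT0 : μ T = 0 := measure_mono_null inter_subset_left h0
  rw [hμ m T hTo.measurableSet inter_subset_right, chMeas_apply g m hTo.measurableSet] at hT0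
  set S : Set (EE d) := (chartAt (EE d) m).target ∩ (chartAt (EE d) m).symm ⁻¹' T with hSd
  have hS : IsOpen S := (chartAt (EE d) m).symm.isOpen_inter_preimage hTo
  have hmS : chartAt (EE d) m m ∈ S := by
    refine ⟨mem_chart_target (EE d) m, ?_⟩
    show (chartAt (EE d) m).symm (chartAt (EE d) m m) ∈ T
    rw [(chartAt (EE d) m).left_inv (mem_chart_source (EE d) m)]
    exact ⟨hm, mem_chart_source (EE d) m⟩
  have hcont : ContinuousOn (dens (g.mat m)) S :=
    ((metOn g m).smooth_dens.continuousOn).mono inter_subset_left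
  rw [lintegral_eq_zero_iff' (hcont.aemeasurable hS.measurableSet).ennreal_ofReal] at hT0
  have h3 : ∀ᵐ y ∂(volume.restrict S), y ∈ S := ae_restrict_mem hS.measurableSet
  have h4 : ∀ᵐ y ∂(volume.restrict S), False := by
    filter_upwards [hT0, h3] with y hy hy2
    have h5 := (metOn g m).dens_pos hy2.1
    have h6 : ENNReal.ofReal (dens (g.mat m) y) = 0 := hy
    rw [ENNReal.ofReal_eq_zero] at h6
    exact absurd h5 (not_lt.2 h6)
  have h5 : volume.restrict S = 0 := by
    rw [← ae_eq_bot]
    exact Filter.eventually_false_iff_eq_bot.1 h4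
  rw [Measure.restrict_eq_zero] at h5
  exact hS.measure_ne_zero volume ⟨_, hmS⟩ h5

/-- Pointwise signs of the Gauss-Bonnet-Chern integrand give the sign of the Euler characteristic. -/
theorem sign_principle (n : ℕ) (M : Closed (2 * n)) (g : Ch.Metric (2 * n) M.carrier) (ε : ℝ)
    (h : ∀ p : M.carrier, ∀ y ∈ (chartAt (EE (2 * n)) p).target, ∀ E : Mt (2 * n),
      E.transpose * g.mat p y * E = 1 →
        0 ≤ ε * Pool.Agent.H69Hopf.gaussBonnet n (frameR (riem (g.mat p) y) E)) :
    ∃ χ : ℤ, IsEulerCharacteristic (2 * n) M.carrier χ ∧ 0 ≤ ε * χ ∧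
      ((∃ m : M.carrier, ∀ E : Mt (2 * n),
        E.transpose * g.mat m (chartAt (EE (2 * n)) m m) * E = 1 →
          0 < ε * Pool.Agent.H69Hopf.gaussBonnet n
            (frameR (riem (g.mat m) (chartAt (EE (2 * n)) m m)) E)) →
        0 < ε * χ) := by
  let _ : MeasurableSpace M.carrier := borel M.carrier
  have : BorelSpace M.carrier := ⟨rfl⟩
  obtain ⟨μ, hμ⟩ := exists_vol g
  have hfin := vol_finite g hμ
  have hopen := F1_openPos g hμ
  obtain ⟨X0, hX0⟩ := E4_exists_nondegenerate (2 * n) M.carrier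
  have hc : 0 < Real.sqrt (2 * Real.pi) ^ (2 * n) := by positivity
  -- independence of the field
  have hind : ∀ X : VField (2 * n) M.carrier, X.Nondegenerate → X.indexSum = X0.indexSum := by
    intro X hX
    have h1 := gbc g hμ X hX
    rw [gbc g hμ X0 hX0] at h1
    have h2 := mul_left_cancel₀ hc.ne' h1
    exact_mod_cast h2.symm
  -- the integrand
  have hfr : ∀ m : M.carrier, ∃ E : Mt (2 * n),
      E.transpose * g.mat m (chartAt (EE (2 * n)) m m) * E = 1 := fun m =>
    exists_frame _ (fun i j => (metOn g m).symm _ (mem_chart_target _ m) i j)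
      fun v hv => (metOn g m).pos _ (mem_chart_target _ m) v hv
  have hD : (0 : ℝ) < 4 ^ n * n.factorial := by positivity
  have hval : ∀ (m : M.carrier) (E : Mt (2 * n)),
      E.transpose * g.mat m (chartAt (EE (2 * n)) m m) * E = 1 →
      ε * evM 0 (PC (cuv (g.mat m) (chartAt (EE (2 * n)) m m))) =
        (ε * Pool.Agent.H69Hopf.gaussBonnet n
            (frameR (riem (g.mat m) (chartAt (EE (2 * n)) m m)) E)) / (4 ^ n * n.factorial) := by
    intro m E hE
    rw [gb_frame (metOn g m) (mem_chart_target _ m) hE]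
    ring
  have hpt : ∀ m : M.carrier, 0 ≤ ε * evM 0 (PC (cuv (g.mat m) (chartAt (EE (2 * n)) m m))) := by
    intro m
    obtain ⟨E, hE⟩ := hfr m
    rw [hval m E hE]
    exact div_nonneg (h m _ (mem_chart_target _ m) E hE) hD.le
  have hint : ∫ m, ε * evM 0 (PC (cuv (g.mat m) (chartAt (EE (2 * n)) m m))) ∂μ =
      Real.sqrt (2 * Real.pi) ^ (2 * n) * (ε * (X0.indexSum : ℝ)) := by
    rw [integral_const_mul, gbc g hμ X0 hX0]
    ring
  refine ⟨X0.indexSum, ⟨⟨X0, hX0⟩, hind⟩, ?_, ?_⟩
  · have h1 : 0 ≤ ∫ m, ε * evM 0 (PC (cuv (g.mat m) (chartAt (EE (2 * n)) m m))) ∂μ :=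
      integral_nonneg hpt
    rw [hint] at h1
    exact nonneg_of_mul_nonneg_right h1 hc
  · rintro ⟨m, hm⟩
    have hcont : Continuous fun m : M.carrier =>
        ε * evM 0 (PC (cuv (g.mat m) (chartAt (EE (2 * n)) m m))) := by
      have h1 := glob_continuous (sField_UU g X0 0)
      have h2 : (fun m : M.carrier =>
          ε * evM 0 (PC (cuv (g.mat m) (chartAt (EE (2 * n)) m m)))) =
          fun m => ε * glob (fun p => UU (g.mat p) (X0.vec p) 0) m := by
        funext m
        exact congrArg (fun v => ε * v) (F1_UU_zero _ _ _).symm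
      rw [h2]
      exact continuous_const.mul h1
    obtain ⟨E, hE⟩ := hfr m
    have hpos : 0 < ε * evM 0 (PC (cuv (g.mat m) (chartAt (EE (2 * n)) m m))) := by
      rw [hval m E hE]
      exact div_pos (hm E hE) hD
    have h1 : 0 < ∫ m, ε * evM 0 (PC (cuv (g.mat m) (chartAt (EE (2 * n)) m m))) ∂μ :=
      hcont.integral_pos_of_hasCompactSupport_nonneg_nonzero
        (HasCompactSupport.of_compactSpace _) hpt hpos.ne'
    rw [hint] at h1
    exact pos_of_mul_pos_right h1 hc.le

end H79G
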