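import Pool.Agent.Lib.H79G.P1
import Pool.Agent.Lib.HopfSix.Defs

/-!
# H79G chunk P2 (M): complex sectional curvature in coordinates

`complex_frame`: `complexCurv (frameR R E) z w = complexCurv R (E z) (E w)` and the same for `realCurv`
(expand; `E` real).  `indep_frame`: `E` is invertible because `Eᵀ G0 E = 1`.
`gb_three`: `2 * 3 = 6` by `rfl`, `Fin.prod_univ_three` (see also `gb_three'` in `Lib/H60E/D6.lean`).
-/

open scoped Manifold ContDiff
open Set H31R MeasureTheory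

namespace H79G

/-- The value `R(z, w, z̄, w̄)` for complex vectors `z`, `w`: the real part of the sum of
`R i j k l * z i * w j * conj (z k) * conj (w l)` (for a curvature tensor the sum is real). -/
noncomputable def complexCurv {d : ℕ} (R : Fin d → Fin d → Fin d → Fin d → ℝ)
    (z w : Fin d → ℂ) : ℝ :=
  (∑ i, ∑ j, ∑ k, ∑ l, (R i j k l : ℂ) * z i * w j * (starRingEnd ℂ) (z k) *
    (starRingEnd ℂ) (w l)).re

/-- The value `R(x, v, x, v)` for real vectors `x`, `v`. -/
def realCurv {d : ℕ} (R : Fin d → Fin d → Fin d → Fin d → ℝ) (x v : Fin d → ℝ) : ℝ :=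
  ∑ i, ∑ j, ∑ k, ∑ l, R i j k l * x i * v j * x k * v l

theorem gb_three (R : Fin 6 → Fin 6 → Fin 6 → Fin 6 → ℝ) :
    Pool.Agent.H69Hopf.gaussBonnet 3 R = HopfSix.gaussBonnet R := by
  unfold Pool.Agent.H69Hopf.gaussBonnet HopfSix.gaussBonnet
  refine Finset.sum_congr rfl fun σ _ => Finset.sum_congr rfl fun τ _ => ?_
  rw [Fin.prod_univ_three]
  rfl

theorem P2_pull3 {K : Type*} [CommRing K] {d : ℕ} (A S T U : K) (f : Fin d → K) :
    A * (∑ i, f i) * S * T * U = ∑ i, A * f i * S * T * U := by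
  rw [Finset.mul_sum, Finset.sum_mul, Finset.sum_mul, Finset.sum_mul]

theorem P2_pull2 {K : Type*} [CommRing K] {d : ℕ} (A S T : K) (f : Fin d → K) :
    A * (∑ i, f i) * S * T = ∑ i, A * f i * S * T := by
  rw [Finset.mul_sum, Finset.sum_mul, Finset.sum_mul]

theorem P2_pull1 {K : Type*} [CommRing K] {d : ℕ} (A S : K) (f : Fin d → K) :
    A * (∑ i, f i) * S = ∑ i, A * f i * S := by
  rw [Finset.mul_sum, Finset.sum_mul]

/-- The expansion of a four-linear form at four vectors `E p`, `E q`, `E r`, `E s`. -/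
theorem P2_expand {K : Type*} [CommRing K] {d : ℕ} (R : Fin d → Fin d → Fin d → Fin d → K)
    (E : Fin d → Fin d → K) (p q r s : Fin d → K) :
    ∑ i, ∑ j, ∑ k, ∑ l, (∑ a, ∑ b, ∑ c, ∑ e, R a b c e * E a i * E b j * E c k * E e l) *
      p i * q j * r k * s l =
    ∑ a, ∑ b, ∑ c, ∑ e, R a b c e * (∑ i, E a i * p i) * (∑ j, E b j * q j) *
      (∑ k, E c k * r k) * (∑ l, E e l * s l) := by
  have h1 : ∀ a b c e, R a b c e * (∑ i, E a i * p i) * (∑ j, E b j * q j) *
      (∑ k, E c k * r k) * (∑ l, E e l * s l) = ∑ i, ∑ j, ∑ k, ∑ l,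
        R a b c e * E a i * E b j * E c k * E e l * p i * q j * r k * s l := by
    intro a b c e
    rw [P2_pull3]
    refine Finset.sum_congr rfl fun i _ => ?_
    rw [P2_pull2]
    refine Finset.sum_congr rfl fun j _ => ?_
    rw [P2_pull1]
    refine Finset.sum_congr rfl fun k _ => ?_
    rw [Finset.mul_sum]
    refine Finset.sum_congr rfl fun l _ => ?_
    ring
  have h2 : ∀ i j k l, (∑ a, ∑ b, ∑ c, ∑ e, R a b c e * E a i * E b j * E c k * E e l) *
      p i * q j * r k * s l = ∑ a, ∑ b, ∑ c, ∑ e,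
        R a b c e * E a i * E b j * E c k * E e l * p i * q j * r k * s l := by
    intro i j k l
    simp only [Finset.sum_mul]
  have h3 : ∀ (F : Fin d → Fin d → Fin d → Fin d → Fin d → Fin d → Fin d → Fin d → K),
      ∑ i, ∑ j, ∑ k, ∑ l, ∑ a, ∑ b, ∑ c, ∑ e, F i j k l a b c e =
      ∑ a, ∑ b, ∑ c, ∑ e, ∑ i, ∑ j, ∑ k, ∑ l, F i j k l a b c e := by
    intro F
    have e1 : ∀ H : Fin d → Fin d → Fin d → Fin d → K, ∑ i, ∑ j, ∑ k, ∑ l, H i j k l =
        ∑ t : Fin d × Fin d × Fin d × Fin d, H t.1 t.2.1 t.2.2.1 t.2.2.2 := by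
      intro H
      rw [Fintype.sum_prod_type]
      refine Finset.sum_congr rfl fun i _ => ?_
      rw [Fintype.sum_prod_type]
      refine Finset.sum_congr rfl fun j _ => ?_
      rw [Fintype.sum_prod_type]
    rw [e1, e1]
    have e2 : ∀ t : Fin d × Fin d × Fin d × Fin d, ∑ a, ∑ b, ∑ c, ∑ e,
        F t.1 t.2.1 t.2.2.1 t.2.2.2 a b c e = ∑ u : Fin d × Fin d × Fin d × Fin d,
        F t.1 t.2.1 t.2.2.1 t.2.2.2 u.1 u.2.1 u.2.2.1 u.2.2.2 := fun t => e1 _
    have e3 : ∀ u : Fin d × Fin d × Fin d × Fin d, ∑ i, ∑ j, ∑ k, ∑ l,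
        F i j k l u.1 u.2.1 u.2.2.1 u.2.2.2 = ∑ t : Fin d × Fin d × Fin d × Fin d,
        F t.1 t.2.1 t.2.2.1 t.2.2.2 u.1 u.2.1 u.2.2.1 u.2.2.2 := fun u =>
      e1 fun i j k l => F i j k l u.1 u.2.1 u.2.2.1 u.2.2.2
    simp only [e2, e3]
    exact Finset.sum_comm
  simp only [h1, h2]
  exact h3 fun i j k l a b c e => R a b c e * E a i * E b j * E c k * E e l * p i * q j * r k * s l

theorem complex_frame {d : ℕ} (R : Cu d) (E : Mt d) (z w : Fin d → ℂ) :
    complexCurv (frameR R E) z w = complexCurv R (fun a => ∑ i, (E a i : ℂ) * z i)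
      (fun a => ∑ i, (E a i : ℂ) * w i) := by
  unfold complexCurv
  congr 1
  have h := P2_expand (fun a b c e => (R a b c e : ℂ)) (fun a i => (E a i : ℂ)) z w
    (fun k => (starRingEnd ℂ) (z k)) (fun l => (starRingEnd ℂ) (w l))
  have e1 : ∀ (u : Fin d → ℂ) (c : Fin d), (starRingEnd ℂ) (∑ i, (E c i : ℂ) * u i) =
      ∑ i, (E c i : ℂ) * (starRingEnd ℂ) (u i) := by
    intro u c
    rw [map_sum]
    refine Finset.sum_congr rfl fun i _ => ?_
    rw [map_mul, Complex.conj_ofReal]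
  simp only [e1]
  rw [← h]
  refine Finset.sum_congr rfl fun i _ => Finset.sum_congr rfl fun j _ =>
    Finset.sum_congr rfl fun k _ => Finset.sum_congr rfl fun l _ => ?_
  unfold frameR
  push_cast
  rfl

theorem real_frame {d : ℕ} (R : Cu d) (E : Mt d) (x v : Fin d → ℝ) :
    realCurv (frameR R E) x v = realCurv R (E.mulVec x) (E.mulVec v) :=
  P2_expand R E x v x v

theorem indep_frame {d : ℕ} {G0 E : Mt d} (hE : E.transpose * G0 * E = 1) {x v : Fin d → ℝ}
    (h : LinearIndependent ℝ ![x, v]) : LinearIndependent ℝ ![E.mulVec x, E.mulVec v] := by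
  have hinj : Function.Injective E.mulVec := by
    intro a b hab
    have h1 : (E.transpose * G0).mulVec (E.mulVec a) = (E.transpose * G0).mulVec (E.mulVec b) := by
      rw [hab]
    rw [Matrix.mulVec_mulVec, Matrix.mulVec_mulVec, hE, Matrix.one_mulVec, Matrix.one_mulVec] at h1
    exact h1
  have h2 : ![E.mulVec x, E.mulVec v] = fun i => E.mulVecLin (![x, v] i) := by
    funext i
    fin_cases i <;> rfl
  rw [h2]
  exact h.map' E.mulVecLin (LinearMap.ker_eq_bot.2 hinj)

end H79G
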