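import Pool.Agent.Lib.H79G.B3
import Pool.Agent.Lib.H69.Hopf.Defs

/-!
# H79G chunk B4 (M): the curvature tensor is an algebraic curvature tensor

`riem_eq`: `riem G x i j k l = (G x * Rm G i j x) k l` (definitions; `chM G j y a l = chr G a j l y`).
Skewness in `i j`: `Rm_skew`. Skewness in `k l`: `Rm_compat` (`G` symmetric). First Bianchi identity
`Rm_ij(a,b) + Rm_jb(a,i) + Rm_bi(a,j) = 0` from the symmetry of the Christoffel symbols
(`N_chr_symm`, on `U`, so also for the derivatives: `N_pd_congr_on`). Pair symmetry: the usual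
algebraic consequence of the three identities (octahedron).
-/

open scoped Manifold ContDiff
open Set H31R MeasureTheory MvPolynomial

namespace H79G

variable {d : ℕ} {U : Set (EE d)} {G : EE d → Mt d} {X : EE d → Fin d → ℝ}

theorem riem_eq (G : EE d → Mt d) (x : EE d) (i j k l : Fin d) :
    riem G x i j k l = (G x * Rm G i j x) k l := by
  unfold riem
  rw [Matrix.mul_apply]
  refine Finset.sum_congr rfl fun a _ => ?_
  congr 1
  unfold Rm
  rw [Matrix.add_apply, Matrix.sub_apply, Matrix.sub_apply, Matrix.mul_apply, Matrix.mul_apply,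
    ← Finset.sum_sub_distrib]
  rfl

/-- First Bianchi identity for the curvature matrices. -/
theorem B4_bianchi1 (h : MetOn U G) {x : EE d} (hx : x ∈ U) (i j b a : Fin d) :
    Rm G i j x a b + Rm G j b x a i + Rm G b i x a j = 0 := by
  have c1 : ∀ p q : Fin d, chM G p x a q = chM G q x a p := fun p q =>
    N_chr_symm h.hU hx h.symm a p q
  have c2 : ∀ p q c : Fin d, chM G p x c q = chM G q x c p := fun p q c =>
    N_chr_symm h.hU hx h.symm c p q
  have c3 : ∀ p q r : Fin d, pdM p (chM G q) x a r = pdM p (chM G r) x a q := fun p q r =>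
    N_pd_congr_on h.hU hx p fun y hy => N_chr_symm h.hU hy h.symm a q r
  unfold Rm
  simp only [Matrix.add_apply, Matrix.sub_apply, Matrix.mul_apply]
  have e1 : ∑ c, chM G i x a c * chM G j x c b = ∑ c, chM G i x a c * chM G b x c j :=
    Finset.sum_congr rfl fun c _ => by rw [c2 j b c]
  have e2 : ∑ c, chM G j x a c * chM G i x c b = ∑ c, chM G j x a c * chM G b x c i :=
    Finset.sum_congr rfl fun c _ => by rw [c2 i b c]
  have e3 : ∑ c, chM G b x a c * chM G j x c i = ∑ c, chM G b x a c * chM G i x c j :=
    Finset.sum_congr rfl fun c _ => by rw [c2 j i c]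
  rw [e1, e2, e3, c3 i j b, c3 j i b, c3 b j i]
  ring

theorem B4_skew (G : EE d → Mt d) (x : EE d) (i j k l : Fin d) :
    riem G x i j k l = - riem G x j i k l := by
  rw [riem_eq, riem_eq, Rm_skew G x i j, Matrix.mul_neg, Matrix.neg_apply]

theorem B4_skew2 (h : MetOn U G) {x : EE d} (hx : x ∈ U) (i j k l : Fin d) :
    riem G x i j k l = - riem G x i j l k := by
  have e1 := congrFun (congrFun (Rm_compat h hx i j) k) l
  have hsym : (G x).transpose = G x := by
    ext a b
    exact h.symm x hx b a
  have e2 : (Rm G i j x).transpose * G x = (G x * Rm G i j x).transpose := by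
    rw [Matrix.transpose_mul, hsym]
  rw [e2, Matrix.add_apply, Matrix.transpose_apply, Matrix.zero_apply] at e1
  rw [riem_eq, riem_eq]
  linarith

theorem B4_bianchi (h : MetOn U G) {x : EE d} (hx : x ∈ U) (i j l k : Fin d) :
    riem G x i j k l + riem G x j l k i + riem G x l i k j = 0 := by
  rw [riem_eq, riem_eq, riem_eq, Matrix.mul_apply, Matrix.mul_apply, Matrix.mul_apply,
    ← Finset.sum_add_distrib, ← Finset.sum_add_distrib]
  refine Finset.sum_eq_zero fun a _ => ?_
  rw [← mul_add, ← mul_add, B4_bianchi1 h hx i j l a, mul_zero]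

theorem riem_algCurv (h : MetOn U G) {x : EE d} (hx : x ∈ U) :
    Pool.Agent.H69Hopf.IsAlgCurv (riem G x) := by
  have s1 := B4_skew G x
  have s2 := B4_skew2 h hx
  have bi : ∀ i j k l, riem G x i j k l + riem G x j k i l + riem G x k i j l = 0 := by
    intro i j k l
    have := B4_bianchi h hx i j k l
    rw [s2 i j k l, s2 j k i l, s2 k i j l]
    linarith
  refine ⟨s1, ?_, bi⟩
  intro i j k l
  have b1 := bi i j k l
  have b2 := bi j k l i
  have b3 := bi k l i j
  have b4 := bi l i j k
  have t1 := s2 j k l i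
  have t2 := s2 k l j i
  have t3 := s1 i k l j
  have t4 := s2 k i l j
  have t5 := s1 j l i k
  have t6 := s2 l j i k
  have t7 := s2 l i k j
  have t8 := s2 i j l k
  linarith

end H79G
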