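import Pool.Agent.Lib.H79G.A0

/-!
# H79G chunk A10 (M): invariance under linear substitutions

`subP L R` is the algebra homomorphism with `X(i,a) ↦ ∑_{k,c} L i k R a c X(k,c)`, so that
`evM A (subP L R f) = evM (L * A * Rᵀ) f`.
(1) `dP k c (subP L R f) = ∑_{i,a} L i k R a c • subP L R (dP i a f)` (chain rule; induction on `f`).
(2) `Dop C (subP L R f) = subP L R (Dop (trC L R C) f)`.
(3) `eD C (subP L R f) = subP L R (eD (trC L R C) f)`.
(4) `subP L R (dtP d) = C (det L * det R) * dtP d` (`Matrix.det_mul`, `AlgHom.map_det`).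
Hence `(det L det R) PC C = subP L R (PC (trC L R C))`; evaluate at `A`, or apply `dP k c` first.
-/

open scoped Manifold ContDiff
open Set H31R MeasureTheory MvPolynomial

namespace H79G

variable {d : ℕ}

theorem A10_subP_X (L R : Mt d) (p : Fin d × Fin d) : subP L R (X p) =
    ∑ k, ∑ c, MvPolynomial.C (L p.1 k * R p.2 c) * MvPolynomial.X (k, c) := by
  unfold subP
  rw [aeval_X]

theorem A10_evM_X (A : Mt d) (p : Fin d × Fin d) : evM A (X p) = A p.1 p.2 := by
  unfold evM
  rw [aeval_X]

theorem evM_subP (L R A : Mt d) (f : Po d) : evM A (subP L R f) = evM (L * A * R.transpose) f := by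
  have h : (evM A).comp (subP L R) = evM (L * A * R.transpose) := by
    apply MvPolynomial.algHom_ext
    intro p
    rw [AlgHom.comp_apply, A10_subP_X, A10_evM_X, map_sum]
    simp only [map_sum, map_mul, A10_evM_X]
    rw [Matrix.mul_apply]
    simp only [Matrix.mul_apply, Matrix.transpose_apply, Finset.sum_mul]
    rw [Finset.sum_comm]
    refine Finset.sum_congr rfl fun c _ => Finset.sum_congr rfl fun k _ => ?_
    unfold evM
    rw [aeval_C, aeval_C]
    show L p.1 k * R p.2 c * A k c = L p.1 k * A k c * R p.2 c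
    ring
  exact congrArg (fun φ => φ f) h

theorem A10_dP_mul (k a : Fin d) (f g : Po d) :
    dP k a (f * g) = dP k a f * g + f * dP k a g := by
  show pderiv (k, a) (f * g) = _
  rw [pderiv_mul]
  rfl

theorem A10_dP_X (k a j b : Fin d) :
    dP k a (X (j, b)) = if k = j ∧ a = b then 1 else 0 := by
  show pderiv (k, a) (X (j, b)) = _
  rw [pderiv_X, Pi.single_apply]
  by_cases h : k = j ∧ a = b
  · rw [if_pos h, if_pos (by rw [h.1, h.2])]
  · rw [if_neg h, if_neg (fun hh => h ?_)]
    exact ⟨(congrArg Prod.fst hh).symm, (congrArg Prod.snd hh).symm⟩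

theorem A10_dP_C (k a : Fin d) (r : ℝ) : dP k a (MvPolynomial.C r) = 0 := pderiv_C

theorem A10_sum2 {M : Type*} [AddCommMonoid M] (k c : Fin d) (F : Fin d → Fin d → M) :
    ∑ i, ∑ a, (if i = k ∧ a = c then F i a else 0) = F k c := by
  rw [Finset.sum_eq_single k]
  · rw [Finset.sum_eq_single c]
    · rw [if_pos ⟨rfl, rfl⟩]
    · intro a _ ha
      rw [if_neg (fun h => ha h.2)]
    · intro h
      exact absurd (Finset.mem_univ c) h
  · intro i _ hi
    refine Finset.sum_eq_zero fun a _ => ?_
    rw [if_neg (fun h => hi h.1)]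
  · intro h
    exact absurd (Finset.mem_univ k) h

theorem dP_subP (L R : Mt d) (k c : Fin d) (f : Po d) :
    dP k c (subP L R f) = ∑ i, ∑ a, (L i k * R a c) • subP L R (dP i a f) := by
  induction f using MvPolynomial.induction_on with
  | C r =>
    have h1 : subP L R (MvPolynomial.C r) = MvPolynomial.C r := by
      unfold subP
      rw [aeval_C]
      rfl
    rw [h1, A10_dP_C]
    simp only [A10_dP_C, map_zero, smul_zero, Finset.sum_const_zero]
  | add f g hf hg =>
    rw [map_add, map_add, hf, hg]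
    simp only [map_add, smul_add, Finset.sum_add_distrib]
  | mul_X f p hf =>
    obtain ⟨i0, a0⟩ := p
    rw [map_mul, A10_dP_mul, hf]
    have h1 : dP k c (subP L R (X (i0, a0))) = MvPolynomial.C (L i0 k * R a0 c) := by
      rw [A10_subP_X, map_sum]
      simp only [map_sum, A10_dP_mul, A10_dP_C, zero_mul, zero_add, A10_dP_X, mul_ite, mul_one,
        mul_zero]
      have h2 : ∀ i a : Fin d, (if k = i ∧ c = a then
          MvPolynomial.C (σ := Fin d × Fin d) (L i0 i * R a0 a) else 0) =
          if i = k ∧ a = c then MvPolynomial.C (L i0 i * R a0 a) else 0 := by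
        intro i a
        by_cases h : i = k ∧ a = c
        · rw [if_pos h, if_pos ⟨h.1.symm, h.2.symm⟩]
        · rw [if_neg h, if_neg (fun hh => h ⟨hh.1.symm, hh.2.symm⟩)]
      simp only [h2]
      exact A10_sum2 k c fun i a => MvPolynomial.C (L i0 i * R a0 a)
    rw [h1]
    simp only [A10_dP_mul, map_add, map_mul, smul_add, Finset.sum_add_distrib]
    congr 1
    · simp only [Finset.sum_mul, smul_mul_assoc]
    · have h3 : ∀ i a : Fin d, (L i k * R a c) • (subP L R f * subP L R (dP i a (X (i0, a0)))) =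
          if i = i0 ∧ a = a0 then (L i k * R a c) • subP L R f else 0 := by
        intro i a
        rw [A10_dP_X]
        split_ifs
        · rw [map_one, mul_one]
        · rw [map_zero, mul_zero, smul_zero]
      simp only [h3]
      rw [A10_sum2 i0 a0 fun i a => (L i k * R a c) • subP L R f, ← map_mul,
        mul_comm (subP L R f), MvPolynomial.C_mul']

theorem A10_prod4 {M : Type*} [AddCommMonoid M] (G : Fin d → Fin d → Fin d → Fin d → M) :
    ∑ i, ∑ j, ∑ a, ∑ b, G i j a b =
      ∑ x : Fin d × Fin d × Fin d × Fin d, G x.1 x.2.1 x.2.2.1 x.2.2.2 := by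
  simp only [Fintype.sum_prod_type]

theorem A10_swap {M : Type*} [AddCommMonoid M]
    (F : Fin d → Fin d → Fin d → Fin d → Fin d → Fin d → Fin d → Fin d → M) :
    ∑ i, ∑ j, ∑ a, ∑ b, ∑ i', ∑ j', ∑ a', ∑ b', F i j a b i' j' a' b' =
      ∑ i', ∑ j', ∑ a', ∑ b', ∑ i, ∑ j, ∑ a, ∑ b, F i j a b i' j' a' b' := by
  rw [A10_prod4, A10_prod4]
  simp only [A10_prod4]
  exact Finset.sum_comm

theorem A10_Dop (L R : Mt d) (C : Cu d) (f : Po d) :
    Dop C (subP L R f) = subP L R (Dop (trC L R C) f) := by
  unfold Dop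
  simp only [LinearMap.smul_apply, LinearMap.sum_apply, Module.End.mul_apply, map_smul, map_sum]
  congr 1
  have h1 : ∀ i j a b : Fin d, C i j a b • dP i a (dP j b (subP L R f)) =
      ∑ i', ∑ j', ∑ a', ∑ b', (L i' i * L j' j * R a' a * R b' b * C i j a b) •
        subP L R (dP i' a' (dP j' b' f)) := by
    intro i j a b
    rw [dP_subP]
    simp only [map_sum, map_smul, dP_subP, Finset.smul_sum]
    have h2 : ∀ j' b' i' a' : Fin d, C i j a b • (L j' j * R b' b) • (L i' i * R a' a) •
        subP L R (dP i' a' (dP j' b' f)) = (L i' i * L j' j * R a' a * R b' b * C i j a b) •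
        subP L R (dP i' a' (dP j' b' f)) := by
      intro j' b' i' a'
      rw [smul_smul, smul_smul]
      congr 1
      ring
    simp only [h2]
    -- reorder j' b' i' a' into i' j' a' b'
    have h3 : ∀ j' : Fin d, ∑ b', ∑ i', ∑ a', (L i' i * L j' j * R a' a * R b' b * C i j a b) •
        subP L R (dP i' a' (dP j' b' f)) = ∑ i', ∑ a', ∑ b',
        (L i' i * L j' j * R a' a * R b' b * C i j a b) •
        subP L R (dP i' a' (dP j' b' f)) := by
      intro j'
      rw [Finset.sum_comm]
      refine Finset.sum_congr rfl fun i' _ => ?_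
      rw [Finset.sum_comm]
    simp only [h3]
    rw [Finset.sum_comm]
  simp only [h1]
  rw [A10_swap]
  refine Finset.sum_congr rfl fun i' _ => Finset.sum_congr rfl fun j' _ =>
    Finset.sum_congr rfl fun a' _ => Finset.sum_congr rfl fun b' _ => ?_
  unfold trC
  simp only [Finset.sum_smul]

theorem A10_Dop_pow (L R : Mt d) (C : Cu d) (s : ℕ) (f : Po d) :
    ((Dop C) ^ s) (subP L R f) = subP L R (((Dop (trC L R C)) ^ s) f) := by
  induction s with
  | zero => rfl
  | succ s ih => rw [pow_succ', Module.End.mul_apply, ih, A10_Dop, pow_succ', Module.End.mul_apply]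

theorem A10_eD (L R : Mt d) (C : Cu d) (f : Po d) :
    eD C (subP L R f) = subP L R (eD (trC L R C) f) := by
  unfold eD
  simp only [LinearMap.sum_apply, LinearMap.smul_apply, A10_Dop_pow, map_sum, map_smul]

theorem A10_det (L R : Mt d) : subP L R (dtP d) = (L.det * R.det) • dtP d := by
  unfold dtP
  rw [AlgHom.map_det]
  have h1 : (subP L R).mapMatrix (Matrix.mvPolynomialX (Fin d) (Fin d) ℝ) =
      L.map (MvPolynomial.C (σ := Fin d × Fin d)) * Matrix.mvPolynomialX (Fin d) (Fin d) ℝ *
        (R.map (MvPolynomial.C (σ := Fin d × Fin d))).transpose := by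
    ext1 i a
    rw [AlgHom.mapMatrix_apply, Matrix.map_apply, Matrix.mvPolynomialX_apply, A10_subP_X,
      Matrix.mul_apply]
    simp only [Matrix.mul_apply, Matrix.transpose_apply, Finset.sum_mul, Matrix.map_apply,
      Matrix.mvPolynomialX_apply]
    rw [Finset.sum_comm]
    refine Finset.sum_congr rfl fun c _ => Finset.sum_congr rfl fun k _ => ?_
    rw [map_mul]
    ring
  rw [h1, Matrix.det_mul, Matrix.det_mul, Matrix.det_transpose]
  have h2 : ∀ M : Mt d, (M.map (MvPolynomial.C (σ := Fin d × Fin d))).det =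
      MvPolynomial.C M.det := by
    intro M
    exact (RingHom.map_det (MvPolynomial.C (σ := Fin d × Fin d)) M).symm
  rw [h2, h2, ← MvPolynomial.C_mul', map_mul]
  ring

theorem PC_subP (L R : Mt d) (C : Cu d) :
    (L.det * R.det) • PC C = subP L R (PC (trC L R C)) := by
  unfold PC
  rw [← A10_eD, A10_det, map_smul]

theorem evM_PC_trC (L R A : Mt d) (C : Cu d) :
    evM (L * A * R.transpose) (PC (trC L R C)) = L.det * R.det * evM A (PC C) := by
  rw [← evM_subP, ← PC_subP, map_smul, smul_eq_mul]

theorem evM_dPC_trC (L R A : Mt d) (C : Cu d) (k c : Fin d) :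
    ∑ i, ∑ a, L i k * R a c * evM (L * A * R.transpose) (dP i a (PC (trC L R C))) =
      L.det * R.det * evM A (dP k c (PC C)) := by
  have h1 : (L.det * R.det) • dP k c (PC C) =
      ∑ i, ∑ a, (L i k * R a c) • subP L R (dP i a (PC (trC L R C))) := by
    rw [← dP_subP, ← PC_subP, map_smul]
  have h2 := congrArg (evM A) h1
  rw [map_smul, smul_eq_mul, map_sum] at h2
  simp only [map_sum, map_smul, smul_eq_mul, evM_subP] at h2
  exact h2.symm

end H79G
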