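import Pool.Agent.Lib.H79G.A0
import Pool.Agent.Lib.H88S.GB

/-!
# H79G chunk A11 (M): the value at `0` is the Gauss-Bonnet-Chern integrand

Use `Pool.Agent.H88S` (`Lib/H88S/Defs.lean`, `Ops.lean`, `GB.lean`: `ev0 ((dR R)^n detP) =
gaussBonnet n R` for every array `R`), where `PP N = (Idx N → ℝ)` are the coefficients of the
polynomials which are affine in each row.  Let `toPoly : PP N →ₗ[ℝ] Po N`,
`toPoly G = ∑ c : Idx N, G c • ∏ i, (match c i with | none => 1 | some j => X (i, j))`.  Then
`dP i j (toPoly G) = toPoly (dd i j G)`, `toPoly detP = dtP N` (expand `det` of the matrix `X`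
by multilinearity in the rows, `X i = ∑ j, X(i,j) • e_j`), `evM 0 (toPoly G) = ev0 G`.  Hence
`Dop R (toPoly G) = toPoly (1/4 dR' G)`, where `dR R = ∑ R i j k l • (dd i k * dd j l)` is exactly
`∑ C i j a b ∂_{ia} ∂_{jb}` for `R = C`.  So `evM 0 ((Dop C)^s (dtP (2n))) = (1/4)^s ev0 ((dR C)^s detP)`,
which is `0` for `s ≠ n` (for `s < n` because `(dR C)^s detP` is homogeneous of degree
`2 n - 2 s > 0`, or: `(Dop C)^s (dtP)` is homogeneous of that degree; for `s > n` by `Dop_pow_zero`) and
`(1/4)^n gaussBonnet n C` for `s = n`.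
-/

open scoped Manifold ContDiff
open Set H31R MeasureTheory MvPolynomial

namespace H79G

open Pool.Agent.H88S

variable {N : ℕ}

/-- The factor of the row i. -/
noncomputable def A11_fac (i : Fin N) : Option (Fin N) → Po N
  | none => 1
  | some j => X (i, j)

/-- The monomial of an index. -/
noncomputable def A11_mo (c : Idx N) : Po N := ∏ i, A11_fac i (c i)

/-- The polynomial with the given coefficients. -/
noncomputable def A11_tp (G : PP N) : Po N := ∑ c : Idx N, G c • A11_mo c

theorem A11_tp_smul (r : ℝ) (G : PP N) : A11_tp (r • G) = r • A11_tp G := by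
  unfold A11_tp
  rw [Finset.smul_sum]
  refine Finset.sum_congr rfl fun c _ => ?_
  rw [smul_smul]
  rfl

theorem A11_tp_sum {ι : Type*} (s : Finset ι) (G : ι → PP N) :
    A11_tp (∑ i ∈ s, G i) = ∑ i ∈ s, A11_tp (G i) := by
  unfold A11_tp
  rw [Finset.sum_comm]
  refine Finset.sum_congr rfl fun c _ => ?_
  rw [Finset.sum_apply, Finset.sum_smul]

theorem A11_dP_mul (k a : Fin N) (f g : Po N) :
    dP k a (f * g) = dP k a f * g + f * dP k a g := by
  show pderiv (k, a) (f * g) = _
  rw [pderiv_mul]
  rfl

theorem A11_dP_fac (i j k : Fin N) (o : Option (Fin N)) :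
    dP i j (A11_fac k o) = if k = i ∧ o = some j then 1 else 0 := by
  cases o with
  | none =>
    rw [if_neg (by simp)]
    exact pderiv_one
  | some l =>
    show pderiv (i, j) (X (k, l)) = _
    rw [pderiv_X, Pi.single_apply]
    by_cases h : k = i ∧ l = j
    · rw [if_pos (by rw [h.1, h.2]), if_pos ⟨h.1, by rw [h.2]⟩]
    · rw [if_neg, if_neg]
      · rintro ⟨h1, h2⟩
        exact h ⟨h1, Option.some.inj h2⟩
      · intro h1
        exact h ⟨congrArg Prod.fst h1, congrArg Prod.snd h1⟩

theorem A11_dP_prod (i j : Fin N) (c : Idx N) (s : Finset (Fin N)) (hs : i ∉ s) :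
    dP i j (∏ k ∈ s, A11_fac k (c k)) = 0 := by
  induction s using Finset.induction_on with
  | empty =>
    rw [Finset.prod_empty]
    exact pderiv_one
  | insert a s ha ih =>
    rw [Finset.mem_insert, not_or] at hs
    rw [Finset.prod_insert ha, A11_dP_mul, ih hs.2, A11_dP_fac,
      if_neg (fun h => hs.1 h.1.symm), zero_mul, mul_zero, add_zero]

theorem A11_mo_eq (i : Fin N) (c : Idx N) :
    A11_mo c = A11_fac i (c i) * ∏ k ∈ Finset.univ.erase i, A11_fac k (c k) :=
  (Finset.mul_prod_erase Finset.univ _ (Finset.mem_univ i)).symm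

theorem A11_dP_mo (i j : Fin N) (c : Idx N) :
    dP i j (A11_mo c) = if c i = some j then A11_mo (Function.update c i none) else 0 := by
  rw [A11_mo_eq i c, A11_dP_mul, A11_dP_prod i j c _ (Finset.notMem_erase i _), mul_zero, add_zero,
    A11_dP_fac]
  by_cases h : c i = some j
  · rw [if_pos ⟨rfl, h⟩, if_pos h, one_mul, A11_mo_eq i (Function.update c i none),
      Function.update_self]
    have h1 : A11_fac i (none : Option (Fin N)) = 1 := rfl
    rw [h1, one_mul]
    refine Finset.prod_congr rfl fun k hk => ?_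
    rw [Function.update_of_ne (Finset.ne_of_mem_erase hk)]
  · rw [if_neg (fun hh => h hh.2), if_neg h, zero_mul]

theorem A11_dP_tp (i j : Fin N) (G : PP N) : dP i j (A11_tp G) = A11_tp (dd i j G) := by
  unfold A11_tp
  rw [map_sum]
  simp only [map_smul, A11_dP_mo, dd_apply, smul_ite, smul_zero, ite_smul, zero_smul]
  rw [← Finset.sum_filter, ← Finset.sum_filter]
  refine Finset.sum_nbij' (fun c => Function.update c i none)
    (fun c => Function.update c i (some j)) ?_ ?_ ?_ ?_ ?_
  · intro c _
    rw [Finset.mem_filter]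
    exact ⟨Finset.mem_univ _, Function.update_self _ _ _⟩
  · intro c _
    rw [Finset.mem_filter]
    exact ⟨Finset.mem_univ _, Function.update_self _ _ _⟩
  · intro c hc
    rw [Finset.mem_filter] at hc
    rw [Function.update_idem, ← hc.2, Function.update_eq_self]
  · intro c hc
    rw [Finset.mem_filter] at hc
    rw [Function.update_idem, ← hc.2, Function.update_eq_self]
  · intro c hc
    rw [Finset.mem_filter] at hc
    rw [Function.update_idem, ← hc.2, Function.update_eq_self]

theorem A11_Dop_tp (C : Cu N) (G : PP N) :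
    Dop C (A11_tp G) = A11_tp ((1 / 4 : ℝ) • dR C G) := by
  rw [A11_tp_smul]
  unfold Dop dR
  simp only [LinearMap.smul_apply, LinearMap.sum_apply, Module.End.mul_apply, A11_dP_tp,
    A11_tp_sum, A11_tp_smul]

theorem A11_Dop_pow (C : Cu N) (s : ℕ) (G : PP N) :
    ((Dop C) ^ s) (A11_tp G) = A11_tp ((1 / 4 : ℝ) ^ s • ((dR C) ^ s) G) := by
  induction s with
  | zero => simp
  | succ s ih =>
    rw [pow_succ', Module.End.mul_apply, ih, A11_Dop_tp, map_smul, smul_smul, pow_succ' (dR C),
      Module.End.mul_apply, pow_succ']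

theorem A11_det : A11_tp (detP : PP N) = dtP N := by
  have h1 : ∀ c : Idx N, (detP : PP N) c = ∑ σ : Equiv.Perm (Fin N),
      if c = (fun k => some (σ.symm k)) then ((Equiv.Perm.sign σ : ℤ) : ℝ) else 0 := by
    intro c
    unfold detP detRow
    rw [Matrix.det_apply']
    refine Finset.sum_congr rfl fun σ _ => ?_
    by_cases hc : c = fun k => some (σ.symm k)
    · rw [if_pos hc]
      have h2 : ∀ i : Fin N, (Matrix.of fun i => match c i with
          | none => (0 : Matrix (Fin N) (Fin N) ℝ) i
          | some j => (Pi.single j 1 : Fin N → ℝ)) (σ i) i = 1 := by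
        intro i
        rw [Matrix.of_apply, hc]
        simp
      exact (congrArg (fun z => ((Equiv.Perm.sign σ : ℤ) : ℝ) * z)
        (Finset.prod_eq_one fun i _ => h2 i)).trans (mul_one _)
    · rw [if_neg hc]
      obtain ⟨k, hk⟩ : ∃ k, c k ≠ some (σ.symm k) := by
        by_contra h3
        apply hc
        funext k
        by_contra h4
        exact h3 ⟨k, h4⟩
      have h2 : (Matrix.of fun i => match c i with
          | none => (0 : Matrix (Fin N) (Fin N) ℝ) i
          | some j => (Pi.single j 1 : Fin N → ℝ)) (σ (σ.symm k)) (σ.symm k) = 0 := by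
        rw [Equiv.apply_symm_apply, Matrix.of_apply]
        cases h5 : c k with
        | none => rfl
        | some j =>
          show (Pi.single j 1 : Fin N → ℝ) (σ.symm k) = 0
          rw [Pi.single_apply, if_neg]
          intro h6
          apply hk
          rw [h5, h6]
      have h3 : ∏ i : Fin N, (Matrix.of fun i => match c i with
          | none => (0 : Matrix (Fin N) (Fin N) ℝ) i
          | some j => (Pi.single j 1 : Fin N → ℝ)) (σ i) i = 0 :=
        Finset.prod_eq_zero (i := σ.symm k) (Finset.mem_univ _) h2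
      exact (congrArg (fun z => ((Equiv.Perm.sign σ : ℤ) : ℝ) * z) h3).trans (mul_zero _)
  unfold A11_tp dtP
  simp only [h1, Finset.sum_smul, ite_smul, zero_smul]
  rw [Finset.sum_comm, Matrix.det_apply']
  refine Finset.sum_congr rfl fun σ _ => ?_
  rw [Finset.sum_ite_eq', if_pos (Finset.mem_univ _)]
  have h2 : A11_mo (fun k => some (σ.symm k)) =
      ∏ i, Matrix.mvPolynomialX (Fin N) (Fin N) ℝ (σ i) i := by
    unfold A11_mo
    rw [← Equiv.prod_comp σ]
    refine Finset.prod_congr rfl fun i _ => ?_
    rw [Matrix.mvPolynomialX_apply]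
    show A11_fac (σ i) (some (σ.symm (σ i))) = X (σ i, i)
    rw [Equiv.symm_apply_apply]
    rfl
  rw [h2, ← MvPolynomial.C_mul', map_intCast]

theorem A11_ev (G : PP N) : evM 0 (A11_tp G) = ev0 G := by
  unfold A11_tp ev0
  rw [map_sum, Finset.sum_eq_single none0]
  · rw [map_smul]
    have h1 : A11_mo (none0 : Idx N) = 1 := by
      unfold A11_mo
      exact Finset.prod_eq_one fun i _ => rfl
    rw [h1, map_one, smul_eq_mul, mul_one]
  · intro c _ hc
    obtain ⟨i, hi⟩ : ∃ i, c i ≠ none := by
      by_contra h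
      apply hc
      funext i
      by_contra h2
      exact h ⟨i, h2⟩
    obtain ⟨j, hj⟩ := Option.ne_none_iff_exists'.1 hi
    rw [map_smul, A11_mo_eq i c, map_mul, hj]
    have h1 : evM (0 : Mt N) (A11_fac i (some j)) = 0 := by
      show evM (0 : Mt N) (X (i, j)) = 0
      unfold evM
      rw [aeval_X]
      rfl
    rw [h1, zero_mul, smul_zero]
  · intro h
    exact absurd (Finset.mem_univ _) h

theorem A11_small (n s : ℕ) (C : Cu (2 * n)) (hs : s < n) :
    ev0 (((dR C) ^ s) (detP : PP (2 * n))) = 0 := by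
  classical
  rw [gb_pow]
  refine Finset.sum_eq_zero fun w _ => ?_
  have h1 : ev0 (gbApp (2 * s) w (detP : PP (2 * n))) = 0 := by
    unfold ev0
    rw [gbApp_eq]
    obtain ⟨i, hi⟩ : ∃ i : Fin (2 * n), ∀ r, (w r).1 ≠ i := by
      by_contra h
      have hsurj : Function.Surjective (fun r : Fin (2 * s) => (w r).1) := by
        intro i
        by_contra h2
        exact h ⟨i, fun r hr => h2 ⟨r, hr⟩⟩
      have h3 := Fintype.card_le_of_surjective _ hsurj
      rw [Fintype.card_fin, Fintype.card_fin] at h3
      omega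
    have h2 := gbUpd_none (2 * s) w i hi
    have h3 : (detP : PP (2 * n)) (gbUpd (2 * s) w none0) = 0 := by
      unfold detP detRow
      refine Matrix.det_eq_zero_of_row_eq_zero i fun j => ?_
      rw [Matrix.of_apply, h2]
      rfl
    rw [h3, ite_self]
  rw [h1, mul_zero]

theorem evM_zero_PC (n : ℕ) (C : Cu (2 * n)) :
    evM 0 (PC C) = Pool.Agent.H69Hopf.gaussBonnet n C / (4 ^ n * n.factorial) := by
  have h1 : ∀ s, evM 0 (((Dop C) ^ s) (dtP (2 * n))) = (1 / 4 : ℝ) ^ s * ev0 (((dR C) ^ s) detP) := by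
    intro s
    rw [← A11_det, A11_Dop_pow, A11_ev]
    rfl
  unfold PC eD
  rw [LinearMap.sum_apply, map_sum, Finset.sum_eq_single n]
  · rw [LinearMap.smul_apply, map_smul, h1, ev0_dR_pow, smul_eq_mul]
    have h2 : (n.factorial : ℝ) ≠ 0 := by exact_mod_cast n.factorial_ne_zero
    rw [one_div, inv_pow]
    field_simp
  · intro s _ hs
    rw [LinearMap.smul_apply, map_smul]
    rcases lt_or_gt_of_ne hs with h2 | h2
    · rw [h1, A11_small n s C h2, mul_zero, smul_zero]
    · have h3 := totalDegree_dtP (d := 2 * n)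
      rw [Dop_pow_zero C s _ (by omega), map_zero, smul_zero]
  · intro h
    exfalso
    apply h
    rw [Finset.mem_range]
    omega

end H79G
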