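import Pool.Agent.Lib.H79G.B4
import Pool.Agent.Lib.H79G.A10
import Pool.Agent.Lib.H79G.A11

/-!
# H79G chunk P1 (M): orthonormal frames

`exists_frame`: `G0` symmetric positive definite; `E` with `Eᵀ G0 E = 1` (e.g. inverse of a square root, or
`G0 = Sᵀ S`, `E = S⁻¹`).
`frameR R E`: components of the tensor `R` in the frame given by the columns of `E`.
`frame_eq`: `Eᵀ G E = 1` gives `G⁻¹ = E Eᵀ`; `riem_eq` (B4): `riem i j k l = (G * Rm i j) k l`;
`trC Eᵀ E⁻¹ (cuv) i j a b = ∑ E k i E l j (E⁻¹ Rm_kl G⁻¹ (E⁻¹)ᵀ) a b = ∑ E k i E l j (Eᵀ G Rm_kl E) a b`.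
`gb_frame`: `evM_PC_trC` (A10) at the matrix `0` with `L = Eᵀ`, `R = E⁻¹` (`det L det R = 1`), and
`evM_zero_PC` (A11).
`frame_algCurv`: the symmetries are preserved.
-/

open scoped Manifold ContDiff
open Set H31R MeasureTheory

namespace H79G

variable {d : ℕ}

/-- components of `R` in the frame given by the columns of `E` -/
noncomputable def frameR (R : Cu d) (E : Mt d) : Cu d := fun i j k l =>
  ∑ a, ∑ b, ∑ c, ∑ e, R a b c e * E a i * E b j * E c k * E e l

open scoped MatrixOrder in
theorem exists_frame (G0 : Mt d) (hs : ∀ i j, G0 i j = G0 j i)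
    (hp : ∀ v : Fin d → ℝ, v ≠ 0 → 0 < ∑ i, ∑ j, G0 i j * v i * v j) :
    ∃ E : Mt d, E.transpose * G0 * E = 1 := by
  have hpd : G0.PosDef := by
    refine Matrix.PosDef.of_dotProduct_mulVec_pos ?_ fun v hv => ?_
    · ext i j
      simp [Matrix.conjTranspose_apply, hs j i]
    · have h1 := hp v hv
      have h2 : star v ⬝ᵥ G0.mulVec v = ∑ i, ∑ j, G0 i j * v i * v j := by
        simp only [dotProduct, Matrix.mulVec, Finset.mul_sum]
        refine Finset.sum_congr rfl fun i _ => Finset.sum_congr rfl fun j _ => ?_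
        have : star v i = v i := rfl
        rw [this]
        ring
      rw [h2]
      exact h1
  have hdet := hpd.det_pos
  obtain ⟨B, hB⟩ := CStarAlgebra.nonneg_iff_eq_star_mul_self.mp hpd.posSemidef.nonneg
  have hB' : G0 = B.transpose * B := by
    rw [hB]
    congr 1
  have hu : IsUnit B.det := by
    rw [isUnit_iff_ne_zero]
    intro h0
    rw [hB', Matrix.det_mul, h0, mul_zero] at hdet
    exact lt_irrefl _ hdet
  refine ⟨B⁻¹, ?_⟩
  rw [hB']
  have h1 : B * B⁻¹ = 1 := Matrix.mul_nonsing_inv B hu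
  have h2 : (B⁻¹).transpose * B.transpose = 1 := by
    rw [← Matrix.transpose_mul, h1, Matrix.transpose_one]
  rw [← Matrix.mul_assoc, h2, Matrix.one_mul, h1]

theorem P1_swap4 (F : Fin d → Fin d → Fin d → Fin d → ℝ) :
    ∑ a, ∑ b, ∑ c, ∑ e, F a b c e = ∑ c, ∑ e, ∑ a, ∑ b, F a b c e := by
  calc ∑ a, ∑ b, ∑ c, ∑ e, F a b c e = ∑ a, ∑ c, ∑ b, ∑ e, F a b c e :=
        Finset.sum_congr rfl fun a _ => Finset.sum_comm
    _ = ∑ c, ∑ a, ∑ b, ∑ e, F a b c e := Finset.sum_comm
    _ = ∑ c, ∑ a, ∑ e, ∑ b, F a b c e :=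
        Finset.sum_congr rfl fun c _ => Finset.sum_congr rfl fun a _ => Finset.sum_comm
    _ = ∑ c, ∑ e, ∑ a, ∑ b, F a b c e := Finset.sum_congr rfl fun c _ => Finset.sum_comm

theorem P1_cyc (F : Fin d → Fin d → Fin d → ℝ) :
    ∑ a, ∑ b, ∑ c, F a b c = ∑ b, ∑ c, ∑ a, F a b c := by
  rw [Finset.sum_comm]
  exact Finset.sum_congr rfl fun b _ => Finset.sum_comm

theorem frame_algCurv {R : Cu d} (hR : Pool.Agent.H69Hopf.IsAlgCurv R) (E : Mt d) :
    Pool.Agent.H69Hopf.IsAlgCurv (frameR R E) := by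
  refine ⟨fun i j k l => ?_, fun i j k l => ?_, fun i j k l => ?_⟩
  · unfold frameR
    rw [Finset.sum_comm]
    simp only [← Finset.sum_neg_distrib]
    refine Finset.sum_congr rfl fun b _ => Finset.sum_congr rfl fun a _ =>
      Finset.sum_congr rfl fun c _ => Finset.sum_congr rfl fun e _ => ?_
    rw [hR.skew a b c e]
    ring
  · unfold frameR
    rw [P1_swap4]
    refine Finset.sum_congr rfl fun c _ => Finset.sum_congr rfl fun e _ =>
      Finset.sum_congr rfl fun a _ => Finset.sum_congr rfl fun b _ => ?_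
    rw [hR.pair a b c e]
    ring
  · have e1 : frameR R E j k i l =
        ∑ a, ∑ b, ∑ c, ∑ e, R b c a e * E b j * E c k * E a i * E e l := by
      unfold frameR
      exact (P1_cyc (fun a b c => ∑ e, R b c a e * E b j * E c k * E a i * E e l)).symm
    have e2 : frameR R E k i j l =
        ∑ a, ∑ b, ∑ c, ∑ e, R c a b e * E c k * E a i * E b j * E e l := by
      unfold frameR
      exact P1_cyc (fun c a b => ∑ e, R c a b e * E c k * E a i * E b j * E e l)
    rw [e1, e2]
    unfold frameR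
    simp only [← Finset.sum_add_distrib]
    refine Finset.sum_eq_zero fun a _ => Finset.sum_eq_zero fun b _ =>
      Finset.sum_eq_zero fun c _ => Finset.sum_eq_zero fun e _ => ?_
    have := hR.bianchi a b c e
    linear_combination (E a i * E b j * E c k * E e l) * this

theorem P1_sandwich (A M B : Mt d) (a b : Fin d) :
    (A * M * B) a b = ∑ c, ∑ e, A a c * M c e * B e b := by
  rw [Matrix.mul_apply]
  simp only [Matrix.mul_apply, Finset.sum_mul]
  rw [Finset.sum_comm]

theorem frame_eq {U : Set (EE d)} {G : EE d → Mt d} (h : MetOn U G) {x : EE d} (hx : x ∈ U)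
    {E : Mt d} (hE : E.transpose * G x * E = 1) :
    frameR (riem G x) E = trC E.transpose E⁻¹ (cuv G x) := by
  have hEinv : E⁻¹ = E.transpose * G x := Matrix.inv_eq_left_inv hE
  have hEE : E * (E.transpose * G x) = 1 := mul_eq_one_comm.mp hE
  have hGinv : (G x)⁻¹ = E * E.transpose := by
    apply Matrix.inv_eq_left_inv
    rw [Matrix.mul_assoc, hEE]
  have hsym : (G x).transpose = G x := by
    ext a b
    exact h.symm x hx b a
  have key : ∀ k l, E⁻¹ * (Rm G k l x * (G x)⁻¹) * (E⁻¹).transpose =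
      E.transpose * (G x * Rm G k l x) * E := by
    intro k l
    have h1 : E.transpose * (E⁻¹).transpose = 1 := by
      rw [← Matrix.transpose_mul, hEinv, hE, Matrix.transpose_one]
    calc E⁻¹ * (Rm G k l x * (G x)⁻¹) * (E⁻¹).transpose
        = E⁻¹ * Rm G k l x * E * (E.transpose * (E⁻¹).transpose) := by
          rw [hGinv]
          simp only [Matrix.mul_assoc]
      _ = E⁻¹ * Rm G k l x * E := by rw [h1, Matrix.mul_one]
      _ = E.transpose * (G x * Rm G k l x) * E := by
          rw [hEinv]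
          simp only [Matrix.mul_assoc]
  funext i j a b
  unfold frameR trC
  refine Finset.sum_congr rfl fun k _ => Finset.sum_congr rfl fun l _ => ?_
  have e1 : ∑ c, ∑ e, riem G x k l c e * E k i * E l j * E c a * E e b =
      E k i * E l j * (E.transpose * (G x * Rm G k l x) * E) a b := by
    rw [P1_sandwich]
    simp only [Finset.mul_sum]
    refine Finset.sum_congr rfl fun c _ => Finset.sum_congr rfl fun e _ => ?_
    rw [riem_eq, Matrix.transpose_apply]
    ring
  have e2 : ∑ c, ∑ e, E.transpose i k * E.transpose j l * E⁻¹ a c * E⁻¹ b e * cuv G x k l c e =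
      E k i * E l j * (E⁻¹ * (Rm G k l x * (G x)⁻¹) * (E⁻¹).transpose) a b := by
    rw [P1_sandwich]
    simp only [Finset.mul_sum]
    refine Finset.sum_congr rfl fun c _ => Finset.sum_congr rfl fun e _ => ?_
    rw [Matrix.transpose_apply, Matrix.transpose_apply, Matrix.transpose_apply]
    unfold cuv
    ring
  rw [e1, e2, key]

theorem gb_frame {n : ℕ} {U : Set (EE (2 * n))} {G : EE (2 * n) → Mt (2 * n)} (h : MetOn U G)
    {x : EE (2 * n)} (hx : x ∈ U) {E : Mt (2 * n)} (hE : E.transpose * G x * E = 1) :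
    evM 0 (PC (cuv G x)) =
      Pool.Agent.H69Hopf.gaussBonnet n (frameR (riem G x) E) / (4 ^ n * n.factorial) := by
  have h1 := evM_PC_trC E.transpose E⁻¹ 0 (cuv G x)
  rw [Matrix.mul_zero, Matrix.zero_mul, ← frame_eq h hx hE, evM_zero_PC, Matrix.det_transpose] at h1
  have hu : IsUnit E.det := by
    rw [isUnit_iff_ne_zero]
    intro h0
    have := congrArg Matrix.det hE
    rw [Matrix.det_mul, h0, mul_zero, Matrix.det_one] at this
    exact zero_ne_one this
  have h2 : E.det * E⁻¹.det = 1 := by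
    rw [← Matrix.det_mul, Matrix.mul_nonsing_inv E hu, Matrix.det_one]
  rw [h2, one_mul] at h1
  exact h1.symm

end H79G
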