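import Pool.Agent.Lib.H79G.A9

/-!
# H79G chunk S0 (M): smoothness of everything

`MetOn.det_pos`: a symmetric positive definite real matrix has positive determinant
(`Matrix.PosDef.det_pos`). The rest: `pd` of a `C^∞` function on an open set is `C^∞`
(`contDiffOn_infty` and `N_pd_sm` of `Lib/H31R/N1.lean`, or `ContDiffOn.fderiv_of_isOpen` directly),
inverse matrix: `N_inv_sm`; `chr`, `chM`, `Rm`, `cuv`, `nab`, `nsq` are polynomial expressions;
`dens = sqrt det` with `det > 0` (`ContDiffOn.sqrt`); `UU`, `VV`, `uc`: `contDiffOn_evM_lin` (A9), with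
`φ = 1`, `φ = dP k a`, `φ = homogeneousComponent s`.
-/

open scoped Manifold ContDiff
open Set H31R MeasureTheory MvPolynomial

namespace H79G

variable {d : ℕ} {U : Set (EE d)} {G : EE d → Mt d} {X : EE d → Fin d → ℝ}

theorem MetOn.det_pos (h : MetOn U G) {x : EE d} (hx : x ∈ U) : 0 < (G x).det := by
  apply Matrix.PosDef.det_pos
  refine Matrix.PosDef.of_dotProduct_mulVec_pos ?_ fun v hv => ?_
  · ext i j
    simp [Matrix.conjTranspose_apply, h.symm x hx j i]
  · have h1 := h.pos x hx v hv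
    have h2 : star v ⬝ᵥ (G x).mulVec v = ∑ i, ∑ j, G x i j * v i * v j := by
      simp only [dotProduct, Matrix.mulVec, Finset.mul_sum]
      refine Finset.sum_congr rfl fun i _ => Finset.sum_congr rfl fun j _ => ?_
      have : star v i = v i := rfl
      rw [this]
      ring
    rw [h2]
    exact h1

theorem MetOn.det_ne (h : MetOn U G) : ∀ y ∈ U, (G y).det ≠ 0 := fun _ hy => (h.det_pos hy).ne'

theorem MetOn.smM (h : MetOn U G) (n : ℕ) : SmM n U G :=
  fun i j => contDiffOn_infty.1 (h.sm i j) n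

theorem pd_smooth (hU : IsOpen U) {f : EE d → ℝ} (hf : ContDiffOn ℝ ∞ f U) (k : Fin d) :
    ContDiffOn ℝ ∞ (pd k f) U :=
  contDiffOn_infty.2 fun n => N_pd_sm hU (contDiffOn_infty.1 hf (n + 1)) k

theorem MetOn.smooth_inv (h : MetOn U G) (i j : Fin d) :
    ContDiffOn ℝ ∞ (fun y => (G y)⁻¹ i j) U :=
  contDiffOn_infty.2 fun n => N_inv_sm (h.smM n) h.det_ne i j

theorem MetOn.smooth_chr (h : MetOn U G) (k i j : Fin d) : ContDiffOn ℝ ∞ (chr G k i j) U :=
  contDiffOn_infty.2 fun n => N_chr_sm h.hU (h.smM (n + 1)) h.det_ne k i j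

theorem MetOn.smooth_Rm (h : MetOn U G) (i j a b : Fin d) :
    ContDiffOn ℝ ∞ (fun y => Rm G i j y a b) U := by
  have e1 : (fun y => Rm G i j y a b) = fun y => (pd i (chr G a j b) y - pd j (chr G a i b) y) +
      (∑ c, chr G a i c y * chr G c j b y - ∑ c, chr G a j c y * chr G c i b y) := by
    funext y
    unfold Rm
    rw [Matrix.add_apply, Matrix.sub_apply, Matrix.sub_apply, Matrix.mul_apply, Matrix.mul_apply]
    rfl
  rw [e1]
  exact ((pd_smooth h.hU (h.smooth_chr a j b) i).sub (pd_smooth h.hU (h.smooth_chr a i b) j)).add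
    ((ContDiffOn.sum fun c _ => (h.smooth_chr a i c).mul (h.smooth_chr c j b)).sub
      (ContDiffOn.sum fun c _ => (h.smooth_chr a j c).mul (h.smooth_chr c i b)))

theorem MetOn.smooth_cuv (h : MetOn U G) (i j a b : Fin d) :
    ContDiffOn ℝ ∞ (fun y => cuv G y i j a b) U := by
  have e1 : (fun y => cuv G y i j a b) = fun y => ∑ c, Rm G i j y a c * (G y)⁻¹ c b := by
    funext y
    unfold cuv
    rw [Matrix.mul_apply]
  rw [e1]
  exact ContDiffOn.sum fun c _ => (h.smooth_Rm i j a c).mul (h.smooth_inv c b)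

theorem MetOn.smooth_nab (h : MetOn U G) (hX : ∀ a, ContDiffOn ℝ ∞ (fun y => X y a) U)
    (k a : Fin d) : ContDiffOn ℝ ∞ (fun y => nab G X y k a) U := by
  unfold nab
  exact (pd_smooth h.hU (hX a) k).add (ContDiffOn.sum fun b _ => (h.smooth_chr a k b).mul (hX b))

theorem MetOn.smooth_nsq (h : MetOn U G) (hX : ∀ a, ContDiffOn ℝ ∞ (fun y => X y a) U) :
    ContDiffOn ℝ ∞ (nsq G X) U := by
  unfold nsq
  exact ContDiffOn.sum fun a _ => ContDiffOn.sum fun b _ => ((h.sm a b).mul (hX a)).mul (hX b)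

theorem MetOn.smooth_dens (h : MetOn U G) : ContDiffOn ℝ ∞ (dens G) U := by
  have h1 : ContDiffOn ℝ ∞ (fun y => (G y).det) U :=
    contDiffOn_infty.2 fun n => N_det_sm G (h.smM n)
  exact h1.sqrt h.det_ne

theorem S0_exp (h : MetOn U G) (hX : ∀ a, ContDiffOn ℝ ∞ (fun y => X y a) U) (t : ℝ) :
    ContDiffOn ℝ ∞ (fun y => Real.exp (-(t ^ 2 * nsq G X y) / 2)) U :=
  (((contDiffOn_const.mul (h.smooth_nsq hX)).neg).div_const 2).exp

theorem S0_nab (h : MetOn U G) (hX : ∀ a, ContDiffOn ℝ ∞ (fun y => X y a) U) (t : ℝ)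
    (k a : Fin d) : ContDiffOn ℝ ∞ (fun y => (t • nab G X y) k a) U :=
  contDiffOn_const.mul (h.smooth_nab hX k a)

theorem MetOn.dens_pos (h : MetOn U G) {x : EE d} (hx : x ∈ U) : 0 < dens G x :=
  Real.sqrt_pos.2 (h.det_pos hx)

theorem MetOn.smooth_UU (h : MetOn U G) (hX : ∀ a, ContDiffOn ℝ ∞ (fun y => X y a) U) (t : ℝ) :
    ContDiffOn ℝ ∞ (UU G X t) U := by
  refine (S0_exp h hX t).mul ?_
  exact contDiffOn_evM_lin (S0_nab h hX t) h.smooth_cuv 1 (dtP d)

theorem MetOn.smooth_VV (h : MetOn U G) (hX : ∀ a, ContDiffOn ℝ ∞ (fun y => X y a) U) (t : ℝ)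
    (k : Fin d) : ContDiffOn ℝ ∞ (fun y => VV G X t y k) U := by
  refine (S0_exp h hX t).mul (ContDiffOn.sum fun a _ => (hX a).mul ?_)
  exact contDiffOn_evM_lin (S0_nab h hX t) h.smooth_cuv (dP k a) (dtP d)

theorem MetOn.smooth_uc (h : MetOn U G) (hX : ∀ a, ContDiffOn ℝ ∞ (fun y => X y a) U) (s : ℕ) :
    ContDiffOn ℝ ∞ (uc G X s) U :=
  contDiffOn_evM_lin (h.smooth_nab hX) h.smooth_cuv (homogeneousComponent s) (dtP d)

end H79G
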