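import Pool.Agent.Lib.H79G.A3

/-!
# H79G chunk A6 (M): only the cyclic sum of the derivative of the curvature matters

Let `P = PC C` and `dC dC' : Fin d → Cu d` (`dC k` = derivative of `C` in the direction `k`) be
antisymmetric in the first two indices (`dC k i j a b = - dC k j i a b`) with the same cyclic sum
over `(k, i, j)`.  Then `∑ k, Dop (dC k) ∂_{ke} P = ∑ k, Dop (dC' k) ∂_{ke} P` for every `e`.

Proof. By linearity (`Dop` is linear in `C`) it suffices that `∑ k, Dop (D k) ∂_{ke} P = 0` if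
`D k i j a b = - D k j i a b` and `D k i j a b + D i j k a b + D j k i a b = 0`.  The sum is
`1/4 ∑ D k i j a b T k i j`, `T k i j = ∂_{ia} ∂_{jb} ∂_{ke} P` for fixed `a, b, e`; by `anti_PC`
and the commutation of the derivatives, `T` is totally antisymmetric in `k, i, j`, where the upper
indices stay attached to the places (`∂_{ia} ∂_{jb} ∂_{ke} P = - ∂_{ja} ∂_{ib} ∂_{ke} P` etc.), in particular
invariant under cyclic permutations, hence
`∑_{k,i,j} D k i j a b T k i j = 1/3 ∑ (D k i j a b + D i j k a b + D j k i a b) T k i j = 0`.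
(Only the invariance under cyclic permutations of `k, i, j` is used; the antisymmetry of `D` is not
needed.)
-/

open scoped Manifold ContDiff
open Set H31R MeasureTheory MvPolynomial

namespace H79G

variable {d : ℕ}

theorem A6_Dop_apply (C : Cu d) (f : Po d) :
    Dop C f = (1 / 4 : ℝ) • ∑ i, ∑ j, ∑ a, ∑ b, C i j a b • dP i a (dP j b f) := by
  simp only [Dop, LinearMap.smul_apply, LinearMap.sum_apply, Module.End.mul_apply]

theorem A6_cyc (C : Cu d) (k i j a b e : Fin d) :
    dP i a (dP j b (dP k e (PC C))) = dP j a (dP k b (dP i e (PC C))) := by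
  have c1 : ∀ (k a j b : Fin d) (f : Po d), dP k a (dP j b f) = dP j b (dP k a f) :=
    fun k a j b f => LinearMap.congr_fun (dP_comm k a j b) f
  rw [anti_PC C j b k e, map_neg, c1 i a k b, anti_PC C i a j e, map_neg, neg_neg, c1 k b j a]

theorem A6_sum (f : Fin d → Fin d → Fin d → ℝ) (T : Fin d → Fin d → Fin d → Po d)
    (hT : ∀ k i j, T k i j = T i j k) :
    (3 : ℝ) • ∑ k, ∑ i, ∑ j, f k i j • T k i j =
      ∑ k, ∑ i, ∑ j, (f k i j + f i j k + f j k i) • T k i j := by
  have e1 : ∑ k, ∑ i, ∑ j, f i j k • T k i j = ∑ k, ∑ i, ∑ j, f k i j • T k i j := by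
    rw [Finset.sum_comm]
    refine Finset.sum_congr rfl fun i _ => ?_
    rw [Finset.sum_comm]
    refine Finset.sum_congr rfl fun j _ => Finset.sum_congr rfl fun k _ => ?_
    rw [hT k i j]
  have e2 : ∑ k, ∑ i, ∑ j, f j k i • T k i j = ∑ k, ∑ i, ∑ j, f k i j • T k i j := by
    have e3 : ∀ k, ∑ i, ∑ j, f j k i • T k i j = ∑ j, ∑ i, f j k i • T k i j :=
      fun k => Finset.sum_comm
    rw [Finset.sum_congr rfl fun k _ => e3 k, Finset.sum_comm]
    refine Finset.sum_congr rfl fun j _ => Finset.sum_congr rfl fun k _ =>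
      Finset.sum_congr rfl fun i _ => ?_
    rw [hT k i j, hT i j k]
  simp only [add_smul, Finset.sum_add_distrib]
  rw [e1, e2]
  module

theorem A6_move (F : Fin d → Fin d → Fin d → Fin d → Fin d → Po d) :
    ∑ k, ∑ i, ∑ j, ∑ a, ∑ b, F k i j a b = ∑ a, ∑ b, ∑ k, ∑ i, ∑ j, F k i j a b := by
  have h3 : ∀ G : Fin d → Fin d → Fin d → Fin d → Po d,
      ∑ k, ∑ i, ∑ j, ∑ a, G k i j a = ∑ a, ∑ k, ∑ i, ∑ j, G k i j a := by
    intro G
    have g1 : ∀ k i, ∑ j, ∑ a, G k i j a = ∑ a, ∑ j, G k i j a := fun k i => Finset.sum_comm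
    have g2 : ∀ k, ∑ i, ∑ a, ∑ j, G k i j a = ∑ a, ∑ i, ∑ j, G k i j a :=
      fun k => Finset.sum_comm
    simp only [g1, g2]
    exact Finset.sum_comm
  rw [h3]
  refine Finset.sum_congr rfl fun a _ => ?_
  exact h3 fun k i j b => F k i j a b

theorem A6_eq (C : Cu d) (dC : Fin d → Cu d) (e : Fin d) :
    ∑ k, Dop (dC k) (dP k e (PC C)) = (1 / 12 : ℝ) • ∑ a, ∑ b, ∑ k, ∑ i, ∑ j,
      (dC k i j a b + dC i j k a b + dC j k i a b) • dP i a (dP j b (dP k e (PC C))) := by
  have e1 : ∀ a b, (3 : ℝ) • ∑ k, ∑ i, ∑ j, dC k i j a b • dP i a (dP j b (dP k e (PC C))) =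
      ∑ k, ∑ i, ∑ j, (dC k i j a b + dC i j k a b + dC j k i a b) •
        dP i a (dP j b (dP k e (PC C))) := fun a b =>
    A6_sum (fun k i j => dC k i j a b) (fun k i j => dP i a (dP j b (dP k e (PC C))))
      fun k i j => A6_cyc C k i j a b e
  simp only [← e1, A6_Dop_apply]
  rw [← Finset.smul_sum, A6_move]
  simp only [← Finset.smul_sum]
  rw [smul_smul]
  norm_num

theorem cyclic_PC (C : Cu d) (dC dC' : Fin d → Cu d)
    (h : ∀ k i j a b, dC k i j a b + dC i j k a b + dC j k i a b =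
      dC' k i j a b + dC' i j k a b + dC' j k i a b) (e : Fin d) :
    ∑ k, Dop (dC k) (dP k e (PC C)) = ∑ k, Dop (dC' k) (dP k e (PC C)) := by
  rw [A6_eq, A6_eq]
  simp only [h]

end H79G
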