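import Pool.Agent.Lib.H79G.A5
import Pool.Agent.Lib.H79G.A6

/-!
# H79G chunk A7 (M/L): the algebraic form of the local identity

Notation: `P = PC C`, `E f = evM (t • A) f`, `Γ k : Mt d` (connection matrices, `Γ k a b = Γ^a_{kb}`),
`A k a = ∇_k X^a`, `low b = X_b`, `dA k j b = ∂_k A_j^b`, `dC k = ∂_k C`.  Hypotheses:
* `hdA`: `dA k j b - dA j k b = - ∑_c low c C k j c b + ∑_c Γ j b c A k c - ∑_c Γ k b c A j c`
  (`[∇_k, ∇_j] X = R_kj X`),
* `hdC`: the cyclic sum over `(k, i, j)` of `dC k i j a b + (Γ_k C_ij + C_ij Γ_kᵀ) a b` is `0`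
  (second Bianchi identity).

Proof (checked numerically for d = 1, 2, 3, 4).
(1) `∑_k ∑_b low b (t A k b) ∑_a X a E(∂_{ka} P) = ∑_{a,b} low b X a E(∑_k X(k,b) ∂_{ka} P)`, and by
`euler_PC` this is `q E(P) - 1/2 ∑ low b X a C k j b c E(∂_{jc} ∂_{ka} P)`, `q = ∑ low b X b`.
(2) `∑_{k,a} X a ∑_{j,b} dA k j b E(∂_{jb} ∂_{ka} P)`: antisymmetric in `k, j` (`anti_PC`), so it is
`1/2 ∑ X a (dA k j b - dA j k b) E(∂_{jb} ∂_{ka} P)`; insert `hdA`.  The first term
`- 1/2 ∑ X a low c C k j c b E(∂_{jb} ∂_{ka} P)`, multiplied by `t`, cancels against (1) multiplied by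
`-t`; the other two terms are equal by antisymmetry and give
`- ∑_{k,a} X a ∑_{j,b,c} Γ k b c A j c E(∂_{jb} ∂_{ka} P)`.
(3) `∑_k Dop (dC k) ∂_{ka} P = - ∑_k Dop (actC (Γ k) C) ∂_{ka} P` by `cyclic_PC`.
(4) (2) and (3) together with `gl_invariance` (with `A := t • A`, `Γ := Γ k`, `(l, e) := (k, a)`):
`- ∑_k ∑_a X a [t ∑ Γ k b c A j c E(∂_{jb} ∂_{ka} P) + E(Dop (actC (Γ k) C) ∂_{ka} P)]
 = - ∑_k ∑_a X a [tr Γ_k E(∂_{ka} P) - ∑_b Γ k b a E(∂_{kb} P)]`,
which cancels against the trace term and against `- ∑_c Γ k a c X c` in the third line of the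
right side.
-/

open scoped Manifold ContDiff
open Set H31R MeasureTheory MvPolynomial

namespace H79G

variable {d : ℕ}

/-- Reordering of a fourfold sum. -/
theorem A7_r4 (F : Fin d → Fin d → Fin d → Fin d → ℝ) :
    ∑ k, ∑ a, ∑ j, ∑ b, F k a j b = ∑ a, ∑ b, ∑ k, ∑ j, F k a j b := by
  rw [Finset.sum_comm]
  refine Finset.sum_congr rfl fun a _ => ?_
  have h1 : ∀ k, ∑ j, ∑ b, F k a j b = ∑ b, ∑ j, F k a j b := fun k => Finset.sum_comm
  simp only [h1]
  exact Finset.sum_comm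

theorem A7_anti (f W : Fin d → Fin d → ℝ) (hW : ∀ k j, W k j = - W j k) :
    ∑ k, ∑ j, f j k * W k j = - ∑ k, ∑ j, f k j * W k j := by
  rw [Finset.sum_comm, ← Finset.sum_neg_distrib]
  refine Finset.sum_congr rfl fun k _ => ?_
  rw [← Finset.sum_neg_distrib]
  refine Finset.sum_congr rfl fun j _ => ?_
  rw [hW j k]
  ring

/-- Step (2): the terms with the derivatives of `A`. -/
theorem A7_S2 (Γ : Fin d → Mt d) (A : Mt d) (low : Fin d → ℝ) (C : Cu d)
    (dA : Fin d → Fin d → Fin d → ℝ) (b : Fin d) (W : Fin d → Fin d → ℝ)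
    (hW : ∀ k j, W k j = - W j k)
    (hdA : ∀ k j b, dA k j b - dA j k b = - ∑ c, low c * C k j c b + ∑ c, Γ j b c * A k c
      - ∑ c, Γ k b c * A j c) :
    ∑ k, ∑ j, dA k j b * W k j = - (1 / 2) * (∑ k, ∑ j, (∑ c, low c * C k j c b) * W k j)
      - ∑ k, ∑ j, (∑ c, Γ k b c * A j c) * W k j := by
  have e1 := A7_anti (fun k j => dA k j b) W hW
  have e2 := A7_anti (fun k j => ∑ c, Γ k b c * A j c) W hW
  have e3 : ∑ k, ∑ j, (dA k j b - dA j k b) * W k j =
      ∑ k, ∑ j, (- ∑ c, low c * C k j c b + ∑ c, Γ j b c * A k c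
      - ∑ c, Γ k b c * A j c) * W k j := by
    simp only [hdA]
  simp only [sub_mul, add_mul, neg_mul, Finset.sum_sub_distrib, Finset.sum_add_distrib,
    Finset.sum_neg_distrib] at e1 e2 e3 ⊢
  linarith

theorem A7_core (C : Cu d) (Γ : Fin d → Mt d) (A : Mt d) (X low : Fin d → ℝ)
    (dA : Fin d → Fin d → Fin d → ℝ) (t p0 : ℝ) (D1 F3 F4 : Fin d → Fin d → ℝ)
    (D2 : Fin d → Fin d → Fin d → Fin d → ℝ)
    (hdA : ∀ k j b, dA k j b - dA j k b = - ∑ c, low c * C k j c b + ∑ c, Γ j b c * A k c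
      - ∑ c, Γ k b c * A j c)
    (h1 : ∀ a b, ∑ k, t * A k b * D1 k a =
      (if a = b then p0 else 0) - 1 / 2 * ∑ k, ∑ j, ∑ c, C k j b c * D2 k a j c)
    (h2 : ∀ k a j b, D2 k a j b = - D2 j a k b)
    (h3 : ∀ a, ∑ k, F3 k a = - ∑ k, F4 k a)
    (h4 : ∀ k a, (∑ j, ∑ b, ∑ c, Γ k b c * (t * A j c) * D2 k a j b) + F4 k a =
      (Γ k).trace * D1 k a - ∑ b, Γ k b a * D1 k b) :
    - (t * ∑ b, low b * X b) * p0 + ∑ k, ∑ a, A k a * D1 k a =
    ∑ k, ((Γ k).trace * (∑ a, X a * D1 k a)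
      - t ^ 2 * (∑ b, low b * A k b) * (∑ a, X a * D1 k a)
      + ∑ a, (A k a - ∑ c, Γ k a c * X c) * D1 k a
      + ∑ a, X a * (t * (∑ j, ∑ b, dA k j b * D2 k a j b) + F3 k a)) := by
  -- the quantities `K` and `L`
  obtain ⟨K, hK⟩ : ∃ K, K = ∑ a, ∑ b, ∑ k, ∑ j, (∑ c, low c * C k j c b) * (X a * D2 k a j b) :=
    ⟨_, rfl⟩
  obtain ⟨L, hL⟩ : ∃ L, L = ∑ a, ∑ b, ∑ k, ∑ j, (∑ c, Γ k b c * A j c) * (X a * D2 k a j b) :=
    ⟨_, rfl⟩
  -- step (2)
  have s2 : ∑ k, ∑ a, ∑ j, ∑ b, dA k j b * (X a * D2 k a j b) = - (1 / 2) * K - L := by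
    rw [A7_r4 fun k a j b => dA k j b * (X a * D2 k a j b), hK, hL, Finset.mul_sum,
      ← Finset.sum_sub_distrib]
    refine Finset.sum_congr rfl fun a _ => ?_
    rw [Finset.mul_sum, ← Finset.sum_sub_distrib]
    refine Finset.sum_congr rfl fun b _ => ?_
    refine A7_S2 Γ A low C dA b (fun k j => X a * D2 k a j b) (fun k j => ?_) hdA
    show X a * D2 k a j b = - (X a * D2 j a k b)
    rw [h2 k a j b]
    ring
  -- step (1)
  have s1 : t * ∑ k, (∑ b, low b * A k b) * (∑ a, X a * D1 k a) =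
      (∑ b, low b * X b) * p0 - 1 / 2 * K := by
    have e1 : t * ∑ k, (∑ b, low b * A k b) * (∑ a, X a * D1 k a) =
        ∑ a, ∑ b, low b * X a * ∑ k, t * A k b * D1 k a := by
      simp only [Finset.mul_sum, Finset.sum_mul]
      have e2 : ∀ F : Fin d → Fin d → Fin d → ℝ, ∑ k, ∑ a, ∑ b, F k a b = ∑ a, ∑ b, ∑ k, F k a b := by
        intro F
        rw [Finset.sum_comm]
        exact Finset.sum_congr rfl fun a _ => Finset.sum_comm
      rw [e2]
      exact Finset.sum_congr rfl fun a _ => Finset.sum_congr rfl fun b _ =>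
        Finset.sum_congr rfl fun k _ => by ring
    have e3 : ∑ a, ∑ b, low b * X a * (if a = b then p0 else 0) = (∑ b, low b * X b) * p0 := by
      rw [Finset.sum_mul]
      refine Finset.sum_congr rfl fun a _ => ?_
      simp only [mul_ite, mul_zero, Finset.sum_ite_eq, Finset.mem_univ, if_true]
    have e4 : ∑ a, ∑ b, low b * X a * ∑ k, ∑ j, ∑ c, C k j b c * D2 k a j c = K := by
      rw [hK]
      refine Finset.sum_congr rfl fun a _ => ?_
      have e5 : ∀ F : Fin d → Fin d → Fin d → Fin d → ℝ,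
          ∑ b, ∑ k, ∑ j, ∑ c, F b k j c = ∑ c, ∑ k, ∑ j, ∑ b, F b k j c := by
        intro F
        have g1 : ∀ b, ∑ k, ∑ j, ∑ c, F b k j c = ∑ c, ∑ k, ∑ j, F b k j c := by
          intro b
          have g2 : ∀ k, ∑ j, ∑ c, F b k j c = ∑ c, ∑ j, F b k j c := fun k => Finset.sum_comm
          simp only [g2]
          exact Finset.sum_comm
        simp only [g1]
        rw [Finset.sum_comm]
        refine Finset.sum_congr rfl fun c _ => ?_
        rw [Finset.sum_comm]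
        exact Finset.sum_congr rfl fun k _ => Finset.sum_comm
      simp only [Finset.mul_sum, Finset.sum_mul]
      rw [e5]
      exact Finset.sum_congr rfl fun c _ => Finset.sum_congr rfl fun k _ =>
        Finset.sum_congr rfl fun j _ => Finset.sum_congr rfl fun b _ => by ring
    rw [e1]
    simp only [h1, mul_sub, Finset.sum_sub_distrib]
    rw [e3]
    congr 1
    rw [← e4, Finset.mul_sum]
    refine Finset.sum_congr rfl fun a _ => ?_
    rw [Finset.mul_sum]
    refine Finset.sum_congr rfl fun b _ => ?_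
    ring
  -- steps (3) and (4)
  have s3 : ∑ k, ∑ a, X a * F3 k a = - ∑ k, (Γ k).trace * (∑ a, X a * D1 k a)
      + ∑ k, ∑ a, (∑ c, Γ k a c * X c) * D1 k a + t * L := by
    have e1 : ∑ k, ∑ a, X a * F3 k a = - ∑ k, ∑ a, X a * F4 k a := by
      rw [Finset.sum_comm, Finset.sum_comm (f := fun k a => X a * F4 k a),
        ← Finset.sum_neg_distrib]
      refine Finset.sum_congr rfl fun a _ => ?_
      rw [← Finset.mul_sum, h3, ← Finset.mul_sum]
      ring
    have e2 : ∀ k a, F4 k a = (Γ k).trace * D1 k a - ∑ b, Γ k b a * D1 k b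
        - ∑ j, ∑ b, ∑ c, Γ k b c * (t * A j c) * D2 k a j b := fun k a => by
      linarith [h4 k a]
    have e3 : ∑ k, ∑ a, X a * ∑ j, ∑ b, ∑ c, Γ k b c * (t * A j c) * D2 k a j b = t * L := by
      rw [hL, ← A7_r4 fun k a j b => (∑ c, Γ k b c * A j c) * (X a * D2 k a j b)]
      simp only [Finset.mul_sum, Finset.sum_mul]
      exact Finset.sum_congr rfl fun k _ => Finset.sum_congr rfl fun a _ =>
        Finset.sum_congr rfl fun j _ => Finset.sum_congr rfl fun b _ =>
          Finset.sum_congr rfl fun c _ => by ring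
    have e4 : ∑ k, ∑ a, X a * ((Γ k).trace * D1 k a) =
        ∑ k, (Γ k).trace * (∑ a, X a * D1 k a) := by
      refine Finset.sum_congr rfl fun k _ => ?_
      rw [Finset.mul_sum]
      exact Finset.sum_congr rfl fun a _ => by ring
    have e5 : ∑ k, ∑ a, X a * ∑ b, Γ k b a * D1 k b =
        ∑ k, ∑ a, (∑ c, Γ k a c * X c) * D1 k a := by
      refine Finset.sum_congr rfl fun k _ => ?_
      simp only [Finset.mul_sum, Finset.sum_mul]
      rw [Finset.sum_comm]
      exact Finset.sum_congr rfl fun a _ => Finset.sum_congr rfl fun b _ => by ring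
    rw [e1]
    simp only [e2, mul_sub, Finset.sum_sub_distrib]
    rw [e3, e4, e5]
    ring
  -- assembly
  have s4 : ∑ k, ∑ a, X a * (t * (∑ j, ∑ b, dA k j b * D2 k a j b) + F3 k a) =
      t * (∑ k, ∑ a, ∑ j, ∑ b, dA k j b * (X a * D2 k a j b)) + ∑ k, ∑ a, X a * F3 k a := by
    rw [Finset.mul_sum, ← Finset.sum_add_distrib]
    refine Finset.sum_congr rfl fun k _ => ?_
    rw [Finset.mul_sum, ← Finset.sum_add_distrib]
    refine Finset.sum_congr rfl fun a _ => ?_
    rw [mul_add]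
    congr 1
    simp only [Finset.mul_sum]
    exact Finset.sum_congr rfl fun j _ => Finset.sum_congr rfl fun b _ => by ring
  have s5 : ∑ k, t ^ 2 * (∑ b, low b * A k b) * (∑ a, X a * D1 k a) =
      t * (t * ∑ k, (∑ b, low b * A k b) * (∑ a, X a * D1 k a)) := by
    rw [Finset.mul_sum, Finset.mul_sum]
    exact Finset.sum_congr rfl fun k _ => by ring
  have s6 : ∑ k, ∑ a, (A k a - ∑ c, Γ k a c * X c) * D1 k a =
      ∑ k, ∑ a, A k a * D1 k a - ∑ k, ∑ a, (∑ c, Γ k a c * X c) * D1 k a := by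
    simp only [sub_mul, Finset.sum_sub_distrib]
  simp only [Finset.sum_add_distrib, Finset.sum_sub_distrib]
  rw [s4, s5, s6, s1, s2, s3]
  ring

theorem A7_evM_X (A : Mt d) (k b : Fin d) : evM A (X (k, b)) = A k b := by
  unfold evM
  rw [aeval_X]

theorem local_alg (C : Cu d) (hC : Skew2 C) (Γ : Fin d → Mt d) (A : Mt d) (X low : Fin d → ℝ)
    (dA : Fin d → Fin d → Fin d → ℝ) (dC : Fin d → Cu d) (t : ℝ)
    (hdA : ∀ k j b, dA k j b - dA j k b = - ∑ c, low c * C k j c b + ∑ c, Γ j b c * A k c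
      - ∑ c, Γ k b c * A j c)
    (hdC : ∀ k i j a b, (dC k i j a b + actC (Γ k) C i j a b) + (dC i j k a b + actC (Γ i) C j k a b)
      + (dC j k i a b + actC (Γ j) C k i a b) = 0) :
    - (t * ∑ b, low b * X b) * evM (t • A) (PC C) + ∑ k, ∑ a, A k a * evM (t • A) (dP k a (PC C)) =
    ∑ k, ((Γ k).trace * (∑ a, X a * evM (t • A) (dP k a (PC C)))
      - t ^ 2 * (∑ b, low b * A k b) * (∑ a, X a * evM (t • A) (dP k a (PC C)))
      + ∑ a, (A k a - ∑ c, Γ k a c * X c) * evM (t • A) (dP k a (PC C))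
      + ∑ a, X a * (t * (∑ j, ∑ b, dA k j b * evM (t • A) (dP j b (dP k a (PC C))))
        + evM (t • A) (Dop (dC k) (dP k a (PC C))))) := by
  have hC2 : ∀ i j a b, C i j a b = C j i b a := fun i j a b => by
    rw [hC.lo i j a b, hC.up j i a b, neg_neg]
  refine A7_core C Γ A X low dA t (evM (t • A) (PC C)) (fun k a => evM (t • A) (dP k a (PC C)))
    (fun k a => evM (t • A) (Dop (dC k) (dP k a (PC C))))
    (fun k a => evM (t • A) (Dop (actC (Γ k) C) (dP k a (PC C))))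
    (fun k a j b => evM (t • A) (dP j b (dP k a (PC C)))) hdA ?_ ?_ ?_ ?_
  · intro a b
    have e1 := congrArg (evM (t • A)) (euler_PC C hC2 a b)
    rw [map_sum, map_sub, map_sum] at e1
    simp only [map_mul, A7_evM_X, Matrix.smul_apply, smul_eq_mul] at e1
    show ∑ k, t * A k b * evM (t • A) (dP k a (PC C)) = _
    rw [e1]
    congr 1
    · split_ifs
      · rfl
      · rw [map_zero]
    · rw [Finset.mul_sum]
      refine Finset.sum_congr rfl fun k _ => ?_
      simp only [Eop, LinearMap.smul_apply, LinearMap.sum_apply, map_smul, map_sum, smul_eq_mul]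
  · intro k a j b
    have e1 := congrArg (evM (t • A)) (anti_PC C j b k a)
    rw [map_neg] at e1
    exact e1
  · intro a
    have e1 := cyclic_PC C dC (fun k i j a b => - actC (Γ k) C i j a b)
      (fun k i j a b => by linarith [hdC k i j a b]) a
    have e2 : ∀ k, Dop (fun i j a b => - actC (Γ k) C i j a b) (dP k a (PC C)) =
        - Dop (actC (Γ k) C) (dP k a (PC C)) := by
      intro k
      simp only [A6_Dop_apply, neg_smul, Finset.sum_neg_distrib, smul_neg]
    simp only [e2] at e1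
    have e3 := congrArg (evM (t • A)) e1
    simp only [map_sum, map_neg, Finset.sum_neg_distrib] at e3
    exact e3
  · intro k a
    have e1 := gl_invariance C hC2 (t • A) (Γ k) k a
    simp only [Matrix.smul_apply, smul_eq_mul] at e1
    exact e1

end H79G
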