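import Pool.Agent.Lib.H79G.S0

/-!
# H79G chunk B2 (M): `[∇_k, ∇_j] X = R_kj X`

`nab G X y j b = ∂_j X^b + ∑_c Γ^b_{jc} X^c` (`chr G b j c`). Hence
`∂_k (nab j b) - ∂_j (nab k b) = ∑_c (∂_k Γ^b_{jc} - ∂_j Γ^b_{kc}) X^c + ∑_c Γ^b_{jc} ∂_k X^c
 - ∑_c Γ^b_{kc} ∂_j X^c` (second derivatives of `X^b` commute: `N_pd_symm`), and
`∂_k X^c = nab k c - ∑_e Γ^c_{ke} X^e`; the definition of `Rm` (`Lib/H31R/N3.lean`) with
`chM G j x b c = chr G b j c x`.
-/

open scoped Manifold ContDiff
open Set H31R MeasureTheory MvPolynomial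

namespace H79G

variable {d : ℕ} {U : Set (EE d)} {G : EE d → Mt d} {X : EE d → Fin d → ℝ}

theorem B2_diff {f : EE d → ℝ} {x : EE d} (hU : IsOpen U) (hf : ContDiffOn ℝ ∞ f U)
    (hx : x ∈ U) : DifferentiableAt ℝ f x :=
  (hf.contDiffAt (hU.mem_nhds hx)).differentiableAt (by simp)

theorem B2_pdnab (h : MetOn U G) (hX : ∀ a, ContDiffOn ℝ ∞ (fun y => X y a) U) {x : EE d}
    (hx : x ∈ U) (k j b : Fin d) :
    pd k (fun y => nab G X y j b) x = pd k (pd j (fun y => X y b)) x
      + ∑ c, (pd k (chr G b j c) x * X x c + chr G b j c x * pd k (fun y => X y c) x) := by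
  have e1 : (fun y => nab G X y j b) = fun y => pd j (fun y => X y b) y +
      ∑ c, chr G b j c y * X y c := rfl
  have d1 : DifferentiableAt ℝ (pd j (fun y => X y b)) x := B2_diff h.hU (pd_smooth h.hU (hX b) j) hx
  have d2 : ∀ c, DifferentiableAt ℝ (fun y => chr G b j c y * X y c) x := fun c =>
    (B2_diff h.hU (h.smooth_chr b j c) hx).mul (B2_diff h.hU (hX c) hx)
  have d3 : DifferentiableAt ℝ (fun y => ∑ c, chr G b j c y * X y c) x :=
    DifferentiableAt.fun_sum fun c _ => d2 c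
  rw [e1, N_pd_add d1 d3, N_pd_sum _ _ fun c _ => d2 c]
  congr 1
  exact Finset.sum_congr rfl fun c _ =>
    N_pd_mul (B2_diff h.hU (h.smooth_chr b j c) hx) (B2_diff h.hU (hX c) hx) k

theorem B2_swap (F : Fin d → Fin d → ℝ) (v : Fin d → ℝ) (w : Fin d → ℝ) :
    ∑ c, w c * ∑ e, F c e * v e = ∑ c, (∑ e, w e * F e c) * v c := by
  simp only [Finset.mul_sum, Finset.sum_mul]
  rw [Finset.sum_comm]
  exact Finset.sum_congr rfl fun c _ => Finset.sum_congr rfl fun e _ => by ring

theorem comm_nab (h : MetOn U G) (hX : ∀ a, ContDiffOn ℝ ∞ (fun y => X y a) U) {x : EE d}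
    (hx : x ∈ U) (k j b : Fin d) :
    pd k (fun y => nab G X y j b) x - pd j (fun y => nab G X y k b) x =
      ∑ c, Rm G k j x b c * X x c + ∑ c, chM G j x b c * nab G X x k c
        - ∑ c, chM G k x b c * nab G X x j c := by
  have s2 : pd k (pd j (fun y => X y b)) x = pd j (pd k (fun y => X y b)) x :=
    N_pd_symm h.hU (contDiffOn_infty.1 (hX b) 2) hx k j
  rw [B2_pdnab h hX hx k j b, B2_pdnab h hX hx j k b, s2]
  have n1 : ∑ c, chM G j x b c * nab G X x k c = ∑ c, chr G b j c x * pd k (fun y => X y c) x +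
      ∑ c, (∑ e, chr G b j e x * chr G e k c x) * X x c := by
    rw [← B2_swap (fun c e => chr G c k e x) (X x) (fun c => chr G b j c x),
      ← Finset.sum_add_distrib]
    refine Finset.sum_congr rfl fun c _ => ?_
    rw [← mul_add]
    rfl
  have n2 : ∑ c, chM G k x b c * nab G X x j c = ∑ c, chr G b k c x * pd j (fun y => X y c) x +
      ∑ c, (∑ e, chr G b k e x * chr G e j c x) * X x c := by
    rw [← B2_swap (fun c e => chr G c j e x) (X x) (fun c => chr G b k c x),
      ← Finset.sum_add_distrib]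
    refine Finset.sum_congr rfl fun c _ => ?_
    rw [← mul_add]
    rfl
  have n3 : ∑ c, Rm G k j x b c * X x c = ∑ c, pd k (chr G b j c) x * X x c
      - ∑ c, pd j (chr G b k c) x * X x c + (∑ c, (∑ e, chr G b k e x * chr G e j c x) * X x c
        - ∑ c, (∑ e, chr G b j e x * chr G e k c x) * X x c) := by
    rw [← Finset.sum_sub_distrib, ← Finset.sum_sub_distrib, ← Finset.sum_add_distrib]
    refine Finset.sum_congr rfl fun c _ => ?_
    unfold Rm
    rw [Matrix.add_apply, Matrix.sub_apply, Matrix.sub_apply, Matrix.mul_apply, Matrix.mul_apply]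
    have e1 : pdM k (chM G j) x b c = pd k (chr G b j c) x := rfl
    have e2 : pdM j (chM G k) x b c = pd j (chr G b k c) x := rfl
    rw [e1, e2]
    show (_ - _ + (∑ e, chr G b k e x * chr G e j c x - ∑ e, chr G b j e x * chr G e k c x)) *
      X x c = _
    ring
  rw [n1, n2, n3, Finset.sum_add_distrib, Finset.sum_add_distrib]
  ring

end H79G
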