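import Pool.Agent.Lib.H79G.S0

/-!
# H79G chunk B3 (M): skewness of the curvature, second Bianchi identity

`Rm_skew`: `Rm G i j x = - Rm G j i x` (definition).

`Rm_compat`: `G Rm_ij + Rm_ijᵀ G = 0`. Differentiate `∂_j G = Γ_jᵀ G + G Γ_j` (`N_chM_compat`, valid on
`U`) in the direction `i`, subtract the same with `i, j` exchanged (`N_pdM_symm`), insert
`∂_i G = Γ_iᵀ G + G Γ_i` again.

`skew2_cuv`: the first antisymmetry is `Rm_skew`; the second: multiply `Rm_compat` by `G⁻¹` on both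
sides: `Rm G⁻¹ = - G⁻¹ Rmᵀ = - (Rm G⁻¹)ᵀ` (`G` symmetric).

`bianchi2`: `∑_cyc(k,i,j) (∂_k Rm_ij + Γ_k Rm_ij - Rm_ij Γ_k) = 0`: insert
`Rm_ij = ∂_i Γ_j - ∂_j Γ_i + Γ_i Γ_j - Γ_j Γ_i`; second derivatives of `Γ` commute, everything else
cancels.

`cyclic_cuv`: `∂_k (Rm_ij G⁻¹) = (∂_k Rm_ij) G⁻¹ - Rm_ij G⁻¹ (∂_k G) G⁻¹` (`N_pdM_inv`), and
`G⁻¹ (∂_k G) G⁻¹ = G⁻¹ Γ_kᵀ + Γ_k G⁻¹`; hence
`∂_k (Rm_ij G⁻¹) + Γ_k (Rm_ij G⁻¹) + (Rm_ij G⁻¹) Γ_kᵀ = (∂_k Rm_ij + Γ_k Rm_ij - Rm_ij Γ_k) G⁻¹`.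
-/

open scoped Manifold ContDiff
open Set H31R MeasureTheory MvPolynomial

namespace H79G

variable {d : ℕ} {U : Set (EE d)} {G : EE d → Mt d} {X : EE d → Fin d → ℝ}

theorem Rm_skew (G : EE d → Mt d) (x : EE d) (i j : Fin d) : Rm G i j x = - Rm G j i x := by
  unfold Rm
  abel

theorem B3_pdM_sub {A B : EE d → Mt d} {n : ℕ} {x : EE d} (hU : IsOpen U) (hx : x ∈ U)
    (hA : SmM (n + 1) U A) (hB : SmM (n + 1) U B) (k : Fin d) :
    pdM k (fun y => A y - B y) x = pdM k A x - pdM k B x := by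
  ext i j
  exact N_pd_sub (N_diff hU (hA _ _) hx) (N_diff hU (hB _ _) hx) k

theorem B3_sub_sm {A B : EE d → Mt d} {n : ℕ} (hA : SmM n U A) (hB : SmM n U B) :
    SmM n U (fun y => A y - B y) := fun i j => (hA i j).sub (hB i j)

theorem B3_chM (h : MetOn U G) (n : ℕ) (i : Fin d) : SmM n U (chM G i) :=
  N_chM_sm h.hU (h.smM (n + 1)) h.det_ne i

/-- Second derivatives of the metric. -/
theorem B3_pdpd (h : MetOn U G) {x : EE d} (hx : x ∈ U) (i j : Fin d) :
    pdM i (pdM j G) x = (pdM i (chM G j) x).transpose * G x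
      + (chM G j x).transpose * pdM i G x + (pdM i G x * chM G j x + G x * pdM i (chM G j) x) := by
  have e1 : pdM i (pdM j G) x =
      pdM i (fun y => (chM G j y).transpose * G y + G y * chM G j y) x :=
    N_pdM_congr h.hU hx (fun y hy => N_chM_compat h.hU hy h.symm h.det_ne j) i
  have s1 : SmM (0 + 1) U G := h.smM 1
  have s2 : SmM (0 + 1) U (chM G j) := B3_chM h 1 j
  have s3 : SmM (0 + 1) U (fun y => (chM G j y).transpose) := N_tr_sm s2
  rw [e1, N_pdM_add h.hU hx (N_mul_sm s3 s1) (N_mul_sm s1 s2), N_pdM_mul h.hU hx s3 s1,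
    N_pdM_mul h.hU hx s1 s2]
  rfl

theorem Rm_compat (h : MetOn U G) {x : EE d} (hx : x ∈ U) (i j : Fin d) :
    G x * Rm G i j x + (Rm G i j x).transpose * G x = 0 := by
  have e1 := N_pdM_symm h.hU hx (h.smM 2) i j
  rw [B3_pdpd h hx i j, B3_pdpd h hx j i, N_chM_compat h.hU hx h.symm h.det_ne i,
    N_chM_compat h.hU hx h.symm h.det_ne j] at e1
  unfold Rm
  rw [Matrix.transpose_add, Matrix.transpose_sub, Matrix.transpose_sub, Matrix.transpose_mul,
    Matrix.transpose_mul]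
  have e2 := sub_eq_zero.2 e1
  rw [← e2]
  noncomm_ring

theorem skew2_cuv (h : MetOn U G) {x : EE d} (hx : x ∈ U) : Skew2 (cuv G x) := by
  have hu : IsUnit (G x).det := isUnit_iff_ne_zero.2 (h.det_ne x hx)
  have hsym : (G x).transpose = G x := by
    ext a b
    exact h.symm x hx b a
  constructor
  · intro i j a b
    unfold cuv
    rw [Rm_skew G x i j, Matrix.neg_mul, Matrix.neg_apply]
  · intro i j a b
    have e1 := Rm_compat h hx i j
    have e2 : Rm G i j x * (G x)⁻¹ + (G x)⁻¹ * (Rm G i j x).transpose = 0 := by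
      have e3 : (G x)⁻¹ * (G x * Rm G i j x + (Rm G i j x).transpose * G x) * (G x)⁻¹ = 0 := by
        rw [e1, Matrix.mul_zero, Matrix.zero_mul]
      rw [Matrix.mul_add, Matrix.add_mul, ← Matrix.mul_assoc, Matrix.nonsing_inv_mul _ hu,
        Matrix.one_mul, ← Matrix.mul_assoc, Matrix.mul_assoc _ (G x), Matrix.mul_nonsing_inv _ hu,
        Matrix.mul_one] at e3
      exact e3
    have e4 : (G x)⁻¹ * (Rm G i j x).transpose = (Rm G i j x * (G x)⁻¹).transpose := by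
      rw [Matrix.transpose_mul, Matrix.transpose_nonsing_inv, hsym]
    rw [e4] at e2
    have e5 := congrFun (congrFun e2 a) b
    have e6 : (Rm G i j x * (G x)⁻¹) a b + (Rm G i j x * (G x)⁻¹) b a = 0 := e5
    unfold cuv
    linarith

theorem B3_pdRm (h : MetOn U G) {x : EE d} (hx : x ∈ U) (k i j : Fin d) :
    pdM k (Rm G i j) x = pdM k (pdM i (chM G j)) x - pdM k (pdM j (chM G i)) x
      + ((pdM k (chM G i) x * chM G j x + chM G i x * pdM k (chM G j) x)
        - (pdM k (chM G j) x * chM G i x + chM G j x * pdM k (chM G i) x)) := by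
  have s1 : ∀ i, SmM (0 + 1) U (chM G i) := fun i => B3_chM h 1 i
  have s2 : ∀ i j, SmM (0 + 1) U (pdM i (chM G j)) := fun i j => N_pdM_sm h.hU (B3_chM h 2 j) i
  have s3 : ∀ i j, SmM (0 + 1) U (fun y => chM G i y * chM G j y) :=
    fun i j => N_mul_sm (s1 i) (s1 j)
  have e1 : pdM k (Rm G i j) x = pdM k (fun y => (pdM i (chM G j) y - pdM j (chM G i) y) +
      (chM G i y * chM G j y - chM G j y * chM G i y)) x := rfl
  rw [e1, N_pdM_add h.hU hx (B3_sub_sm (s2 i j) (s2 j i)) (B3_sub_sm (s3 i j) (s3 j i)),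
    B3_pdM_sub h.hU hx (s2 i j) (s2 j i), B3_pdM_sub h.hU hx (s3 i j) (s3 j i),
    N_pdM_mul h.hU hx (s1 i) (s1 j), N_pdM_mul h.hU hx (s1 j) (s1 i)]

theorem bianchi2 (h : MetOn U G) {x : EE d} (hx : x ∈ U) (k i j : Fin d) :
    (pdM k (Rm G i j) x + chM G k x * Rm G i j x - Rm G i j x * chM G k x)
      + (pdM i (Rm G j k) x + chM G i x * Rm G j k x - Rm G j k x * chM G i x)
      + (pdM j (Rm G k i) x + chM G j x * Rm G k i x - Rm G k i x * chM G j x) = 0 := by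
  have c1 : ∀ a b c : Fin d, pdM a (pdM b (chM G c)) x = pdM b (pdM a (chM G c)) x :=
    fun a b c => N_pdM_symm h.hU hx (B3_chM h 2 c) a b
  rw [B3_pdRm h hx k i j, B3_pdRm h hx i j k, B3_pdRm h hx j k i, c1 k i j, c1 k j i, c1 i j k]
  unfold Rm
  noncomm_ring

theorem B3_Rm_sm (h : MetOn U G) (n : ℕ) (i j : Fin d) : SmM n U (Rm G i j) := by
  have s1 : ∀ i, SmM n U (chM G i) := fun i => B3_chM h n i
  have s2 : ∀ i j, SmM n U (pdM i (chM G j)) := fun i j => N_pdM_sm h.hU (B3_chM h (n + 1) j) i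
  exact N_add_sm (B3_sub_sm (s2 i j) (s2 j i))
    (B3_sub_sm (N_mul_sm (s1 i) (s1 j)) (N_mul_sm (s1 j) (s1 i)))

theorem B3_pdcuv (h : MetOn U G) {x : EE d} (hx : x ∈ U) (k i j a b : Fin d) :
    pd k (fun y => cuv G y i j a b) x + actC (chM G k x) (cuv G x) i j a b =
      ((pdM k (Rm G i j) x + chM G k x * Rm G i j x - Rm G i j x * chM G k x) * (G x)⁻¹) a b := by
  have hu : IsUnit (G x).det := isUnit_iff_ne_zero.2 (h.det_ne x hx)
  have s1 : SmM (0 + 1) U (Rm G i j) := B3_Rm_sm h 1 i j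
  have s2 : SmM (0 + 1) U (fun y => (G y)⁻¹) := N_inv_sm (h.smM 1) h.det_ne
  have e1 : pd k (fun y => cuv G y i j a b) x =
      pdM k (fun y => Rm G i j y * (G y)⁻¹) x a b := rfl
  have e2 : actC (chM G k x) (cuv G x) i j a b =
      (chM G k x * (Rm G i j x * (G x)⁻¹) + (Rm G i j x * (G x)⁻¹) * (chM G k x).transpose) a b := by
    unfold actC cuv
    rw [Matrix.add_apply, Matrix.mul_apply, Matrix.mul_apply (M := Rm G i j x * (G x)⁻¹),
      ← Finset.sum_add_distrib]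
    refine Finset.sum_congr rfl fun c _ => ?_
    rw [Matrix.transpose_apply]
    ring
  have e3 : pdM k (fun y => (G y)⁻¹) x =
      - ((G x)⁻¹ * (chM G k x).transpose + chM G k x * (G x)⁻¹) := by
    have s3 : SmM (0 + 1) U G := h.smM 1
    rw [N_pdM_inv h.hU hx s3 h.det_ne, N_chM_compat h.hU hx h.symm h.det_ne k, Matrix.mul_add,
      Matrix.add_mul, ← Matrix.mul_assoc, Matrix.mul_assoc _ (G x), Matrix.mul_nonsing_inv _ hu,
      Matrix.mul_one, ← Matrix.mul_assoc, Matrix.nonsing_inv_mul _ hu, Matrix.one_mul]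
  rw [e1, e2, ← Matrix.add_apply, N_pdM_mul h.hU hx s1 s2, e3]
  refine congrFun (congrFun ?_ a) b
  noncomm_ring

theorem cyclic_cuv (h : MetOn U G) {x : EE d} (hx : x ∈ U) (k i j a b : Fin d) :
    (pd k (fun y => cuv G y i j a b) x + actC (chM G k x) (cuv G x) i j a b)
      + (pd i (fun y => cuv G y j k a b) x + actC (chM G i x) (cuv G x) j k a b)
      + (pd j (fun y => cuv G y k i a b) x + actC (chM G j x) (cuv G x) k i a b) = 0 := by
  rw [B3_pdcuv h hx, B3_pdcuv h hx, B3_pdcuv h hx, ← Matrix.add_apply, ← Matrix.add_apply,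
    ← Matrix.add_mul, ← Matrix.add_mul, bianchi2 h hx, Matrix.zero_mul, Matrix.zero_apply]

end H79G
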