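import Pool.Agent.Lib.H79G.A0

/-!
# H79G chunk A8 (M): chain rule for `s ↦ evM (A s) (eD (C s) f)`

One real variable `s`.  Proof.  (a) `C`-free case: `HasDerivAt (fun s => evM (A s) f)
(∑_{k,a} A' k a * evM (A t) (dP k a f)) t` by induction on the polynomial `f`
(`MvPolynomial.induction_on`: constants, sums, products with a variable).
(b) for all `m` and all `f` (induction on `m`, `f` general):
`HasDerivAt (fun s => evM (A s) ((Dop (C s))^m f))
 (∑ A' k a * evM (A t) (dP k a ((Dop (C t))^m f)) + m * evM (A t) ((Dop (C t))^(m-1) (Dop C' f))) t`: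
`(Dop (C s))^(m+1) f = ∑ 1/4 C s i j a b • (Dop (C s))^m (dP i a (dP j b f))`; product rule, and the
operators commute (`dP_comm`, `Dop_Dop_comm`).
(c) sum over `m ≤ d` with the factors `1/m!`; the terms of the second sum are
`∑_{m ≤ d-1} (Dop (C t))^m (Dop C' f) / m!`, and `(Dop (C t))^d (Dop C' f) = 0` by `Dop_pow_zero`
since `f.totalDegree ≤ d` (for `d = 0` everything is trivial: `dP` has no indices, `Dop = 0`).
-/

open scoped Manifold ContDiff
open Set H31R MeasureTheory MvPolynomial

namespace H79G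

variable {d : ℕ}

theorem hasDerivAt_evM {A : ℝ → Mt d} {A' : Mt d} {t : ℝ}
    (hA : ∀ k a, HasDerivAt (fun s => A s k a) (A' k a) t) (f : Po d) :
    HasDerivAt (fun s => evM (A s) f) (∑ k, ∑ a, A' k a * evM (A t) (dP k a f)) t := by
  induction f using MvPolynomial.induction_on with
  | C r =>
    have e1 : (fun s => evM (A s) (MvPolynomial.C r : Po d)) = fun _ => r := by
      funext s
      unfold evM
      rw [algHom_C]
      rfl
    have e2 : ∑ k, ∑ a, A' k a * evM (A t) (dP k a (MvPolynomial.C r : Po d)) = 0 := by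
      refine Finset.sum_eq_zero fun k _ => Finset.sum_eq_zero fun a _ => ?_
      have e3 : dP k a (MvPolynomial.C r : Po d) = 0 := pderiv_C
      rw [e3, map_zero, mul_zero]
    rw [e1, e2]
    exact hasDerivAt_const t r
  | add p q hp hq =>
    have e1 : (fun s => evM (A s) (p + q)) = fun s => evM (A s) p + evM (A s) q := by
      funext s
      rw [map_add]
    rw [e1]
    refine (hp.add hq).congr_deriv ?_
    simp only [map_add, mul_add, Finset.sum_add_distrib]
  | mul_X p i hp =>
    have e0 : ∀ s, evM (A s) (X i : Po d) = A s i.1 i.2 := fun s => by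
      unfold evM
      rw [aeval_X]
    have e1 : (fun s => evM (A s) (p * X i)) = fun s => evM (A s) p * A s i.1 i.2 := by
      funext s
      rw [map_mul, e0]
    rw [e1]
    refine (hp.mul (hA i.1 i.2)).congr_deriv ?_
    have e2 : ∀ k a, dP k a (p * X i) = dP k a p * X i + p * (Pi.single (k, a) 1 : Fin d × Fin d → Po d) i := by
      intro k a
      show pderiv (k, a) (p * X i) = _
      rw [pderiv_mul, pderiv_X, Pi.single_comm]
      rfl
    have e3 : ∑ k, ∑ a, A' k a * evM (A t) (p * (Pi.single (k, a) 1 : Fin d × Fin d → Po d) i) =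
        evM (A t) p * A' i.1 i.2 := by
      rw [Finset.sum_eq_single i.1, Finset.sum_eq_single i.2]
      · rw [Prod.mk.eta, Pi.single_eq_same, mul_one]
        ring
      · intro a _ ha
        rw [Pi.single_eq_of_ne (fun h => ha (by rw [h])), mul_zero, map_zero, mul_zero]
      · intro h
        exact absurd (Finset.mem_univ _) h
      · intro k _ hk
        refine Finset.sum_eq_zero fun a _ => ?_
        rw [Pi.single_eq_of_ne (fun h => hk (by rw [h])), mul_zero, map_zero, mul_zero]
      · intro h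
        exact absurd (Finset.mem_univ _) h
    simp only [e2, map_add, mul_add, Finset.sum_add_distrib]
    rw [e3]
    congr 1
    rw [Finset.sum_mul]
    refine Finset.sum_congr rfl fun k _ => ?_
    rw [Finset.sum_mul]
    refine Finset.sum_congr rfl fun a _ => ?_
    rw [map_mul, e0]
    ring

theorem A8_lin (φ : Po d →ₗ[ℝ] ℝ) (C : Cu d) (f : Po d) :
    ∑ i, ∑ j, ∑ a, ∑ b, 1 / 4 * C i j a b * φ (dP i a (dP j b f)) = φ (Dop C f) := by
  have e1 : Dop C f = (1 / 4 : ℝ) • ∑ i, ∑ j, ∑ a, ∑ b, C i j a b • dP i a (dP j b f) := by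
    simp only [Dop, LinearMap.smul_apply, LinearMap.sum_apply, Module.End.mul_apply]
  rw [e1, map_smul]
  simp only [map_sum, map_smul, smul_eq_mul, Finset.mul_sum]
  exact Finset.sum_congr rfl fun i _ => Finset.sum_congr rfl fun j _ =>
    Finset.sum_congr rfl fun a _ => Finset.sum_congr rfl fun b _ => by ring

/-- Evaluation as a linear map. -/
noncomputable def A8_ev (A : Mt d) : Po d →ₗ[ℝ] ℝ := (evM A).toLinearMap

theorem A8_ev_apply (A : Mt d) (f : Po d) : A8_ev A f = evM A f := rfl

/-- The derivative of the `m`-th power term. -/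
noncomputable def A8_D (A A' : Mt d) (C C' : Cu d) (m : ℕ) : Po d →ₗ[ℝ] ℝ :=
  ∑ k, ∑ a, A' k a • (A8_ev A ∘ₗ dP k a ∘ₗ (Dop C) ^ m) +
    (m : ℝ) • (A8_ev A ∘ₗ ((Dop C) ^ (m - 1) * Dop C'))

theorem A8_D_apply (A A' : Mt d) (C C' : Cu d) (m : ℕ) (f : Po d) :
    A8_D A A' C C' m f = ∑ k, ∑ a, A' k a * evM A (dP k a (((Dop C) ^ m) f)) +
      (m : ℝ) * evM A (((Dop C) ^ (m - 1)) (Dop C' f)) := by
  unfold A8_D
  simp only [LinearMap.add_apply, LinearMap.sum_apply, LinearMap.smul_apply,
    LinearMap.comp_apply, Module.End.mul_apply, smul_eq_mul, A8_ev_apply]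

theorem A8_D_succ (A A' : Mt d) (C C' : Cu d) (m : ℕ) (f : Po d) :
    A8_D A A' C C' m (Dop C f) + evM A (((Dop C) ^ m) (Dop C' f)) = A8_D A A' C C' (m + 1) f := by
  rw [A8_D_apply, A8_D_apply]
  have e1 : ((Dop C) ^ (m + 1)) f = ((Dop C) ^ m) (Dop C f) := by
    rw [pow_succ]
    rfl
  have e2 : (m : ℝ) * evM A (((Dop C) ^ (m - 1)) (Dop C' (Dop C f))) =
      (m : ℝ) * evM A (((Dop C) ^ m) (Dop C' f)) := by
    rcases Nat.eq_zero_or_pos m with h | h
    · rw [h]
      simp
    · have e3 : Dop C' (Dop C f) = Dop C (Dop C' f) :=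
        LinearMap.congr_fun (Dop_Dop_comm C' C) f
      have e4 : ((Dop C) ^ m) (Dop C' f) = ((Dop C) ^ (m - 1)) (Dop C (Dop C' f)) := by
        have e5 : m = m - 1 + 1 := by omega
        conv_lhs => rw [e5, pow_succ]
        rfl
      rw [e3, e4]
  rw [e1, e2, Nat.add_sub_cancel]
  push_cast
  ring

theorem A8_pow {A : ℝ → Mt d} {A' : Mt d} {C : ℝ → Cu d} {C' : Cu d} {t : ℝ}
    (hA : ∀ k a, HasDerivAt (fun s => A s k a) (A' k a) t)
    (hC : ∀ i j a b, HasDerivAt (fun s => C s i j a b) (C' i j a b) t) (m : ℕ) :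
    ∀ f : Po d, HasDerivAt (fun s => evM (A s) (((Dop (C s)) ^ m) f))
      (A8_D (A t) A' (C t) C' m f) t := by
  induction m with
  | zero =>
    intro f
    refine (hasDerivAt_evM hA f).congr_deriv ?_
    rw [A8_D_apply]
    simp
  | succ m ih =>
    intro f
    have e1 : (fun s => evM (A s) (((Dop (C s)) ^ (m + 1)) f)) = fun s =>
        ∑ i, ∑ j, ∑ a, ∑ b, 1 / 4 * C s i j a b *
          evM (A s) (((Dop (C s)) ^ m) (dP i a (dP j b f))) := by
      funext s
      have e2 := A8_lin (A8_ev (A s) ∘ₗ (Dop (C s)) ^ m) (C s) f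
      have e3 : ((Dop (C s)) ^ (m + 1)) f = ((Dop (C s)) ^ m) (Dop (C s) f) := by
        rw [pow_succ]
        rfl
      rw [e3]
      exact e2.symm
    rw [e1]
    have e4 : HasDerivAt (fun s => ∑ i, ∑ j, ∑ a, ∑ b, 1 / 4 * C s i j a b *
          evM (A s) (((Dop (C s)) ^ m) (dP i a (dP j b f))))
        (∑ i, ∑ j, ∑ a, ∑ b, (1 / 4 * C' i j a b *
          evM (A t) (((Dop (C t)) ^ m) (dP i a (dP j b f))) + 1 / 4 * C t i j a b *
          A8_D (A t) A' (C t) C' m (dP i a (dP j b f)))) t :=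
      HasDerivAt.fun_sum fun i _ => HasDerivAt.fun_sum fun j _ => HasDerivAt.fun_sum fun a _ =>
        HasDerivAt.fun_sum fun b _ => ((hC i j a b).const_mul (1 / 4)).mul
          (ih (dP i a (dP j b f)))
    refine e4.congr_deriv ?_
    simp only [Finset.sum_add_distrib]
    have e5 := A8_lin (A8_ev (A t) ∘ₗ (Dop (C t)) ^ m) C' f
    have e6 := A8_lin (A8_D (A t) A' (C t) C' m) (C t) f
    simp only [LinearMap.comp_apply, A8_ev_apply] at e5
    rw [e5, e6, ← A8_D_succ]
    ring

theorem hasDerivAt_evM_eD {A : ℝ → Mt d} {A' : Mt d} {C : ℝ → Cu d} {C' : Cu d} {t : ℝ}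
    (hA : ∀ k a, HasDerivAt (fun s => A s k a) (A' k a) t)
    (hC : ∀ i j a b, HasDerivAt (fun s => C s i j a b) (C' i j a b) t) (f : Po d)
    (hf : f.totalDegree ≤ d) :
    HasDerivAt (fun s => evM (A s) (eD (C s) f))
      ((∑ k, ∑ a, A' k a * evM (A t) (dP k a (eD (C t) f)))
        + evM (A t) (Dop C' (eD (C t) f))) t := by
  have e1 : ∀ (C : Cu d) (g : Po d), eD C g =
      ∑ m ∈ Finset.range (d + 1), ((m.factorial : ℝ)⁻¹) • ((Dop C) ^ m) g := by
    intro C g
    unfold eD
    simp only [LinearMap.sum_apply, LinearMap.smul_apply]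
  have e2 : (fun s => evM (A s) (eD (C s) f)) = fun s =>
      ∑ m ∈ Finset.range (d + 1), ((m.factorial : ℝ)⁻¹) * evM (A s) (((Dop (C s)) ^ m) f) := by
    funext s
    rw [e1, map_sum]
    simp only [map_smul, smul_eq_mul]
  rw [e2]
  have e3 : HasDerivAt (fun s => ∑ m ∈ Finset.range (d + 1),
      ((m.factorial : ℝ)⁻¹) * evM (A s) (((Dop (C s)) ^ m) f))
      (∑ m ∈ Finset.range (d + 1), ((m.factorial : ℝ)⁻¹) * A8_D (A t) A' (C t) C' m f) t :=
    HasDerivAt.fun_sum fun m _ => (A8_pow hA hC m f).const_mul _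
  refine e3.congr_deriv ?_
  simp only [A8_D_apply, mul_add, Finset.sum_add_distrib]
  congr 1
  · rw [e1]
    simp only [map_sum, map_smul, smul_eq_mul, Finset.mul_sum]
    rw [Finset.sum_comm]
    refine Finset.sum_congr rfl fun k _ => ?_
    rw [Finset.sum_comm]
    exact Finset.sum_congr rfl fun a _ => Finset.sum_congr rfl fun m _ => by ring
  · have e4 : Dop C' (eD (C t) f) = eD (C t) (Dop C' f) :=
      (LinearMap.congr_fun (eD_Dop_comm (C t) C') f).symm
    have e5 : ((Dop (C t)) ^ d) (Dop C' f) = 0 := by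
      rcases Nat.eq_zero_or_pos d with h | h
      · subst h
        have e6 : Dop C' f = 0 := by
          unfold Dop
          simp
        rw [e6, map_zero]
      · refine Dop_pow_zero (C t) d _ ?_
        have := totalDegree_Dop C' f
        omega
    rw [e4, e1, Finset.sum_range_succ', Finset.sum_range_succ, e5, smul_zero]
    simp only [map_sum, map_smul, smul_eq_mul, Nat.cast_zero, zero_mul, mul_zero, add_zero,
      Nat.add_sub_cancel]
    refine Finset.sum_congr rfl fun m _ => ?_
    have h1 : ((m.factorial : ℝ)) ≠ 0 := by positivity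
    have h2 : ((m : ℝ) + 1) ≠ 0 := by positivity
    rw [Nat.factorial_succ]
    push_cast
    field_simp

end H79G
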