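import Pool.Agent.Lib.H79G.B1
import Pool.Agent.Lib.H79G.A8

/-!
# H79G chunk L2 (M/L): the divergence of the transgression field

Product and chain rule for
`dens G y * VV G X t y k = dens G y * (exp (-(t² q(y))/2) * ∑ a, X y a * evM (t • nab G X y) (dP k a (PC (cuv G y))))`
at `x ∈ U` in the direction `k`. All the factors are smooth on `U` (S0). `dP k a (PC C) = eD C (dP k a (dtP d))`
(`eD_dP_comm`), total degree `≤ d`; restrict to the line `s ↦ x + s e_k` and use
`hasDerivAt_evM_eD` (A8) (a function differentiable at `x` satisfies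
`HasDerivAt (fun s => f (x + s • ebas k)) (pd k f x) 0`, and conversely `pd k f x` is determined by this).
`pd_dens` of B1.
-/

open scoped Manifold ContDiff
open Set H31R MeasureTheory MvPolynomial

namespace H79G

variable {d : ℕ} {U : Set (EE d)} {G : EE d → Mt d} {X : EE d → Fin d → ℝ}

/-- restriction to a line in the direction of a basis vector -/
theorem hasDerivAt_line {f : EE d → ℝ} {x : EE d} (hf : DifferentiableAt ℝ f x) (k : Fin d) :
    HasDerivAt (fun s : ℝ => f (x + s • ebas k)) (pd k f x) 0 := by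
  have h1 : HasDerivAt (fun s : ℝ => x + s • (ebas k : EE d)) (ebas k) 0 := by
    have := ((hasDerivAt_id (0 : ℝ)).smul_const (ebas k : EE d)).const_add x
    simpa using this
  have h2 : HasFDerivAt f (fderiv ℝ f x) (x + (0 : ℝ) • (ebas k : EE d)) := by
    rw [zero_smul, add_zero]
    exact hf.hasFDerivAt
  exact h2.comp_hasDerivAt (0 : ℝ) h1

theorem L2_diff {f : EE d → ℝ} {x : EE d} (hU : IsOpen U) (hf : ContDiffOn ℝ ∞ f U)
    (hx : x ∈ U) : DifferentiableAt ℝ f x :=
  (hf.contDiffAt (hU.mem_nhds hx)).differentiableAt (by simp)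

theorem L2_eD (C : Cu d) (k a : Fin d) : eD C (dP k a (dtP d)) = dP k a (PC C) :=
  LinearMap.congr_fun (eD_dP_comm C k a) (dtP d)

/-- The derivative of the polynomial factor. -/
theorem L2_evM (h : MetOn U G) (hX : ∀ a, ContDiffOn ℝ ∞ (fun y => X y a) U) {x : EE d}
    (hx : x ∈ U) (t : ℝ) (k a : Fin d) :
    HasDerivAt (fun s : ℝ => evM (t • nab G X (x + s • ebas k))
        (dP k a (PC (cuv G (x + s • ebas k)))))
      (t * (∑ j, ∑ b, pd k (fun y => nab G X y j b) x *
              evM (t • nab G X x) (dP j b (dP k a (PC (cuv G x)))))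
            + evM (t • nab G X x) (Dop (fun i j a b => pd k (fun y => cuv G y i j a b) x)
              (dP k a (PC (cuv G x))))) 0 := by
  have hx0 : x + (0 : ℝ) • (ebas k : EE d) = x := by rw [zero_smul, add_zero]
  have e1 : (fun s : ℝ => evM (t • nab G X (x + s • ebas k))
        (dP k a (PC (cuv G (x + s • ebas k))))) = fun s : ℝ =>
        evM ((fun s : ℝ => t • nab G X (x + s • ebas k)) s)
          (eD ((fun s : ℝ => cuv G (x + s • ebas k)) s) (dP k a (dtP d))) := by
    funext s
    rw [L2_eD]
  rw [e1]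
  refine (hasDerivAt_evM_eD (A' := fun j b => t * pd k (fun y => nab G X y j b) x)
    (C' := fun i j a b => pd k (fun y => cuv G y i j a b) x) ?_ ?_ _ ?_).congr_deriv ?_
  · intro j b
    exact (hasDerivAt_line (L2_diff h.hU (h.smooth_nab hX j b) hx) k).const_mul t
  · intro i j a b
    exact hasDerivAt_line (L2_diff h.hU (h.smooth_cuv i j a b) hx) k
  · have h1 := totalDegree_dP k a (dtP d)
    have h2 : (dtP d).totalDegree ≤ d := totalDegree_dtP
    omega
  · simp only [hx0, L2_eD]
    congr 1
    rw [Finset.mul_sum]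
    refine Finset.sum_congr rfl fun j _ => ?_
    rw [Finset.mul_sum]
    exact Finset.sum_congr rfl fun b _ => by ring

theorem pd_dens_VV (h : MetOn U G) (hX : ∀ a, ContDiffOn ℝ ∞ (fun y => X y a) U) {x : EE d}
    (hx : x ∈ U) (t : ℝ) (k : Fin d) :
    pd k (fun y => dens G y * VV G X t y k) x =
      dens G x * (Real.exp (-(t ^ 2 * nsq G X x) / 2) *
        ((chM G k x).trace * (∑ a, X x a * evM (t • nab G X x) (dP k a (PC (cuv G x))))
          - t ^ 2 / 2 * pd k (nsq G X) x *
            (∑ a, X x a * evM (t • nab G X x) (dP k a (PC (cuv G x))))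
          + ∑ a, pd k (fun y => X y a) x * evM (t • nab G X x) (dP k a (PC (cuv G x)))
          + ∑ a, X x a * (t * (∑ j, ∑ b, pd k (fun y => nab G X y j b) x *
              evM (t • nab G X x) (dP j b (dP k a (PC (cuv G x)))))
            + evM (t • nab G X x) (Dop (fun i j a b => pd k (fun y => cuv G y i j a b) x)
              (dP k a (PC (cuv G x))))))) := by
  have hx0 : x + (0 : ℝ) • (ebas k : EE d) = x := by rw [zero_smul, add_zero]
  have d1 : HasDerivAt (fun s : ℝ => dens G (x + s • ebas k))
      (dens G x * (chM G k x).trace) 0 := by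
    rw [← pd_dens h hx k]
    exact hasDerivAt_line (L2_diff h.hU h.smooth_dens hx) k
  have d2 : HasDerivAt (fun s : ℝ => Real.exp (-(t ^ 2 * nsq G X (x + s • ebas k)) / 2))
      (Real.exp (-(t ^ 2 * nsq G X x) / 2) * (-(t ^ 2 * pd k (nsq G X) x) / 2)) 0 := by
    have h1 := hasDerivAt_line (L2_diff h.hU (h.smooth_nsq hX) hx) k
    have h2 := (((h1.const_mul (t ^ 2)).neg).div_const 2).exp
    refine h2.congr_deriv ?_
    show Real.exp (-(t ^ 2 * nsq G X (x + (0 : ℝ) • (ebas k : EE d))) / 2) *
      (-(t ^ 2 * pd k (nsq G X) x) / 2) = _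
    rw [hx0]
  have d3 : HasDerivAt (fun s : ℝ => ∑ a, X (x + s • ebas k) a *
        evM (t • nab G X (x + s • ebas k)) (dP k a (PC (cuv G (x + s • ebas k)))))
      (∑ a, (pd k (fun y => X y a) x * evM (t • nab G X x) (dP k a (PC (cuv G x))) +
        X x a * (t * (∑ j, ∑ b, pd k (fun y => nab G X y j b) x *
              evM (t • nab G X x) (dP j b (dP k a (PC (cuv G x)))))
            + evM (t • nab G X x) (Dop (fun i j a b => pd k (fun y => cuv G y i j a b) x)
              (dP k a (PC (cuv G x))))))) 0 := by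
    refine HasDerivAt.fun_sum fun a _ => ?_
    have h1 := hasDerivAt_line (L2_diff h.hU (hX a) hx) k
    have h2 := h1.mul (L2_evM h hX hx t k a)
    refine h2.congr_deriv ?_
    simp only [hx0]
  have d4 : HasDerivAt (fun s : ℝ => dens G (x + s • ebas k) * VV G X t (x + s • ebas k) k)
      (pd k (fun y => dens G y * VV G X t y k) x) 0 :=
    hasDerivAt_line (f := fun y => dens G y * VV G X t y k)
      (L2_diff h.hU (h.smooth_dens.mul (h.smooth_VV hX t k)) hx) k
  have d5 := d1.mul (d2.mul d3)
  have e6 := d4.unique d5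
  rw [e6]
  simp only [Pi.mul_apply, hx0, Finset.sum_add_distrib]
  ring

end H79G
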