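import Pool.Agent.Lib.H79G.L1
import Pool.Agent.Lib.H79G.L2
import Pool.Agent.Lib.H79G.B2
import Pool.Agent.Lib.H79G.B3
import Pool.Agent.Lib.H79G.A7

/-!
# H79G chunk L3 (M): the local identity `∂_t (√G U_t) = ∑_k ∂_k (√G V_t^k)`

Assembly of L1, L2 (sum over `k`), `pd_nsq` (B1), `comm_nab` (B2), `skew2_cuv`, `cyclic_cuv` (B3) and
`local_alg` (A7), with `C = cuv G x`, `Γ k = chM G k x`, `A = nab G X x`, `low b = ∑ a, G x b a * X x a`,
`dA k j b = pd k (fun y => nab G X y j b) x`, `dC k i j a b = pd k (fun y => cuv G y i j a b) x`,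
`∂_k X^a = nab k a - ∑_c Γ k a c X c`, `nsq = ∑ low b X b`.  For `hdA`:
`∑_c Rm_kj(b,c) X^c = - ∑_c low c C k j c b`, because `C = Rm G⁻¹` is skew in the upper indices:
`- ∑_c low c C k j c b = ∑_c C k j b c low c = (Rm G⁻¹ G X)_b = (Rm X)_b`.
-/

open scoped Manifold ContDiff
open Set H31R MeasureTheory MvPolynomial

namespace H79G

variable {d : ℕ} {U : Set (EE d)} {G : EE d → Mt d} {X : EE d → Fin d → ℝ}

/-- The curvature term with lowered vector field. -/
theorem L3_low (h : MetOn U G) {x : EE d} (hx : x ∈ U) (k j b : Fin d) :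
    ∑ c, Rm G k j x b c * X x c = -∑ c, (∑ a, G x c a * X x a) * cuv G x k j c b := by
  have hu : IsUnit (G x).det := isUnit_iff_ne_zero.2 (h.det_ne x hx)
  have h1 : ∀ c, (∑ a, G x c a * X x a) * cuv G x k j c b =
      -(cuv G x k j b c * ∑ a, G x c a * X x a) := by
    intro c
    rw [(skew2_cuv h hx).up k j c b]
    ring
  simp only [h1, Finset.sum_neg_distrib, neg_neg]
  have h2 : ∑ c, cuv G x k j b c * ∑ a, G x c a * X x a =
      (((Rm G k j x * (G x)⁻¹) * G x).mulVec (X x)) b := by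
    rw [← Matrix.mulVec_mulVec]
    rfl
  rw [h2, Matrix.mul_assoc, Matrix.nonsing_inv_mul _ hu, Matrix.mul_one]
  rfl

theorem L3_key (h : MetOn U G) (hX : ∀ a, ContDiffOn ℝ ∞ (fun y => X y a) U) {x : EE d}
    (hx : x ∈ U) (t : ℝ) :
    - (t * nsq G X x) * evM (t • nab G X x) (PC (cuv G x))
          + ∑ k, ∑ a, nab G X x k a * evM (t • nab G X x) (dP k a (PC (cuv G x))) =
    ∑ k, ((chM G k x).trace * (∑ a, X x a * evM (t • nab G X x) (dP k a (PC (cuv G x))))
          - t ^ 2 / 2 * pd k (nsq G X) x *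
            (∑ a, X x a * evM (t • nab G X x) (dP k a (PC (cuv G x))))
          + ∑ a, pd k (fun y => X y a) x * evM (t • nab G X x) (dP k a (PC (cuv G x)))
          + ∑ a, X x a * (t * (∑ j, ∑ b, pd k (fun y => nab G X y j b) x *
              evM (t • nab G X x) (dP j b (dP k a (PC (cuv G x)))))
            + evM (t • nab G X x) (Dop (fun i j a b => pd k (fun y => cuv G y i j a b) x)
              (dP k a (PC (cuv G x)))))) := by
  have h1 := local_alg (cuv G x) (skew2_cuv h hx) (fun k => chM G k x) (nab G X x) (X x)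
    (fun c => ∑ a, G x c a * X x a) (fun k j b => pd k (fun y => nab G X y j b) x)
    (fun k i j a b => pd k (fun y => cuv G y i j a b) x) t
    (fun k j b => by rw [comm_nab h hX hx k j b, L3_low h hx k j b])
    (fun k i j a b => cyclic_cuv h hx k i j a b)
  have h2 : nsq G X x = ∑ b, (∑ a, G x b a * X x a) * X x b := by
    unfold nsq
    refine Finset.sum_congr rfl fun a _ => ?_
    rw [Finset.sum_mul]
    exact Finset.sum_congr rfl fun b _ => by ring
  rw [h2, h1]
  refine Finset.sum_congr rfl fun k _ => ?_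
  rw [pd_nsq h hX hx k]
  have h3 : ∀ a, nab G X x k a - ∑ c, chM G k x a c * X x c = pd k (fun y => X y a) x := by
    intro a
    show pd k (fun y => X y a) x + ∑ b, chr G a k b x * X x b - ∑ c, chr G a k c x * X x c = _
    ring
  simp only [h3]
  ring

theorem local_identity (h : MetOn U G) (hX : ∀ a, ContDiffOn ℝ ∞ (fun y => X y a) U) {x : EE d}
    (hx : x ∈ U) (t : ℝ) :
    HasDerivAt (fun s => dens G x * UU G X s x)
      (∑ k, pd k (fun y => dens G y * VV G X t y k) x) t := by
  refine ((hasDerivAt_UU G X x t).const_mul (dens G x)).congr_deriv ?_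
  simp only [pd_dens_VV h hX hx t]
  rw [← Finset.mul_sum, ← Finset.mul_sum, L3_key h hX hx t]

end H79G
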