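import Pool.Agent.Lib.H79G.I7
import Pool.Agent.Lib.H79G.L3

/-!
# H79G chunk I8 (M): `∫ U_t dμ` does not depend on `t`

`UU_eq` (S): `UU G X t x = exp (-(t² q)/2) ∑_{s ≤ d} t^s uc s x` (`evM_smul_hom` of A12; `totalDegree_eD`,
`totalDegree_dtP`).  Put `U t m = glob (fun p => UU (g.mat p) (X.vec p) t) m`; hence
`U t m = exp (-(t² q(m))/2) ∑ t^s u_s(m)` with the continuous functions `q = glob nsq`, `u_s = glob uc`
(`sField_nsq`, `sField_uc`, `glob_continuous`).
Derivative under the integral sign (`hasDerivAt_integral_of_dominated_loc_of_deriv_le`): the derivative in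
`t`, `D t m = exp(-(t² q)/2) (-(t q) ∑ t^s u_s + ∑ s t^(s-1) u_s)`, is continuous in `(t, m)`, hence bounded on
`[t0 - 1, t0 + 1] × M` (compact), and constants are integrable for the finite measure `μ`.
`∫ D t dμ = 0` by `divergence` with `V = VF g X t`, `f = D t`: in the chart at `p` the derivative of
`s ↦ dens * UU s` is `∑ ∂_k (dens VV^k)` by `local_identity` (L3), and also `dens * D t` (`glob_symm`:
`U s (symm y) = UU (g.mat p) (X.vec p) s y`), uniqueness of derivatives.
So the function `t ↦ ∫ U t dμ` has derivative `0` everywhere: `is_const_of_deriv_eq_zero`.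
-/

open scoped Manifold ContDiff
open Set H31R MeasureTheory

namespace H79G

variable {d : ℕ}

theorem UU_eq (G : EE d → Mt d) (X : EE d → Fin d → ℝ) (t : ℝ) (x : EE d) :
    UU G X t x = Real.exp (-(t ^ 2 * nsq G X x) / 2) *
      ∑ s ∈ Finset.range (d + 1), t ^ s * uc G X s x := by
  unfold UU uc
  congr 1
  refine evM_smul_hom t _ _ ?_
  exact (totalDegree_eD (cuv G x) (dtP d)).trans totalDegree_dtP

variable {M : Type} [TopologicalSpace M] [ChartedSpace (EE d) M]
  [MeasurableSpace M] [BorelSpace M] [IsManifold (𝓡 d) ∞ M] [T2Space M] [CompactSpace M]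

omit [MeasurableSpace M] [BorelSpace M] [IsManifold (𝓡 d) ∞ M] [T2Space M] [CompactSpace M] in
theorem I8_eq (g : Ch.Metric d M) (X : VField d M) (t : ℝ) (m : M) :
    glob (fun p => UU (g.mat p) (X.vec p) t) m =
      Real.exp (-(t ^ 2 * glob (fun p => nsq (g.mat p) (X.vec p)) m) / 2) *
        ∑ s ∈ Finset.range (d + 1), t ^ s * glob (fun p => uc (g.mat p) (X.vec p) s) m :=
  UU_eq _ _ _ _

/-- The derivative of `glob UU` in `t`. -/
noncomputable def I8_D (g : Ch.Metric d M) (X : VField d M) (t : ℝ) (m : M) : ℝ :=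
  Real.exp (-(t ^ 2 * glob (fun p => nsq (g.mat p) (X.vec p)) m) / 2) *
    (-(2 * t * glob (fun p => nsq (g.mat p) (X.vec p)) m) / 2) *
      (∑ s ∈ Finset.range (d + 1), t ^ s * glob (fun p => uc (g.mat p) (X.vec p) s) m) +
    Real.exp (-(t ^ 2 * glob (fun p => nsq (g.mat p) (X.vec p)) m) / 2) *
      ∑ s ∈ Finset.range (d + 1), ((s : ℝ) * t ^ (s - 1)) *
        glob (fun p => uc (g.mat p) (X.vec p) s) m

omit [MeasurableSpace M] [BorelSpace M] [IsManifold (𝓡 d) ∞ M] [T2Space M] [CompactSpace M] in
theorem I8_hasDerivAt (g : Ch.Metric d M) (X : VField d M) (t : ℝ) (m : M) :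
    HasDerivAt (fun s => glob (fun p => UU (g.mat p) (X.vec p) s) m) (I8_D g X t m) t := by
  have e1 : (fun s => glob (fun p => UU (g.mat p) (X.vec p) s) m) = fun s =>
      Real.exp (-(s ^ 2 * glob (fun p => nsq (g.mat p) (X.vec p)) m) / 2) *
        ∑ r ∈ Finset.range (d + 1), s ^ r * glob (fun p => uc (g.mat p) (X.vec p) r) m :=
    funext fun s => I8_eq g X s m
  rw [e1]
  have h1 : HasDerivAt (fun s : ℝ =>
      Real.exp (-(s ^ 2 * glob (fun p => nsq (g.mat p) (X.vec p)) m) / 2))
      (Real.exp (-(t ^ 2 * glob (fun p => nsq (g.mat p) (X.vec p)) m) / 2) *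
        (-(2 * t * glob (fun p => nsq (g.mat p) (X.vec p)) m) / 2)) t := by
    have h2 : HasDerivAt (fun s : ℝ => s ^ 2 * glob (fun p => nsq (g.mat p) (X.vec p)) m)
        (2 * t * glob (fun p => nsq (g.mat p) (X.vec p)) m) t := by
      refine ((hasDerivAt_pow 2 t).mul_const _).congr_deriv ?_
      norm_num
    exact ((h2.neg).div_const 2).exp
  have h3 : HasDerivAt (fun s : ℝ => ∑ r ∈ Finset.range (d + 1),
      s ^ r * glob (fun p => uc (g.mat p) (X.vec p) r) m)
      (∑ r ∈ Finset.range (d + 1), ((r : ℝ) * t ^ (r - 1)) *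
        glob (fun p => uc (g.mat p) (X.vec p) r) m) t :=
    HasDerivAt.fun_sum fun r _ => (hasDerivAt_pow r t).mul_const _
  exact h1.mul h3

omit [MeasurableSpace M] [BorelSpace M] [T2Space M] [CompactSpace M] in
theorem I8_cont (g : Ch.Metric d M) (X : VField d M) :
    Continuous fun z : ℝ × M => I8_D g X z.1 z.2 := by
  have c1 : Continuous (glob fun p => nsq (g.mat p) (X.vec p)) :=
    glob_continuous (sField_nsq g X)
  have c2 : ∀ s, Continuous (glob fun p => uc (g.mat p) (X.vec p) s) := fun s =>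
    glob_continuous (sField_uc g X s)
  have c3 : Continuous fun z : ℝ × M => glob (fun p => nsq (g.mat p) (X.vec p)) z.2 :=
    c1.comp continuous_snd
  have c4 : ∀ s, Continuous fun z : ℝ × M => glob (fun p => uc (g.mat p) (X.vec p) s) z.2 :=
    fun s => (c2 s).comp continuous_snd
  unfold I8_D
  have c5 : Continuous fun z : ℝ × M =>
      Real.exp (-(z.1 ^ 2 * glob (fun p => nsq (g.mat p) (X.vec p)) z.2) / 2) :=
    Real.continuous_exp.comp ((((continuous_fst.pow 2).mul c3).neg).div_const 2)
  refine ((c5.mul (((continuous_const.mul continuous_fst).mul c3).neg.div_const 2)).mul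
    (continuous_finsetSum _ fun s _ => (continuous_fst.pow s).mul (c4 s))).add
    (c5.mul (continuous_finsetSum _ fun s _ =>
      (continuous_const.mul (continuous_fst.pow (s - 1))).mul (c4 s)))

theorem I8_zero (g : Ch.Metric d M) {μ : Measure M} (hμ : IsVol g μ) [IsFiniteMeasure μ]
    (X : VField d M) (t : ℝ) : ∫ m, I8_D g X t m ∂μ = 0 := by
  have hc : Continuous (I8_D g X t) :=
    (I8_cont g X).comp (Continuous.prodMk continuous_const continuous_id)
  refine divergence g hμ (VF g X t) hc fun p y hy => ?_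
  have h1 := local_identity (metOn g p) (X.smooth p) hy t
  have h2 : HasDerivAt (fun s => dens (g.mat p) y * UU (g.mat p) (X.vec p) s y)
      (dens (g.mat p) y * I8_D g X t ((chartAt (EE d) p).symm y)) t := by
    have e1 : (fun s => dens (g.mat p) y * UU (g.mat p) (X.vec p) s y) = fun s =>
        dens (g.mat p) y *
          glob (fun p => UU (g.mat p) (X.vec p) s) ((chartAt (EE d) p).symm y) := by
      funext s
      rw [glob_symm (sField_UU g X s) hy]
    rw [e1]
    exact (I8_hasDerivAt g X t _).const_mul _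
  exact h2.unique h1

theorem integral_UU_const (g : Ch.Metric d M) {μ : Measure M} (hμ : IsVol g μ) [IsFiniteMeasure μ]
    (X : VField d M) (t : ℝ) :
    ∫ m, glob (fun p => UU (g.mat p) (X.vec p) t) m ∂μ =
      ∫ m, glob (fun p => UU (g.mat p) (X.vec p) 0) m ∂μ := by
  have hcont : ∀ s : ℝ, Continuous (glob fun p => UU (g.mat p) (X.vec p) s) := fun s =>
    glob_continuous (sField_UU g X s)
  have hder : ∀ s0 : ℝ, HasDerivAt
      (fun s => ∫ m, glob (fun p => UU (g.mat p) (X.vec p) s) m ∂μ) 0 s0 := by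
    intro s0
    obtain ⟨C, hC⟩ := ((isCompact_Icc (a := s0 - 1) (b := s0 + 1)).prod
      (isCompact_univ (X := M))).exists_bound_of_continuousOn (I8_cont g X).continuousOn
    have hcD : Continuous (I8_D g X s0) :=
      (I8_cont g X).comp (Continuous.prodMk continuous_const continuous_id)
    have h1 := hasDerivAt_integral_of_dominated_loc_of_deriv_le (μ := μ)
      (F := fun s m => glob (fun p => UU (g.mat p) (X.vec p) s) m)
      (F' := fun s m => I8_D g X s m) (x₀ := s0) (s := Icc (s0 - 1) (s0 + 1))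
      (bound := fun _ => C) (Icc_mem_nhds (by linarith) (by linarith))
      (Filter.Eventually.of_forall fun s => (hcont s).aestronglyMeasurable)
      ((hcont s0).integrable_of_hasCompactSupport (HasCompactSupport.of_compactSpace _))
      hcD.aestronglyMeasurable
      (Filter.Eventually.of_forall fun m s hs => hC (s, m) ⟨hs, mem_univ _⟩)
      (integrable_const C)
      (Filter.Eventually.of_forall fun m s _ => I8_hasDerivAt g X s m)
    have h2 := h1.2
    rw [I8_zero g hμ X s0] at h2
    exact h2
  have hdiff : Differentiable ℝ fun s => ∫ m, glob (fun p => UU (g.mat p) (X.vec p) s) m ∂μ :=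
    fun s => (hder s).differentiableAt
  exact is_const_of_deriv_eq_zero hdiff (fun s => (hder s).deriv) t 0

end H79G
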