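import Pool.Agent.Lib.H79G.A0

/-!
# H79G chunk A2 (M): Laplace expansion of the determinant polynomial

`∑ k, X(k,b) ∂_{ka} det = δ_{ab} det`.
Write `det = ∑ σ, sign σ ∏ k, X (σ k, k)` or `∏ k, X (k, σ k)` (`Matrix.det_apply'`, transpose).  For
`det = ∑ σ, sign σ ∏ k, X (k, σ k)`: `∂_{ka} ∏_i X (i, σ i) = [σ k = a] ∏_{i ≠ k} X (i, σ i)`, so that
`∑ k, X(k,b) ∂_{ka} ∏_i X (i, σ i) = ∏_i Y (i, σ i)` where `Y` is the matrix `X` with column `a`
replaced by column `b` (only `k = σ⁻¹ a` contributes).  Hence the left side is `det Y`, which is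
`det X` if `a = b` and `0` otherwise (two equal columns, `Matrix.det_zero_of_column_eq`).
(`Derivation.leibniz_prod` or `MvPolynomial.pderiv` of a product over a finset.)
-/

open scoped Manifold ContDiff
open Set H31R MeasureTheory MvPolynomial

namespace H79G

variable {d : ℕ}

theorem laplace_dtP (a b : Fin d) :
    ∑ k, X (k, b) * dP k a (dtP d) = if a = b then dtP d else 0 := by
  classical
  -- the matrix with column `a` replaced by column `b`
  let Y : Matrix (Fin d) (Fin d) (Po d) := fun i c => if c = a then X (i, b) else X (i, c)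
  have h1 : ∑ k, X (k, b) * dP k a (dtP d) = Y.det := by
    rw [← Matrix.det_transpose Y, Matrix.det_apply, A0_dtP]
    simp only [map_sum, map_smul, Finset.mul_sum]
    rw [Finset.sum_comm]
    refine Finset.sum_congr rfl fun σ _ => ?_
    rw [Units.smul_def, ← Int.cast_smul_eq_zsmul ℝ]
    have h2 : ∀ k, X (k, b) * (((Equiv.Perm.sign σ : ℤ) : ℝ) •
        dP k a (∏ i, (X (i, σ i) : Po d))) = ((Equiv.Perm.sign σ : ℤ) : ℝ) •
        (if k = σ.symm a then X (k, b) * ∏ i ∈ Finset.univ.erase k, (X (i, σ i) : Po d) else 0) := by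
      intro k
      rw [A0_dP_prod, mul_smul_comm]
      congr 1
      by_cases hk : σ k = a
      · rw [if_pos ⟨Finset.mem_univ _, hk⟩, if_pos (by rw [← hk, Equiv.symm_apply_apply])]
      · rw [if_neg (fun h => hk h.2), if_neg (fun h => hk (by rw [h, Equiv.apply_symm_apply])),
          mul_zero]
    rw [Finset.sum_congr rfl fun k _ => h2 k, ← Finset.smul_sum, Finset.sum_ite_eq',
      if_pos (Finset.mem_univ _)]
    congr 1
    rw [← Finset.mul_prod_erase Finset.univ (fun i => Y.transpose (σ i) i)
      (Finset.mem_univ (σ.symm a))]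
    congr 1
    · show X (σ.symm a, b) = Y (σ.symm a) (σ (σ.symm a))
      rw [Equiv.apply_symm_apply]
      show _ = if a = a then X (σ.symm a, b) else X (σ.symm a, a)
      rw [if_pos rfl]
    · refine Finset.prod_congr rfl fun i hi => ?_
      show X (i, σ i) = if σ i = a then X (i, b) else X (i, σ i)
      rw [if_neg]
      intro h
      apply Finset.ne_of_mem_erase hi
      rw [← h, Equiv.symm_apply_apply]
  rw [h1]
  by_cases hab : a = b
  · rw [if_pos hab]
    unfold dtP
    congr 1
    ext1 i
    intro c
    show (if c = a then X (i, b) else X (i, c)) = X (i, c)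
    by_cases hc : c = a
    · rw [if_pos hc, hc, hab]
    · rw [if_neg hc]
  · rw [if_neg hab]
    refine Matrix.det_zero_of_column_eq hab fun i => ?_
    show (if a = a then X (i, b) else X (i, a)) = if b = a then X (i, b) else X (i, b)
    rw [if_pos rfl, ite_self]

end H79G
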