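import Pool.Agent.Lib.H79G.S0
import Pool.Agent.Lib.H79G.A8
import Pool.Agent.Lib.H79G.A2

/-!
# H79G chunk B1 (M): metric compatibility for `|X|²` and for the volume density

`pd_nsq`: `∂_k (∑ G_ab X^a X^b) = ∑ (∂_k G)_ab X^a X^b + 2 ∑ G_ab X^b ∂_k X^a`, and
`∂_k G = Γ_kᵀ G + G Γ_k` (`N_chM_compat`, `chM G k x a b = chr G a k b x`), so
`∑ (∂_k G)_ab X^a X^b = 2 ∑_b (G X)_b (Γ_k X)^b`.

`pd_dens`: Jacobi: `∂_k det G = det G tr (G⁻¹ ∂_k G) = 2 det G tr Γ_k`; then the chain rule for `sqrt`.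
(If there is no derivative of the determinant in Mathlib in a suitable form: `det` is a polynomial in
the entries with `∂ det / ∂ entry (i,j) = adjugate j i`; e.g. `Matrix.det_apply'` and the product rule,
or `hasDerivAt_evM` (A8) with `laplace_dtP` (A2): `evM A (dtP d) = det A`, and
`∑_k A k b evM A (dP k a det) = δ_ab det A`.)
-/

open scoped Manifold ContDiff
open Set H31R MeasureTheory MvPolynomial

namespace H79G

variable {d : ℕ} {U : Set (EE d)} {G : EE d → Mt d} {X : EE d → Fin d → ℝ}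

theorem B1_diff {f : EE d → ℝ} {x : EE d} (hU : IsOpen U) (hf : ContDiffOn ℝ ∞ f U)
    (hx : x ∈ U) : DifferentiableAt ℝ f x :=
  (hf.contDiffAt (hU.mem_nhds hx)).differentiableAt (by simp)

theorem B1_alg (G Γ : Mt d) (hG : ∀ a b, G a b = G b a) (v w : Fin d → ℝ) :
    ∑ a, ∑ b, ((Γ.transpose * G + G * Γ) a b * v a * v b + G a b * w a * v b + G a b * v a * w b) =
      2 * ∑ b, (∑ a, G b a * v a) * (w b + ∑ c, Γ b c * v c) := by
  have e1 : ∑ a, ∑ b, (Γ.transpose * G) a b * v a * v b =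
      ∑ b, (∑ a, G b a * v a) * ∑ c, Γ b c * v c := by
    have f1 : ∀ a b, (Γ.transpose * G) a b * v a * v b = ∑ c, Γ c a * G c b * v a * v b := by
      intro a b
      rw [Matrix.mul_apply, Finset.sum_mul, Finset.sum_mul]
      rfl
    simp only [f1, Finset.sum_mul, Finset.mul_sum]
    rw [Finset.sum_comm]
    have f2 : ∀ b, ∑ a, ∑ c, Γ c a * G c b * v a * v b = ∑ c, ∑ a, Γ c a * G c b * v a * v b :=
      fun b => Finset.sum_comm
    simp only [f2]
    rw [Finset.sum_comm]
    refine Finset.sum_congr rfl fun c _ => ?_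
    rw [Finset.sum_comm]
    exact Finset.sum_congr rfl fun a _ => Finset.sum_congr rfl fun b _ => by ring
  have e2 : ∑ a, ∑ b, (G * Γ) a b * v a * v b =
      ∑ b, (∑ a, G b a * v a) * ∑ c, Γ b c * v c := by
    have f1 : ∀ a b, (G * Γ) a b * v a * v b = ∑ c, G a c * Γ c b * v a * v b := by
      intro a b
      rw [Matrix.mul_apply, Finset.sum_mul, Finset.sum_mul]
    simp only [f1, Finset.sum_mul, Finset.mul_sum]
    have f2 : ∀ a, ∑ b, ∑ c, G a c * Γ c b * v a * v b = ∑ c, ∑ b, G a c * Γ c b * v a * v b :=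
      fun a => Finset.sum_comm
    simp only [f2]
    rw [Finset.sum_comm]
    refine Finset.sum_congr rfl fun c _ => ?_
    rw [Finset.sum_comm]
    refine Finset.sum_congr rfl fun a _ => Finset.sum_congr rfl fun b _ => ?_
    rw [hG b c]
    ring
  have e3 : ∑ a, ∑ b, G a b * w a * v b = ∑ b, (∑ a, G b a * v a) * w b := by
    refine Finset.sum_congr rfl fun a _ => ?_
    rw [Finset.sum_mul]
    exact Finset.sum_congr rfl fun b _ => by ring
  have e4 : ∑ a, ∑ b, G a b * v a * w b = ∑ b, (∑ a, G b a * v a) * w b := by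
    rw [Finset.sum_comm]
    refine Finset.sum_congr rfl fun b _ => ?_
    rw [Finset.sum_mul]
    exact Finset.sum_congr rfl fun a _ => by rw [hG a b]
  have e5 : ∀ a b, (Γ.transpose * G + G * Γ) a b * v a * v b =
      (Γ.transpose * G) a b * v a * v b + (G * Γ) a b * v a * v b := by
    intro a b
    rw [Matrix.add_apply]
    ring
  simp only [e5, Finset.sum_add_distrib, mul_add]
  rw [e1, e2, e3, e4]
  ring

theorem pd_nsq (h : MetOn U G) (hX : ∀ a, ContDiffOn ℝ ∞ (fun y => X y a) U) {x : EE d}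
    (hx : x ∈ U) (k : Fin d) :
    pd k (nsq G X) x = 2 * ∑ b, (∑ a, G x b a * X x a) * nab G X x k b := by
  have dG : ∀ a b, DifferentiableAt ℝ (fun y => G y a b) x := fun a b => B1_diff h.hU (h.sm a b) hx
  have dX : ∀ a, DifferentiableAt ℝ (fun y => X y a) x := fun a => B1_diff h.hU (hX a) hx
  have dGX : ∀ a b, DifferentiableAt ℝ (fun y => G y a b * X y a) x := fun a b =>
    (dG a b).mul (dX a)
  have dGXX : ∀ a b, DifferentiableAt ℝ (fun y => G y a b * X y a * X y b) x := fun a b =>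
    (dGX a b).mul (dX b)
  have dS : ∀ a, DifferentiableAt ℝ (fun y => ∑ b, G y a b * X y a * X y b) x := fun a =>
    DifferentiableAt.fun_sum fun b _ => dGXX a b
  have e1 : nsq G X = fun y => ∑ a, ∑ b, G y a b * X y a * X y b := rfl
  have e2 : ∀ a b, pd k (fun y => G y a b * X y a * X y b) x =
      ((chM G k x).transpose * G x + G x * chM G k x) a b * X x a * X x b
        + G x a b * pd k (fun y => X y a) x * X x b + G x a b * X x a * pd k (fun y => X y b) x := by
    intro a b
    rw [N_pd_mul (dGX a b) (dX b) k, N_pd_mul (dG a b) (dX a) k]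
    have e3 : pd k (fun y => G y a b) x = pdM k G x a b := rfl
    rw [e3, N_chM_compat h.hU hx h.symm h.det_ne k]
    ring
  rw [e1, N_pd_sum _ _ fun a _ => dS a]
  have e4 : ∀ a, pd k (fun y => ∑ b, G y a b * X y a * X y b) x =
      ∑ b, pd k (fun y => G y a b * X y a * X y b) x := fun a =>
    N_pd_sum _ _ (fun b _ => dGXX a b) k
  simp only [e4, e2]
  exact B1_alg (G x) (chM G k x) (h.symm x hx) (X x) (fun a => pd k (fun y => X y a) x)

theorem B1_evM_det (A : Mt d) : evM A (dtP d) = A.det := by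
  unfold evM dtP
  rw [AlgHom.map_det]
  congr 1
  ext i j
  simp [Matrix.mvPolynomialX]

/-- Derivatives of the determinant at an invertible matrix. -/
theorem B1_adj (A : Mt d) (hA : A.det ≠ 0) (i a : Fin d) :
    evM A (dP i a (dtP d)) = A.det * A⁻¹ a i := by
  obtain ⟨D, hD⟩ : ∃ D : Mt d, D = fun a i => evM A (dP i a (dtP d)) := ⟨_, rfl⟩
  have h1 : D * A = A.det • (1 : Mt d) := by
    ext p q
    have e1 := congrArg (evM A) (laplace_dtP p q)
    rw [map_sum] at e1
    have e2 : ∀ k, evM A (X (k, q) * dP k p (dtP d)) = D p k * A k q := by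
      intro k
      rw [map_mul, hD]
      unfold evM
      rw [aeval_X]
      ring
    simp only [e2] at e1
    rw [Matrix.mul_apply, e1, Matrix.smul_apply, Matrix.one_apply]
    split_ifs
    · rw [B1_evM_det, smul_eq_mul, mul_one]
    · rw [map_zero, smul_zero]
  have h2 : D = A.det • A⁻¹ := by
    have hu : IsUnit A.det := isUnit_iff_ne_zero.2 hA
    have e1 : D * A * A⁻¹ = A.det • (1 : Mt d) * A⁻¹ := by rw [h1]
    rw [Matrix.mul_assoc, Matrix.mul_nonsing_inv _ hu, Matrix.mul_one, Matrix.smul_mul,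
      Matrix.one_mul] at e1
    exact e1
  have h3 := congrFun (congrFun h2 a) i
  rw [hD] at h3
  exact h3

theorem B1_line {f : EE d → ℝ} {x : EE d} (hf : DifferentiableAt ℝ f x) (k : Fin d) :
    HasDerivAt (fun s : ℝ => f (x + s • ebas k)) (pd k f x) 0 := by
  have h1 : HasDerivAt (fun s : ℝ => x + s • (ebas k : EE d)) (ebas k) 0 := by
    have := ((hasDerivAt_id (0 : ℝ)).smul_const (ebas k : EE d)).const_add x
    simpa using this
  have h2 : HasFDerivAt f (fderiv ℝ f x) (x + (0 : ℝ) • (ebas k : EE d)) := by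
    rw [zero_smul, add_zero]
    exact hf.hasFDerivAt
  exact h2.comp_hasDerivAt (0 : ℝ) h1

theorem B1_pd_det (h : MetOn U G) {x : EE d} (hx : x ∈ U) (k : Fin d) :
    pd k (fun y => (G y).det) x = 2 * (G x).det * (chM G k x).trace := by
  have hx0 : x + (0 : ℝ) • (ebas k : EE d) = x := by rw [zero_smul, add_zero]
  have hu : IsUnit (G x).det := isUnit_iff_ne_zero.2 (h.det_ne x hx)
  have sd : ContDiffOn ℝ ∞ (fun y => (G y).det) U :=
    contDiffOn_infty.2 fun n => N_det_sm G (h.smM n)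
  have d1 := B1_line (B1_diff h.hU sd hx) k
  have d2 : HasDerivAt (fun s : ℝ => (G (x + s • ebas k)).det)
      (∑ i, ∑ a, pdM k G x i a * evM (G (x + (0 : ℝ) • (ebas k : EE d))) (dP i a (dtP d))) 0 := by
    have e1 : (fun s : ℝ => (G (x + s • ebas k)).det) =
        fun s : ℝ => evM (G (x + s • ebas k)) (dtP d) := by
      funext s
      rw [B1_evM_det]
    rw [e1]
    exact hasDerivAt_evM (A := fun s : ℝ => G (x + s • ebas k)) (A' := pdM k G x)
      (fun i a => B1_line (B1_diff h.hU (h.sm i a) hx) k) _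
  rw [d1.unique d2, hx0]
  have e2 : ∑ i, ∑ a, pdM k G x i a * evM (G x) (dP i a (dtP d)) =
      (G x).det * (pdM k G x * (G x)⁻¹).trace := by
    rw [Matrix.trace, Finset.mul_sum]
    refine Finset.sum_congr rfl fun i _ => ?_
    rw [Matrix.diag_apply, Matrix.mul_apply, Finset.mul_sum]
    refine Finset.sum_congr rfl fun a _ => ?_
    rw [B1_adj (G x) (h.det_ne x hx)]
    ring
  rw [e2, N_chM_compat h.hU hx h.symm h.det_ne k, Matrix.add_mul, Matrix.trace_add,
    Matrix.mul_assoc, Matrix.mul_nonsing_inv _ hu, Matrix.mul_one, Matrix.trace_transpose,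
    Matrix.trace_mul_comm (G x * chM G k x), ← Matrix.mul_assoc, Matrix.nonsing_inv_mul _ hu,
    Matrix.one_mul]
  ring

theorem pd_dens (h : MetOn U G) {x : EE d} (hx : x ∈ U) (k : Fin d) :
    pd k (dens G) x = dens G x * (chM G k x).trace := by
  have hx0 : x + (0 : ℝ) • (ebas k : EE d) = x := by rw [zero_smul, add_zero]
  have hp := h.det_pos hx
  have sd : ContDiffOn ℝ ∞ (fun y => (G y).det) U :=
    contDiffOn_infty.2 fun n => N_det_sm G (h.smM n)
  have d1 := B1_line (B1_diff h.hU h.smooth_dens hx) k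
  have d2 := B1_line (B1_diff h.hU sd hx) k
  have d3 : HasDerivAt (fun s : ℝ => dens G (x + s • ebas k))
      (pd k (fun y => (G y).det) x / (2 * Real.sqrt (G x).det)) 0 := by
    have h4 : (fun s : ℝ => (G (x + s • ebas k)).det) 0 ≠ 0 := by
      show (G (x + (0 : ℝ) • ebas k)).det ≠ 0
      rw [hx0]
      exact hp.ne'
    have h5 := d2.sqrt h4
    refine h5.congr_deriv ?_
    show pd k (fun y => (G y).det) x / (2 * Real.sqrt (G (x + (0 : ℝ) • (ebas k : EE d))).det) = _
    rw [hx0]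
  rw [d1.unique d3, B1_pd_det h hx k]
  have h6 : Real.sqrt (G x).det ≠ 0 := (Real.sqrt_pos.2 hp).ne'
  have h7 : (G x).det = Real.sqrt (G x).det * Real.sqrt (G x).det :=
    (Real.mul_self_sqrt hp.le).symm
  unfold dens
  rw [div_eq_iff (mul_ne_zero two_ne_zero h6)]
  conv_lhs => rw [h7]
  ring

end H79G
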