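import Pool.Agent.Lib.H79G.S0

/-!
# H79G chunk T1 (M): naturality of the covariant derivative, of the curvature, of `|X|²`

`h : Pull U V Φ G H` (`Lib/H31R/N2.lean`): `G = Jᵀ (H ∘ Φ) J` on `V`, `J = jac Φ`.  `Y (Φ x) = J x X x`.

`nab_pull`: `h.chM_eq`: `Γ^G_k = J⁻¹ (S_k J + ∂_k J)`, `S_k = ∑_l J l k Γ^H_l (Φ x)` (`N2_SS`).
`nab G X (k, ·) = ∂_k X + Γ^G_k X = J⁻¹ (J ∂_k X + (∂_k J) X + S_k J X)`, and
`J ∂_k X + (∂_k J) X = ∂_k (Y ∘ Φ) = ∑_l J l k (∂_l Y) (Φ x)` (`N_chain`).  So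
`nab G X (k, ·) = J⁻¹ ∑_l J l k nab H Y (l, ·)`.

`cuv_pull`: `h.Rm_eq`: `J Rm^G_ij = (∑ J k i J l j Rm^H_kl) J`, and `G⁻¹ = J⁻¹ H⁻¹ (J⁻¹)ᵀ`.

`nsq_pull`: `Xᵀ Jᵀ H J X`.
-/

open scoped Manifold ContDiff
open Set H31R MeasureTheory MvPolynomial

namespace H79G

variable {d : ℕ} {U V : Set (EE d)} {Φ : EE d → EE d} {G H : EE d → Mt d}
  {X Y : EE d → Fin d → ℝ}

theorem T1_diff {f : EE d → ℝ} {x : EE d} (hU : IsOpen U) (hf : ContDiffOn ℝ ∞ f U)
    (hx : x ∈ U) : DifferentiableAt ℝ f x :=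
  (hf.contDiffAt (hU.mem_nhds hx)).differentiableAt (by simp)

/-- The covariant derivative, transported to the target. -/
theorem T1_row (h : Pull U V Φ G H) (hX : ∀ a, ContDiffOn ℝ ∞ (fun y => X y a) V)
    (hY : ∀ a, ContDiffOn ℝ ∞ (fun y => Y y a) U)
    (hXY : ∀ x ∈ V, Y (Φ x) = (jac Φ x).mulVec (X x)) {x : EE d} (hx : x ∈ V) (k c : Fin d) :
    ∑ a, jac Φ x c a * nab G X x k a = ∑ l, jac Φ x l k * nab H Y (Φ x) l c := by
  have hu : IsUnit (jac Φ x).det := isUnit_iff_ne_zero.2 (h.hJ x hx)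
  have hJs : SmM (0 + 1) V (jac Φ) := N_leM (N_jac_sm h.hV h.hΦ) (show 0 + 1 ≤ 2 by norm_num)
  have e1 : jac Φ x * chM G k x = N2_SS Φ H k x * jac Φ x + pdM k (jac Φ) x := by
    rw [h.chM_eq hx k, ← Matrix.mul_assoc, Matrix.mul_nonsing_inv _ hu, Matrix.one_mul]
  -- the derivative of `Y ∘ Φ` in two ways
  have e2 : pd k (fun y => Y (Φ y) c) x =
      ∑ a, (pdM k (jac Φ) x c a * X x a + jac Φ x c a * pd k (fun y => X y a) x) := by
    have f1 : pd k (fun y => Y (Φ y) c) x = pd k (fun y => ∑ a, jac Φ y c a * X y a) x :=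
      N_pd_congr_on h.hV hx k fun y hy => by
        rw [hXY y hy]
        rfl
    have dJ : ∀ a, DifferentiableAt ℝ (fun y => jac Φ y c a) x := fun a => N_diff h.hV (hJs c a) hx
    have dX : ∀ a, DifferentiableAt ℝ (fun y => X y a) x := fun a => T1_diff h.hV (hX a) hx
    have dJX : ∀ a, DifferentiableAt ℝ (fun y => jac Φ y c a * X y a) x := fun a =>
      (dJ a).mul (dX a)
    rw [f1, N_pd_sum _ _ fun a _ => dJX a]
    exact Finset.sum_congr rfl fun a _ => N_pd_mul (dJ a) (dX a) k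
  have e3 : pd k (fun y => Y (Φ y) c) x = ∑ l, jac Φ x l k * pd l (fun z => Y z c) (Φ x) :=
    N_chain h.hU h.hV hx h.hΦ h.hm ((hY c).of_le (by exact_mod_cast le_top)) k
  -- the connection terms
  have e4 : ∑ a, jac Φ x c a * ∑ b, chr G a k b x * X x b =
      ∑ b, (N2_SS Φ H k x * jac Φ x + pdM k (jac Φ) x) c b * X x b := by
    rw [← e1]
    simp only [Finset.mul_sum, Matrix.mul_apply, Finset.sum_mul]
    rw [Finset.sum_comm]
    refine Finset.sum_congr rfl fun b _ => Finset.sum_congr rfl fun a _ => ?_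
    show jac Φ x c a * (chM G k x a b * X x b) = jac Φ x c a * chM G k x a b * X x b
    ring
  have e5 : ∑ b, (N2_SS Φ H k x * jac Φ x) c b * X x b =
      ∑ l, jac Φ x l k * ∑ e, chr H c l e (Φ x) * Y (Φ x) e := by
    rw [hXY x hx]
    have f1 : ∀ b, (N2_SS Φ H k x * jac Φ x) c b = ∑ e, (∑ l, jac Φ x l k * chM H l (Φ x) c e) *
        jac Φ x e b := by
      intro b
      rw [Matrix.mul_apply]
      refine Finset.sum_congr rfl fun e _ => ?_
      unfold N2_SS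
      rw [Matrix.sum_apply]
      rfl
    simp only [f1, Finset.sum_mul, Finset.mul_sum, Matrix.mulVec, dotProduct]
    have f2 : ∀ b, ∑ e, ∑ l, jac Φ x l k * chM H l (Φ x) c e * jac Φ x e b * X x b =
        ∑ l, ∑ e, jac Φ x l k * chM H l (Φ x) c e * jac Φ x e b * X x b := fun b =>
      Finset.sum_comm
    simp only [f2]
    rw [Finset.sum_comm]
    refine Finset.sum_congr rfl fun l _ => ?_
    rw [Finset.sum_comm]
    refine Finset.sum_congr rfl fun e _ => Finset.sum_congr rfl fun b _ => ?_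
    show jac Φ x l k * chM H l (Φ x) c e * jac Φ x e b * X x b =
      jac Φ x l k * (chM H l (Φ x) c e * (jac Φ x e b * X x b))
    ring
  have e6 : ∑ a, jac Φ x c a * nab G X x k a =
      ∑ a, jac Φ x c a * pd k (fun y => X y a) x + ∑ a, jac Φ x c a * ∑ b, chr G a k b x * X x b := by
    rw [← Finset.sum_add_distrib]
    refine Finset.sum_congr rfl fun a _ => ?_
    unfold nab
    ring
  have e7 : ∑ l, jac Φ x l k * nab H Y (Φ x) l c = ∑ l, jac Φ x l k * pd l (fun z => Y z c) (Φ x) +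
      ∑ l, jac Φ x l k * ∑ e, chr H c l e (Φ x) * Y (Φ x) e := by
    rw [← Finset.sum_add_distrib]
    refine Finset.sum_congr rfl fun l _ => ?_
    unfold nab
    ring
  rw [e6, e7, ← e3, e2, e4, ← e5]
  simp only [Matrix.add_apply, add_mul, Finset.sum_add_distrib]
  ring

theorem nab_pull (h : Pull U V Φ G H) (hX : ∀ a, ContDiffOn ℝ ∞ (fun y => X y a) V)
    (hY : ∀ a, ContDiffOn ℝ ∞ (fun y => Y y a) U)
    (hXY : ∀ x ∈ V, Y (Φ x) = (jac Φ x).mulVec (X x)) {x : EE d} (hx : x ∈ V) :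
    nab G X x = (jac Φ x).transpose * nab H Y (Φ x) * ((jac Φ x)⁻¹).transpose := by
  have hu : IsUnit (jac Φ x).det := isUnit_iff_ne_zero.2 (h.hJ x hx)
  have hut : IsUnit ((jac Φ x).transpose).det := by rwa [Matrix.det_transpose]
  have e1 : nab G X x * (jac Φ x).transpose = (jac Φ x).transpose * nab H Y (Φ x) := by
    ext k c
    have e2 := T1_row h hX hY hXY hx k c
    rw [Matrix.mul_apply, Matrix.mul_apply]
    rw [← Finset.sum_congr rfl fun l _ => rfl] at e2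
    have e3 : ∑ a, nab G X x k a * (jac Φ x).transpose a c = ∑ a, jac Φ x c a * nab G X x k a :=
      Finset.sum_congr rfl fun a _ => by
        rw [Matrix.transpose_apply]
        ring
    rw [e3, e2]
    rfl
  rw [← e1, Matrix.transpose_nonsing_inv, Matrix.mul_assoc, Matrix.mul_nonsing_inv _ hut,
    Matrix.mul_one]

theorem cuv_pull (h : Pull U V Φ G H) {x : EE d} (hx : x ∈ V) :
    cuv G x = trC (jac Φ x).transpose (jac Φ x)⁻¹ (cuv H (Φ x)) := by
  have hu : IsUnit (jac Φ x).det := isUnit_iff_ne_zero.2 (h.hJ x hx)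
  funext i j a b
  have e1 : Rm G i j x = (jac Φ x)⁻¹ *
      ((∑ k, ∑ l, (jac Φ x k i * jac Φ x l j) • Rm H k l (Φ x)) * jac Φ x) := by
    rw [← h.Rm_eq hx i j, ← Matrix.mul_assoc, Matrix.nonsing_inv_mul _ hu, Matrix.one_mul]
  have e2 : (G x)⁻¹ = (jac Φ x)⁻¹ * ((H (Φ x))⁻¹ * ((jac Φ x)⁻¹).transpose) := by
    rw [h.hG x hx, Matrix.mul_inv_rev, Matrix.mul_inv_rev, Matrix.transpose_nonsing_inv]
  have e3 : Rm G i j x * (G x)⁻¹ = (jac Φ x)⁻¹ *
      ((∑ k, ∑ l, (jac Φ x k i * jac Φ x l j) • (Rm H k l (Φ x) * (H (Φ x))⁻¹)) *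
        ((jac Φ x)⁻¹).transpose) := by
    have f1 : (∑ k, ∑ l, (jac Φ x k i * jac Φ x l j) • (Rm H k l (Φ x) * (H (Φ x))⁻¹)) =
        (∑ k, ∑ l, (jac Φ x k i * jac Φ x l j) • Rm H k l (Φ x)) * (H (Φ x))⁻¹ := by
      simp only [Finset.sum_mul, Matrix.smul_mul]
    rw [f1, e1, e2]
    generalize (∑ k, ∑ l, (jac Φ x k i * jac Φ x l j) • Rm H k l (Φ x)) = S
    rw [Matrix.mul_assoc, Matrix.mul_assoc S, ← Matrix.mul_assoc (jac Φ x) (jac Φ x)⁻¹,
      Matrix.mul_nonsing_inv _ hu, Matrix.one_mul, Matrix.mul_assoc S]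
  show (Rm G i j x * (G x)⁻¹) a b = _
  rw [e3, Matrix.mul_apply]
  unfold trC
  have e4 : ∀ c, ((∑ k, ∑ l, (jac Φ x k i * jac Φ x l j) • (Rm H k l (Φ x) * (H (Φ x))⁻¹)) *
        ((jac Φ x)⁻¹).transpose) c b = ∑ e, (∑ k, ∑ l, jac Φ x k i * jac Φ x l j *
          cuv H (Φ x) k l c e) * (jac Φ x)⁻¹ b e := by
    intro c
    rw [Matrix.mul_apply]
    refine Finset.sum_congr rfl fun e _ => ?_
    rw [Matrix.transpose_apply, Matrix.sum_apply]
    congr 1
    refine Finset.sum_congr rfl fun k _ => ?_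
    rw [Matrix.sum_apply]
    rfl
  simp only [e4, Finset.mul_sum, Finset.sum_mul]
  have r1 : ∀ F : Fin d → Fin d → Fin d → Fin d → ℝ,
      ∑ c, ∑ e, ∑ k, ∑ l, F c e k l = ∑ k, ∑ l, ∑ c, ∑ e, F c e k l := by
    intro F
    have g1 : ∀ c, ∑ e, ∑ k, ∑ l, F c e k l = ∑ k, ∑ l, ∑ e, F c e k l := by
      intro c
      rw [Finset.sum_comm]
      exact Finset.sum_congr rfl fun k _ => Finset.sum_comm
    simp only [g1]
    rw [Finset.sum_comm]
    exact Finset.sum_congr rfl fun k _ => Finset.sum_comm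
  rw [r1]
  refine Finset.sum_congr rfl fun k _ => Finset.sum_congr rfl fun l _ =>
    Finset.sum_congr rfl fun c _ => Finset.sum_congr rfl fun e _ => ?_
  rw [Matrix.transpose_apply, Matrix.transpose_apply]
  ring

theorem T1_nsq (G : EE d → Mt d) (X : EE d → Fin d → ℝ) (x : EE d) :
    nsq G X x = X x ⬝ᵥ (G x).mulVec (X x) := by
  unfold nsq
  simp only [dotProduct, Matrix.mulVec, Finset.mul_sum]
  exact Finset.sum_congr rfl fun a _ => Finset.sum_congr rfl fun b _ => by ring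

theorem nsq_pull (h : Pull U V Φ G H) (hXY : ∀ x ∈ V, Y (Φ x) = (jac Φ x).mulVec (X x))
    {x : EE d} (hx : x ∈ V) : nsq G X x = nsq H Y (Φ x) := by
  rw [T1_nsq, T1_nsq, hXY x hx, h.hG x hx, Matrix.mulVec_mulVec, Matrix.dotProduct_mulVec,
    Matrix.dotProduct_mulVec (Matrix.mulVec _ _), ← Matrix.vecMul_transpose, Matrix.vecMul_vecMul,
    Matrix.mul_assoc]

end H79G
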