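import Pool.Agent.Lib.H79G.Defs

/-!
# H79G chunk A0 (S/M): commutation rules and degrees

* `dP_comm`: partial derivatives commute (`MvPolynomial.pderiv` are commuting derivations; if there
  is no lemma in Mathlib: the commutator of two derivations is a derivation, it vanishes on the
  variables, `MvPolynomial.derivation_ext`, or induction on the polynomial).
* the other commutation rules follow (`Commute` in the ring `Module.End ℝ (Po d)`:
  `Commute.sum_left`, `Commute.smul_left`, `Commute.pow_left`, ...).
* degrees: `pderiv` lowers the total degree by one (natural number subtraction) and kills the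
  polynomials of total degree `0` (constants).
* `Dop_pow_zero`: by induction, a polynomial of total degree `< 2 s` is killed by `(Dop C)^s`.
-/

open scoped Manifold ContDiff
open Set H31R MeasureTheory MvPolynomial

namespace H79G

variable {d : ℕ}

theorem dP_comm (k a j b : Fin d) : Commute (dP k a) (dP j b) := by
  have h : ⁅(pderiv (k, a) : Derivation ℝ (Po d) (Po d)),
      (pderiv (j, b) : Derivation ℝ (Po d) (Po d))⁆ = 0 := by
    apply MvPolynomial.derivation_ext
    intro p
    rw [Derivation.commutator_apply, pderiv_X, pderiv_X, Derivation.zero_apply]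
    have h1 : ∀ (i q r : Fin d × Fin d),
        (pderiv i) (Pi.single (M := fun _ => Po d) q (1 : Po d) r) = 0 := by
      intro i q r
      by_cases hqr : r = q
      · subst hqr
        rw [Pi.single_eq_same, pderiv_one]
      · rw [Pi.single_eq_of_ne hqr, map_zero]
    rw [h1, h1, sub_zero]
  show dP k a * dP j b = dP j b * dP k a
  refine LinearMap.ext fun f => ?_
  have h2 := congrArg (fun D => D f) h
  simp only [Derivation.commutator_apply, Derivation.zero_apply, sub_eq_zero] at h2
  exact h2

theorem Dop_dP_comm (C : Cu d) (k a : Fin d) : Commute (Dop C) (dP k a) := by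
  unfold Dop
  refine Commute.smul_left ?_ _
  refine Commute.sum_left _ _ _ fun i _ => ?_
  refine Commute.sum_left _ _ _ fun j _ => ?_
  refine Commute.sum_left _ _ _ fun a' _ => ?_
  refine Commute.sum_left _ _ _ fun b _ => ?_
  exact Commute.smul_left ((dP_comm _ _ _ _).mul_left (dP_comm _ _ _ _)) _

theorem Dop_Dop_comm (C C' : Cu d) : Commute (Dop C) (Dop C') := by
  have h := Dop_dP_comm C
  unfold Dop at h ⊢
  refine Commute.smul_right ?_ _
  refine Commute.sum_right _ _ _ fun i _ => ?_
  refine Commute.sum_right _ _ _ fun j _ => ?_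
  refine Commute.sum_right _ _ _ fun a' _ => ?_
  refine Commute.sum_right _ _ _ fun b _ => ?_
  exact Commute.smul_right ((h _ _).mul_right (h _ _)) _

theorem eD_dP_comm (C : Cu d) (k a : Fin d) : Commute (eD C) (dP k a) := by
  unfold eD
  refine Commute.sum_left _ _ _ fun s _ => ?_
  exact Commute.smul_left ((Dop_dP_comm C k a).pow_left s) _

theorem eD_Dop_comm (C C' : Cu d) : Commute (eD C) (Dop C') := by
  unfold eD
  refine Commute.sum_left _ _ _ fun s _ => ?_
  exact Commute.smul_left ((Dop_Dop_comm C C').pow_left s) _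

theorem totalDegree_dP (k a : Fin d) (f : Po d) : (dP k a f).totalDegree ≤ f.totalDegree - 1 := by
  unfold MvPolynomial.totalDegree
  refine Finset.sup_le fun m hm => ?_
  have h1 : coeff m (pderiv (k, a) f) ≠ 0 := mem_support_iff.1 hm
  rw [coeff_pderiv] at h1
  have h2 : m + Finsupp.single (k, a) 1 ∈ f.support :=
    mem_support_iff.2 (left_ne_zero_of_mul h1)
  have h3 := le_totalDegree h2
  rw [Finsupp.sum_add_index' (fun _ => rfl) (fun _ _ _ => rfl), Finsupp.sum_single_index rfl] at h3
  unfold MvPolynomial.totalDegree at h3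
  omega

theorem dP_const (k a : Fin d) (f : Po d) (hf : f.totalDegree = 0) : dP k a f = 0 := by
  rw [totalDegree_eq_zero_iff_eq_C.1 hf]
  exact pderiv_C

theorem A0_mem (C : Cu d) (f : Po d) (n : ℕ)
    (h : ∀ i j a b, (dP i a (dP j b f)).totalDegree ≤ n) : (Dop C f).totalDegree ≤ n := by
  rw [← mem_restrictTotalDegree]
  unfold Dop
  rw [LinearMap.smul_apply]
  refine Submodule.smul_mem _ _ ?_
  simp only [LinearMap.sum_apply, LinearMap.smul_apply, Module.End.mul_apply]
  refine Submodule.sum_mem _ fun i _ => ?_
  refine Submodule.sum_mem _ fun j _ => ?_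
  refine Submodule.sum_mem _ fun a _ => ?_
  refine Submodule.sum_mem _ fun b _ => ?_
  exact Submodule.smul_mem _ _ ((mem_restrictTotalDegree _ _ _).2 (h i j a b))

theorem totalDegree_Dop (C : Cu d) (f : Po d) : (Dop C f).totalDegree ≤ f.totalDegree - 2 := by
  refine A0_mem C f _ fun i j a b => ?_
  have h1 := totalDegree_dP i a (dP j b f)
  have h2 := totalDegree_dP j b f
  omega

theorem A0_Dop_zero (C : Cu d) (f : Po d) (hf : f.totalDegree < 2) : Dop C f = 0 := by
  unfold Dop
  rw [LinearMap.smul_apply]
  simp only [LinearMap.sum_apply, LinearMap.smul_apply, Module.End.mul_apply]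
  have h : ∀ i j a b, dP i a (dP j b f) = 0 := by
    intro i j a b
    apply dP_const
    have h2 := totalDegree_dP j b f
    omega
  simp only [h, smul_zero, Finset.sum_const_zero]

theorem Dop_pow_zero (C : Cu d) (s : ℕ) (f : Po d) (hf : f.totalDegree < 2 * s) :
    ((Dop C) ^ s) f = 0 := by
  induction s generalizing f with
  | zero => omega
  | succ s ih =>
    rw [pow_succ, Module.End.mul_apply]
    rcases Nat.eq_zero_or_pos s with hs | hs
    · subst hs
      rw [A0_Dop_zero C f (by omega), map_zero]
    · apply ih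
      have h1 := totalDegree_Dop C f
      omega

theorem totalDegree_dtP : (dtP d).totalDegree ≤ d := by
  unfold dtP
  rw [Matrix.det_apply]
  refine totalDegree_finsetSum_le fun σ _ => ?_
  have h1 : (∏ i, Matrix.mvPolynomialX (Fin d) (Fin d) ℝ (σ i) i).totalDegree ≤ d := by
    refine (totalDegree_finsetProd _ _).trans ?_
    have h2 : ∀ i ∈ (Finset.univ : Finset (Fin d)),
        (Matrix.mvPolynomialX (Fin d) (Fin d) ℝ (σ i) i).totalDegree ≤ 1 := by
      intro i _
      rw [Matrix.mvPolynomialX_apply]
      exact (totalDegree_X _).le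
    refine (Finset.sum_le_sum h2).trans ?_
    simp
  rw [Units.smul_def, ← Int.cast_smul_eq_zsmul ℝ]
  exact (totalDegree_smul_le _ _).trans h1

theorem totalDegree_eD (C : Cu d) (f : Po d) : (eD C f).totalDegree ≤ f.totalDegree := by
  have h : ∀ s, (((Dop C) ^ s) f).totalDegree ≤ f.totalDegree := by
    intro s
    induction s with
    | zero => exact le_rfl
    | succ s ih =>
      rw [pow_succ', Module.End.mul_apply]
      have h1 := totalDegree_Dop C (((Dop C) ^ s) f)
      omega
  unfold eD
  rw [LinearMap.sum_apply]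
  refine totalDegree_finsetSum_le fun s _ => ?_
  rw [LinearMap.smul_apply]
  exact (totalDegree_smul_le _ _).trans (h s)

theorem A0_dP_mul (k a : Fin d) (f g : Po d) :
    dP k a (f * g) = dP k a f * g + f * dP k a g := by
  show pderiv (k, a) (f * g) = _
  rw [pderiv_mul]
  rfl

theorem A0_dP_X (k a j b : Fin d) :
    dP k a (X (j, b)) = if k = j ∧ a = b then 1 else 0 := by
  show pderiv (k, a) (X (j, b)) = _
  rw [pderiv_X, Pi.single_apply]
  by_cases h : k = j ∧ a = b
  · rw [if_pos h, if_pos (by rw [h.1, h.2])]
  · rw [if_neg h, if_neg (fun hh => h ?_)]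
    exact ⟨(congrArg Prod.fst hh).symm, (congrArg Prod.snd hh).symm⟩

theorem A0_dP_prod (j b : Fin d) (σ : Fin d → Fin d) (s : Finset (Fin d)) :
    dP j b (∏ i ∈ s, (X (i, σ i) : Po d)) =
      if j ∈ s ∧ σ j = b then ∏ i ∈ s.erase j, (X (i, σ i) : Po d) else 0 := by
  classical
  induction s using Finset.induction_on with
  | empty =>
    rw [if_neg (fun h => absurd h.1 (Finset.notMem_empty j)), Finset.prod_empty]
    exact pderiv_one
  | insert i0 s hi0 ih =>
    rw [Finset.prod_insert hi0, A0_dP_mul, ih, A0_dP_X]
    by_cases hj : j = i0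
    · subst hj
      rw [if_neg (fun h : j ∈ s ∧ σ j = b => hi0 h.1), mul_zero, add_zero,
        Finset.erase_insert hi0]
      by_cases hb : σ j = b
      · rw [if_pos ⟨rfl, hb.symm⟩, if_pos ⟨Finset.mem_insert_self _ _, hb⟩, one_mul]
      · rw [if_neg (fun h => hb h.2.symm), if_neg (fun h => hb h.2), zero_mul]
    · rw [if_neg (fun h => hj h.1), zero_mul, zero_add]
      by_cases hc : j ∈ s ∧ σ j = b
      · rw [if_pos hc, if_pos ⟨Finset.mem_insert_of_mem hc.1, hc.2⟩,
          Finset.erase_insert_of_ne (Ne.symm hj), Finset.prod_insert (fun h =>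
            hi0 (Finset.mem_of_mem_erase h))]
      · rw [if_neg hc, mul_zero, if_neg (fun h => hc ⟨(Finset.mem_insert.1 h.1).resolve_left hj,
          h.2⟩)]

theorem A0_dtP : dtP d = ∑ σ : Equiv.Perm (Fin d),
    ((Equiv.Perm.sign σ : ℤ) : ℝ) • ∏ i, (X (i, σ i) : Po d) := by
  unfold dtP
  rw [← Matrix.det_transpose, Matrix.det_apply]
  refine Finset.sum_congr rfl fun σ _ => ?_
  rw [Units.smul_def, ← Int.cast_smul_eq_zsmul ℝ]
  rfl

end H79G
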