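import Pool.Agent.Lib.H79G.A0

/-!
# H79G chunk A1 (M): the commutator of `exp (Dop C)` with multiplication by a variable

`Dop C (X(k,b) f) = X(k,b) Dop C f + Eop C k b f`, where `Eop C k b = 1/2 ∑ C k j b c ∂_{jc}`:
the product rule `∂_{ia} ∂_{je} (X f) = X ∂_{ia} ∂_{je} f + [(j,e) = (k,b)] ∂_{ia} f
+ [(i,a) = (k,b)] ∂_{je} f`, so that the extra terms are
`1/4 (∑_{i,a} C i k a b ∂_{ia} f + ∑_{j,e} C k j b e ∂_{je} f)`, and `C i k a b = C k i b a`.
As `Eop` commutes with `Dop C`, by induction
`(Dop C)^s (X f) = X (Dop C)^s f + s Eop (Dop C)^(s-1) f`; divide by `s!` and sum over `s ≤ d`: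
`eD C (X f) = X eD C f + Eop (∑_{s < d} (Dop C)^s f / s!)`, and `Eop ((Dop C)^d f) = 0` if
`f.totalDegree ≤ d` (`Dop_pow_zero`, since `1 ≤ d` as `Fin d` has the element `k`).
-/

open scoped Manifold ContDiff
open Set H31R MeasureTheory MvPolynomial

namespace H79G

variable {d : ℕ}

/-- `1/2 ∑ C k j b c ∂_{jc}` -/
noncomputable def Eop (C : Cu d) (k b : Fin d) : Module.End ℝ (Po d) :=
  (1 / 2 : ℝ) • ∑ j, ∑ c, C k j b c • dP j c

theorem A1_dP_mul (k a : Fin d) (f g : Po d) :
    dP k a (f * g) = dP k a f * g + f * dP k a g := by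
  show pderiv (k, a) (f * g) = _
  rw [pderiv_mul]
  rfl

theorem A1_dP_X (k a j b : Fin d) :
    dP k a (X (j, b)) = if k = j ∧ a = b then 1 else 0 := by
  show pderiv (k, a) (X (j, b)) = _
  rw [pderiv_X, Pi.single_apply]
  by_cases h : k = j ∧ a = b
  · rw [if_pos h, if_pos (by rw [h.1, h.2])]
  · rw [if_neg h, if_neg (fun hh => h ?_)]
    exact ⟨(congrArg Prod.fst hh).symm, (congrArg Prod.snd hh).symm⟩

theorem Dop_mul_X (C : Cu d) (hC : ∀ i j a b, C i j a b = C j i b a) (k b : Fin d) (f : Po d) :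
    Dop C (X (k, b) * f) = X (k, b) * Dop C f + Eop C k b f := by
  have h : ∀ i j a c : Fin d, dP i a (dP j c (X (k, b) * f)) = X (k, b) * dP i a (dP j c f) +
      (if j = k ∧ c = b then dP i a f else 0) + (if i = k ∧ a = b then dP j c f else 0) := by
    intro i j a c
    rw [A1_dP_mul, map_add, A1_dP_mul, A1_dP_mul, A1_dP_X, A1_dP_X]
    have h0 : dP i a (if j = k ∧ c = b then (1 : Po d) else 0) = 0 := by
      split_ifs
      · exact pderiv_one
      · exact map_zero _
    rw [h0]
    split_ifs <;> ring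
  unfold Dop Eop
  simp only [LinearMap.smul_apply, LinearMap.sum_apply, Module.End.mul_apply, h, smul_add,
    Finset.sum_add_distrib]
  have e1 : ∑ i, ∑ j, ∑ a, ∑ c, C i j a c • (if j = k ∧ c = b then dP i a f else 0) =
      ∑ i, ∑ a, C k i b a • dP i a f := by
    refine Finset.sum_congr rfl fun i _ => ?_
    rw [Finset.sum_eq_single k]
    · refine Finset.sum_congr rfl fun a _ => ?_
      rw [Finset.sum_eq_single b]
      · rw [if_pos ⟨rfl, rfl⟩, hC]
      · intro c _ hc
        rw [if_neg (fun hh => hc hh.2), smul_zero]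
      · intro hb
        exact absurd (Finset.mem_univ b) hb
    · intro j _ hj
      refine Finset.sum_eq_zero fun a _ => Finset.sum_eq_zero fun c _ => ?_
      rw [if_neg (fun hh => hj hh.1), smul_zero]
    · intro hb
      exact absurd (Finset.mem_univ k) hb
  have e2 : ∑ i, ∑ j, ∑ a, ∑ c, C i j a c • (if i = k ∧ a = b then dP j c f else 0) =
      ∑ j, ∑ c, C k j b c • dP j c f := by
    rw [Finset.sum_eq_single k]
    · refine Finset.sum_congr rfl fun j _ => ?_
      rw [Finset.sum_eq_single b]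
      · refine Finset.sum_congr rfl fun c _ => ?_
        rw [if_pos ⟨rfl, rfl⟩]
      · intro a _ ha
        refine Finset.sum_eq_zero fun c _ => ?_
        rw [if_neg (fun hh => ha hh.2), smul_zero]
      · intro hb
        exact absurd (Finset.mem_univ b) hb
    · intro i _ hi
      refine Finset.sum_eq_zero fun j _ => Finset.sum_eq_zero fun a _ =>
        Finset.sum_eq_zero fun c _ => ?_
      rw [if_neg (fun hh => hi hh.1), smul_zero]
    · intro hb
      exact absurd (Finset.mem_univ k) hb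
  rw [e1, e2]
  generalize (∑ j, ∑ c, C k j b c • dP j c f) = T
  have e3 : ∑ i, ∑ j, ∑ a, ∑ c, C i j a c • (X (k, b) * dP i a (dP j c f)) =
      X (k, b) * ∑ i, ∑ j, ∑ a, ∑ c, C i j a c • dP i a (dP j c f) := by
    simp only [Finset.mul_sum, mul_smul_comm]
  rw [e3]
  generalize (∑ i, ∑ j, ∑ a, ∑ c, C i j a c • dP i a (dP j c f)) = T'
  rw [mul_smul_comm]
  module

theorem A1_pow (C : Cu d) (hC : ∀ i j a b, C i j a b = C j i b a) (k b : Fin d) (f : Po d) (s : ℕ) :
    ((Dop C) ^ s) (X (k, b) * f) = X (k, b) * ((Dop C) ^ s) f +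
      (s : ℝ) • Eop C k b (((Dop C) ^ (s - 1)) f) := by
  have hcomm : Commute (Dop C) (Eop C k b) := by
    unfold Eop
    refine Commute.smul_right ?_ _
    refine Commute.sum_right _ _ _ fun j _ => ?_
    refine Commute.sum_right _ _ _ fun c _ => ?_
    exact (Dop_dP_comm C j c).smul_right _
  have hc : ∀ g, Dop C (Eop C k b g) = Eop C k b (Dop C g) := fun g =>
    LinearMap.congr_fun hcomm.eq g
  induction s with
  | zero => simp
  | succ s ih =>
    rw [pow_succ', Module.End.mul_apply, ih, map_add, map_smul, Dop_mul_X C hC, hc,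
      Module.End.mul_apply, Nat.add_sub_cancel]
    rcases Nat.eq_zero_or_pos s with hs | hs
    · subst hs
      simp
    · obtain ⟨r, rfl⟩ : ∃ r, s = r + 1 := ⟨s - 1, by omega⟩
      rw [Nat.add_sub_cancel, ← Module.End.mul_apply (Dop C) ((Dop C) ^ r), ← pow_succ']
      push_cast
      rw [add_assoc]
      congr 1
      module

theorem eD_mul_X (C : Cu d) (hC : ∀ i j a b, C i j a b = C j i b a) (k b : Fin d) (f : Po d)
    (hf : f.totalDegree ≤ d) :
    eD C (X (k, b) * f) = X (k, b) * eD C f + Eop C k b (eD C f) := by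
  have hd : 1 ≤ d := by
    have := k.2
    omega
  unfold eD
  simp only [LinearMap.sum_apply, LinearMap.smul_apply, A1_pow C hC k b f, smul_add,
    Finset.sum_add_distrib, Finset.mul_sum, map_sum, map_smul, mul_smul_comm]
  congr 1
  have htop : ((Dop C) ^ d) f = 0 := Dop_pow_zero C d f (by omega)
  rw [Finset.sum_range_succ', Finset.sum_range_succ _ d, htop, map_zero, smul_zero, add_zero]
  simp only [Nat.cast_zero, zero_smul, smul_zero, add_zero, Nat.add_sub_cancel]
  refine Finset.sum_congr rfl fun s _ => ?_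
  rw [smul_smul]
  congr 1
  rw [Nat.factorial_succ]
  push_cast
  field_simp

end H79G
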