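import Pool.Agent.Lib.H79G.A10

/-!
# H79G chunk A12 (S/M): homogeneous components

* `evM_smul_hom`: `evM (t • A) f = ∑_{s ≤ d} t^s evM A (f_s)`, `f_s` the homogeneous component of
  degree `s` (`MvPolynomial.sum_homogeneousComponent`, `IsHomogeneous.eval` or so:
  `evM (t • A) g = t^s evM A g` for `g` homogeneous of degree `s`).
* `evM_hom_top`: the component of degree `d` of `PC C` is `dtP d` (`dtP d` is homogeneous of degree
  `d`, `(Dop C)^s (dtP d)` is homogeneous of degree `d - 2 s`, respectively `0` if `2 s > d`), whose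
  value at `A` is `det A`.
* `evM_hom_trC`: the homogeneous components of `evM_PC_trC`: apply `evM_PC_trC` to `t • A` for all
  real `t`, both sides are polynomials in `t` (by `evM_smul_hom`), compare coefficients
  (`Polynomial.funext` or `MvPolynomial`/`Polynomial` eval argument).
-/

open scoped Manifold ContDiff
open Set H31R MeasureTheory MvPolynomial

namespace H79G

variable {d : ℕ}

theorem A12_mono (t : ℝ) (A : Mt d) (m : (Fin d × Fin d) →₀ ℕ) (c : ℝ) :
    evM (t • A) (monomial m c) = t ^ m.degree * evM A (monomial m c) := by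
  unfold evM
  rw [aeval_monomial, aeval_monomial]
  have h1 : (m.prod fun i k => (t • A) i.1 i.2 ^ k) =
      t ^ m.degree * m.prod fun i k => A i.1 i.2 ^ k := by
    unfold Finsupp.prod
    have h2 : m.degree = ∑ i ∈ m.support, m i := rfl
    rw [h2, ← Finset.prod_pow_eq_pow_sum, ← Finset.prod_mul_distrib]
    refine Finset.prod_congr rfl fun i _ => ?_
    show (t * A i.1 i.2) ^ (m i) = t ^ (m i) * (A i.1 i.2) ^ (m i)
    rw [mul_pow]
  rw [h1]
  ring

theorem A12_hom (t : ℝ) (A : Mt d) (g : Po d) (s : ℕ) (hg : g.IsHomogeneous s) :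
    evM (t • A) g = t ^ s * evM A g := by
  have h1 : evM (t • A) (∑ v ∈ g.support, monomial v (coeff v g)) =
      t ^ s * evM A (∑ v ∈ g.support, monomial v (coeff v g)) := by
    rw [map_sum, map_sum, Finset.mul_sum]
    refine Finset.sum_congr rfl fun m hm => ?_
    rw [A12_mono]
    have h2 : m.degree = s := by
      rw [Finsupp.degree_eq_weight_one]
      exact hg (mem_support_iff.1 hm)
    rw [h2]
  rwa [← as_sum g] at h1

theorem A12_sum (f : Po d) (hf : f.totalDegree ≤ d) :
    ∑ s ∈ Finset.range (d + 1), homogeneousComponent s f = f := by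
  have h1 := sum_homogeneousComponent (φ := f)
  have h2 : Finset.range (f.totalDegree + 1) ⊆ Finset.range (d + 1) := by
    intro x hx
    rw [Finset.mem_range] at hx ⊢
    omega
  rw [← Finset.sum_subset h2, h1]
  intro x _ hx
  rw [Finset.mem_range] at hx
  exact homogeneousComponent_eq_zero _ _ (by omega)

theorem evM_smul_hom (t : ℝ) (A : Mt d) (f : Po d) (hf : f.totalDegree ≤ d) :
    evM (t • A) f = ∑ s ∈ Finset.range (d + 1), t ^ s * evM A (homogeneousComponent s f) := by
  have h1 : evM (t • A) (∑ s ∈ Finset.range (d + 1), homogeneousComponent s f) =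
      ∑ s ∈ Finset.range (d + 1), t ^ s * evM A (homogeneousComponent s f) := by
    rw [map_sum]
    refine Finset.sum_congr rfl fun s _ => ?_
    exact A12_hom t A _ s (homogeneousComponent_isHomogeneous s f)
  rwa [A12_sum f hf] at h1

theorem A12_dtP_hom : (dtP d).IsHomogeneous d := by
  unfold dtP
  rw [Matrix.det_apply']
  apply IsHomogeneous.sum
  intro σ _
  have h1 : (∏ i, Matrix.mvPolynomialX (Fin d) (Fin d) ℝ (σ i) i).IsHomogeneous
      (∑ _i : Fin d, 1) := by
    apply IsHomogeneous.prod
    intro i _
    rw [Matrix.mvPolynomialX_apply]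
    exact isHomogeneous_X _ _
  have h2 : (∑ _i : Fin d, 1) = d := by simp
  rw [h2] at h1
  have h3 : (((Equiv.Perm.sign σ : ℤ) : Po d)).IsHomogeneous 0 := by
    have : (((Equiv.Perm.sign σ : ℤ) : Po d)) =
        MvPolynomial.C (((Equiv.Perm.sign σ : ℤ) : ℝ)) := by
      rw [map_intCast]
    rw [this]
    exact isHomogeneous_C _ _
  have h4 := h3.mul h1
  rwa [zero_add] at h4

theorem A12_pow_deg (C : Cu d) (s : ℕ) (hs : 1 ≤ s) (f : Po d) :
    (((Dop C) ^ s) f).totalDegree ≤ f.totalDegree - 2 := by
  induction s, hs using Nat.le_induction with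
  | base =>
    rw [pow_one]
    exact totalDegree_Dop C f
  | succ s hs ih =>
    rw [pow_succ', Module.End.mul_apply]
    have h1 := totalDegree_Dop C (((Dop C) ^ s) f)
    omega

theorem evM_hom_top (A : Mt d) (C : Cu d) :
    evM A (homogeneousComponent d (PC C)) = A.det := by
  have h1 : homogeneousComponent d (PC C) = dtP d := by
    unfold PC eD
    rw [LinearMap.sum_apply, map_sum, Finset.sum_eq_single 0]
    · rw [pow_zero, Nat.factorial_zero, Nat.cast_one, inv_one, one_smul, Module.End.one_apply]
      exact homogeneousComponent_eq_self A12_dtP_hom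
    · intro s hs hs0
      rw [Finset.mem_range] at hs
      rw [LinearMap.smul_apply, map_smul]
      have h2 := A12_pow_deg C s (by omega) (dtP d)
      have h3 := totalDegree_dtP (d := d)
      rw [homogeneousComponent_eq_zero _ _ (by omega), smul_zero]
    · intro h
      exfalso
      apply h
      rw [Finset.mem_range]
      omega
  rw [h1]
  unfold dtP
  rw [AlgHom.map_det]
  congr 1
  ext i a
  rw [AlgHom.mapMatrix_apply, Matrix.map_apply, Matrix.mvPolynomialX_apply, A10_evM_X]

theorem A12_coeff (n : ℕ) (a b : ℕ → ℝ)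
    (h : ∀ t : ℝ, ∑ s ∈ Finset.range n, t ^ s * a s = ∑ s ∈ Finset.range n, t ^ s * b s)
    (s : ℕ) (hs : s < n) : a s = b s := by
  have h1 : (∑ s ∈ Finset.range n, Polynomial.C (a s) * Polynomial.X ^ s) =
      ∑ s ∈ Finset.range n, Polynomial.C (b s) * Polynomial.X ^ s := by
    apply Polynomial.funext
    intro t
    rw [Polynomial.eval_finsetSum, Polynomial.eval_finsetSum]
    simp only [Polynomial.eval_mul, Polynomial.eval_C, Polynomial.eval_pow, Polynomial.eval_X]
    have h2 := h t
    rw [Finset.sum_congr rfl fun s _ => mul_comm (a s) (t ^ s), h2]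
    exact Finset.sum_congr rfl fun s _ => mul_comm _ _
  have h2 := congrArg (fun p => Polynomial.coeff p s) h1
  simp only [Polynomial.finsetSum_coeff, Polynomial.coeff_C_mul_X_pow] at h2
  rw [Finset.sum_ite_eq, Finset.sum_ite_eq, if_pos (Finset.mem_range.2 hs),
    if_pos (Finset.mem_range.2 hs)] at h2
  exact h2

theorem A12_PC_deg (C : Cu d) : (PC C).totalDegree ≤ d := by
  unfold PC
  exact (totalDegree_eD C _).trans totalDegree_dtP

theorem evM_hom_trC (L R A : Mt d) (C : Cu d) (s : ℕ) :
    evM (L * A * R.transpose) (homogeneousComponent s (PC (trC L R C))) =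
      L.det * R.det * evM A (homogeneousComponent s (PC C)) := by
  by_cases hs : s < d + 1
  · refine A12_coeff (d + 1)
      (fun s => evM (L * A * R.transpose) (homogeneousComponent s (PC (trC L R C))))
      (fun s => L.det * R.det * evM A (homogeneousComponent s (PC C))) ?_ s hs
    intro t
    have h1 := evM_PC_trC L R (t • A) C
    have h2 : L * (t • A) * R.transpose = t • (L * A * R.transpose) := by
      rw [Matrix.mul_smul, Matrix.smul_mul]
    rw [h2, evM_smul_hom _ _ _ (A12_PC_deg _), evM_smul_hom _ _ _ (A12_PC_deg _),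
      Finset.mul_sum] at h1
    rw [h1]
    refine Finset.sum_congr rfl fun s _ => ?_
    ring
  · have h1 := A12_PC_deg C
    have h2 := A12_PC_deg (trC L R C)
    rw [homogeneousComponent_eq_zero _ _ (by omega), homogeneousComponent_eq_zero _ _ (by omega),
      map_zero, map_zero, mul_zero]

end H79G
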