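import Pool.Agent.Lib.H79G.A0

/-!
# H79G chunk A3 (M): second derivatives of the determinant are antisymmetric

`∂_{ka} ∂_{jb} det = - ∂_{ja} ∂_{kb} det`.
Proof 1: `det = ∑ σ, sign σ ∏ i, X (i, σ i)`; for `k ≠ j`
`∂_{ka} ∂_{jb} ∏_i X (i, σ i) = [σ k = a] [σ j = b] ∏_{i ≠ k, j} X (i, σ i)`; replace `σ` by
`σ ∘ swap k j` in the sum.  For `k = j` both sides are `0` (every monomial of `det` contains exactly
one variable of row `k`, so `∂_{ka} ∂_{kb} det = 0`).
Proof 2: the algebra automorphism `ψ = rename (fun p => (swap k j p.1, p.2))` satisfies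
`ψ det = - det` (`Matrix.det_permute`) and `ψ (∂_{ka} f) = ∂_{ja} (ψ f)`; and `∂_{ka} ∂_{jb} det`
does not contain variables of the rows `k`, `j`, hence is fixed by `ψ`.
Then the same for `PC C` (`PC C = eD C (dtP d)` and `eD C` commutes with the derivatives:
`eD_dP_comm`).
(See also `Pool/Agent/Lib/H88S/Anti.lean` for the same fact in another formalism.)
-/

open scoped Manifold ContDiff
open Set H31R MeasureTheory MvPolynomial

namespace H79G

variable {d : ℕ}

theorem A3_second (k a j b : Fin d) : dP k a (dP j b (dtP d)) =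
    ∑ σ : Equiv.Perm (Fin d), ((Equiv.Perm.sign σ : ℤ) : ℝ) •
      (if k ≠ j ∧ σ k = a ∧ σ j = b then
        ∏ i ∈ (Finset.univ.erase j).erase k, (X (i, σ i) : Po d) else 0) := by
  rw [A0_dtP]
  simp only [map_sum, map_smul]
  refine Finset.sum_congr rfl fun σ _ => ?_
  congr 1
  rw [A0_dP_prod]
  by_cases hj : σ j = b
  · rw [if_pos ⟨Finset.mem_univ _, hj⟩, A0_dP_prod]
    by_cases hk : k ≠ j ∧ σ k = a
    · rw [if_pos ⟨Finset.mem_erase.2 ⟨hk.1, Finset.mem_univ _⟩, hk.2⟩, if_pos ⟨hk.1, hk.2, hj⟩]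
    · rw [if_neg (fun h => hk ⟨Finset.ne_of_mem_erase h.1, h.2⟩),
        if_neg (fun h => hk ⟨h.1, h.2.1⟩)]
  · rw [if_neg (fun h => hj h.2), map_zero, if_neg (fun h => hj h.2.2)]

theorem anti_dtP (k a j b : Fin d) :
    dP k a (dP j b (dtP d)) = - dP j a (dP k b (dtP d)) := by
  classical
  rw [A3_second, A3_second]
  by_cases hkj : k = j
  · subst hkj
    simp
  rw [← Finset.sum_neg_distrib, ← Equiv.sum_comp (Equiv.mulRight (Equiv.swap k j))]
  refine Finset.sum_congr rfl fun σ _ => ?_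
  have h1 : (Equiv.mulRight (Equiv.swap k j)) σ = σ * Equiv.swap k j := rfl
  have hk : (σ * Equiv.swap k j) k = σ j := by simp
  have hj : (σ * Equiv.swap k j) j = σ k := by simp
  rw [h1, hk, hj, Equiv.Perm.sign_mul, Equiv.Perm.sign_swap hkj, Finset.erase_right_comm,
    ← smul_neg]
  have h2 : ∏ i ∈ (Finset.univ.erase k).erase j, (X (i, (σ * Equiv.swap k j) i) : Po d) =
      ∏ i ∈ (Finset.univ.erase k).erase j, (X (i, σ i) : Po d) := by
    refine Finset.prod_congr rfl fun i hi => ?_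
    have hij : i ≠ j := Finset.ne_of_mem_erase hi
    have hik : i ≠ k := Finset.ne_of_mem_erase (Finset.mem_of_mem_erase hi)
    rw [Equiv.Perm.mul_apply, Equiv.swap_apply_of_ne_of_ne hik hij]
  rw [h2]
  by_cases hc : σ j = a ∧ σ k = b
  · rw [if_pos ⟨hkj, hc.1, hc.2⟩, if_pos ⟨Ne.symm hkj, hc.1, hc.2⟩]
    simp
  · rw [if_neg (fun h => hc h.2), if_neg (fun h => hc h.2)]
    simp

theorem anti_PC (C : Cu d) (k a j b : Fin d) :
    dP k a (dP j b (PC C)) = - dP j a (dP k b (PC C)) := by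
  have h : ∀ (i c : Fin d) (f : Po d), dP i c (eD C f) = eD C (dP i c f) := fun i c f =>
    (LinearMap.congr_fun (eD_dP_comm C i c).eq f).symm
  unfold PC
  rw [h, h, h, h, anti_dtP, map_neg]

end H79G
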