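import Pool.Agent.Lib.H79G.A1
import Pool.Agent.Lib.H79G.A2

/-!
# H79G chunk A4 (S/M): the Euler identity for `PC C` and its derivative

`euler_PC`: apply `eD C` to `laplace_dtP`, with `eD_mul_X` for `f = dP k a (dtP d)` (total degree
`≤ d`) and `eD_dP_comm`.

`euler_dPC`: apply `dP l e` to `euler_PC` (as an identity in `Po d`):
`dP l e (X(k,b) g) = X(k,b) dP l e g + [(l,e) = (k,b)] g`; `dP` commutes with `dP` and `Eop`.
-/

open scoped Manifold ContDiff
open Set H31R MeasureTheory MvPolynomial

namespace H79G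

variable {d : ℕ}

theorem euler_PC (C : Cu d) (hC : ∀ i j a b, C i j a b = C j i b a) (a b : Fin d) :
    ∑ k, X (k, b) * dP k a (PC C) =
      (if a = b then PC C else 0) - ∑ k, Eop C k b (dP k a (PC C)) := by
  have hc : ∀ k, eD C (dP k a (dtP d)) = dP k a (PC C) := fun k =>
    LinearMap.congr_fun (eD_dP_comm C k a).eq (dtP d)
  have h1 := congrArg (eD C) (laplace_dtP a b)
  rw [map_sum] at h1
  have h2 : ∀ k, eD C (X (k, b) * dP k a (dtP d)) =
      X (k, b) * dP k a (PC C) + Eop C k b (dP k a (PC C)) := by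
    intro k
    rw [eD_mul_X C hC k b _ ?_, hc]
    have h3 := totalDegree_dP k a (dtP d)
    have h4 := totalDegree_dtP (d := d)
    omega
  simp only [h2, Finset.sum_add_distrib] at h1
  have h3 : eD C (if a = b then dtP d else 0) = if a = b then PC C else 0 := by
    split_ifs
    · rfl
    · exact map_zero _
  rw [h3] at h1
  exact eq_sub_of_add_eq h1

theorem A4_Eop_comm (C : Cu d) (k b l e : Fin d) : Commute (dP l e) (Eop C k b) := by
  unfold Eop
  refine Commute.smul_right ?_ _
  refine Commute.sum_right _ _ _ fun j _ => ?_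
  refine Commute.sum_right _ _ _ fun c _ => ?_
  exact (dP_comm l e j c).smul_right _

theorem euler_dPC (C : Cu d) (hC : ∀ i j a b, C i j a b = C j i b a) (a b l e : Fin d) :
    ∑ k, X (k, b) * dP k a (dP l e (PC C)) =
      (if a = b then dP l e (PC C) else 0) - (if e = b then dP l a (PC C) else 0)
        - ∑ k, Eop C k b (dP k a (dP l e (PC C))) := by
  have hc : ∀ k, ∀ g : Po d, dP l e (dP k a g) = dP k a (dP l e g) := fun k g =>
    LinearMap.congr_fun (dP_comm l e k a).eq g
  have hE : ∀ k, ∀ g : Po d, dP l e (Eop C k b g) = Eop C k b (dP l e g) := fun k g =>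
    LinearMap.congr_fun (A4_Eop_comm C k b l e).eq g
  have h1 := congrArg (dP l e) (euler_PC C hC a b)
  rw [map_sum, map_sub, map_sum] at h1
  have h2 : ∀ k, dP l e (X (k, b) * dP k a (PC C)) =
      X (k, b) * dP k a (dP l e (PC C)) +
        (if k = l then (if e = b then dP l a (PC C) else 0) else 0) := by
    intro k
    rw [A1_dP_mul, A1_dP_X, hc, add_comm]
    congr 1
    by_cases hk : k = l
    · subst hk
      rw [if_pos rfl]
      by_cases he : e = b
      · rw [if_pos ⟨rfl, he⟩, if_pos he, one_mul]
      · rw [if_neg (fun h => he h.2), if_neg he, zero_mul]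
    · rw [if_neg (fun h => hk h.1.symm), if_neg hk, zero_mul]
  simp only [h2, Finset.sum_add_distrib, hE, hc] at h1
  rw [Finset.sum_ite_eq' Finset.univ l, if_pos (Finset.mem_univ _)] at h1
  have h3 : dP l e (if a = b then PC C else 0) = if a = b then dP l e (PC C) else 0 := by
    split_ifs
    · rfl
    · exact map_zero _
  rw [h3] at h1
  rw [sub_right_comm]
  exact eq_sub_of_add_eq h1

end H79G
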