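import Pool.Agent.Lib.H79G.A4

/-!
# H79G chunk A5 (M): invariance of `PC C` under the action of a matrix `Γ` on the upper indices

For `A : Mt d`, `Γ : Mt d`, and the value `E f = evM A f`:
`∑_{j,b,c} Γ b c A j c E(∂_{jb} ∂_{le} P) + E(Dop (actC Γ C) ∂_{le} P)
  = (tr Γ) E(∂_{le} P) - ∑_b Γ b e E(∂_{lb} P)`, `P = PC C`.

Proof. Multiply `euler_dPC` with `(a, b) := (b, c)` by `Γ b c` and sum over `b, c`:
`∑ Γ b c X(j,c) ∂_{jb} ∂_{le} P = tr Γ ∂_{le} P - ∑_b Γ b e ∂_{lb} P
   - ∑_{b,c,j} Γ b c Eop C j c ∂_{jb} ∂_{le} P`,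
and `∑_{b,c,j} Γ b c Eop C j c ∂_{jb} = 1/2 ∑ Γ b c C j i c f ∂_{if} ∂_{jb} = Dop (actC Γ C)`:
indeed `Dop (actC Γ C) = 1/4 ∑_{i,j,a,b,c} (Γ a c C i j c b + Γ b c C i j a c) ∂_{ia} ∂_{jb}`, and the
second half equals the first half by the exchange `(i, a) ↔ (j, b)`, `C i j a c = C j i c a`.
Then apply `evM A` (an algebra homomorphism with `evM A (X (j,c)) = A j c`).
-/

open scoped Manifold ContDiff
open Set H31R MeasureTheory MvPolynomial

namespace H79G

variable {d : ℕ}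

theorem A5_perm {M : Type*} [AddCommMonoid M] (F : Fin d → Fin d → Fin d → Fin d → Fin d → M) :
    ∑ b, ∑ c, ∑ k, ∑ j, ∑ e, F b c k j e = ∑ k, ∑ j, ∑ b, ∑ e, ∑ c, F b c k j e := by
  have h1 : ∀ b, ∑ c, ∑ k, ∑ j, ∑ e, F b c k j e = ∑ k, ∑ j, ∑ e, ∑ c, F b c k j e := by
    intro b
    rw [Finset.sum_comm]
    refine Finset.sum_congr rfl fun k _ => ?_
    rw [Finset.sum_comm]
    refine Finset.sum_congr rfl fun j _ => ?_
    rw [Finset.sum_comm]
  simp only [h1]
  rw [Finset.sum_comm]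
  refine Finset.sum_congr rfl fun k _ => ?_
  rw [Finset.sum_comm]

theorem A5_swap {M : Type*} [AddCommMonoid M] (G : Fin d → Fin d → Fin d → Fin d → M) :
    ∑ i, ∑ j, ∑ a, ∑ b, G i j a b = ∑ i, ∑ j, ∑ a, ∑ b, G j i b a := by
  rw [Finset.sum_comm]
  refine Finset.sum_congr rfl fun j _ => Finset.sum_congr rfl fun i _ => ?_
  rw [Finset.sum_comm]

theorem A5_Dop (C : Cu d) (hC : ∀ i j a b, C i j a b = C j i b a) (Γ : Mt d) (f : Po d) :
    ∑ b, ∑ c, ∑ k, Γ b c • Eop C k c (dP k b f) = Dop (actC Γ C) f := by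
  have hdc : ∀ (i a j b : Fin d) (g : Po d), dP i a (dP j b g) = dP j b (dP i a g) :=
    fun i a j b g => LinearMap.congr_fun (dP_comm i a j b).eq g
  have h1 : ∀ b c k : Fin d, Γ b c • Eop C k c (dP k b f) =
      ∑ j, ∑ e, (1 / 2 : ℝ) • ((Γ b c * C k j c e) • dP k b (dP j e f)) := by
    intro b c k
    unfold Eop
    simp only [LinearMap.smul_apply, LinearMap.sum_apply, Finset.smul_sum]
    refine Finset.sum_congr rfl fun j _ => Finset.sum_congr rfl fun e _ => ?_
    rw [hdc j e k b, smul_smul, smul_smul, smul_smul]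
    congr 1
    ring
  simp only [h1]
  rw [A5_perm]
  unfold Dop actC
  simp only [LinearMap.smul_apply, LinearMap.sum_apply, Module.End.mul_apply]
  simp only [Finset.sum_add_distrib, add_smul, Finset.sum_smul]
  have h3 : ∑ i, ∑ j, ∑ a, ∑ b, ∑ c, (Γ b c * C i j a c) • dP i a (dP j b f) =
      ∑ i, ∑ j, ∑ a, ∑ b, ∑ c, (Γ a c * C i j c b) • dP i a (dP j b f) := by
    rw [A5_swap]
    refine Finset.sum_congr rfl fun i _ => Finset.sum_congr rfl fun j _ =>
      Finset.sum_congr rfl fun a _ => Finset.sum_congr rfl fun b _ =>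
        Finset.sum_congr rfl fun c _ => ?_
    rw [hC j i b c, hdc j b i a]
  rw [h3, ← two_smul ℝ, smul_smul]
  norm_num only
  simp only [Finset.smul_sum]

theorem gl_invariance (C : Cu d) (hC : ∀ i j a b, C i j a b = C j i b a) (A Γ : Mt d)
    (l e : Fin d) :
    (∑ j, ∑ b, ∑ c, Γ b c * A j c * evM A (dP j b (dP l e (PC C))))
      + evM A (Dop (actC Γ C) (dP l e (PC C))) =
    Γ.trace * evM A (dP l e (PC C)) - ∑ b, Γ b e * evM A (dP l b (PC C)) := by
  have hX : ∀ p : Fin d × Fin d, evM A (X p) = A p.1 p.2 := by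
    intro p
    unfold evM
    rw [aeval_X]
  have h1 : ∀ b c : Fin d, ∑ k, Γ b c * A k c * evM A (dP k b (dP l e (PC C))) =
      (if b = c then Γ b c * evM A (dP l e (PC C)) else 0) -
      (if e = c then Γ b c * evM A (dP l b (PC C)) else 0) -
      ∑ k, evM A (Γ b c • Eop C k c (dP k b (dP l e (PC C)))) := by
    intro b c
    have h2 := congrArg (fun g => Γ b c * evM A g) (euler_dPC C hC b c l e)
    simp only [map_sum, map_mul, map_sub, hX] at h2
    rw [Finset.mul_sum] at h2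
    have h3 : ∑ k, Γ b c * A k c * evM A (dP k b (dP l e (PC C))) =
        ∑ k, Γ b c * (A k c * evM A (dP k b (dP l e (PC C)))) :=
      Finset.sum_congr rfl fun k _ => by ring
    rw [h3, h2, mul_sub, mul_sub, Finset.mul_sum]
    congr 1
    · congr 1
      · split_ifs
        · rfl
        · rw [map_zero, mul_zero]
      · split_ifs
        · rfl
        · rw [map_zero, mul_zero]
    · refine Finset.sum_congr rfl fun k _ => ?_
      rw [map_smul, smul_eq_mul]
  have h4 : ∑ j, ∑ b, ∑ c, Γ b c * A j c * evM A (dP j b (dP l e (PC C))) =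
      ∑ b, ∑ c, ∑ k, Γ b c * A k c * evM A (dP k b (dP l e (PC C))) := by
    rw [Finset.sum_comm]
    refine Finset.sum_congr rfl fun b _ => ?_
    rw [Finset.sum_comm]
  rw [h4]
  simp only [h1, Finset.sum_sub_distrib]
  have h5 : ∑ b, ∑ c, ∑ k, evM A (Γ b c • Eop C k c (dP k b (dP l e (PC C)))) =
      evM A (Dop (actC Γ C) (dP l e (PC C))) := by
    rw [← A5_Dop C hC]
    simp only [map_sum]
  rw [h5]
  have h6 : ∑ b, ∑ c, (if b = c then Γ b c * evM A (dP l e (PC C)) else 0) =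
      Γ.trace * evM A (dP l e (PC C)) := by
    simp only [Finset.sum_ite_eq, Finset.mem_univ, if_true]
    rw [Matrix.trace, Finset.sum_mul]
    rfl
  have h7 : ∑ b, ∑ c, (if e = c then Γ b c * evM A (dP l b (PC C)) else 0) =
      ∑ b, Γ b e * evM A (dP l b (PC C)) := by
    simp only [Finset.sum_ite_eq, Finset.mem_univ, if_true]
  rw [h6, h7]
  ring

end H79G
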