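import Pool.Agent.Lib.H79G.A0

/-!
# H79G chunk A9 (M): smoothness of `x ↦ evM (A x) (eD (C x) f)`

`contDiffOn_evM`: induction on the polynomial `f`.
`contDiffOn_evM_Dop_pow`: induction on `m` for all `f`:
`(Dop (C x))^(m+1) f = ∑ 1/4 C x i j a b • (Dop (C x))^m (dP i a (dP j b f))`.
`contDiffOn_evM_eD`: finite sum.
`contDiffOn_evM_hom`: the same with the homogeneous component of degree `s` (it is a linear map
`Po d → Po d`; the proof works for `φ ((Dop (C x))^m f)` with any linear map `φ`; it is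
convenient to prove everything in this generality).
-/

open scoped Manifold ContDiff
open Set H31R MeasureTheory MvPolynomial

namespace H79G

variable {d : ℕ}

theorem A9_evM {U : Set (EE d)} {A : EE d → Mt d}
    (hA : ∀ k a, ContDiffOn ℝ ∞ (fun x => A x k a) U) (f : Po d) :
    ContDiffOn ℝ ∞ (fun x => evM (A x) f) U := by
  induction f using MvPolynomial.induction_on with
  | C r =>
    have e1 : (fun x => evM (A x) (MvPolynomial.C r : Po d)) = fun _ => r := by
      funext s
      unfold evM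
      rw [algHom_C]
      rfl
    rw [e1]
    exact contDiffOn_const
  | add p q hp hq =>
    have e1 : (fun x => evM (A x) (p + q)) = fun x => evM (A x) p + evM (A x) q := by
      funext s
      rw [map_add]
    rw [e1]
    exact hp.add hq
  | mul_X p i hp =>
    have e1 : (fun x => evM (A x) (p * X i)) = fun x => evM (A x) p * A x i.1 i.2 := by
      funext s
      rw [map_mul]
      congr 1
      unfold evM
      rw [aeval_X]
    rw [e1]
    exact hp.mul (hA i.1 i.2)

theorem A9_lin (φ : Po d →ₗ[ℝ] ℝ) (C : Cu d) (f : Po d) :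
    φ (Dop C f) = ∑ i, ∑ j, ∑ a, ∑ b, 1 / 4 * C i j a b * φ (dP i a (dP j b f)) := by
  have e1 : Dop C f = (1 / 4 : ℝ) • ∑ i, ∑ j, ∑ a, ∑ b, C i j a b • dP i a (dP j b f) := by
    simp only [Dop, LinearMap.smul_apply, LinearMap.sum_apply, Module.End.mul_apply]
  rw [e1, map_smul]
  simp only [map_sum, map_smul, smul_eq_mul, Finset.mul_sum]
  exact Finset.sum_congr rfl fun i _ => Finset.sum_congr rfl fun j _ =>
    Finset.sum_congr rfl fun a _ => Finset.sum_congr rfl fun b _ => by ring

theorem A9_pow {U : Set (EE d)} {A : EE d → Mt d} {C : EE d → Cu d}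
    (hA : ∀ k a, ContDiffOn ℝ ∞ (fun x => A x k a) U)
    (hC : ∀ i j a b, ContDiffOn ℝ ∞ (fun x => C x i j a b) U) (φ : Module.End ℝ (Po d)) (m : ℕ) :
    ∀ f : Po d, ContDiffOn ℝ ∞ (fun x => evM (A x) (φ (((Dop (C x)) ^ m) f))) U := by
  induction m with
  | zero =>
    intro f
    exact A9_evM hA (φ f)
  | succ m ih =>
    intro f
    have e1 : (fun x => evM (A x) (φ (((Dop (C x)) ^ (m + 1)) f))) = fun x =>
        ∑ i, ∑ j, ∑ a, ∑ b, 1 / 4 * C x i j a b *
          evM (A x) (φ (((Dop (C x)) ^ m) (dP i a (dP j b f)))) := by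
      funext x
      have e2 := A9_lin ((evM (A x)).toLinearMap ∘ₗ φ ∘ₗ (Dop (C x)) ^ m) (C x) f
      have e3 : ((Dop (C x)) ^ (m + 1)) f = ((Dop (C x)) ^ m) (Dop (C x) f) := by
        rw [pow_succ]
        rfl
      rw [e3]
      exact e2
    rw [e1]
    exact ContDiffOn.sum fun i _ => ContDiffOn.sum fun j _ => ContDiffOn.sum fun a _ =>
      ContDiffOn.sum fun b _ => (contDiffOn_const.mul (hC i j a b)).mul (ih _)

theorem contDiffOn_evM_lin {U : Set (EE d)} {A : EE d → Mt d} {C : EE d → Cu d}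
    (hA : ∀ k a, ContDiffOn ℝ ∞ (fun x => A x k a) U)
    (hC : ∀ i j a b, ContDiffOn ℝ ∞ (fun x => C x i j a b) U) (φ : Module.End ℝ (Po d))
    (f : Po d) : ContDiffOn ℝ ∞ (fun x => evM (A x) (φ (eD (C x) f))) U := by
  have e1 : (fun x => evM (A x) (φ (eD (C x) f))) = fun x =>
      ∑ m ∈ Finset.range (d + 1), ((m.factorial : ℝ)⁻¹) *
        evM (A x) (φ (((Dop (C x)) ^ m) f)) := by
    funext x
    unfold eD
    simp only [LinearMap.sum_apply, LinearMap.smul_apply, map_sum, map_smul, smul_eq_mul]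
  rw [e1]
  exact ContDiffOn.sum fun m _ => contDiffOn_const.mul (A9_pow hA hC φ m f)

end H79G
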