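import Pool.Agent.Lib.H79G.Stmt
import Pool.Agent.Lib.H31R.N3

/-!
# H79G: definitions used in the proof

Algebra. `Po d` = polynomials in the entries `X (k, a)` of a `d × d` matrix (row `k` = lower
index, column `a` = upper index).  `C : Cu d` = arrays `C i j a b` (curvature with the lower
indices `i j` and the upper indices `a b`).  `Dop C = 1/4 ∑ C i j a b ∂_{ia} ∂_{jb}`,
`eD C = exp (Dop C)` (truncated at `s ≤ d`, exact on polynomials of degree `≤ 2 d + 1`),
`PC C = exp (Dop C) det`.  `evM A f` = value of the polynomial `f` at the matrix `A`.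

Geometry in a chart. `G` metric matrix, `X` components of the vector field.
-/

open scoped Manifold ContDiff
open Set H31R MeasureTheory

namespace H79G

/-- polynomials in the entries of a matrix -/
abbrev Po (d : ℕ) := MvPolynomial (Fin d × Fin d) ℝ

/-- arrays with four indices -/
abbrev Cu (d : ℕ) := Fin d → Fin d → Fin d → Fin d → ℝ

variable {d : ℕ}

/-- partial derivative with respect to the entry `(k, a)` -/
noncomputable def dP (k a : Fin d) : Module.End ℝ (Po d) := (MvPolynomial.pderiv (k, a)).toLinearMap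

/-- `1/4 ∑ C i j a b ∂_{ia} ∂_{jb}` -/
noncomputable def Dop (C : Cu d) : Module.End ℝ (Po d) :=
  (1 / 4 : ℝ) • ∑ i, ∑ j, ∑ a, ∑ b, C i j a b • (dP i a * dP j b)

/-- truncated exponential series of `Dop C` -/
noncomputable def eD (C : Cu d) : Module.End ℝ (Po d) :=
  ∑ s ∈ Finset.range (d + 1), ((s.factorial : ℝ)⁻¹) • (Dop C) ^ s

/-- the determinant polynomial -/
noncomputable def dtP (d : ℕ) : Po d := (Matrix.mvPolynomialX (Fin d) (Fin d) ℝ).det

/-- `exp (Dop C) det` -/
noncomputable def PC (C : Cu d) : Po d := eD C (dtP d)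

/-- value at the matrix `A` -/
noncomputable def evM (A : Mt d) : Po d →ₐ[ℝ] ℝ := MvPolynomial.aeval fun p => A p.1 p.2

/-- `C` is antisymmetric in the first two and in the last two indices -/
structure Skew2 (C : Cu d) : Prop where
  lo : ∀ i j a b, C i j a b = - C j i a b
  up : ∀ i j a b, C i j a b = - C i j b a

/-- action of a pair of matrices on arrays -/
noncomputable def trC (L R : Mt d) (C : Cu d) : Cu d := fun i j a b =>
  ∑ k, ∑ l, ∑ c, ∑ e, L i k * L j l * R a c * R b e * C k l c e

/-- the substitution `X ↦ L X Rᵀ` -/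
noncomputable def subP (L R : Mt d) : Po d →ₐ[ℝ] Po d :=
  MvPolynomial.aeval fun p => ∑ k, ∑ c, MvPolynomial.C (L p.1 k * R p.2 c) * MvPolynomial.X (k, c)

/-- the array `Γ C + C Γᵀ` (action of the matrix `Γ` on the upper indices) -/
noncomputable def actC (Γ : Mt d) (C : Cu d) : Cu d := fun i j a b =>
  ∑ c, (Γ a c * C i j c b + Γ b c * C i j a c)

/-- a smooth Riemannian metric on the open set `U` -/
structure MetOn (U : Set (EE d)) (G : EE d → Mt d) : Prop where
  hU : IsOpen U
  sm : ∀ i j, ContDiffOn ℝ ∞ (fun y => G y i j) U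
  symm : ∀ y ∈ U, ∀ i j, G y i j = G y j i
  pos : ∀ y ∈ U, ∀ v : Fin d → ℝ, v ≠ 0 → 0 < ∑ i, ∑ j, G y i j * v i * v j

/-- covariant derivative: `nab G X x k a = ∇_k X^a` -/
noncomputable def nab (G : EE d → Mt d) (X : EE d → Fin d → ℝ) (x : EE d) : Mt d :=
  fun k a => pd k (fun y => X y a) x + ∑ b, chr G a k b x * X x b

/-- curvature with two upper indices: `cuv G x i j a b = ∑ c, R_{ij}^a_c G^{cb}` -/
noncomputable def cuv (G : EE d → Mt d) (x : EE d) : Cu d := fun i j a b =>
  (Rm G i j x * (G x)⁻¹) a b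

/-- `|X|²` -/
noncomputable def nsq (G : EE d → Mt d) (X : EE d → Fin d → ℝ) (x : EE d) : ℝ :=
  ∑ a, ∑ b, G x a b * X x a * X x b

/-- the volume density -/
noncomputable def dens (G : EE d → Mt d) (x : EE d) : ℝ := Real.sqrt (G x).det

/-- the Mathai-Quillen integrand (a scalar) -/
noncomputable def UU (G : EE d → Mt d) (X : EE d → Fin d → ℝ) (t : ℝ) (x : EE d) : ℝ :=
  Real.exp (-(t ^ 2 * nsq G X x) / 2) * evM (t • nab G X x) (PC (cuv G x))

/-- the transgression vector field -/
noncomputable def VV (G : EE d → Mt d) (X : EE d → Fin d → ℝ) (t : ℝ) (x : EE d) (k : Fin d) : ℝ :=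
  Real.exp (-(t ^ 2 * nsq G X x) / 2) *
    ∑ a, X x a * evM (t • nab G X x) (dP k a (PC (cuv G x)))

/-- the coefficient of `t ^ s` in `evM (t • nab G X x) (PC (cuv G x))` -/
noncomputable def uc (G : EE d → Mt d) (X : EE d → Fin d → ℝ) (s : ℕ) (x : EE d) : ℝ :=
  evM (nab G X x) (MvPolynomial.homogeneousComponent s (PC (cuv G x)))

end H79G
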