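import Pool.Agent.Lib.H31R.S1

/-!
# H79G, part E (1): vector fields given by their components in the charts; zeros
-/

open scoped Manifold ContDiff Topology
open Set MeasureTheory H31R

namespace H79G

open H31R.Ch

/-- A smooth vector field on the `d`-dimensional manifold `M`, given by its components `comp p` in the
charts `chartAt p`, `p : M`: smooth and compatible with the changes of coordinates. -/
structure EVF (d : ℕ) (M : Type) [TopologicalSpace M] [ChartedSpace (EE d) M] where
  /-- the components in the chart at `p` -/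
  comp : M → EE d → EE d
  smooth : ∀ p, ContDiffOn ℝ ∞ (comp p) (chartAt (EE d) p).target
  compat : ∀ p q, ∀ y ∈ (chartAt (EE d) p).target,
    (chartAt (EE d) p).symm y ∈ (chartAt (EE d) q).source →
    comp q (change p q y) = fderiv ℝ (change p q) y (comp p y)

section

variable {d : ℕ} {M : Type} [TopologicalSpace M] [ChartedSpace (EE d) M]

/-- The set of the zeros. -/
def EVF.zeros (X : EVF d M) : Set M := {x | X.comp x (chartAt (EE d) x x) = 0}

/-- All zeros are nondegenerate. -/
def EVF.Nondeg (X : EVF d M) : Prop :=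
  ∀ p : M, ∀ y ∈ (chartAt (EE d) p).target, X.comp p y = 0 → (fderiv ℝ (X.comp p) y).det ≠ 0

/-- The index of a nondegenerate zero: the sign of the Jacobian determinant. -/
noncomputable def EVF.index (X : EVF d M) (x : M) : ℤ :=
  SignType.sign (fderiv ℝ (X.comp x) (chartAt (EE d) x x)).det

variable [IsManifold (𝓡 d) ∞ M]

/-! ### cocycle -/

theorem E1_id (p : M) {y : EE d} (hy : y ∈ (chartAt (EE d) p).target) : change p p y = y :=
  (chartAt (EE d) p).right_inv hy

theorem E1_id_near (p : M) {y : EE d} (hy : y ∈ (chartAt (EE d) p).target) :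
    change p p =ᶠ[𝓝 y] id := by
  filter_upwards [(chartAt (EE d) p).open_target.mem_nhds hy] with z hz
  exact E1_id p hz

theorem E1_fderiv_id (p : M) {y : EE d} (hy : y ∈ (chartAt (EE d) p).target) :
    fderiv ℝ (change p p) y = ContinuousLinearMap.id ℝ (EE d) := by
  rw [(E1_id_near p hy).fderiv_eq, fderiv_id]

theorem E1_cocycle (p q r : M) {y : EE d} (hy : y ∈ (chartAt (EE d) p).target)
    (hq : (chartAt (EE d) p).symm y ∈ (chartAt (EE d) q).source) :
    change q r (change p q y) = change p r y := by
  show chartAt (EE d) r ((chartAt (EE d) q).symm (change p q y)) = _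
  rw [(S1_mem p q hy hq).2]
  rfl

theorem E1_fderiv_comp (p q r : M) {y : EE d} (hy : y ∈ (chartAt (EE d) p).target)
    (hq : (chartAt (EE d) p).symm y ∈ (chartAt (EE d) q).source)
    (hr : (chartAt (EE d) p).symm y ∈ (chartAt (EE d) r).source) :
    (fderiv ℝ (change q r) (change p q y)).comp (fderiv ℝ (change p q) y) =
      fderiv ℝ (change p r) y := by
  obtain ⟨h1, h2⟩ := S1_mem p q hy hq
  have h3 : change q r ∘ change p q =ᶠ[𝓝 y] change p r := by
    filter_upwards [S1_near p q hy hq] with z hz
    exact E1_cocycle p q r hz.1 hz.2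
  have h5 : DifferentiableAt ℝ (change q r) (change p q y) :=
    (S1_smooth q r h1 (by rw [h2]; exact hr)).differentiableAt (by simp)
  have h6 : DifferentiableAt ℝ (change p q) y :=
    (S1_smooth p q hy hq).differentiableAt (by simp)
  rw [← h3.fderiv_eq, fderiv_comp y h5 h6]

theorem E1_fderiv_comp_apply (p q r : M) {y : EE d} (hy : y ∈ (chartAt (EE d) p).target)
    (hq : (chartAt (EE d) p).symm y ∈ (chartAt (EE d) q).source)
    (hr : (chartAt (EE d) p).symm y ∈ (chartAt (EE d) r).source) (v : EE d) :
    fderiv ℝ (change q r) (change p q y) (fderiv ℝ (change p q) y v) =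
      fderiv ℝ (change p r) y v :=
  congrArg (fun L : EE d →L[ℝ] EE d => L v) (E1_fderiv_comp p q r hy hq hr)

/-- The derivatives of the changes of coordinates are inverse to each other. -/
theorem E1_inv (p q : M) {y : EE d} (hy : y ∈ (chartAt (EE d) p).target)
    (hq : (chartAt (EE d) p).symm y ∈ (chartAt (EE d) q).source) :
    (fderiv ℝ (change q p) (change p q y)).comp (fderiv ℝ (change p q) y) =
      ContinuousLinearMap.id ℝ (EE d) := by
  rw [E1_fderiv_comp p q p hy hq ((chartAt (EE d) p).map_target hy), E1_fderiv_id p hy]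

theorem E1_inv' (p q : M) {y : EE d} (hy : y ∈ (chartAt (EE d) p).target)
    (hq : (chartAt (EE d) p).symm y ∈ (chartAt (EE d) q).source) :
    (fderiv ℝ (change p q) y).comp (fderiv ℝ (change q p) (change p q y)) =
      ContinuousLinearMap.id ℝ (EE d) := by
  obtain ⟨h1, h2⟩ := S1_mem p q hy hq
  have h3 := E1_inv q p h1 (by rw [h2]; exact (chartAt (EE d) p).map_target hy)
  rw [E1_cocycle p q p hy hq, E1_id p hy] at h3
  exact h3

/-! ### zeros -/

variable (X : EVF d M)

theorem E1_zero_iff (p q : M) {y : EE d} (hy : y ∈ (chartAt (EE d) p).target)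
    (hq : (chartAt (EE d) p).symm y ∈ (chartAt (EE d) q).source) :
    X.comp q (change p q y) = 0 ↔ X.comp p y = 0 := by
  rw [X.compat p q y hy hq]
  constructor
  · intro h
    have h1 := congrArg (fun L : EE d →L[ℝ] EE d => L (X.comp p y)) (E1_inv p q hy hq)
    simp only [ContinuousLinearMap.comp_apply, ContinuousLinearMap.id_apply] at h1
    rw [h, map_zero] at h1
    exact h1.symm
  · intro h
    rw [h, map_zero]

theorem E1_mem_zeros (p : M) {y : EE d} (hy : y ∈ (chartAt (EE d) p).target) :
    (chartAt (EE d) p).symm y ∈ X.zeros ↔ X.comp p y = 0 :=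
  E1_zero_iff X p _ hy (mem_chart_source _ _)

/-- The Jacobian determinant at a zero does not depend on the chart. -/
theorem E1_det (p q : M) {y : EE d} (hy : y ∈ (chartAt (EE d) p).target)
    (hq : (chartAt (EE d) p).symm y ∈ (chartAt (EE d) q).source) (h0 : X.comp p y = 0) :
    (fderiv ℝ (X.comp q) (change p q y)).det = (fderiv ℝ (X.comp p) y).det := by
  obtain ⟨h1, h2⟩ := S1_mem p q hy hq
  set A := fderiv ℝ (change p q) y with hA
  set B := fderiv ℝ (change q p) (change p q y) with hB
  have hBA : B.comp A = ContinuousLinearMap.id ℝ (EE d) := E1_inv p q hy hq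
  have hAB : A.comp B = ContinuousLinearMap.id ℝ (EE d) := E1_inv' p q hy hq
  have hc : X.comp q ∘ change p q =ᶠ[𝓝 y] fun z => fderiv ℝ (change p q) z (X.comp p z) := by
    filter_upwards [S1_near p q hy hq] with z hz
    exact X.compat p q z hz.1 hz.2
  have d1 : DifferentiableAt ℝ (X.comp q) (change p q y) :=
    ((X.smooth q).contDiffAt ((chartAt (EE d) q).open_target.mem_nhds h1)).differentiableAt
      (by simp)
  have d2 : DifferentiableAt ℝ (change p q) y := (S1_smooth p q hy hq).differentiableAt (by simp)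
  have d3 : DifferentiableAt ℝ (fderiv ℝ (change p q)) y :=
    ((S1_smooth p q hy hq).fderiv_right (m := ∞) (by simp)).differentiableAt (by simp)
  have d4 : DifferentiableAt ℝ (X.comp p) y :=
    ((X.smooth p).contDiffAt ((chartAt (EE d) p).open_target.mem_nhds hy)).differentiableAt
      (by simp)
  have e1 : (fderiv ℝ (X.comp q) (change p q y)).comp A = A.comp (fderiv ℝ (X.comp p) y) := by
    have h3 := hc.fderiv_eq (𝕜 := ℝ)
    rw [fderiv_comp y d1 d2, fderiv_clm_apply d3 d4, h0] at h3
    rw [h3, hA]
    ext v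
    simp
  have e2 : fderiv ℝ (X.comp q) (change p q y) = (A.comp (fderiv ℝ (X.comp p) y)).comp B := by
    rw [← e1, ContinuousLinearMap.comp_assoc, hAB, ContinuousLinearMap.comp_id]
  have hdet : ∀ L L' : EE d →L[ℝ] EE d, (L.comp L').det = L.det * L'.det := fun L L' =>
    LinearMap.det_comp _ _
  have e3 : B.det * A.det = 1 := by
    rw [← hdet, hBA]
    exact LinearMap.det_id
  rw [e2, hdet, hdet]
  linear_combination (fderiv ℝ (X.comp p) y).det * e3

theorem E1_continuousOn (p : M) :
    ContinuousOn (fun x => X.comp p (chartAt (EE d) p x)) (chartAt (EE d) p).source :=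
  (X.smooth p).continuousOn.comp (chartAt (EE d) p).continuousOn fun _ hx =>
    (chartAt (EE d) p).map_source hx

theorem E1_zeros_iff (p : M) {x : M} (hx : x ∈ (chartAt (EE d) p).source) :
    x ∈ X.zeros ↔ X.comp p (chartAt (EE d) p x) = 0 := by
  have h := E1_mem_zeros X p ((chartAt (EE d) p).map_source hx)
  rwa [(chartAt (EE d) p).left_inv hx] at h

theorem E1_isClosed : IsClosed X.zeros := by
  rw [← isOpen_compl_iff, isOpen_iff_mem_nhds]
  intro x hx
  have hs : (chartAt (EE d) x).source ∈ 𝓝 x :=
    (chartAt (EE d) x).open_source.mem_nhds (mem_chart_source _ _)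
  have h1 : ContinuousAt (fun z => X.comp x (chartAt (EE d) x z)) x :=
    (E1_continuousOn X x).continuousAt hs
  have h2 : X.comp x (chartAt (EE d) x x) ≠ 0 := hx
  filter_upwards [hs, h1.eventually_ne h2] with z hz hz2
  exact fun h => hz2 ((E1_zeros_iff X x hz).1 h)

/-- Nondegenerate zeros are isolated. -/
theorem E1_isolated (hX : X.Nondeg) {x : M} (hx : x ∈ X.zeros) :
    ∀ᶠ z in 𝓝 x, z ∈ X.zeros → z = x := by
  have hs : (chartAt (EE d) x).source ∈ 𝓝 x :=
    (chartAt (EE d) x).open_source.mem_nhds (mem_chart_source _ _)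
  have hy : chartAt (EE d) x x ∈ (chartAt (EE d) x).target := mem_chart_target _ _
  have hdet := hX x _ hy hx
  set y := chartAt (EE d) x x with hyd
  set f' := fderiv ℝ (X.comp x) y with hf'
  have hu : IsUnit f'.det := isUnit_iff_ne_zero.2 hdet
  have hcd : ContDiffAt ℝ ∞ (X.comp x) y :=
    (X.smooth x).contDiffAt ((chartAt (EE d) x).open_target.mem_nhds hy)
  have hst : HasStrictFDerivAt (X.comp x) f' y := hcd.hasStrictFDerivAt (by simp)
  let e : EE d ≃L[ℝ] EE d := f'.toContinuousLinearEquivOfDetNeZero hdet
  have he : (e : EE d →L[ℝ] EE d) = f' := ContinuousLinearMap.coe_toContinuousLinearEquivOfDetNeZero _ _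
  rw [← he] at hst
  have hinj := hst.eventually_left_inverse
  have hc : ContinuousAt (chartAt (EE d) x) x :=
    (chartAt (EE d) x).continuousAt (mem_chart_source _ _)
  filter_upwards [hs, hc.eventually hinj] with z hz hz2 hz3
  have h1 : X.comp x (chartAt (EE d) x z) = 0 := (E1_zeros_iff X x hz).1 hz3
  have h2 := hinj.self_of_nhds
  have h0 : X.comp x y = 0 := hx
  rw [h1] at hz2
  rw [h0] at h2
  exact (chartAt (EE d) x).injOn hz (mem_chart_source _ _) (hz2.symm.trans h2)

theorem E1_finite [CompactSpace M] (hX : X.Nondeg) : X.zeros.Finite := by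
  have hc : IsCompact X.zeros := (E1_isClosed X).isCompact
  refine hc.finite (IsDiscrete.of_nhdsWithin fun x hx => ?_)
  rw [Filter.le_pure_iff, mem_nhdsWithin_iff_eventually]
  filter_upwards [E1_isolated X hX hx] with z hz hz2
  exact hz hz2

end

end H79G
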