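import Pool.Agent.Lib.H79G.E1

/-!
# H79G, part E (2): fields with cut-offs
-/

open scoped Manifold ContDiff Topology
open Set MeasureTheory H31R

namespace H79G

open H31R.Ch

section

variable {d : ℕ} {M : Type} [TopologicalSpace M] [ChartedSpace (EE d) M]

/-- Smooth cut-off functions `f i` with support in the domain of the chart at `c i`; near every point of
`M` one of them is `1`. -/
structure E2_Cut (d : ℕ) (M : Type) [TopologicalSpace M] [ChartedSpace (EE d) M] (ι : Type) where
  /-- the centres of the charts -/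
  c : ι → M
  /-- the cut-off functions -/
  f : ι → M → ℝ
  smooth : ∀ i, ContMDiff (𝓡 d) 𝓘(ℝ, ℝ) ∞ (f i)
  supp : ∀ i, tsupport (f i) ⊆ (chartAt (EE d) (c i)).source
  one : ∀ x, ∃ i, f i =ᶠ[𝓝 x] 1

variable [IsManifold (𝓡 d) ∞ M]

theorem E2_exists_cut (d : ℕ) (M : Type) [TopologicalSpace M] [ChartedSpace (EE d) M]
    [IsManifold (𝓡 d) ∞ M] [T2Space M] [CompactSpace M] :
    ∃ (ι : Type) (_ : Fintype ι), Nonempty (E2_Cut d M ι) := by
  classical
  let g : ∀ c : M, SmoothBumpFunction (𝓡 d) c := fun c => Classical.choice inferInstance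
  have hopen : ∀ c : M, IsOpen {z | (g c : M → ℝ) =ᶠ[𝓝 z] 1} := fun c => isOpen_setOfPred_eventually_nhds
  obtain ⟨t, ht⟩ := isCompact_univ.elim_finite_subcover
    (fun c : M => {z | (g c : M → ℝ) =ᶠ[𝓝 z] 1}) hopen fun x _ =>
      mem_iUnion.2 ⟨x, (g x).eventuallyEq_one⟩
  refine ⟨t, inferInstance, ⟨⟨fun i => i.1, fun i => g i.1, fun i => (g i.1).contMDiff,
    fun i => (g i.1).tsupport_subset_chartAt_source, fun x => ?_⟩⟩⟩
  obtain ⟨c, hc, hx⟩ := mem_iUnion₂.1 (ht (mem_univ x))
  exact ⟨⟨c, hc⟩, hx⟩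

variable {ι : Type} (C : E2_Cut d M ι)

/-- The field `f i` times the constant fields in the chart at `c i`, in the chart at `p`. -/
noncomputable def E2_fld (i : ι) (p : M) (y : EE d) : EE d →L[ℝ] EE d :=
  C.f i ((chartAt (EE d) p).symm y) • fderiv ℝ (change (C.c i) p) (change p (C.c i) y)

theorem E2_fld_smooth (i : ι) (p : M) : ContDiffOn ℝ ∞ (E2_fld C i p) (chartAt (EE d) p).target := by
  intro y hy
  refine ContDiffAt.contDiffWithinAt ?_
  have hc : ContinuousAt (chartAt (EE d) p).symm y := (chartAt (EE d) p).continuousAt_symm hy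
  by_cases hx : (chartAt (EE d) p).symm y ∈ tsupport (C.f i)
  · have hq := C.supp i hx
    obtain ⟨h1, h2⟩ := S1_mem p (C.c i) hy hq
    have a1 : ContDiffAt ℝ ∞ (fun y => C.f i ((chartAt (EE d) p).symm y)) y := by
      rw [← contMDiffAt_iff_contDiffAt]
      have b1 : ContMDiffAt (𝓡 d) (𝓡 d) ∞ (chartAt (EE d) p).symm y :=
        contMDiffOn_chart_symm.contMDiffAt ((chartAt (EE d) p).open_target.mem_nhds hy)
      exact ((C.smooth i) _).comp y b1
    have a2 : ContDiffAt ℝ ∞ (fderiv ℝ (change (C.c i) p)) (change p (C.c i) y) :=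
      (S1_smooth (C.c i) p h1 (by rw [h2]; exact (chartAt (EE d) p).map_target hy)).fderiv_right
        (m := ∞) (by simp)
    exact a1.smul (a2.comp y (S1_smooth p (C.c i) hy hq))
  · have h0 : ∀ᶠ z in 𝓝 ((chartAt (EE d) p).symm y), C.f i z = 0 :=
      notMem_tsupport_iff_eventuallyEq.1 hx
    have h1 : E2_fld C i p =ᶠ[𝓝 y] fun _ => 0 := by
      filter_upwards [hc.eventually h0] with z hz
      unfold E2_fld
      have h3 : ∀ L : EE d →L[ℝ] EE d, (0 : ℝ) • L = 0 := fun L => zero_smul ℝ L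
      rw [hz, h3]
    exact contDiffAt_const.congr_of_eventuallyEq h1

theorem E2_fld_compat (i : ι) (p q : M) {y : EE d} (hy : y ∈ (chartAt (EE d) p).target)
    (hq : (chartAt (EE d) p).symm y ∈ (chartAt (EE d) q).source) :
    E2_fld C i q (change p q y) = (fderiv ℝ (change p q) y).comp (E2_fld C i p y) := by
  obtain ⟨h1, h2⟩ := S1_mem p q hy hq
  unfold E2_fld
  rw [h2]
  by_cases h0 : C.f i ((chartAt (EE d) p).symm y) = 0
  · have h3 : ∀ L : EE d →L[ℝ] EE d, (0 : ℝ) • L = 0 := fun L => zero_smul ℝ L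
    rw [h0, h3, h3, ContinuousLinearMap.comp_zero]
  · have hc : (chartAt (EE d) p).symm y ∈ (chartAt (EE d) (C.c i)).source :=
      C.supp i (subset_tsupport _ h0)
    obtain ⟨h3, h4⟩ := S1_mem p (C.c i) hy hc
    rw [ContinuousLinearMap.comp_smul, E1_cocycle p q (C.c i) hy hq]
    congr 1
    have h5 := E1_fderiv_comp (C.c i) p q h3 (by rw [h4]; exact (chartAt (EE d) p).map_target hy)
      (by rw [h4]; exact hq)
    rw [E1_cocycle p (C.c i) p hy hc, E1_id p hy] at h5
    exact h5.symm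

/-- In the chart at `c i` the `i`-th field is constant where the cut-off is `1`. -/
theorem E2_fld_one (i : ι) {y : EE d} (hy : y ∈ (chartAt (EE d) (C.c i)).target)
    (h1 : C.f i ((chartAt (EE d) (C.c i)).symm y) = 1) :
    E2_fld C i (C.c i) y = ContinuousLinearMap.id ℝ (EE d) := by
  unfold E2_fld
  rw [h1, one_smul, E1_id _ hy, E1_fderiv_id _ hy]

variable [Fintype ι]

/-- The vector field with parameters `a`. -/
noncomputable def E2_XX (a : ι → EE d) : EVF d M where
  comp p y := ∑ i, E2_fld C i p y (a i)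
  smooth p := by
    refine ContDiffOn.sum fun i _ => ?_
    exact (E2_fld_smooth C i p).clm_apply contDiffOn_const
  compat p q y hy hq := by
    rw [map_sum]
    refine Finset.sum_congr rfl fun i _ => ?_
    rw [E2_fld_compat C i p q hy hq]
    rfl

theorem E2_XX_comp (a : ι → EE d) (p : M) (y : EE d) :
    (E2_XX C a).comp p y = ∑ i, E2_fld C i p y (a i) := rfl

end

end H79G
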