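import Pool.Agent.Lib.H79G.E2

/-!
# H79G, part E (3): for almost all parameters all zeros are nondegenerate
-/

open scoped Manifold ContDiff Topology
open Set MeasureTheory H31R

namespace H79G

open H31R.Ch

section

variable {d : ℕ} {M : Type} [TopologicalSpace M] [ChartedSpace (EE d) M]
  [IsManifold (𝓡 d) ∞ M] {ι : Type} (C : E2_Cut d M ι) [Fintype ι] [DecidableEq ι]

/-- The part of the field with parameters `a` that does not involve `a i`, in the chart at `c i`. -/
noncomputable def E3_WW (i : ι) (z : EE d) (a : ι → EE d) : EE d :=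
  ∑ j ∈ Finset.univ.erase i, E2_fld C j (C.c i) z (a j)

theorem E3_WW_update (i : ι) (z : EE d) (a : ι → EE d) (u : EE d) :
    E3_WW C i z (Function.update a i u) = E3_WW C i z a := by
  unfold E3_WW
  refine Finset.sum_congr rfl fun j hj => ?_
  rw [Function.update_of_ne (Finset.ne_of_mem_erase hj)]

/-- The open set where the `i`-th cut-off is `1`, in the chart at `c i`. -/
def E3_OO (i : ι) : Set (EE d) := {z | z ∈ (chartAt (EE d) (C.c i)).target ∧
  C.f i =ᶠ[𝓝 ((chartAt (EE d) (C.c i)).symm z)] 1}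

theorem E3_OO_near {i : ι} {z : EE d} (hz : z ∈ E3_OO C i) : ∀ᶠ w in 𝓝 z, w ∈ E3_OO C i := by
  have h1 : ContinuousAt (chartAt (EE d) (C.c i)).symm z :=
    (chartAt (EE d) (C.c i)).continuousAt_symm hz.1
  filter_upwards [(chartAt (EE d) (C.c i)).open_target.mem_nhds hz.1,
    h1.eventually (eventually_eventually_nhds.2 hz.2)] with w hw hw2
  exact ⟨hw, hw2⟩

theorem E2_XX_near (a : ι → EE d) {i : ι} {z : EE d} (hz : z ∈ E3_OO C i) :
    (E2_XX C a).comp (C.c i) z = a i + E3_WW C i z a := by
  rw [E2_XX_comp, ← Finset.add_sum_erase _ _ (Finset.mem_univ i), E2_fld_one C i hz.1 hz.2.self_of_nhds]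
  rfl

theorem E3_WW_diff (i : ι) (a : ι → EE d) {z : EE d} (hz : z ∈ (chartAt (EE d) (C.c i)).target) :
    DifferentiableAt ℝ (fun z => E3_WW C i z a) z := by
  unfold E3_WW
  refine DifferentiableAt.fun_sum fun j _ => ?_
  have h1 : DifferentiableAt ℝ (E2_fld C j (C.c i)) z :=
    ((E2_fld_smooth C j (C.c i)).contDiffAt
      ((chartAt (EE d) (C.c i)).open_target.mem_nhds hz)).differentiableAt (by simp)
  exact h1.clm_apply (differentiableAt_const _)

/-- The map whose critical values are the bad parameters. -/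
noncomputable def E3_Psi (i : ι) (b : ι → EE d) : ι → EE d :=
  Function.update b i (-E3_WW C i (b i) b)

theorem E3_Psi_diff (i : ι) {b : ι → EE d} (hb : b i ∈ E3_OO C i) : DifferentiableAt ℝ (E3_Psi C i) b := by
  rw [differentiableAt_pi]
  intro j
  by_cases h : j = i
  · subst h
    have e : (fun b => E3_Psi C j b j) = fun b => -E3_WW C j (b j) b := by
      funext b
      unfold E3_Psi
      rw [Function.update_self]
    rw [e]
    unfold E3_WW
    refine (DifferentiableAt.fun_sum fun j' _ => ?_).neg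
    have h1 : DifferentiableAt ℝ (E2_fld C j' (C.c j)) (b j) :=
      ((E2_fld_smooth C j' (C.c j)).contDiffAt
        ((chartAt (EE d) (C.c j)).open_target.mem_nhds hb.1)).differentiableAt (by simp)
    have h2 : DifferentiableAt ℝ (fun b : ι → EE d => b j) b := by fun_prop
    have h3 : DifferentiableAt ℝ (fun b : ι → EE d => E2_fld C j' (C.c j) (b j)) b :=
      DifferentiableAt.comp (g := E2_fld C j' (C.c j)) (f := fun b : ι → EE d => b j) b h1 h2
    exact h3.clm_apply (by fun_prop)
  · have e : (fun b => E3_Psi C i b j) = fun b => b j := by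
      funext b
      unfold E3_Psi
      rw [Function.update_of_ne h]
    rw [e]
    fun_prop

/-- The derivative of `E3_Psi` in the direction of the `i`-th component. -/
theorem E3_Psi_single (i : ι) {b : ι → EE d} (hb : b i ∈ E3_OO C i) (u : EE d)
    (hu : fderiv ℝ (fun z => E3_WW C i z b) (b i) u = 0) :
    fderiv ℝ (E3_Psi C i) b (Pi.single i u) = 0 := by
  have h1 : HasDerivAt (fun r : ℝ => E3_Psi C i (b + r • (Pi.single i u : ι → EE d)))
      (fderiv ℝ (E3_Psi C i) b (Pi.single i u)) 0 := by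
    have h2 : HasDerivAt (fun r : ℝ => b + r • (Pi.single i u : ι → EE d)) (Pi.single i u) 0 := by
      have := ((hasDerivAt_id (0 : ℝ)).smul_const (Pi.single i u : ι → EE d)).const_add b
      simpa using this
    have h3 : HasFDerivAt (E3_Psi C i) (fderiv ℝ (E3_Psi C i) b)
        (b + (0 : ℝ) • (Pi.single i u : ι → EE d)) := by
      rw [zero_smul, add_zero]
      exact (E3_Psi_diff C i hb).hasFDerivAt
    exact h3.comp_hasDerivAt (0 : ℝ) h2
  have h4 : ∀ r : ℝ, E3_Psi C i (b + r • (Pi.single i u : ι → EE d)) =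
      Function.update b i (-E3_WW C i (b i + r • u) b) := by
    intro r
    have e1 : b + r • (Pi.single i u : ι → EE d) = Function.update b i (b i + r • u) := by
      funext j
      by_cases h : j = i
      · subst h
        simp
      · simp [h]
    unfold E3_Psi
    rw [e1, Function.update_self, Function.update_idem, E3_WW_update]
  have h5 : HasDerivAt (fun r : ℝ => -E3_WW C i (b i + r • u) b) (-(0 : EE d)) 0 := by
    have h2 : HasDerivAt (fun r : ℝ => b i + r • u) u 0 := by
      have := ((hasDerivAt_id (0 : ℝ)).smul_const u).const_add (b i)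
      simpa using this
    have h3 : HasFDerivAt (fun z => E3_WW C i z b) (fderiv ℝ (fun z => E3_WW C i z b) (b i))
        (b i + (0 : ℝ) • u) := by
      rw [zero_smul, add_zero]
      exact (E3_WW_diff C i b hb.1).hasFDerivAt
    have h6 := h3.comp_hasDerivAt (0 : ℝ) h2
    rw [hu] at h6
    exact h6.neg
  have h7 : HasDerivAt (fun r : ℝ => E3_Psi C i (b + r • (Pi.single i u : ι → EE d))) 0 0 := by
    rw [hasDerivAt_pi]
    intro j
    by_cases h : j = i
    · subst h
      have e : (fun r : ℝ => E3_Psi C j (b + r • (Pi.single j u : ι → EE d)) j) =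
          fun r : ℝ => -E3_WW C j (b j + r • u) b := by
        funext r
        rw [h4, Function.update_self]
      rw [e]
      simpa using h5
    · have e : (fun r : ℝ => E3_Psi C i (b + r • (Pi.single i u : ι → EE d)) j) = fun _ : ℝ => b j := by
        funext r
        rw [h4, Function.update_of_ne h]
      rw [e]
      exact hasDerivAt_const _ _
  exact h1.unique h7

/-- The set of the critical points of `E3_Psi i`. -/
def E3_crit (i : ι) : Set (ι → EE d) := {b | b i ∈ E3_OO C i ∧ (fderiv ℝ (E3_Psi C i) b).det = 0}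

theorem E3_exists : ∃ a : ι → EE d, ∀ i, a ∉ E3_Psi C i '' E3_crit C i := by
  have h1 : ∀ i, (Measure.addHaar : Measure (ι → EE d)) (E3_Psi C i '' E3_crit C i) = 0 := by
    intro i
    refine addHaar_image_eq_zero_of_det_fderivWithin_eq_zero (f' := fderiv ℝ (E3_Psi C i)) _ ?_ ?_
    · intro b hb
      exact ((E3_Psi_diff C i hb.1).hasFDerivAt).hasFDerivWithinAt
    · intro b hb
      exact hb.2
  have h2 : (Measure.addHaar : Measure (ι → EE d)) (⋃ i, E3_Psi C i '' E3_crit C i) = 0 :=
    measure_iUnion_null h1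
  have h3 : (⋃ i, E3_Psi C i '' E3_crit C i) ≠ univ := by
    intro h
    rw [h] at h2
    exact (isOpen_univ.measure_ne_zero _ univ_nonempty) h2
  obtain ⟨a, ha⟩ := (ne_univ_iff_exists_notMem _).1 h3
  exact ⟨a, fun i hi => ha (mem_iUnion.2 ⟨i, hi⟩)⟩

theorem E3_nondeg {a : ι → EE d} (ha : ∀ i, a ∉ E3_Psi C i '' E3_crit C i) : (E2_XX C a).Nondeg := by
  intro p y hy h0
  obtain ⟨i, hi⟩ := C.one ((chartAt (EE d) p).symm y)
  have hc : (chartAt (EE d) p).symm y ∈ (chartAt (EE d) (C.c i)).source := by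
    refine C.supp i (subset_tsupport _ ?_)
    show C.f i _ ≠ 0
    rw [hi.self_of_nhds]
    exact one_ne_zero
  obtain ⟨h1, h2⟩ := S1_mem p (C.c i) hy hc
  rw [← E1_det (E2_XX C a) p (C.c i) hy hc h0]
  set z := change p (C.c i) y with hz
  have hO : z ∈ E3_OO C i := ⟨h1, by rw [h2]; exact hi⟩
  have hz0 : (E2_XX C a).comp (C.c i) z = 0 := (E1_zero_iff (E2_XX C a) p (C.c i) hy hc).2 h0
  have h3 : a i = -E3_WW C i z a := by
    rw [E2_XX_near C a hO] at hz0
    exact eq_neg_of_add_eq_zero_left hz0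
  set b := Function.update a i z with hb
  have hbi : b i = z := Function.update_self _ _ _
  have hW : ∀ w, E3_WW C i w b = E3_WW C i w a := fun w => E3_WW_update C i w a z
  have hPsi : E3_Psi C i b = a := by
    unfold E3_Psi
    rw [hbi, hW, ← h3, hb, Function.update_idem, Function.update_eq_self]
  have hbO : b i ∈ E3_OO C i := by
    rw [hbi]
    exact hO
  have hdet : (fderiv ℝ (E3_Psi C i) b).det ≠ 0 := fun h => ha i ⟨b, ⟨hbO, h⟩, hPsi⟩
  have hf : fderiv ℝ ((E2_XX C a).comp (C.c i)) z = fderiv ℝ (fun z => E3_WW C i z b) z := by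
    have h4 : (E2_XX C a).comp (C.c i) =ᶠ[𝓝 z] fun w => a i + E3_WW C i w b := by
      filter_upwards [E3_OO_near C hO] with w hw
      rw [E2_XX_near C a hw, hW]
    rw [h4.fderiv_eq, fderiv_const_add]
  rw [hf]
  intro h5
  have h6 : ∃ u : EE d, u ≠ 0 ∧ fderiv ℝ (fun z => E3_WW C i z b) z u = 0 := by
    have h7 := LinearMap.bot_lt_ker_of_det_eq_zero
      (f := (fderiv ℝ (fun z => E3_WW C i z b) z : EE d →ₗ[ℝ] EE d)) h5
    obtain ⟨u, hu, hu0⟩ := SetLike.exists_of_lt h7
    exact ⟨u, hu0, hu⟩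
  obtain ⟨u, hu0, hu⟩ := h6
  have h8 := E3_Psi_single C i hbO u (by rw [hbi]; exact hu)
  refine hdet ?_
  have h9 : ((fderiv ℝ (E3_Psi C i) b : (ι → EE d) →L[ℝ] (ι → EE d)) :
      (ι → EE d) →ₗ[ℝ] (ι → EE d)).det = 0 := by
    rw [LinearMap.det_eq_zero_iff_ker_ne_bot]
    intro hk
    have h10 : (Pi.single i u : ι → EE d) ∈
        LinearMap.ker ((fderiv ℝ (E3_Psi C i) b : (ι → EE d) →L[ℝ] (ι → EE d)) :
          (ι → EE d) →ₗ[ℝ] (ι → EE d)) := h8
    rw [hk] at h10
    have h11 : (Pi.single i u : ι → EE d) = 0 := h10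
    have h12 := congrFun h11 i
    rw [Pi.single_eq_same] at h12
    exact hu0 h12
  exact h9

end

/-- Every closed manifold has a smooth vector field all of whose zeros are nondegenerate, and its zeros
are finite in number. -/
theorem E3_exists_nondeg (d : ℕ) (M : Type) [TopologicalSpace M] [ChartedSpace (EE d) M]
    [IsManifold (𝓡 d) ∞ M] [T2Space M] [CompactSpace M] :
    ∃ X : EVF d M, X.Nondeg ∧ X.zeros.Finite := by
  classical
  obtain ⟨ι, hι, ⟨C⟩⟩ := E2_exists_cut d M
  obtain ⟨a, ha⟩ := E3_exists C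
  exact ⟨E2_XX C a, E3_nondeg C ha, E1_finite _ (E3_nondeg C ha)⟩

end H79G
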