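import Pool.Agent.Lib.H79G.IDefs
import Pool.Agent.Lib.H79G.E4

/-!
# H79G chunk I1 (M/L): the measures of two charts agree on the overlap; integration in a chart

`aem_symm`: `(chartAt p).symm` is continuous on the open set `target`, hence a.e. measurable for
`volume.restrict target` and for `lebD g p` (absolutely continuous).
`aem_dens`: `dens (g.mat p)` is continuous on `target` (S0, `metOn`).
`chMeas_apply`: for measurable `T ⊆ source p`:
`chMeas g p T = ∫⁻ y in target ∩ symm ⁻¹' T, ofReal (dens (g.mat p) y)` (`Measure.map_apply_of_aemeasurable`,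
`withDensity_apply`; note that `target ∩ symm ⁻¹' T` is measurable: it is the preimage of `T` under the
restriction of a continuous map, `ContinuousOn.measurable...`/`OpenPartialHomeomorph`).
`chMeas_eq`: change of variables `MeasureTheory.lintegral_image_eq_lintegral_abs_det_fderiv_mul` for
`Φ = change p q` on `S = target p ∩ symm_p ⁻¹' T ⊆ chDom p q` (injective on `S`, derivative
`fderiv ℝ Φ y` with matrix `Ch.jacobian p q y`, `N_jac_vec` of `Lib/H31R/N2.lean`; its determinant is
`(Ch.jacobian p q y).det`), image `Φ '' S = target q ∩ symm_q ⁻¹' T`, and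
`dens (g.mat p) y = |det J| dens (g.mat q) (Φ y)` from `g.compat` (`det (Jᵀ G J) = (det J)² det G`).
-/

open scoped Manifold ContDiff
open Set H31R MeasureTheory

namespace H79G

variable {d : ℕ} {M : Type} [TopologicalSpace M] [ChartedSpace (EE d) M]

theorem aem_dens (g : Ch.Metric d M) (p : M) :
    AEMeasurable (fun y => ENNReal.ofReal (dens (g.mat p) y))
      (volume.restrict (chartAt (EE d) p).target) := by
  have h1 : ContinuousOn (dens (g.mat p)) (chartAt (EE d) p).target :=
    (metOn g p).smooth_dens.continuousOn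
  exact (h1.aemeasurable (chartAt (EE d) p).open_target.measurableSet).ennreal_ofReal

theorem dens_change [IsManifold (𝓡 d) ∞ M] (g : Ch.Metric d M) {p q : M} {y : EE d}
    (hy : y ∈ chDom p q) :
    dens (g.mat p) y = |(Ch.jacobian p q y).det| * dens (g.mat q) (Ch.change p q y) := by
  unfold dens
  rw [g.compat p q y hy.1 hy.2, Matrix.det_mul, Matrix.det_mul, Matrix.det_transpose]
  have h1 : (Ch.jacobian p q y).det * (g.mat q (Ch.change p q y)).det *
      (Ch.jacobian p q y).det = (Ch.jacobian p q y).det ^ 2 *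
        (g.mat q (Ch.change p q y)).det := by ring
  rw [h1, Real.sqrt_mul (sq_nonneg _), Real.sqrt_sq_eq_abs]

variable [MeasurableSpace M] [BorelSpace M]

theorem aem_symm (g : Ch.Metric d M) (p : M) :
    AEMeasurable (chartAt (EE d) p).symm (lebD g p) := by
  have h1 : AEMeasurable (chartAt (EE d) p).symm (volume.restrict (chartAt (EE d) p).target) :=
    (chartAt (EE d) p).continuousOn_symm.aemeasurable
      (chartAt (EE d) p).open_target.measurableSet
  exact h1.mono_ac (withDensity_absolutelyContinuous _ _)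

theorem meas_pre (p : M) {T : Set M} (hT : MeasurableSet T) :
    MeasurableSet ((chartAt (EE d) p).target ∩ (chartAt (EE d) p).symm ⁻¹' T) := by
  have h1 : Continuous ((chartAt (EE d) p).target.domRestrict (chartAt (EE d) p).symm) :=
    continuousOn_iff_continuous_domRestrict.1 (chartAt (EE d) p).continuousOn_symm
  have h2 := h1.measurable hT
  have h3 := MeasurableSet.subtype_image (chartAt (EE d) p).open_target.measurableSet h2
  have h4 : (Subtype.val '' (((chartAt (EE d) p).target.domRestrict (chartAt (EE d) p).symm) ⁻¹' T)) =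
      (chartAt (EE d) p).target ∩ (chartAt (EE d) p).symm ⁻¹' T := by
    ext y
    constructor
    · rintro ⟨z, hz, rfl⟩
      exact ⟨z.2, hz⟩
    · rintro ⟨hy, hy2⟩
      exact ⟨⟨y, hy⟩, hy2, rfl⟩
  rwa [h4] at h3

theorem chMeas_apply (g : Ch.Metric d M) (p : M) {T : Set M} (hT : MeasurableSet T) :
    chMeas g p T = ∫⁻ y in (chartAt (EE d) p).target ∩ (chartAt (EE d) p).symm ⁻¹' T,
      ENNReal.ofReal (dens (g.mat p) y) := by
  unfold chMeas
  rw [Measure.map_apply_of_aemeasurable (aem_symm g p) hT]
  have hae : ∀ᵐ y ∂(lebD g p), y ∈ (chartAt (EE d) p).target :=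
    (withDensity_absolutelyContinuous _ _).ae_le
      (ae_restrict_mem (chartAt (EE d) p).open_target.measurableSet)
  have h1 : lebD g p ((chartAt (EE d) p).symm ⁻¹' T) =
      lebD g p ((chartAt (EE d) p).target ∩ (chartAt (EE d) p).symm ⁻¹' T) := by
    refine measure_congr ?_
    filter_upwards [hae] with y hy
    refine propext ⟨fun h => ⟨hy, h⟩, fun h => h.2⟩
  rw [h1]
  unfold lebD
  rw [withDensity_apply _ (meas_pre p hT), Measure.restrict_restrict (meas_pre p hT)]
  congr 2
  rw [inter_right_comm, inter_self]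

theorem chMeas_eq [IsManifold (𝓡 d) ∞ M] (g : Ch.Metric d M) (p q : M) {T : Set M}
    (hT : MeasurableSet T) (hp : T ⊆ (chartAt (EE d) p).source)
    (hq : T ⊆ (chartAt (EE d) q).source) : chMeas g p T = chMeas g q T := by
  rw [chMeas_apply g p hT, chMeas_apply g q hT]
  set S := (chartAt (EE d) p).target ∩ (chartAt (EE d) p).symm ⁻¹' T with hS
  have hSd : ∀ y ∈ S, y ∈ chDom p q := fun y hy => ⟨hy.1, hq hy.2⟩
  have himg : Ch.change p q '' S =
      (chartAt (EE d) q).target ∩ (chartAt (EE d) q).symm ⁻¹' T := by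
    ext z
    constructor
    · rintro ⟨y, hy, rfl⟩
      refine ⟨(change_mem (hSd y hy)).1, ?_⟩
      show (chartAt (EE d) q).symm (Ch.change p q y) ∈ T
      rw [symm_change (hSd y hy)]
      exact hy.2
    · rintro ⟨hz, hz2⟩
      have hz3 : z ∈ chDom q p := ⟨hz, hp hz2⟩
      refine ⟨Ch.change q p z, ⟨(change_mem hz3).1, ?_⟩, change_change hz3⟩
      show (chartAt (EE d) p).symm (Ch.change q p z) ∈ T
      rw [symm_change hz3]
      exact hz2
  rw [← himg]
  have hder : ∀ y ∈ S, HasFDerivWithinAt (Ch.change p q) (fderiv ℝ (Ch.change p q) y) S y := by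
    intro y hy
    have h1 : ContDiffAt ℝ ∞ (Ch.change p q) y :=
      (change_smooth p q).contDiffAt ((isOpen_chDom p q).mem_nhds (hSd y hy))
    exact (h1.differentiableAt (by simp)).hasFDerivAt.hasFDerivWithinAt
  have hinj : InjOn (Ch.change (d := d) p q) S := by
    intro y hy z hz h
    have h1 := change_change (hSd y hy)
    rw [h, change_change (hSd z hz)] at h1
    exact h1.symm
  rw [lintegral_image_eq_lintegral_abs_det_fderiv_mul volume (meas_pre p hT) hder hinj]
  refine setLIntegral_congr_fun (meas_pre p hT) fun y hy => ?_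
  have h1 : ContDiffAt ℝ ∞ (Ch.change p q) y :=
    (change_smooth p q).contDiffAt ((isOpen_chDom p q).mem_nhds (hSd y hy))
  have h2 : (fderiv ℝ (Ch.change p q) y).det = (Ch.jacobian p q y).det :=
    E4_det (h1.differentiableAt (by simp))
  rw [h2, ← ENNReal.ofReal_mul (abs_nonneg _), ← dens_change g (hSd y hy)]

end H79G
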