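import Pool.Agent.Lib.H79G.I1

/-!
# H79G chunk I3 (M): integrals of functions supported in a chart domain

`f` vanishes outside the source of the chart at `p`, so `∫ f dμ = ∫_{source} f dμ`
(`setIntegral_eq_integral_of_forall_compl_eq_zero`), and `μ.restrict source = (chMeas g p).restrict source
= Measure.map symm (lebD g p)` (`Measure.ext`; `chMeas g p` is concentrated on `source`, as `symm` maps
`target` into `source`).  `integral_map` (`aem_symm`; `f` is measurable, real valued), then
`integral_withDensity_eq_integral_toReal_smul₀` or `integral_withDensity_eq_integral_smul₀` with `aem_dens`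
and `dens > 0` on `target`.
`integral_set_chart`: the same for `f = indicator`.
-/

open scoped Manifold ContDiff
open Set H31R MeasureTheory

namespace H79G

variable {d : ℕ} {M : Type} [TopologicalSpace M] [ChartedSpace (EE d) M]
  [MeasurableSpace M] [BorelSpace M]

theorem I3_restrict (g : Ch.Metric d M) {μ : Measure M} (hμ : IsVol g μ) (p : M) :
    μ.restrict (chartAt (EE d) p).source = chMeas g p := by
  have hs : MeasurableSet (chartAt (EE d) p).source := (chartAt (EE d) p).open_source.measurableSet
  refine Measure.ext fun T hT => ?_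
  rw [Measure.restrict_apply hT, hμ p _ (hT.inter hs) inter_subset_right,
    chMeas_apply g p (hT.inter hs), chMeas_apply g p hT]
  congr 2
  ext y
  constructor
  · rintro ⟨h1, h2⟩
    exact ⟨h1, h2.1⟩
  · rintro ⟨h1, h2⟩
    exact ⟨h1, h2, (chartAt (EE d) p).map_target h1⟩

theorem integral_chart (g : Ch.Metric d M) {μ : Measure M} (hμ : IsVol g μ) (p : M) {f : M → ℝ}
    (hf : Measurable f) (h0 : ∀ m, m ∉ (chartAt (EE d) p).source → f m = 0) :
    ∫ m, f m ∂μ = ∫ y in (chartAt (EE d) p).target,
      f ((chartAt (EE d) p).symm y) * dens (g.mat p) y := by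
  rw [← setIntegral_eq_integral_of_forall_compl_eq_zero (s := (chartAt (EE d) p).source) h0,
    I3_restrict g hμ p]
  unfold chMeas
  rw [integral_map (aem_symm g p) hf.aestronglyMeasurable]
  unfold lebD
  rw [integral_withDensity_eq_integral_toReal_smul₀ (aem_dens g p)
    (Filter.Eventually.of_forall fun y => ENNReal.ofReal_lt_top)]
  refine integral_congr_ae (Filter.Eventually.of_forall fun y => ?_)
  show (ENNReal.ofReal (dens (g.mat p) y)).toReal • f ((chartAt (EE d) p).symm y) =
    f ((chartAt (EE d) p).symm y) * dens (g.mat p) y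
  rw [ENNReal.toReal_ofReal (show 0 ≤ dens (g.mat p) y from Real.sqrt_nonneg _), smul_eq_mul,
    mul_comm]

/-- integration over the part of `M` corresponding to the set `B` in the chart at `p` -/
theorem integral_set_chart (g : Ch.Metric d M) {μ : Measure M} (hμ : IsVol g μ) (p : M)
    {f : M → ℝ} (hf : Measurable f) {B : Set (EE d)} (hB : B ⊆ (chartAt (EE d) p).target)
    (hBm : MeasurableSet B) (hBM : MeasurableSet ((chartAt (EE d) p).symm '' B)) :
    ∫ m in (chartAt (EE d) p).symm '' B, f m ∂μ = ∫ y in B,
      f ((chartAt (EE d) p).symm y) * dens (g.mat p) y := by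
  classical
  have hsub : (chartAt (EE d) p).symm '' B ⊆ (chartAt (EE d) p).source := by
    rintro _ ⟨y, hy, rfl⟩
    exact (chartAt (EE d) p).map_target (hB hy)
  rw [← integral_indicator hBM, integral_chart g hμ p (hf.indicator hBM) (fun m hm =>
    indicator_of_notMem (fun h => hm (hsub h)) f)]
  have h1 : ∀ y ∈ (chartAt (EE d) p).target,
      ((chartAt (EE d) p).symm '' B).indicator f ((chartAt (EE d) p).symm y) *
        dens (g.mat p) y = B.indicator (fun y => f ((chartAt (EE d) p).symm y) *
          dens (g.mat p) y) y := by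
    intro y hy
    by_cases hyB : y ∈ B
    · rw [indicator_of_mem hyB, indicator_of_mem (mem_image_of_mem _ hyB)]
    · rw [indicator_of_notMem hyB, indicator_of_notMem, zero_mul]
      rintro ⟨z, hz, hzy⟩
      exact hyB ((chartAt (EE d) p).symm.injOn (hB hz) hy hzy ▸ hz)
  rw [setIntegral_congr_fun (chartAt (EE d) p).open_target.measurableSet h1,
    setIntegral_indicator hBm, inter_eq_right.2 hB]

end H79G
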