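import Pool.Agent.Lib.H79G.T3

/-!
# H79G: the Riemannian measure, definitions

`lebD g p`: the measure `√det g_p dy` on the image of the chart at `p`; `chMeas g p` its image in `M`;
`IsVol g μ`: `μ` is the Riemannian measure.
-/

open scoped Manifold ContDiff
open Set H31R MeasureTheory

namespace H79G

variable {d : ℕ} {M : Type} [TopologicalSpace M] [ChartedSpace (EE d) M]

/-- the measure `√det g_p dy` on the image of the chart at `p` -/
noncomputable def lebD (g : Ch.Metric d M) (p : M) : Measure (EE d) :=
  (volume.restrict (chartAt (EE d) p).target).withDensity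
    fun y => ENNReal.ofReal (dens (g.mat p) y)

variable [MeasurableSpace M]

/-- its image in `M` -/
noncomputable def chMeas (g : Ch.Metric d M) (p : M) : Measure M :=
  Measure.map (chartAt (EE d) p).symm (lebD g p)

/-- `μ` is the Riemannian measure -/
def IsVol (g : Ch.Metric d M) (μ : Measure M) : Prop :=
  ∀ (p : M) (T : Set M), MeasurableSet T → T ⊆ (chartAt (EE d) p).source → μ T = chMeas g p T

/-- derivative of the function `ρ` in the direction of the vector field `V` -/
noncomputable def dirD (V : VField d M) (ρ : M → ℝ) (m : M) : ℝ :=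
  ∑ k, pd k (fun y => ρ ((chartAt (EE d) m).symm y)) (chartAt (EE d) m m)
    * V.vec m (chartAt (EE d) m m) k

/-- smooth function on `M` (smooth in all charts) -/
def SmF (d : ℕ) {M : Type} [TopologicalSpace M] [ChartedSpace (EE d) M] (ρ : M → ℝ) : Prop :=
  ∀ p : M, ContDiffOn ℝ ∞ (fun y => ρ ((chartAt (EE d) p).symm y)) (chartAt (EE d) p).target

end H79G
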