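import Pool.Agent.Lib.H79G.S0
import Pool.Agent.Lib.H79G.A8

/-!
# H79G chunk L1 (M): the derivative of `UU` in `t`

`UU G X s x = exp (-(s² q)/2) * evM (s • A) P`, with `q = nsq G X x`, `A = nab G X x`,
`P = PC (cuv G x)` fixed. Product rule; `hasDerivAt_evM` (A8) with `A s := s • A`, `A' := A`.
-/

open scoped Manifold ContDiff
open Set H31R MeasureTheory MvPolynomial

namespace H79G

variable {d : ℕ} {U : Set (EE d)} {G : EE d → Mt d} {X : EE d → Fin d → ℝ}

theorem hasDerivAt_UU (G : EE d → Mt d) (X : EE d → Fin d → ℝ) (x : EE d) (t : ℝ) :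
    HasDerivAt (fun s => UU G X s x)
      (Real.exp (-(t ^ 2 * nsq G X x) / 2) *
        (- (t * nsq G X x) * evM (t • nab G X x) (PC (cuv G x))
          + ∑ k, ∑ a, nab G X x k a * evM (t • nab G X x) (dP k a (PC (cuv G x))))) t := by
  have h1 : HasDerivAt (fun s : ℝ => Real.exp (-(s ^ 2 * nsq G X x) / 2))
      (Real.exp (-(t ^ 2 * nsq G X x) / 2) * (-(2 * t * nsq G X x) / 2)) t := by
    have h2 : HasDerivAt (fun s : ℝ => s ^ 2 * nsq G X x) (2 * t * nsq G X x) t := by
      have h3 := (hasDerivAt_pow 2 t).mul_const (nsq G X x)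
      refine h3.congr_deriv ?_
      norm_num
    exact ((h2.neg).div_const 2).exp
  have h2 : HasDerivAt (fun s : ℝ => evM (s • nab G X x) (PC (cuv G x)))
      (∑ k, ∑ a, nab G X x k a * evM (t • nab G X x) (dP k a (PC (cuv G x)))) t := by
    refine hasDerivAt_evM (A := fun s : ℝ => s • nab G X x) (A' := nab G X x) (fun k a => ?_) _
    have h3 := (hasDerivAt_id t).mul_const (nab G X x k a)
    rw [one_mul] at h3
    exact h3
  refine (h1.mul h2).congr_deriv ?_
  ring

end H79G
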