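import Pool.Agent.Lib.H79G.P1
import Pool.Agent.Lib.H88S.Cond

/-!
# H79G chunk P4 (M): the conditions of SphereMaps in coordinates

`act R A B = ∑ R i j k l A i k B j l`, `SphereMap`, `SphereNonpos`: `Lib/H88S/Cond.lean`; `kn`, `bilin`:
`Lib/H69/Gauss/FinalDefs.lean`.
`act_frame`: `act (frameR R E) A B = act R (E A Eᵀ) (E B Eᵀ)`.
`sphereNonpos_frame`: if `(S, B)` satisfies `SphereMap`, then so does `(E S Eᵀ, E B_k Eᵀ)`:
`bilin (E A Eᵀ) x x = bilin A (Eᵀ x) (Eᵀ x)`; and `frameR (kn G0) E = kn (Eᵀ G0 E) = kn 1`.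
`second_frame`: `Y` symmetric with `tr Y = 0`: `Y' = E Y Eᵀ` is symmetric, `tr (G0 Y') = tr (Eᵀ G0 E Y) = 0`
and `tr (G0 Y' G0 Y') = tr (Y Y) = ∑ Y i j ^ 2`.
-/

open scoped Manifold ContDiff
open Set H31R MeasureTheory Pool.Agent.H69Hopf Pool.Agent.H88S

namespace H79G

variable {d : ℕ}

theorem P4_sum4 (F : Fin d → Fin d → Fin d → Fin d → ℝ) :
    ∑ i, ∑ j, ∑ k, ∑ l, F i j k l =
      ∑ p : Fin d × Fin d × Fin d × Fin d, F p.1 p.2.1 p.2.2.1 p.2.2.2 := by
  simp only [Fintype.sum_prod_type]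

theorem P4_conj (E A : Mt d) (a c : Fin d) :
    (E * A * E.transpose) a c = ∑ i, ∑ k, E a i * A i k * E c k := by
  rw [Matrix.mul_apply, Finset.sum_comm]
  refine Finset.sum_congr rfl fun k _ => ?_
  rw [Matrix.mul_apply, Matrix.transpose_apply, Finset.sum_mul]

theorem P4_inner (E A B : Mt d) (a b c e : Fin d) :
    ∑ i, ∑ j, ∑ k, ∑ l, (E a i * E b j * E c k * E e l) * (A i k * B j l) =
      (E * A * E.transpose) a c * (E * B * E.transpose) b e := by
  rw [P4_conj, P4_conj, Finset.sum_mul]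
  refine Finset.sum_congr rfl fun i _ => ?_
  rw [Finset.sum_comm]
  rw [Finset.sum_mul]
  refine Finset.sum_congr rfl fun k _ => ?_
  rw [Finset.mul_sum]
  refine Finset.sum_congr rfl fun j _ => ?_
  rw [Finset.mul_sum]
  refine Finset.sum_congr rfl fun l _ => ?_
  ring

theorem act_frame (R : Cu d) (E A B : Mt d) :
    act (frameR R E) A B = act R (E * A * E.transpose) (E * B * E.transpose) := by
  unfold act frameR
  simp only [P4_sum4]
  have h1 : ∀ p : Fin d × Fin d × Fin d × Fin d,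
      (∑ q : Fin d × Fin d × Fin d × Fin d,
        R q.1 q.2.1 q.2.2.1 q.2.2.2 * E q.1 p.1 * E q.2.1 p.2.1 * E q.2.2.1 p.2.2.1 *
          E q.2.2.2 p.2.2.2) * A p.1 p.2.2.1 * B p.2.1 p.2.2.2 =
      ∑ q : Fin d × Fin d × Fin d × Fin d, R q.1 q.2.1 q.2.2.1 q.2.2.2 *
        ((E q.1 p.1 * E q.2.1 p.2.1 * E q.2.2.1 p.2.2.1 * E q.2.2.2 p.2.2.2) *
          (A p.1 p.2.2.1 * B p.2.1 p.2.2.2)) := by
    intro p
    rw [Finset.sum_mul, Finset.sum_mul]
    refine Finset.sum_congr rfl fun q _ => ?_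
    ring
  rw [Finset.sum_congr rfl fun p _ => h1 p, Finset.sum_comm]
  refine Finset.sum_congr rfl fun q _ => ?_
  rw [← Finset.mul_sum, mul_assoc, ← P4_inner E A B q.1 q.2.1 q.2.2.1 q.2.2.2, P4_sum4]

theorem P4_bilin (E A : Mt d) (x : Fin d → ℝ) :
    bilin (E * A * E.transpose) x x = bilin A (E.transpose.mulVec x) (E.transpose.mulVec x) := by
  have h : ∀ (M : Mt d) (y z : Fin d → ℝ), bilin M y z = y ⬝ᵥ M.mulVec z := by
    intro M y z
    unfold bilin dotProduct Matrix.mulVec dotProduct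
    refine Finset.sum_congr rfl fun i _ => ?_
    rw [Finset.mul_sum]
    refine Finset.sum_congr rfl fun j _ => ?_
    ring
  rw [h, h, ← Matrix.mulVec_mulVec, ← Matrix.mulVec_mulVec, Matrix.dotProduct_mulVec,
    ← Matrix.mulVec_transpose]

theorem P4_frame_kn (G E : Mt d) : frameR (kn G) E = kn (E.transpose * G * E) := by
  have hc : ∀ i k, (E.transpose * G * E) i k = ∑ a, ∑ c, G a c * E a i * E c k := by
    intro i k
    rw [Matrix.mul_apply, Finset.sum_comm]
    refine Finset.sum_congr rfl fun c _ => ?_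
    rw [Matrix.mul_apply, Finset.sum_mul]
    refine Finset.sum_congr rfl fun a _ => ?_
    rw [Matrix.transpose_apply]
    ring
  have h2 : ∀ (i j k l : Fin d), ∑ a, ∑ b, ∑ c, ∑ e, G a c * G b e * E a i * E b j * E c k * E e l =
      (E.transpose * G * E) i k * (E.transpose * G * E) j l := by
    intro i j k l
    rw [hc, hc, Finset.sum_mul]
    refine Finset.sum_congr rfl fun a _ => ?_
    rw [Finset.sum_comm, Finset.sum_mul]
    refine Finset.sum_congr rfl fun c _ => ?_
    rw [Finset.mul_sum]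
    refine Finset.sum_congr rfl fun b _ => ?_
    rw [Finset.mul_sum]
    refine Finset.sum_congr rfl fun e _ => ?_
    ring
  have h3 : ∀ (i j k l : Fin d), ∑ a, ∑ b, ∑ c, ∑ e, G a e * G b c * E a i * E b j * E c k * E e l =
      (E.transpose * G * E) i l * (E.transpose * G * E) j k := by
    intro i j k l
    rw [← h2 i j l k]
    refine Finset.sum_congr rfl fun a _ => Finset.sum_congr rfl fun b _ => ?_
    rw [Finset.sum_comm]
    refine Finset.sum_congr rfl fun c _ => Finset.sum_congr rfl fun e _ => ?_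
    ring
  funext i j k l
  unfold frameR kn
  rw [← h2 i j k l, ← h3 i j k l, ← Finset.sum_sub_distrib]
  refine Finset.sum_congr rfl fun a _ => ?_
  rw [← Finset.sum_sub_distrib]
  refine Finset.sum_congr rfl fun b _ => ?_
  rw [← Finset.sum_sub_distrib]
  refine Finset.sum_congr rfl fun c _ => ?_
  rw [← Finset.sum_sub_distrib]
  refine Finset.sum_congr rfl fun e _ => ?_
  ring

theorem P4_frame_add (R1 R2 : Cu d) (h : ℝ) (E : Mt d) :
    frameR (R1 + h • R2) E = frameR R1 E + h • frameR R2 E := by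
  funext i j k l
  simp only [frameR, Pi.add_apply, Pi.smul_apply, smul_eq_mul, Finset.mul_sum,
    ← Finset.sum_add_distrib]
  refine Finset.sum_congr rfl fun a _ => Finset.sum_congr rfl fun b _ =>
    Finset.sum_congr rfl fun c _ => Finset.sum_congr rfl fun e _ => ?_
  ring

theorem P4_symm {A : Mt d} (hA : A.IsSymm) (E : Mt d) : (E * A * E.transpose).IsSymm := by
  unfold Matrix.IsSymm at hA ⊢
  rw [Matrix.transpose_mul, Matrix.transpose_mul, Matrix.transpose_transpose, hA,
    Matrix.mul_assoc]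

theorem sphereNonpos_frame {R : Cu d} {G0 E : Mt d} (hE : E.transpose * G0 * E = 1) (h : ℝ)
    (hR : SphereNonpos (R + h • kn G0)) :
    SphereNonpos (frameR R E + h • kn (1 : Mt d)) := by
  have h1 : frameR R E + h • kn (1 : Mt d) = frameR (R + h • kn G0) E := by
    rw [P4_frame_add, P4_frame_kn, hE]
  rw [h1]
  intro p S B hSB
  obtain ⟨hS, hpos, hB, hsq⟩ := hSB
  have h2 := hR p (E * S * E.transpose) (fun k => E * B k * E.transpose)
    ⟨P4_symm hS E, fun x => by rw [P4_bilin]; exact hpos _, fun k => P4_symm (hB k) E,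
      fun x => by
        simp only [P4_bilin]
        exact hsq _⟩
  simp only [act_frame]
  exact h2

theorem second_frame {R : Cu d} {G0 E : Mt d} (hE : E.transpose * G0 * E = 1) (h : ℝ)
    (hR : ∀ Y : Mt d, Y.IsSymm → (G0 * Y).trace = 0 → h * (G0 * Y * G0 * Y).trace ≤ act R Y Y)
    (Y : Mt d) (hY : Y.IsSymm) (h0 : Y.trace = 0) :
    h * ∑ i, ∑ j, Y i j ^ 2 ≤ act (frameR R E) Y Y := by
  rw [act_frame]
  have h1 := hR (E * Y * E.transpose) (P4_symm hY E) (by
    have e : G0 * (E * Y * E.transpose) = (G0 * E * Y) * E.transpose := by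
      simp only [Matrix.mul_assoc]
    rw [e, Matrix.trace_mul_comm]
    have e2 : E.transpose * (G0 * E * Y) = (E.transpose * G0 * E) * Y := by
      simp only [Matrix.mul_assoc]
    rw [e2, hE, Matrix.one_mul]
    exact h0)
  refine le_trans (le_of_eq ?_) h1
  congr 1
  have e : G0 * (E * Y * E.transpose) * G0 * (E * Y * E.transpose) =
      (G0 * E * Y * (E.transpose * G0 * E) * Y) * E.transpose := by
    simp only [Matrix.mul_assoc]
  rw [e, Matrix.trace_mul_comm, hE]
  have e2 : E.transpose * (G0 * E * Y * 1 * Y) = (E.transpose * G0 * E) * (Y * Y) := by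
    simp only [Matrix.mul_assoc, Matrix.one_mul]
  rw [e2, hE, Matrix.one_mul]
  unfold Matrix.trace
  refine Finset.sum_congr rfl fun i _ => ?_
  rw [Matrix.diag_apply, Matrix.mul_apply]
  refine Finset.sum_congr rfl fun j _ => ?_
  rw [sq, hY.apply i j]

end H79G
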