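import Pool.Agent.Lib.H79G.T1
import Pool.Agent.Lib.H79G.A10
import Pool.Agent.Lib.H79G.A12

/-!
# H79G chunk T2 (M): naturality of `UU`, `uc`, `VV`

With `L = Jᵀ`, `R = J⁻¹` (`det L det R = 1`, `J = jac Φ x` invertible by `h.hJ`): T1 and `evM_PC_trC`,
`evM_hom_trC`, `evM_dPC_trC` with `A := t • nab H Y (Φ x)` (so `L * A * Rᵀ = t • nab G X x`).
`VV_pull`: `∑_c Y^c evM A (dP l c P_H) = ∑_c Y^c ∑_{i,a} J l i (J⁻¹) a c E_G(dP i a P_G)
 = ∑_{i,a} J l i X^a E_G(dP i a P_G)`, because `X = J⁻¹ Y`.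
-/

open scoped Manifold ContDiff
open Set H31R MeasureTheory MvPolynomial

namespace H79G

variable {d : ℕ} {U V : Set (EE d)} {Φ : EE d → EE d} {G H : EE d → Mt d}
  {X Y : EE d → Fin d → ℝ}

theorem T2_det (h : Pull U V Φ G H) {x : EE d} (hx : x ∈ V) :
    (jac Φ x).transpose.det * ((jac Φ x)⁻¹).det = 1 := by
  have hu : IsUnit (jac Φ x).det := isUnit_iff_ne_zero.2 (h.hJ x hx)
  rw [Matrix.det_transpose, ← Matrix.det_mul, Matrix.mul_nonsing_inv _ hu, Matrix.det_one]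

theorem T2_smul (t : ℝ) (L N R : Mt d) : t • (L * N * R) = L * (t • N) * R := by
  rw [Matrix.mul_smul, Matrix.smul_mul]

theorem UU_pull (h : Pull U V Φ G H) (hX : ∀ a, ContDiffOn ℝ ∞ (fun y => X y a) V)
    (hY : ∀ a, ContDiffOn ℝ ∞ (fun y => Y y a) U)
    (hXY : ∀ x ∈ V, Y (Φ x) = (jac Φ x).mulVec (X x)) {x : EE d} (hx : x ∈ V) (t : ℝ) :
    UU G X t x = UU H Y t (Φ x) := by
  unfold UU
  rw [nsq_pull h hXY hx, nab_pull h hX hY hXY hx, cuv_pull h hx, T2_smul, evM_PC_trC,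
    T2_det h hx, one_mul]

theorem uc_pull (h : Pull U V Φ G H) (hX : ∀ a, ContDiffOn ℝ ∞ (fun y => X y a) V)
    (hY : ∀ a, ContDiffOn ℝ ∞ (fun y => Y y a) U)
    (hXY : ∀ x ∈ V, Y (Φ x) = (jac Φ x).mulVec (X x)) {x : EE d} (hx : x ∈ V) (s : ℕ) :
    uc G X s x = uc H Y s (Φ x) := by
  unfold uc
  rw [nab_pull h hX hY hXY hx, cuv_pull h hx, evM_hom_trC, T2_det h hx, one_mul]

theorem VV_pull (h : Pull U V Φ G H) (hX : ∀ a, ContDiffOn ℝ ∞ (fun y => X y a) V)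
    (hY : ∀ a, ContDiffOn ℝ ∞ (fun y => Y y a) U)
    (hXY : ∀ x ∈ V, Y (Φ x) = (jac Φ x).mulVec (X x)) {x : EE d} (hx : x ∈ V) (t : ℝ) :
    VV H Y t (Φ x) = (jac Φ x).mulVec (VV G X t x) := by
  have hu : IsUnit (jac Φ x).det := isUnit_iff_ne_zero.2 (h.hJ x hx)
  have hX2 : X x = (jac Φ x)⁻¹.mulVec (Y (Φ x)) := by
    rw [hXY x hx, Matrix.mulVec_mulVec, Matrix.nonsing_inv_mul _ hu, Matrix.one_mulVec]
  funext l
  show _ = ∑ i, jac Φ x l i * VV G X t x i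
  unfold VV
  rw [nsq_pull h hXY hx, nab_pull h hX hY hXY hx, cuv_pull h hx, T2_smul]
  have e1 : ∀ c, evM (t • nab H Y (Φ x)) (dP l c (PC (cuv H (Φ x)))) =
      ∑ i, ∑ a, (jac Φ x).transpose i l * (jac Φ x)⁻¹ a c *
        evM ((jac Φ x).transpose * (t • nab H Y (Φ x)) * ((jac Φ x)⁻¹).transpose)
          (dP i a (PC (trC (jac Φ x).transpose (jac Φ x)⁻¹ (cuv H (Φ x))))) := by
    intro c
    rw [evM_dPC_trC, T2_det h hx, one_mul]
  generalize hE : (fun i a => evM ((jac Φ x).transpose * (t • nab H Y (Φ x)) *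
    ((jac Φ x)⁻¹).transpose) (dP i a (PC (trC (jac Φ x).transpose (jac Φ x)⁻¹
      (cuv H (Φ x)))))) = E at *
  have e2 : ∀ i a, evM ((jac Φ x).transpose * (t • nab H Y (Φ x)) *
    ((jac Φ x)⁻¹).transpose) (dP i a (PC (trC (jac Φ x).transpose (jac Φ x)⁻¹
      (cuv H (Φ x))))) = E i a := fun i a => congrFun (congrFun hE i) a
  simp only [e1, e2]
  generalize Real.exp (-(t ^ 2 * nsq H Y (Φ x)) / 2) = w
  have e3 : ∑ c, Y (Φ x) c * ∑ i, ∑ a, (jac Φ x).transpose i l * (jac Φ x)⁻¹ a c * E i a =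
      ∑ i, jac Φ x l i * ∑ a, X x a * E i a := by
    rw [hX2]
    simp only [Finset.mul_sum, Matrix.mulVec, dotProduct, Finset.sum_mul]
    rw [Finset.sum_comm]
    refine Finset.sum_congr rfl fun i _ => ?_
    rw [Finset.sum_comm]
    refine Finset.sum_congr rfl fun a _ => Finset.sum_congr rfl fun c _ => ?_
    rw [Matrix.transpose_apply]
    ring
  rw [e3, Finset.mul_sum]
  exact Finset.sum_congr rfl fun i _ => by ring

end H79G
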