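import Pool.Agent.Lib.H79G.Z1
import Pool.Agent.Lib.H79G.S0

/-!
# H79G chunk Z2 (M): `|X|²` near a nondegenerate zero

`nsq_lower`: `isolated` (Z1) and `nsq G X y ≥ c' ∑ X^a(y)²` near `y0` (positive definite form depending
continuously on `y`: minimum over the compact set `closedBall × unit sphere`).
`nsq_limit`: `t X^a(y0 + σ/t) → (dmat X y0 σ)^a` (derivative at `y0`, `X y0 = 0`) and `G(y0 + σ/t) → G(y0)`.
-/

open scoped Manifold ContDiff Topology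
open Set H31R MeasureTheory Filter

namespace H79G

variable {d : ℕ} {U : Set (EE d)} {G : EE d → Mt d} {X : EE d → Fin d → ℝ}

theorem Z2_form (h : MetOn U G) {y0 : EE d} {r : ℝ} (hr : Metric.closedBall y0 r ⊆ U) :
    ∃ c : ℝ, 0 < c ∧ ∀ y ∈ Metric.closedBall y0 r, ∀ v : Fin d → ℝ,
      c * ∑ a, v a ^ 2 ≤ ∑ a, ∑ b, G y a b * v a * v b := by
  have hcomp : IsCompact (Metric.closedBall y0 r ×ˢ Metric.sphere (0 : EE d) 1) :=
    (isCompact_closedBall y0 r).prod (isCompact_sphere 0 1)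
  have hcont : ContinuousOn (fun p : EE d × EE d => ∑ a, ∑ b, G p.1 a b * p.2 a * p.2 b)
      (Metric.closedBall y0 r ×ˢ Metric.sphere (0 : EE d) 1) := by
    refine continuousOn_finsetSum _ fun a _ => continuousOn_finsetSum _ fun b _ => ?_
    have h1 : ContinuousOn (fun p : EE d × EE d => G p.1 a b)
        (Metric.closedBall y0 r ×ˢ Metric.sphere (0 : EE d) 1) :=
      (h.sm a b).continuousOn.comp continuous_fst.continuousOn (fun p hp => hr hp.1)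
    have h2 : ∀ c : Fin d, Continuous (fun p : EE d × EE d => p.2 c) := fun c =>
      (EuclideanSpace.proj c : EE d →L[ℝ] ℝ).continuous.comp continuous_snd
    exact (h1.mul (h2 a).continuousOn).mul (h2 b).continuousOn
  have hpos : ∀ p ∈ Metric.closedBall y0 r ×ˢ Metric.sphere (0 : EE d) 1,
      (0 : ℝ) < ∑ a, ∑ b, G p.1 a b * p.2 a * p.2 b := by
    rintro ⟨y, v⟩ ⟨hy, hv⟩
    refine h.pos y (hr hy) v ?_
    intro h0
    have : v = 0 := by
      ext a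
      exact congrFun h0 a
    rw [this] at hv
    simp at hv
  obtain ⟨c, hc, hmin⟩ := hcomp.exists_forall_le' hcont hpos
  refine ⟨c, hc, fun y hy v => ?_⟩
  set w : EE d := WithLp.toLp 2 v with hw
  have hwn : ‖w‖ ^ 2 = ∑ a, v a ^ 2 := by
    rw [EuclideanSpace.norm_sq_eq]
    refine Finset.sum_congr rfl fun a _ => ?_
    rw [Real.norm_eq_abs, sq_abs]
  by_cases h0 : w = 0
  · have hv0 : v = 0 := by
      funext a
      have : w a = 0 := by rw [h0]; rfl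
      exact this
    subst hv0
    simp
  · have hn : ‖w‖ ≠ 0 := norm_ne_zero_iff.2 h0
    have hu : ‖w‖⁻¹ • w ∈ Metric.sphere (0 : EE d) 1 := by
      rw [mem_sphere_zero_iff_norm, norm_smul, norm_inv, norm_norm, inv_mul_cancel₀ hn]
    have h1 := hmin (y, ‖w‖⁻¹ • w) ⟨hy, hu⟩
    have h2 : ∑ a, ∑ b, G y a b * (‖w‖⁻¹ • w) a * (‖w‖⁻¹ • w) b =
        (‖w‖⁻¹) ^ 2 * ∑ a, ∑ b, G y a b * v a * v b := by
      rw [Finset.mul_sum]
      refine Finset.sum_congr rfl fun a _ => ?_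
      rw [Finset.mul_sum]
      refine Finset.sum_congr rfl fun b _ => ?_
      have e : ∀ c, (‖w‖⁻¹ • w) c = ‖w‖⁻¹ * v c := fun c => rfl
      rw [e, e]
      ring
    simp only at h1
    rw [h2] at h1
    rw [← hwn]
    have h3 : c * ‖w‖ ^ 2 ≤ ((‖w‖⁻¹) ^ 2 * ∑ a, ∑ b, G y a b * v a * v b) * ‖w‖ ^ 2 :=
      mul_le_mul_of_nonneg_right h1 (by positivity)
    have h4 : ((‖w‖⁻¹) ^ 2 * ∑ a, ∑ b, G y a b * v a * v b) * ‖w‖ ^ 2 =
        ∑ a, ∑ b, G y a b * v a * v b := by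
      field_simp
    rwa [h4] at h3

theorem nsq_lower (h : MetOn U G) (hX : ∀ a, ContDiffOn ℝ ∞ (fun y => X y a) U) {y0 : EE d}
    (hy : y0 ∈ U) (h0 : X y0 = 0) (hD : (dmat X y0).det ≠ 0) :
    ∃ r c : ℝ, 0 < r ∧ 0 < c ∧ Metric.closedBall y0 r ⊆ U ∧
      ∀ y ∈ Metric.closedBall y0 r, c * ‖y - y0‖ ^ 2 ≤ nsq G X y := by
  obtain ⟨r, c, hr, hc, hb, h1⟩ := isolated h.hU hX hy h0 hD
  obtain ⟨c', hc', h2⟩ := Z2_form h hb
  refine ⟨r, c' * c, hr, mul_pos hc' hc, hb, fun y hy' => ?_⟩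
  refine le_trans ?_ (h2 y hy' (X y))
  rw [mul_assoc]
  exact mul_le_mul_of_nonneg_left (h1 y hy') hc'.le

theorem nsq_limit (h : MetOn U G) (hX : ∀ a, ContDiffOn ℝ ∞ (fun y => X y a) U) {y0 : EE d}
    (hy : y0 ∈ U) (h0 : X y0 = 0) (σ : EE d) :
    Tendsto (fun t : ℝ => t ^ 2 * nsq G X (y0 + t⁻¹ • σ)) atTop
      (𝓝 (∑ a, ∑ b, G y0 a b * (dmat X y0).mulVec σ a * (dmat X y0).mulVec σ b)) := by
  have hdF : HasFDerivAt (fun y => (WithLp.toLp 2 (X y) : EE d))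
      (fderiv ℝ (fun y => (WithLp.toLp 2 (X y) : EE d)) y0) y0 :=
    (((Z1_smooth hX).contDiffAt (h.hU.mem_nhds hy)).differentiableAt (by simp)).hasFDerivAt
  have hlim := hdF.lim σ (c := fun t : ℝ => t) (l := atTop) tendsto_norm_atTop_atTop
  have hcomp : ∀ a, Tendsto (fun t : ℝ => t * X (y0 + t⁻¹ • σ) a) atTop
      (𝓝 ((dmat X y0).mulVec σ a)) := by
    intro a
    have h1 := ((EuclideanSpace.proj a : EE d →L[ℝ] ℝ).continuous.tendsto _).comp hlim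
    have e1 : (EuclideanSpace.proj a : EE d →L[ℝ] ℝ)
        (fderiv ℝ (fun y => (WithLp.toLp 2 (X y) : EE d)) y0 σ) = (dmat X y0).mulVec σ a :=
      Z1_fderiv h.hU hX hy σ a
    rw [e1] at h1
    refine h1.congr fun t => ?_
    show t • (X (y0 + t⁻¹ • σ) a - X y0 a) = _
    rw [h0]
    simp
  have hy0 : Tendsto (fun t : ℝ => y0 + t⁻¹ • σ) atTop (𝓝 y0) := by
    have h1 : Tendsto (fun t : ℝ => y0 + t⁻¹ • σ) atTop (𝓝 (y0 + (0 : ℝ) • σ)) :=
      tendsto_const_nhds.add (tendsto_inv_atTop_zero.smul_const σ)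
    rwa [zero_smul, add_zero] at h1
  have hG : ∀ a b, Tendsto (fun t : ℝ => G (y0 + t⁻¹ • σ) a b) atTop (𝓝 (G y0 a b)) :=
    fun a b => ((h.sm a b).continuousOn.continuousAt (h.hU.mem_nhds hy)).tendsto.comp hy0
  have hsum : Tendsto (fun t : ℝ => ∑ a, ∑ b, G (y0 + t⁻¹ • σ) a b *
      (t * X (y0 + t⁻¹ • σ) a) * (t * X (y0 + t⁻¹ • σ) b)) atTop
      (𝓝 (∑ a, ∑ b, G y0 a b * (dmat X y0).mulVec σ a * (dmat X y0).mulVec σ b)) :=
    tendsto_finsetSum _ fun a _ => tendsto_finsetSum _ fun b _ =>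
      ((hG a b).mul (hcomp a)).mul (hcomp b)
  refine hsum.congr fun t => ?_
  rw [nsq, Finset.mul_sum]
  refine Finset.sum_congr rfl fun a _ => ?_
  rw [Finset.mul_sum]
  refine Finset.sum_congr rfl fun b _ => ?_
  ring

end H79G
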