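import Pool.Agent.Lib.H79G.Defs

/-!
# H79G chunk Z3 (M, pure Mathlib): the Gaussian integral of a quadratic form

Write `G0 = Sᵀ S` with `S` invertible (`G0` is positive definite: square root of a positive
semidefinite matrix, or `Matrix.posSemidef_iff_eq_conjTranspose_mul_self`), `B = S D`, so that the
exponent is `-|B σ|²/2`; `|det B| = sqrt (det G0) |det D|`.  Linear change of variables
(`MeasureTheory.Measure.addHaar_preimage_linearMap` / `integral_comp...`;
`LinearMap` given by the matrix on `EuclideanSpace`, `Matrix.toEuclideanLin` / `Matrix.toLpLin`,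
determinant `LinearMap.det_toLin'`...) and `GaussianFourier.integral_rexp_neg_mul_sq_norm`
(`∫ exp (-b ‖v‖²) = (π / b)^(finrank/2)`, `b = 1/2`).
-/

open scoped Manifold ContDiff Topology
open Set H31R MeasureTheory Filter

namespace H79G

variable {d : ℕ}

section
open scoped MatrixOrder

theorem Z3_sqrt (G0 : Mt d) (hs : ∀ i j, G0 i j = G0 j i)
    (hp : ∀ v : Fin d → ℝ, v ≠ 0 → 0 < ∑ i, ∑ j, G0 i j * v i * v j) :
    ∃ S : Mt d, G0 = S.transpose * S := by
  have h1 : G0.PosSemidef := by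
    refine Matrix.PosSemidef.of_dotProduct_mulVec_nonneg ?_ ?_
    · ext i j
      exact hs j i
    · intro x
      by_cases hx : x = 0
      · subst hx
        simp
      · have h2 := (hp x hx).le
        refine le_of_le_of_eq h2 ?_
        simp only [dotProduct, Matrix.mulVec, Finset.mul_sum]
        refine Finset.sum_congr rfl fun i _ => Finset.sum_congr rfl fun j _ => ?_
        simp only [Pi.star_apply, star_trivial]
        ring
  obtain ⟨B, hB⟩ := CStarAlgebra.nonneg_iff_eq_star_mul_self.mp h1.nonneg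
  exact ⟨B, hB⟩

end

theorem Z3_lin (B : Mt d) (hB : B.det ≠ 0) :
    ∫ σ : EE d, Real.exp (-(‖Matrix.toLpLin 2 2 B σ‖ ^ 2) / 2) =
      Real.sqrt (2 * Real.pi) ^ d / |B.det| := by
  have h1 := MeasureTheory.Measure.map_linearMap_addHaar_eq_smul_addHaar
    (volume : Measure (EE d)) (f := Matrix.toLpLin 2 2 B) (by rwa [LinearMap.det_toLpLin])
  have hc : Continuous (Matrix.toLpLin 2 2 B : EE d →ₗ[ℝ] EE d) := LinearMap.continuous_of_finiteDimensional _
  have h2 : ∫ σ : EE d, Real.exp (-(‖Matrix.toLpLin 2 2 B σ‖ ^ 2) / 2) =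
      ∫ τ, Real.exp (-(‖τ‖ ^ 2) / 2) ∂(Measure.map (Matrix.toLpLin 2 2 B) (volume : Measure (EE d))) := by
    rw [integral_map hc.aemeasurable]
    exact (Continuous.aestronglyMeasurable (by fun_prop))
  rw [h2, h1, integral_smul_measure, LinearMap.det_toLpLin,
    ENNReal.toReal_ofReal (abs_nonneg _)]
  have h3 : ∫ τ : EE d, Real.exp (-(‖τ‖ ^ 2) / 2) = Real.sqrt (2 * Real.pi) ^ d := by
    have h4 := GaussianFourier.integral_rexp_neg_mul_sq_norm (V := EE d) (b := 1 / 2) (by norm_num)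
    have h5 : (fun τ : EE d => Real.exp (-(‖τ‖ ^ 2) / 2)) =
        fun τ : EE d => Real.exp (-(1 / 2) * ‖τ‖ ^ 2) := by
      funext τ
      congr 1
      ring
    rw [h5, h4, finrank_euclideanSpace_fin]
    have h6 : Real.pi / (1 / 2) = 2 * Real.pi := by ring
    rw [h6, Real.sqrt_eq_rpow, ← Real.rpow_natCast, ← Real.rpow_mul (by positivity)]
    congr 1
    ring
  rw [h3, abs_inv, smul_eq_mul]
  field_simp

theorem Z3_dot (S : Mt d) (u : Fin d → ℝ) :
    S.mulVec u ⬝ᵥ S.mulVec u = u ⬝ᵥ (S.transpose * S).mulVec u := by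
  rw [← Matrix.mulVec_mulVec, Matrix.dotProduct_mulVec u, Matrix.vecMul_transpose]

theorem Z3_quad (G : Mt d) (u : Fin d → ℝ) :
    ∑ i, ∑ j, G i j * u i * u j = u ⬝ᵥ G.mulVec u := by
  simp only [dotProduct, Matrix.mulVec, Finset.mul_sum]
  refine Finset.sum_congr rfl fun i _ => Finset.sum_congr rfl fun j _ => ?_
  ring

theorem gaussian_integral (G0 D : Mt d) (hs : ∀ i j, G0 i j = G0 j i)
    (hp : ∀ v : Fin d → ℝ, v ≠ 0 → 0 < ∑ i, ∑ j, G0 i j * v i * v j) (hD : D.det ≠ 0) :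
    ∫ σ : EE d, Real.exp (-(∑ a, ∑ b, G0 a b * D.mulVec σ a * D.mulVec σ b) / 2) =
      Real.sqrt (2 * Real.pi) ^ d / (|D.det| * Real.sqrt G0.det) := by
  obtain ⟨S, hS⟩ := Z3_sqrt G0 hs hp
  have hdet : G0.det = S.det ^ 2 := by
    rw [hS, Matrix.det_mul, Matrix.det_transpose]
    ring
  have hS0 : S.det ≠ 0 := by
    intro h0
    obtain ⟨v, hv, hv2⟩ := Matrix.exists_mulVec_eq_zero_iff.2 h0
    have h1 := hp v hv
    rw [Z3_quad, hS, ← Z3_dot, hv2] at h1
    simp at h1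
  have hq : ∀ σ : EE d, ∑ a, ∑ b, G0 a b * D.mulVec σ a * D.mulVec σ b =
      ‖Matrix.toLpLin 2 2 (S * D) σ‖ ^ 2 := by
    intro σ
    have h4 : ‖Matrix.toLpLin 2 2 (S * D) σ‖ ^ 2 = (S * D).mulVec σ ⬝ᵥ (S * D).mulVec σ := by
      rw [EuclideanSpace.real_norm_sq_eq]
      simp only [dotProduct, Matrix.toLpLin_apply, sq]
    rw [h4, Z3_quad, hS, ← Z3_dot, Matrix.mulVec_mulVec]
  have e : (fun σ : EE d => Real.exp (-(∑ a, ∑ b, G0 a b * D.mulVec σ a * D.mulVec σ b) / 2)) =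
      fun σ : EE d => Real.exp (-(‖Matrix.toLpLin 2 2 (S * D) σ‖ ^ 2) / 2) := by
    funext σ
    rw [hq]
  rw [e, Z3_lin (S * D) (by rw [Matrix.det_mul]; exact mul_ne_zero hS0 hD), Matrix.det_mul,
    hdet, Real.sqrt_sq_eq_abs, abs_mul]
  congr 1
  ring

end H79G
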