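import Pool.Agent.Lib.H79G.Defs

/-!
# H79G chunk Z4 (M/L, pure Mathlib): Laplace's method

Substitution `y = y0 + t⁻¹ σ`, `t > 0` (`Measure.setIntegral_comp_smul`, translation invariance, or
`integral_comp_smul` for the indicator function; `finrank ℝ (EE d) = d`):
`t^d ∫_{closedBall y0 r} exp(-(t² q(y))/2) h(y) dy
  = ∫ 1_{|σ| ≤ r t} exp(-(t² q(y0 + σ/t))/2) h(y0 + σ/t) dσ`.
Dominated convergence (`tendsto_integral_filter_of_dominated_convergence`): the integrand is bounded by
`sup |h| * exp(-c |σ|²/2)` (integrable), measurable, and converges pointwise to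
`exp(-Q σ/2) h(y0)`.
-/

open scoped Manifold ContDiff Topology
open Set H31R MeasureTheory Filter

namespace H79G

variable {d : ℕ}

theorem laplace {q h Q : EE d → ℝ} {y0 : EE d} {r c : ℝ} (hr : 0 < r) (hc : 0 < c)
    (hq : ContinuousOn q (Metric.closedBall y0 r)) (hh : ContinuousOn h (Metric.closedBall y0 r))
    (hlow : ∀ y ∈ Metric.closedBall y0 r, c * ‖y - y0‖ ^ 2 ≤ q y)
    (hQ : ∀ σ : EE d, Tendsto (fun t : ℝ => t ^ 2 * q (y0 + t⁻¹ • σ)) atTop (𝓝 (Q σ))) :
    Tendsto (fun t : ℝ => t ^ d * ∫ y in Metric.closedBall y0 r,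
      Real.exp (-(t ^ 2 * q y) / 2) * h y) atTop (𝓝 (h y0 * ∫ σ, Real.exp (-(Q σ) / 2))) := by
  obtain ⟨C, hC⟩ := (isCompact_closedBall y0 r).exists_bound_of_continuousOn hh
  have hC0 : 0 ≤ C := (norm_nonneg _).trans (hC y0 (Metric.mem_closedBall_self hr.le))
  set F : ℝ → EE d → ℝ := fun t y => Real.exp (-(t ^ 2 * q y) / 2) * h y with hF
  -- substitution
  have hsub : ∀ t : ℝ, 0 < t → t ^ d * ∫ y in Metric.closedBall y0 r, F t y =
      ∫ σ : EE d, (Metric.closedBall y0 r).indicator (F t) (y0 + t⁻¹ • σ) := by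
    intro t ht
    have h1 := MeasureTheory.Measure.integral_comp_inv_smul_of_nonneg (volume : Measure (EE d))
      (fun z => (Metric.closedBall y0 r).indicator (F t) (y0 + z)) ht.le
    rw [h1, finrank_euclideanSpace_fin, smul_eq_mul,
      integral_add_left_eq_self (fun z => (Metric.closedBall y0 r).indicator (F t) z) y0,
      integral_indicator Metric.isClosed_closedBall.measurableSet]
  have hlim : h y0 * ∫ σ, Real.exp (-(Q σ) / 2) = ∫ σ, Real.exp (-(Q σ) / 2) * h y0 := by
    rw [← integral_const_mul]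
    refine integral_congr_ae (Filter.Eventually.of_forall fun σ => ?_)
    exact mul_comm _ _
  rw [hlim]
  have heq : (fun t : ℝ => ∫ σ : EE d,
      (Metric.closedBall y0 r).indicator (F t) (y0 + t⁻¹ • σ)) =ᶠ[atTop]
      fun t : ℝ => t ^ d * ∫ y in Metric.closedBall y0 r, F t y := by
    filter_upwards [eventually_gt_atTop 0] with t ht
    exact (hsub t ht).symm
  refine Tendsto.congr' heq ?_
  refine tendsto_integral_filter_of_dominated_convergence
    (fun σ : EE d => C * Real.exp (-(c * ‖σ‖ ^ 2) / 2)) ?_ ?_ ?_ ?_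
  · refine Filter.Eventually.of_forall fun t => ?_
    have haff : Continuous fun σ : EE d => y0 + t⁻¹ • σ := by fun_prop
    have h1 : (fun σ : EE d => (Metric.closedBall y0 r).indicator (F t) (y0 + t⁻¹ • σ)) =
        ((fun σ : EE d => y0 + t⁻¹ • σ) ⁻¹' Metric.closedBall y0 r).indicator
          (fun σ => F t (y0 + t⁻¹ • σ)) := rfl
    have hm : MeasurableSet ((fun σ : EE d => y0 + t⁻¹ • σ) ⁻¹' Metric.closedBall y0 r) :=
      (Metric.isClosed_closedBall.preimage haff).measurableSet
    rw [h1, aestronglyMeasurable_indicator_iff hm]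
    refine ContinuousOn.aestronglyMeasurable ?_ hm
    have hFc : ContinuousOn (F t) (Metric.closedBall y0 r) := by
      refine ContinuousOn.mul (Real.continuous_exp.comp_continuousOn ?_) hh
      exact ((continuousOn_const.mul hq).neg).div_const _
    exact hFc.comp haff.continuousOn fun σ hσ => hσ
  · filter_upwards [eventually_gt_atTop 0] with t ht
    refine Filter.Eventually.of_forall fun σ => ?_
    by_cases hσ : y0 + t⁻¹ • σ ∈ Metric.closedBall y0 r
    · rw [indicator_of_mem hσ]
      have h1 := hlow _ hσ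
      have h2 : ‖y0 + t⁻¹ • σ - y0‖ ^ 2 = (t ^ 2)⁻¹ * ‖σ‖ ^ 2 := by
        rw [add_sub_cancel_left, norm_smul, mul_pow, norm_inv, Real.norm_of_nonneg ht.le, inv_pow]
      rw [h2] at h1
      have h3 : c * ‖σ‖ ^ 2 ≤ t ^ 2 * q (y0 + t⁻¹ • σ) := by
        have h4 := mul_le_mul_of_nonneg_left h1 (by positivity : 0 ≤ t ^ 2)
        have h5 : t ^ 2 * (c * ((t ^ 2)⁻¹ * ‖σ‖ ^ 2)) = c * ‖σ‖ ^ 2 := by
          field_simp
        rwa [h5] at h4
      simp only [hF]
      rw [norm_mul, Real.norm_of_nonneg (Real.exp_pos _).le, mul_comm]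
      refine mul_le_mul (hC _ hσ) (Real.exp_le_exp.2 (by linarith)) (Real.exp_pos _).le hC0
    · rw [indicator_of_notMem hσ, norm_zero]
      positivity
  · have h1 : Integrable fun σ : EE d => Real.exp (-(c / 2) * ‖σ‖ ^ 2) := by
      have h2 := GaussianFourier.integrable_cexp_neg_mul_sq_norm_add (V := EE d) (b := (c / 2 : ℝ))
        (by simpa using by positivity) 0 0
      have h3 := h2.norm
      refine h3.congr (Filter.Eventually.of_forall fun σ => ?_)
      simp [Complex.norm_exp]
      left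
      norm_cast
    have h2 : (fun σ : EE d => C * Real.exp (-(c * ‖σ‖ ^ 2) / 2)) =
        fun σ : EE d => C * Real.exp (-(c / 2) * ‖σ‖ ^ 2) := by
      funext σ
      congr 2
      ring
    rw [h2]
    exact h1.const_mul C
  · refine Filter.Eventually.of_forall fun σ => ?_
    have hinv : Tendsto (fun t : ℝ => y0 + t⁻¹ • σ) atTop (𝓝 y0) := by
      have h1 : Tendsto (fun t : ℝ => y0 + t⁻¹ • σ) atTop (𝓝 (y0 + (0 : ℝ) • σ)) :=
        tendsto_const_nhds.add (tendsto_inv_atTop_zero.smul_const σ)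
      simpa using h1
    have hmem : ∀ᶠ t : ℝ in atTop, y0 + t⁻¹ • σ ∈ Metric.closedBall y0 r :=
      hinv.eventually (Metric.closedBall_mem_nhds y0 hr)
    have hhc : ContinuousAt h y0 := hh.continuousAt (Metric.closedBall_mem_nhds y0 hr)
    have h2 : Tendsto (fun t : ℝ => Real.exp (-(t ^ 2 * q (y0 + t⁻¹ • σ)) / 2) *
        h (y0 + t⁻¹ • σ)) atTop (𝓝 (Real.exp (-(Q σ) / 2) * h y0)) := by
      refine Tendsto.mul ?_ (hhc.tendsto.comp hinv)
      exact (Real.continuous_exp.tendsto _).comp (((hQ σ).neg).div_const 2)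
    refine Tendsto.congr' ?_ h2
    filter_upwards [hmem] with t ht
    rw [indicator_of_mem ht]

end H79G
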