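import Pool.Agent.Lib.H79G.Z2
import Pool.Agent.Lib.H79G.Z3
import Pool.Agent.Lib.H79G.Z4
import Pool.Agent.Lib.H79G.I8

/-!
# H79G chunk Z5 (M): the contribution of a nondegenerate zero

`UU_eq` (I8): `UU = exp(-(t² q)/2) ∑_{s ≤ d} t^s uc s`. For each `s`, `laplace` with
`h = uc G X s * dens G`: `t^s ∫ exp(..) uc_s dens = t^(s-d) (t^d ∫ ...)`, which tends to `0` for `s < d`, and
for `s = d` to `uc d (y0) dens(y0) ∫ exp(-Q/2)`, `Q` from `nsq_limit`; `uc G X d y0 = (nab G X y0).det`
(`evM_hom_top`, A12), `nab G X y0 = (dmat X y0)ᵀ` since `X y0 = 0`; `gaussian_integral` gives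
`det D sqrt(det G0) (2π)^{d/2} / (|det D| sqrt(det G0)) = sign(det D) (2π)^{d/2}`.
The radius: `nsq_lower` holds for all smaller radii as well.
-/

open scoped Manifold ContDiff Topology
open Set H31R MeasureTheory Filter

namespace H79G

variable {d : ℕ} {U : Set (EE d)} {G : EE d → Mt d} {X : EE d → Fin d → ℝ}

theorem Z5_uc (y0 : EE d) (h0 : X y0 = 0) : uc G X d y0 = (dmat X y0).det := by
  have h1 : nab G X y0 = (dmat X y0).transpose := by
    ext k a
    simp [nab, dmat, h0, Matrix.transpose_apply]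
  rw [uc, evM_hom_top, h1, Matrix.det_transpose]

theorem Z5_pow {F : ℝ → ℝ} {L : ℝ} {s : ℕ} (hs : s < d)
    (h : Tendsto (fun t : ℝ => t ^ d * F t) atTop (𝓝 L)) :
    Tendsto (fun t : ℝ => t ^ s * F t) atTop (𝓝 0) := by
  have h1 : Tendsto (fun t : ℝ => (t ^ (d - s))⁻¹) atTop (𝓝 0) :=
    tendsto_inv_atTop_zero.comp (tendsto_pow_atTop (by omega))
  have h2 := h1.mul h
  rw [zero_mul] at h2
  refine h2.congr' ?_
  filter_upwards [eventually_gt_atTop (0 : ℝ)] with t ht
  have h3 : t ^ d = t ^ (d - s) * t ^ s := by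
    rw [← pow_add]
    congr 1
    omega
  rw [h3]
  have h4 : t ^ (d - s) ≠ 0 := (pow_pos ht _).ne'
  field_simp

theorem Z5_sign {x : ℝ} (hx : x ≠ 0) : x / |x| = ((SignType.sign x : ℤ) : ℝ) := by
  rcases lt_or_gt_of_ne hx with h | h
  · rw [sign_neg h, abs_of_neg h, div_neg, div_self hx]
    simp
  · rw [sign_pos h, abs_of_pos h, div_self hx]
    simp

theorem local_limit (h : MetOn U G) (hX : ∀ a, ContDiffOn ℝ ∞ (fun y => X y a) U) {y0 : EE d}
    (hy : y0 ∈ U) (h0 : X y0 = 0) (hD : (dmat X y0).det ≠ 0) :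
    ∃ r0 : ℝ, 0 < r0 ∧ ∀ r, 0 < r → r ≤ r0 → Metric.closedBall y0 r ⊆ U ∧
      Tendsto (fun t : ℝ => ∫ y in Metric.closedBall y0 r, UU G X t y * dens G y) atTop
        (𝓝 (Real.sqrt (2 * Real.pi) ^ d *
          ((SignType.sign (dmat X y0).det : ℤ) : ℝ))) := by
  obtain ⟨r0, c, hr0, hc, hsub0, hlow0⟩ := nsq_lower h hX hy h0 hD
  refine ⟨r0, hr0, fun r hr hrr => ?_⟩
  have hbb : Metric.closedBall y0 r ⊆ Metric.closedBall y0 r0 :=
    Metric.closedBall_subset_closedBall hrr
  have hsub : Metric.closedBall y0 r ⊆ U := hbb.trans hsub0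
  refine ⟨hsub, ?_⟩
  have hq : ContinuousOn (nsq G X) (Metric.closedBall y0 r) :=
    (h.smooth_nsq hX).continuousOn.mono hsub
  have hh : ∀ s, ContinuousOn (fun y => uc G X s y * dens G y) (Metric.closedBall y0 r) := fun s =>
    ((h.smooth_uc hX s).continuousOn.mono hsub).mul (h.smooth_dens.continuousOn.mono hsub)
  have hlap : ∀ s : ℕ, Tendsto (fun t : ℝ => t ^ d * ∫ y in Metric.closedBall y0 r,
      Real.exp (-(t ^ 2 * nsq G X y) / 2) * (uc G X s y * dens G y)) atTop
      (𝓝 (uc G X s y0 * dens G y0 * ∫ σ : EE d, Real.exp (-(∑ a, ∑ b, G y0 a b *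
        (dmat X y0).mulVec σ a * (dmat X y0).mulVec σ b) / 2))) := fun s =>
    laplace hr hc hq (hh s) (fun y hyb => hlow0 y (hbb hyb)) (nsq_limit h hX hy h0)
  rw [gaussian_integral (G y0) (dmat X y0) (h.symm y0 hy) (h.pos y0 hy) hD] at hlap
  have hterm : ∀ s ∈ Finset.range (d + 1), Tendsto (fun t : ℝ => t ^ s *
      ∫ y in Metric.closedBall y0 r,
        Real.exp (-(t ^ 2 * nsq G X y) / 2) * (uc G X s y * dens G y)) atTop
      (𝓝 (if s = d then Real.sqrt (2 * Real.pi) ^ d *
          ((SignType.sign (dmat X y0).det : ℤ) : ℝ) else 0)) := by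
    intro s hs
    by_cases hsd : s = d
    · subst hsd
      rw [if_pos rfl]
      have h1 := hlap s
      rw [Z5_uc y0 h0] at h1
      have h2 : (dmat X y0).det * dens G y0 * (Real.sqrt (2 * Real.pi) ^ s /
          (|(dmat X y0).det| * Real.sqrt (G y0).det)) =
          Real.sqrt (2 * Real.pi) ^ s * ((SignType.sign (dmat X y0).det : ℤ) : ℝ) := by
        rw [← Z5_sign hD]
        have h3 : Real.sqrt (G y0).det ≠ 0 := (h.dens_pos hy).ne'
        have h4 : |(dmat X y0).det| ≠ 0 := abs_ne_zero.2 hD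
        rw [dens]
        field_simp
      rw [h2] at h1
      exact h1
    · rw [if_neg hsd]
      refine Z5_pow ?_ (hlap s)
      have := Finset.mem_range.1 hs
      omega
  have hsum := tendsto_finsetSum _ hterm
  have hval : ∑ s ∈ Finset.range (d + 1), (if s = d then Real.sqrt (2 * Real.pi) ^ d *
      ((SignType.sign (dmat X y0).det : ℤ) : ℝ) else 0) = Real.sqrt (2 * Real.pi) ^ d *
      ((SignType.sign (dmat X y0).det : ℤ) : ℝ) := by
    rw [Finset.sum_ite_eq' (Finset.range (d + 1)) d]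
    simp
  rw [hval] at hsum
  refine hsum.congr fun t => ?_
  have hexp : ContinuousOn (fun y => Real.exp (-(t ^ 2 * nsq G X y) / 2))
      (Metric.closedBall y0 r) :=
    Real.continuous_exp.comp_continuousOn (((continuousOn_const.mul hq).neg).div_const 2)
  have hint : ∀ s ∈ Finset.range (d + 1), Integrable (fun y => t ^ s *
      (Real.exp (-(t ^ 2 * nsq G X y) / 2) * (uc G X s y * dens G y)))
      (volume.restrict (Metric.closedBall y0 r)) := by
    intro s _
    exact (ContinuousOn.integrableOn_compact (isCompact_closedBall y0 r)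
      (hexp.mul (hh s))).const_mul (t ^ s)
  rw [show (∫ y in Metric.closedBall y0 r, UU G X t y * dens G y) =
      ∫ y in Metric.closedBall y0 r, ∑ s ∈ Finset.range (d + 1), t ^ s *
        (Real.exp (-(t ^ 2 * nsq G X y) / 2) * (uc G X s y * dens G y)) by
    refine integral_congr_ae (Filter.Eventually.of_forall fun y => ?_)
    show UU G X t y * dens G y = _
    rw [UU_eq, Finset.mul_sum, Finset.sum_mul]
    exact Finset.sum_congr rfl fun s _ => by ring]
  rw [integral_finset_sum _ hint]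
  exact Finset.sum_congr rfl fun s _ => (integral_const_mul _ _).symm

end H79G
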